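import Pool.Agent.Helper91.Dich.Minor

/-!
XOR programs, vertex covers, constraint languages.
-/

namespace Pool.Agent.Dichotomy

/-- A XOR program on the variables `ι` with gates `g`: every gate `v` carries a set `M v` of
assignments, which is either a set with at most `W` elements, or an affine subspace (or empty),
or a union of sets `M a` and of sumsets `M a + M b` with gates `a`, `b` of smaller rank. -/
def IsProg {ι g : Type*} (rk : g → ℕ) (W : ℕ) (M : g → Set (ι → ZMod 2)) : Prop :=
  ∀ v, ((M v).Finite ∧ (M v).ncard ≤ W) ∨ IsAffine (M v) ∨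
    ∃ (Q : Set g) (P : Set (g × g)), (∀ a ∈ Q, rk a < rk v) ∧
      (∀ p ∈ P, rk p.1 < rk v ∧ rk p.2 < rk v) ∧
      ∀ x, x ∈ M v ↔ (∃ a ∈ Q, x ∈ M a) ∨
        ∃ p ∈ P, ∃ y ∈ M p.1, ∃ z ∈ M p.2, x = y + z

/-- The vertex covers of a graph: the models of the monotone 2-CNF with the clauses
`x u or x v` for the edges `uv`. -/
def VC {V : Type*} (G : SimpleGraph V) : Set (V → ZMod 2) :=
  {x | ∀ u v, G.Adj u v → x u = 1 ∨ x v = 1}

/-- The number of patterns on `X` of a set of assignments. -/
noncomputable def pat {ι : Type*} (X : Finset ι) (S : Set (ι → ZMod 2)) : ℕ :=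
  ((fun (x : ι → ZMod 2) (i : X) => x i) '' S).ncard

/-- The hypothesis of the lower bound: if `F` and `F'` both contain at least `a` elements of `X`,
then there are at least `t` endpoints of edges that neither lie inside `F \ F'` nor inside
`F' \ F`. -/
def Star {V : Type*} (G : SimpleGraph V) (X : Finset V) (a t : ℕ) : Prop :=
  ∀ F F' : Set V, a ≤ (F ∩ X).ncard → a ≤ (F' ∩ X).ncard →
    t ≤ {u | ∃ v, G.Adj u v ∧ ¬ ((u ∈ F ∧ u ∉ F') ∧ (v ∈ F ∧ v ∉ F')) ∧
      ¬ ((u ∈ F' ∧ u ∉ F) ∧ (v ∈ F' ∧ v ∉ F))}.ncard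

/-- A constraint on `n` Boolean variables: a relation and the variables it is applied to. -/
structure Constraint (n : ℕ) where
  /-- number of arguments -/
  arity : ℕ
  /-- the relation -/
  rel : Set (Fin arity → ZMod 2)
  /-- the variables the relation is applied to -/
  scope : Fin arity → Fin n

/-- The solutions of a list of constraints. -/
def Sol {n : ℕ} (I : List (Constraint n)) : Set (Fin n → ZMod 2) :=
  {x | ∀ c ∈ I, (fun i => x (c.scope i)) ∈ c.rel}

/-- A constraint language: a set of relations (of any arities). -/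
abbrev Language := Set (Σ r : ℕ, Set (Fin r → ZMod 2))

/-- All constraints of `I` use relations of `Γ`. -/
def Over {n : ℕ} (Γ : Language) (I : List (Constraint n)) : Prop :=
  ∀ c ∈ I, (⟨c.arity, c.rel⟩ : Σ r : ℕ, Set (Fin r → ZMod 2)) ∈ Γ

end Pool.Agent.Dichotomy
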