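import Pool.Agent.Helper91.Dich.Defs

/-!
An affine set is a product set in a suitable basis.
-/

namespace Pool.Agent.Dichotomy

open Finset Module

theorem affine_basis {n : ℕ} (A : Set (Fin n → ZMod 2)) (hA : IsAffine A) :
    ∃ e : (Fin n → ZMod 2) ≃ₗ[ZMod 2] (Fin n → ZMod 2), A = ∅ ∨
      ∃ (J : Finset (Fin n)) (b : Fin n → ZMod 2), ∀ x, e x ∈ A ↔ ∀ i ∈ J, x i = b i := by
  classical
  rcases A.eq_empty_or_nonempty with h | ⟨a0, ha0⟩
  · exact ⟨LinearEquiv.refl _ _, Or.inl h⟩
  let D : Submodule (ZMod 2) (Fin n → ZMod 2) :=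
    { carrier := {d | a0 + d ∈ A}
      add_mem' := by
        intro d d' hd hd'
        have := hA _ hd _ hd' _ ha0
        have e : a0 + d + (a0 + d') + a0 = a0 + (d + d') + (a0 + a0) := by abel
        rw [e, pi_add_self, add_zero] at this
        exact this
      zero_mem' := by
        show a0 + 0 ∈ A
        rw [add_zero]; exact ha0
      smul_mem' := by
        intro c d hd
        have h01 : ∀ c : ZMod 2, c = 0 ∨ c = 1 := by decide
        rcases h01 c with rfl | rfl
        · show a0 + (0 : ZMod 2) • d ∈ A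
          rw [zero_smul, add_zero]; exact ha0
        · show a0 + (1 : ZMod 2) • d ∈ A
          rw [one_smul]; exact hd }
  have memD : ∀ x, x ∈ D ↔ a0 + x ∈ A := fun _ => Iff.rfl
  obtain ⟨D', hDD'⟩ := Submodule.exists_isCompl D
  have hdim : finrank (ZMod 2) D + finrank (ZMod 2) D' = n := by
    have := Submodule.finrank_add_eq_of_isCompl hDD'
    rw [this]; simp
  let ε : Fin (finrank (ZMod 2) D) ⊕ Fin (finrank (ZMod 2) D') ≃ Fin n :=
    finSumFinEquiv.trans (finCongr hdim)
  let φ := (LinearEquiv.funCongrLeft (ZMod 2) (ZMod 2) ε).trans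
    (LinearEquiv.sumArrowLequivProdArrow (Fin (finrank (ZMod 2) D)) (Fin (finrank (ZMod 2) D'))
      (ZMod 2) (ZMod 2))
  let ψ1 := (finBasis (ZMod 2) D).equivFun.symm
  let ψ2 := (finBasis (ZMod 2) D').equivFun.symm
  let e := (φ.trans (ψ1.prodCongr ψ2)).trans (Submodule.prodEquivOfIsCompl D D' hDD')
  have key : ∀ x, e x ∈ D ↔ ∀ j, x (ε (Sum.inr j)) = 0 := by
    intro x
    rw [← Submodule.prodEquivOfIsCompl_symm_apply_snd_eq_zero D D' hDD']
    have h1 : (Submodule.prodEquivOfIsCompl D D' hDD').symm (e x) = (ψ1.prodCongr ψ2) (φ x) := by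
      simp only [e, LinearEquiv.trans_apply, LinearEquiv.symm_apply_apply]
    rw [h1]
    show ψ2 (φ x).2 = 0 ↔ _
    rw [LinearEquiv.map_eq_zero_iff]
    constructor
    · intro h j; exact congrFun h j
    · intro h; funext j; exact h j
  refine ⟨e, Or.inr ⟨univ.image fun j => ε (Sum.inr j), e.symm a0, fun x => ?_⟩⟩
  have h1 : e x ∈ A ↔ e (x + e.symm a0) ∈ D := by
    rw [memD, map_add, e.apply_symm_apply]
    have : a0 + (e x + a0) = e x + (a0 + a0) := by abel
    rw [this, pi_add_self, add_zero]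
  rw [h1, key]
  have h2 : ∀ a b : ZMod 2, a + b = 0 ↔ a = b := by decide
  constructor
  · intro h i hi
    obtain ⟨j, -, rfl⟩ := mem_image.1 hi
    exact (h2 _ _).1 (h j)
  · intro h j
    exact (h2 _ _).2 (h _ (mem_image.2 ⟨j, mem_univ _, rfl⟩))

/-- In a suitable basis the indicator function of an affine set is a product of functions of one
variable. -/
theorem affine_product {n : ℕ} (A : Set (Fin n → ZMod 2)) (hA : IsAffine A) :
    ∃ e : (Fin n → ZMod 2) ≃ₗ[ZMod 2] (Fin n → ZMod 2), ∀ (K : Type) (_ : Field K)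
      (f : (Fin n → ZMod 2) → K), (∀ x ∈ A, f x = 1) → (∀ x ∉ A, f x = 0) →
        ∃ (κ : K) (a : Fin n → ZMod 2 → K), ∀ x, f (e x) = κ * ∏ i, a i (x i) := by
  classical
  obtain ⟨e, h | ⟨J, b, h⟩⟩ := affine_basis A hA
  · refine ⟨e, fun K _ f _ h0 => ⟨0, fun _ _ => 0, fun x => ?_⟩⟩
    rw [h0 (e x) (by rw [h]; exact Set.notMem_empty _), zero_mul]
  · refine ⟨e, fun K _ f h1 h0 => ⟨1, fun i c => if i ∈ J → c = b i then 1 else 0, fun x => ?_⟩⟩
    rw [one_mul]
    by_cases hx : e x ∈ A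
    · rw [h1 _ hx, Finset.prod_eq_one]
      intro i _
      exact if_pos ((h x).1 hx i)
    · rw [h0 _ hx]
      symm
      rw [h x] at hx
      push Not at hx
      obtain ⟨i, hi, hne⟩ := hx
      apply Finset.prod_eq_zero (mem_univ i)
      exact if_neg fun hcon => hne (hcon hi)

end Pool.Agent.Dichotomy
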