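import Pool.Agent.Helper34.XTW.Entropy

/-!
Anti-concentration of random vertex covers on cosets of linear subspaces.
-/

namespace Pool.Agent.Dichotomy

open Finset Pool.Agent.Helper34.XTW Module

variable {V : Type*} [Fintype V] [DecidableEq V]

/-- A set of coordinates, not more than the dimension, on which the vectors of a subspace are
determined. -/
theorem exists_info (M : Submodule (ZMod 2) (V → ZMod 2)) :
    ∃ F : Finset V, F.card ≤ finrank (ZMod 2) M ∧ ∀ z ∈ M, (∀ i ∈ F, z i = 0) → z = 0 := by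
  classical
  let P : ℕ → Prop := fun k => ∃ F : Finset V, F.card = k ∧
    ∀ z ∈ M, (∀ i ∈ F, z i = 0) → z = 0
  have hP : ∃ k, P k := ⟨_, Finset.univ, rfl, fun z _ h => funext fun i => h i (mem_univ i)⟩
  obtain ⟨F, hF, hinj⟩ := Nat.find_spec hP
  refine ⟨F, ?_, hinj⟩
  have h01 : ∀ a : ZMod 2, a ≠ 1 → a = 0 := by decide
  have hex : ∀ i : F, ∃ z : M, (∀ j ∈ F.erase i, (z : V → ZMod 2) j = 0) ∧
      (z : V → ZMod 2) i = 1 := by
    intro i
    by_contra hcon
    push Not at hcon
    apply Nat.find_min hP (m := (F.erase i).card) (by rw [← hF]; exact card_erase_lt_of_mem i.2)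
    refine ⟨F.erase i, rfl, fun z hz h => ?_⟩
    apply hinj z hz
    intro j hj
    by_cases hji : j = i
    · subst hji
      exact h01 _ (hcon ⟨z, hz⟩ h)
    · exact h j (mem_erase.2 ⟨hji, hj⟩)
  choose z hz0 hz1 using hex
  have hli : LinearIndependent (ZMod 2) z := by
    rw [Fintype.linearIndependent_iff]
    intro g hg i
    have h1 := congrArg (fun w : M => (w : V → ZMod 2) i) hg
    simp only [Submodule.coe_sum, Submodule.coe_smul, Finset.sum_apply, Pi.smul_apply,
      smul_eq_mul, Submodule.coe_zero, Pi.zero_apply] at h1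
    rw [Finset.sum_eq_single i] at h1
    · rw [hz1 i, mul_one] at h1; exact h1
    · intro j _ hji
      rw [hz0 j i (mem_erase.2 ⟨fun h => hji (Subtype.ext h.symm), i.2⟩), mul_zero]
    · intro h; exact absurd (mem_univ i) h
  have := hli.fintype_card_le_finrank
  simpa using this

/-- **Anti-concentration.**  A coset of a subspace of codimension `r` contains at most the fraction
`ρ ^ (r / (D + 1))` of the vertex covers. -/
theorem anticonc (G : SimpleGraph V) (D : ℕ) (hD : ∀ v, (G.neighborSet v).ncard ≤ D)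
    (M : Submodule (ZMod 2) (V → ZMod 2)) (c : V → ZMod 2) :
    (({x | x ∈ VC G ∧ x + c ∈ M} : Set (V → ZMod 2)).ncard : ℝ) ≤
      (2 ^ (D + 1) / (2 ^ (D + 1) + 1)) ^ ((Fintype.card V - finrank (ZMod 2) M) / (D + 1)) *
        (VC G).ncard := by
  classical
  obtain ⟨F, hF, hinj⟩ := exists_info M
  have h1 := entropy G D hD (Finset.univ \ F) (fun _ => 1)
  have h2 : ({x | x ∈ VC G ∧ x + c ∈ M} : Set (V → ZMod 2)).ncard ≤
      ({x ∈ VC G | ∀ i ∈ Finset.univ \ F, x i = 1} : Set (V → ZMod 2)).ncard := by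
    refine Set.ncard_le_ncard_of_injOn (fun x i => if i ∈ F then x i else 1) ?_ ?_
      (Set.toFinite _)
    · intro x hx
      refine ⟨?_, ?_⟩
      · intro u v huv
        rcases hx.1 u v huv with h | h
        · left; simp [h]
        · right; simp [h]
      · intro i hi
        have : i ∉ F := (mem_sdiff.1 hi).2
        simp [this]
    · intro x hx y hy hxy
      have h3 : x - y ∈ M := by
        have := M.sub_mem hx.2 hy.2
        rwa [add_sub_add_right_eq_sub] at this
      have h4 := hinj _ h3 (by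
        intro i hi
        have := congrFun hxy i
        simp only [hi, if_true] at this
        rw [Pi.sub_apply, this, sub_self])
      exact sub_eq_zero.1 h4
  have h3 : (Fintype.card V - finrank (ZMod 2) M) / (D + 1) ≤ (Finset.univ \ F).card / (D + 1) := by
    apply Nat.div_le_div_right
    rw [card_sdiff_of_subset (subset_univ _), card_univ]
    omega
  have hρ0 : (0 : ℝ) ≤ 2 ^ (D + 1) / (2 ^ (D + 1) + 1) := by positivity
  have hρ1 : (2 : ℝ) ^ (D + 1) / (2 ^ (D + 1) + 1) ≤ 1 := by
    rw [div_le_one (by positivity)]; linarith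
  calc (({x | x ∈ VC G ∧ x + c ∈ M} : Set (V → ZMod 2)).ncard : ℝ)
      ≤ (({x ∈ VC G | ∀ i ∈ Finset.univ \ F, x i = 1} : Set (V → ZMod 2)).ncard : ℝ) := by
        exact_mod_cast h2
    _ ≤ _ := h1
    _ ≤ _ := by
        refine mul_le_mul_of_nonneg_right ?_ (Nat.cast_nonneg _)
        exact pow_le_pow_of_le_one hρ0 hρ1 h3

end Pool.Agent.Dichotomy
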