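import Pool.Agent.Helper91.Dich.Det

/-!
The counting part of the rank argument: two applications of the power mean inequality.
-/

namespace Pool.Agent.Dichotomy

open Finset Module

set_option linter.unusedSectionVars false

theorem power_mean_algebra (N a S T : ℝ) (k : ℕ) (ha : 0 ≤ a) (h1 : N ^ 2 ≤ a * S)
    (h2 : S ^ (k + 1) ≤ (a ^ 2) ^ k * T) : N ^ (2 * (k + 1)) ≤ a ^ (3 * k + 1) * T := by
  rw [pow_mul]
  calc (N ^ 2) ^ (k + 1) ≤ (a * S) ^ (k + 1) := pow_le_pow_left₀ (sq_nonneg _) h1 _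
    _ = a ^ (k + 1) * S ^ (k + 1) := mul_pow _ _ _
    _ ≤ a ^ (k + 1) * ((a ^ 2) ^ k * T) := mul_le_mul_of_nonneg_left h2 (by positivity)
    _ = a ^ (3 * k + 1) * T := by
        rw [← mul_assoc, ← pow_mul, ← pow_add]
        congr 2; ring

/-- The power mean inequality for a relation. -/
theorem power_mean {α : Type*} [DecidableEq α] (A : Finset α) (R : α → α → Prop)
    [∀ x y, Decidable (R x y)] (k : ℕ) :
    ((((A ×ˢ A).filter fun p => R p.1 p.2).card : ℝ)) ^ (2 * (k + 1)) ≤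
      (A.card : ℝ) ^ (3 * k + 1) *
        ∑ τ ∈ Fintype.piFinset (fun _ : Fin (k + 1) => A),
          (((A ×ˢ A).filter fun p => ∀ i, R (τ i) p.1 ∧ R (τ i) p.2).card : ℝ) := by
  classical
  let r : α → ℝ := fun x => ((A.filter fun y => R x y).card : ℝ)
  let d : α × α → ℝ := fun p => ((A.filter fun x => R x p.1 ∧ R x p.2).card : ℝ)
  have hd1 : ∀ p, d p = ∑ x ∈ A, ((if R x p.1 then (1 : ℝ) else 0) * if R x p.2 then 1 else 0) := by
    intro p
    show ((A.filter fun x => R x p.1 ∧ R x p.2).card : ℝ) = _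
    rw [card_filter]; push_cast
    refine sum_congr rfl fun x _ => ?_
    by_cases h1 : R x p.1 <;> by_cases h2 : R x p.2 <;> simp [h1, h2]
  have hr1 : ∀ x, r x = ∑ y ∈ A, (if R x y then (1 : ℝ) else 0) := by
    intro x
    show ((A.filter fun y => R x y).card : ℝ) = _
    rw [card_filter]; push_cast; rfl
  have e1 : (((A ×ˢ A).filter fun p => R p.1 p.2).card : ℝ) = ∑ x ∈ A, r x := by
    rw [card_filter, sum_product]
    push_cast
    exact sum_congr rfl fun x _ => (hr1 x).symm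
  have e2 : ∑ p ∈ A ×ˢ A, d p = ∑ x ∈ A, r x ^ 2 := by
    rw [sum_congr rfl fun p _ => hd1 p, sum_comm]
    refine sum_congr rfl fun x _ => ?_
    rw [hr1 x, sq, sum_mul_sum, ← sum_product']
  have e3 : (∑ x ∈ A, r x) ^ 2 ≤ (A.card : ℝ) * ∑ p ∈ A ×ˢ A, d p := by
    rw [e2]
    exact sq_sum_le_card_mul_sum_sq
  have e4 : (∑ p ∈ A ×ˢ A, d p) ^ (k + 1) ≤ ((A.card : ℝ) ^ 2) ^ k *
      ∑ p ∈ A ×ˢ A, d p ^ (k + 1) := by
    have := pow_sum_le_card_mul_sum_pow (s := A ×ˢ A) (f := d) (fun p _ => Nat.cast_nonneg _) k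
    rw [card_product, Nat.cast_mul, ← sq] at this
    exact this
  have hd2 : ∀ p, d p ^ (k + 1) = ∑ τ ∈ Fintype.piFinset (fun _ : Fin (k + 1) => A),
      (if ∀ i, R (τ i) p.1 ∧ R (τ i) p.2 then (1 : ℝ) else 0) := by
    intro p
    have h2 : (A.filter fun x => R x p.1 ∧ R x p.2).card ^ (k + 1) =
        (Fintype.piFinset (fun _ : Fin (k + 1) => A.filter fun x => R x p.1 ∧ R x p.2)).card := by
      rw [Fintype.card_piFinset]; simp
    have h3 : Fintype.piFinset (fun _ : Fin (k + 1) => A.filter fun x => R x p.1 ∧ R x p.2) =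
        (Fintype.piFinset (fun _ : Fin (k + 1) => A)).filter
          fun τ => ∀ i, R (τ i) p.1 ∧ R (τ i) p.2 := by
      ext τ
      simp only [Fintype.mem_piFinset, mem_filter]
      constructor
      · intro h; exact ⟨fun i => (h i).1, fun i => (h i).2⟩
      · intro h i; exact ⟨h.1 i, h.2 i⟩
    show ((A.filter fun x => R x p.1 ∧ R x p.2).card : ℝ) ^ (k + 1) = _
    rw [← Nat.cast_pow, h2, h3, card_filter]
    push_cast
    rfl
  have e5 : ∑ p ∈ A ×ˢ A, d p ^ (k + 1) = ∑ τ ∈ Fintype.piFinset (fun _ : Fin (k + 1) => A),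
          (((A ×ˢ A).filter fun p => ∀ i, R (τ i) p.1 ∧ R (τ i) p.2).card : ℝ) := by
    rw [sum_congr rfl fun p _ => hd2 p, sum_comm]
    refine sum_congr rfl fun τ _ => ?_
    rw [card_filter]; push_cast; rfl
  rw [e1, ← e5]
  exact power_mean_algebra _ _ _ _ k (Nat.cast_nonneg _) e3 e4

end Pool.Agent.Dichotomy
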