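import Pool.Agent.Helper91.Dich.AntiConc

/-!
The deterministic part of the rank argument: in a mixing bipartite graph, the two linear maps
`P` and `Q` with `P + Q = 1` cannot both be almost trivial.
-/

namespace Pool.Agent.Dichotomy

open Finset Module

section general

set_option linter.unusedSectionVars false

variable {V : Type*} [Fintype V] [DecidableEq V]

/-- Vectors that vanish on the outer boundary of the complement of `T` and do not change along the
edges outside `T`. -/
def LT (G : SimpleGraph V) (T : Finset V) : Submodule (ZMod 2) (V → ZMod 2) where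
  carrier := {v | (∀ s t, G.Adj s t → s ∉ T → t ∈ T → v t = 0) ∧
    (∀ s t, G.Adj s t → s ∉ T → t ∉ T → v s = v t)}
  add_mem' := by
    rintro a b ⟨ha, ha'⟩ ⟨hb, hb'⟩
    refine ⟨fun s t h hs ht => ?_, fun s t h hs ht => ?_⟩
    · rw [Pi.add_apply, ha s t h hs ht, hb s t h hs ht, add_zero]
    · rw [Pi.add_apply, Pi.add_apply, ha' s t h hs ht, hb' s t h hs ht]
  zero_mem' := ⟨fun _ _ _ _ _ => rfl, fun _ _ _ _ _ => rfl⟩
  smul_mem' := by
    rintro c a ⟨ha, ha'⟩
    refine ⟨fun s t h hs ht => ?_, fun s t h hs ht => ?_⟩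
    · rw [Pi.smul_apply, ha s t h hs ht, smul_zero]
    · rw [Pi.smul_apply, Pi.smul_apply, ha' s t h hs ht]

theorem mem_LT {G : SimpleGraph V} {T : Finset V} {v : V → ZMod 2} : v ∈ LT G T ↔
    (∀ s t, G.Adj s t → s ∉ T → t ∈ T → v t = 0) ∧
    (∀ s t, G.Adj s t → s ∉ T → t ∉ T → v s = v t) := Iff.rfl

/-- Vectors that vanish on `T`. -/
def ZT (T : Finset V) : Submodule (ZMod 2) (V → ZMod 2) where
  carrier := {v | ∀ s ∈ T, v s = 0}
  add_mem' := by
    intro a b ha hb s hs
    rw [Pi.add_apply, ha s hs, hb s hs, add_zero]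
  zero_mem' := fun _ _ => rfl
  smul_mem' := by
    intro c a ha s hs
    rw [Pi.smul_apply, ha s hs, smul_zero]

theorem mem_ZT {T : Finset V} {v : V → ZMod 2} : v ∈ ZT T ↔ ∀ s ∈ T, v s = 0 := Iff.rfl

/-- The dimension of a space of vectors determined on `F`. -/
theorem finrank_le_of_determined (M : Submodule (ZMod 2) (V → ZMod 2)) (F : Finset V)
    (h : ∀ z ∈ M, (∀ i ∈ F, z i = 0) → z = 0) : finrank (ZMod 2) M ≤ F.card := by
  let f : M →ₗ[ZMod 2] (F → ZMod 2) :=
    { toFun := fun z i => (z : V → ZMod 2) i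
      map_add' := fun _ _ => rfl
      map_smul' := fun _ _ => rfl }
  have hf : Function.Injective f := by
    rw [injective_iff_map_eq_zero]
    intro z hz
    apply Subtype.ext
    exact h z z.2 fun i hi => congrFun hz ⟨i, hi⟩
  have := LinearMap.finrank_le_finrank_of_injective hf
  rwa [Module.finrank_fintype_fun_eq_card, Fintype.card_coe] at this

theorem finrank_le_ker_add_map (f : (V → ZMod 2) →ₗ[ZMod 2] (V → ZMod 2))
    (M : Submodule (ZMod 2) (V → ZMod 2)) :
    finrank (ZMod 2) M ≤ finrank (ZMod 2) (LinearMap.ker f) + finrank (ZMod 2) (M.map f) := by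
  have h1 := LinearMap.finrank_range_add_finrank_ker (f.domRestrict M)
  have h2 : LinearMap.range (f.domRestrict M) = M.map f := LinearMap.range_domRestrict M f
  have h3 : finrank (ZMod 2) (LinearMap.ker (f.domRestrict M)) ≤
      finrank (ZMod 2) (LinearMap.ker f) := by
    let g : LinearMap.ker (f.domRestrict M) →ₗ[ZMod 2] LinearMap.ker f :=
      { toFun := fun z => ⟨z.1.1, z.2⟩
        map_add' := fun _ _ => rfl
        map_smul' := fun _ _ => rfl }
    refine LinearMap.finrank_le_finrank_of_injective (f := g) ?_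
    intro a b hab
    have := congrArg (fun z : LinearMap.ker f => (z : V → ZMod 2)) hab
    exact Subtype.ext (Subtype.ext this)
  rw [h2] at h1
  omega

end general

/-- In a mixing bipartite graph: if `C` is a set of vertices outside `T` without edges to the other
vertices outside `T`, then `C` or its complement is small. -/
theorem mixing_small {m : ℕ} (G : SimpleGraph (Fin m ⊕ Fin m))
    (hmix : ∀ A B : Finset (Fin m), m ≤ 96 * A.card → m ≤ 48 * B.card →
        ∃ i ∈ A, ∃ j ∈ B, G.Adj (Sum.inl i) (Sum.inr j))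
    (S S' : Finset (Fin m ⊕ Fin m)) (h : ∀ s ∈ S, ∀ t ∈ S', ¬ G.Adj s t) :
    96 * S.toLeft.card < m ∨ 48 * S'.toRight.card < m := by
  by_contra hcon
  push Not at hcon
  obtain ⟨i, hi, j, hj, hij⟩ := hmix _ _ hcon.1 hcon.2
  exact h _ (mem_toLeft.1 hi) _ (mem_toRight.1 hj) hij

/-- **The deterministic part.** -/
theorem det_part {m : ℕ} (hm : 48 ≤ m) (G : SimpleGraph (Fin m ⊕ Fin m))
    (hmix : ∀ A B : Finset (Fin m), m ≤ 96 * A.card → m ≤ 48 * B.card →
        ∃ i ∈ A, ∃ j ∈ B, G.Adj (Sum.inl i) (Sum.inr j))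
    (P Q : ((Fin m ⊕ Fin m) → ZMod 2) →ₗ[ZMod 2] ((Fin m ⊕ Fin m) → ZMod 2))
    (hPQ : ∀ z, P z + Q z = z) (hP : m ≤ 2 * finrank (ZMod 2) (LinearMap.range P))
    (hQ : m ≤ 2 * finrank (ZMod 2) (LinearMap.range Q)) (q : ℕ) (hq : 100 * q ≤ m)
    (T : Finset (Fin m ⊕ Fin m))
    (h1 : 2 * m ≤ finrank (ZMod 2) ((ZT T).comap P) + q)
    (h2 : 2 * m ≤ finrank (ZMod 2) ((LT G T).comap Q) + q) : False := by
  classical
  have hcardV : Fintype.card (Fin m ⊕ Fin m) = 2 * m := by
    rw [Fintype.card_sum, Fintype.card_fin]; ring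
  have hfin : finrank (ZMod 2) ((Fin m ⊕ Fin m) → ZMod 2) = 2 * m := by
    rw [Module.finrank_fintype_fun_eq_card, hcardV]
  set A : Finset (Fin m ⊕ Fin m) := univ \ T with hA
  have memA : ∀ s, s ∈ A ↔ s ∉ T := by intro s; simp [hA]
  have hAT : A.card + T.card = 2 * m := by
    have := card_sdiff_add_card_eq_card (subset_univ T)
    rw [card_univ, hcardV] at this
    exact this
  -- step 1
  have s1 : finrank (ZMod 2) (LinearMap.range P) ≤ A.card + q := by
    have e1 := finrank_le_ker_add_map P ((ZT T).comap P)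
    have e2 := LinearMap.finrank_range_add_finrank_ker P
    rw [hfin] at e2
    have e3 : finrank (ZMod 2) (((ZT T).comap P).map P) ≤ A.card := by
      apply finrank_le_of_determined
      intro z hz hzA
      have hz' : z ∈ ZT T := Submodule.map_comap_le P (ZT T) hz
      funext i
      by_cases hi : i ∈ T
      · exact hz' i hi
      · exact hzA i ((memA i).2 hi)
    omega
  -- step 2
  set B : Finset (Fin m ⊕ Fin m) := T.filter fun t => ∃ s, s ∉ T ∧ G.Adj s t with hB
  have hBT : B ⊆ T := filter_subset _ _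
  have s2 : B.card ≤ 2 * q := by
    have e1 := Submodule.finrank_sup_add_finrank_inf_eq ((ZT T).comap P) ((LT G T).comap Q)
    have e2 : finrank (ZMod 2) (((ZT T).comap P ⊔ (LT G T).comap Q : Submodule _ _)) ≤ 2 * m := by
      rw [← hfin]; exact Submodule.finrank_le _
    have e3 : finrank (ZMod 2) (((ZT T).comap P ⊓ (LT G T).comap Q : Submodule _ _)) ≤
        (univ \ B).card := by
      apply finrank_le_of_determined
      rintro z ⟨hz1, hz2⟩ hz3
      funext i
      by_cases hi : i ∈ B
      · rw [← hPQ z, Pi.add_apply]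
        obtain ⟨hiT, s, hs, hadj⟩ := mem_filter.1 hi
        have a1 : P z i = 0 := hz1 i hiT
        have a2 : Q z i = 0 := hz2.1 s i hadj hs hiT
        rw [a1, a2]; rfl
      · exact hz3 i (by simp [hi])
    have e4 := card_sdiff_add_card_eq_card (subset_univ B)
    rw [card_univ, hcardV] at e4
    omega
  -- splitting
  have sp : ∀ S : Finset (Fin m ⊕ Fin m), S.toLeft.card + S.toRight.card = S.card :=
    fun S => card_toLeft_add_card_toRight
  have compL : A.toLeft.card + T.toLeft.card = m := by
    have e1 : A.toLeft = univ \ T.toLeft := by ext i; simp [hA]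
    have e2 := card_sdiff_add_card_eq_card (subset_univ T.toLeft)
    rw [card_univ, Fintype.card_fin] at e2
    rw [e1]; exact e2
  have compR : A.toRight.card + T.toRight.card = m := by
    have e1 : A.toRight = univ \ T.toRight := by ext i; simp [hA]
    have e2 := card_sdiff_add_card_eq_card (subset_univ T.toRight)
    rw [card_univ, Fintype.card_fin] at e2
    rw [e1]; exact e2
  have hnoAT : ∀ s ∈ A, ∀ t ∈ T \ B, ¬ G.Adj s t := by
    intro s hs t ht hadj
    obtain ⟨htT, htB⟩ := mem_sdiff.1 ht
    exact htB (mem_filter.2 ⟨htT, s, (memA s).1 hs, hadj⟩)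
  have r1 := mixing_small G hmix A (T \ B) hnoAT
  have r2 := mixing_small G hmix (T \ B) A (fun s hs t ht h => hnoAT t ht s hs h.symm)
  have l1 : T.toLeft.card ≤ (T \ B).toLeft.card + B.toLeft.card := by
    rw [toLeft_sdiff]
    have := le_card_sdiff B.toLeft T.toLeft
    omega
  have l2 : T.toRight.card ≤ (T \ B).toRight.card + B.toRight.card := by
    rw [toRight_sdiff]
    have := le_card_sdiff B.toRight T.toRight
    omega
  have spA := sp A
  have spB := sp B
  have spT := sp T
  have hTL : 96 * T.toLeft.card < m + 96 * B.toLeft.card := by omega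
  have hTR : 48 * T.toRight.card < m + 48 * B.toRight.card := by omega
  -- step 4: closed sets
  let Closed : Finset (Fin m ⊕ Fin m) → Prop := fun C => C ⊆ A ∧ ∀ s ∈ C, ∀ t ∈ A \ C, ¬ G.Adj s t
  have s4 : ∀ C, Closed C → 32 * C.card < m ∨ 32 * (A \ C).card < m := by
    intro C hC
    have c1 := mixing_small G hmix C (A \ C) hC.2
    have c2 := mixing_small G hmix (A \ C) C (fun s hs t ht h => hC.2 t ht s hs h.symm)
    have d1 : (A \ C).toLeft.card + C.toLeft.card = A.toLeft.card := by
      rw [toLeft_sdiff]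
      exact card_sdiff_add_card_eq_card (toLeft_subset_toLeft hC.1)
    have d2 : (A \ C).toRight.card + C.toRight.card = A.toRight.card := by
      rw [toRight_sdiff]
      exact card_sdiff_add_card_eq_card (toRight_subset_toRight hC.1)
    have d3 := sp C
    have d4 := sp (A \ C)
    omega
  -- step 5: the largest small closed set
  obtain ⟨C0, hC0c, hC0s, hC0max⟩ : ∃ C0, Closed C0 ∧ 32 * C0.card < m ∧
      ∀ C, Closed C → 32 * C.card < m → C.card ≤ C0.card := by
    obtain ⟨F, hF⟩ : ∃ F : Finset (Finset (Fin m ⊕ Fin m)), ∀ C, C ∈ F ↔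
        Closed C ∧ 32 * C.card < m :=
      ⟨univ.filter fun C => Closed C ∧ 32 * C.card < m, by intro C; simp⟩
    have hne : F.Nonempty := ⟨∅, (hF _).2 ⟨⟨empty_subset _, by simp⟩, by simp; omega⟩⟩
    obtain ⟨C0, hC0, hmax⟩ := exists_max_image F card hne
    exact ⟨C0, ((hF _).1 hC0).1, ((hF _).1 hC0).2, fun C h h' => hmax C ((hF _).2 ⟨h, h'⟩)⟩
  have s5 : ∀ C, Closed C → 32 * C.card < m → C ⊆ C0 := by
    intro C hC hCs
    have hU : Closed (C ∪ C0) := by
      refine ⟨union_subset hC.1 hC0c.1, ?_⟩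
      intro s hs t ht
      rw [mem_sdiff, mem_union, not_or] at ht
      rcases mem_union.1 hs with h | h
      · exact hC.2 s h t (mem_sdiff.2 ⟨ht.1, ht.2.1⟩)
      · exact hC0c.2 s h t (mem_sdiff.2 ⟨ht.1, ht.2.2⟩)
    have hUc := card_union_le C C0
    have hUs : 32 * (C ∪ C0).card < m := by
      rcases s4 _ hU with h | h
      · exact h
      · exfalso
        have := card_sdiff_add_card_eq_card hU.1
        omega
    have h3 := hC0max _ hU hUs
    have h4 : C0 = C ∪ C0 := eq_of_subset_of_card_le subset_union_right h3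
    rw [h4]; exact subset_union_left
  -- step 6
  have hA0 : (A \ C0).Nonempty := by
    rw [← card_pos]
    have := card_sdiff_add_card_eq_card hC0c.1
    omega
  obtain ⟨s0, hs0⟩ := hA0
  have s6 : finrank (ZMod 2) (LT G T) ≤ (insert s0 (T ∪ C0)).card := by
    apply finrank_le_of_determined
    intro v hv hv0
    have hcl : ∀ c : ZMod 2, Closed (A.filter fun s => v s = c) := by
      intro c
      refine ⟨filter_subset _ _, ?_⟩
      intro s hs t ht hadj
      obtain ⟨hsA, hsc⟩ := mem_filter.1 hs
      obtain ⟨htA, htc⟩ := mem_sdiff.1 ht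
      apply htc
      rw [mem_filter]
      refine ⟨htA, ?_⟩
      rw [← hsc]
      exact (hv.2 s t hadj ((memA s).1 hsA) ((memA t).1 htA)).symm
    have hs00 : v s0 = 0 := hv0 s0 (mem_insert_self _ _)
    have key : (A.filter fun s => v s = 1) ⊆ C0 := by
      rcases s4 _ (hcl 1) with h | h
      · exact s5 _ (hcl 1) h
      · exfalso
        have h01 : ∀ a : ZMod 2, ¬ a = 1 ↔ a = 0 := by decide
        have e1 : A \ (A.filter fun s => v s = 1) = A.filter fun s => v s = 0 := by
          ext s
          simp only [mem_sdiff, mem_filter, not_and]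
          constructor
          · rintro ⟨a, b⟩; exact ⟨a, (h01 _).1 (b a)⟩
          · rintro ⟨a, b⟩; exact ⟨a, fun _ => (h01 _).2 b⟩
        rw [e1] at h
        have := s5 _ (hcl 0) h
        exact (mem_sdiff.1 hs0).2 (this (mem_filter.2 ⟨(mem_sdiff.1 hs0).1, hs00⟩))
    funext i
    have h01 : ∀ a : ZMod 2, a ≠ 0 → a = 1 := by decide
    by_cases hiT : i ∈ T
    · exact hv0 i (mem_insert_of_mem (mem_union_left _ hiT))
    · by_contra hne
      have hi1 : v i = 1 := h01 _ hne
      have := key (mem_filter.2 ⟨(memA i).2 hiT, hi1⟩)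
      exact hne (hv0 i (mem_insert_of_mem (mem_union_right _ this)))
  have s6' : (insert s0 (T ∪ C0)).card ≤ T.card + C0.card + 1 :=
    (card_insert_le _ _).trans (Nat.succ_le_succ (card_union_le _ _))
  -- step 7
  have s7 : finrank (ZMod 2) (LinearMap.range Q) ≤ q + finrank (ZMod 2) (LT G T) := by
    have e1 := finrank_le_ker_add_map Q ((LT G T).comap Q)
    have e2 := LinearMap.finrank_range_add_finrank_ker Q
    rw [hfin] at e2
    have e3 : finrank (ZMod 2) (((LT G T).comap Q).map Q) ≤ finrank (ZMod 2) (LT G T) :=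
      Submodule.finrank_mono (Submodule.map_comap_le _ _)
    omega
  omega

end Pool.Agent.Dichotomy
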