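import Pool.Agent.Helper91.Dich.Defs

/-!
Bipartite graphs of bounded degree in which every two large sets on different sides are joined.
-/

namespace Pool.Agent.Dichotomy

open Finset

theorem num1 : ((95 : ℝ) / 96) ^ 133 < 1 / 4 := by norm_num

theorem card_avoid (m D : ℕ) (A B : Finset (Fin m)) :
    (Finset.univ.filter fun f : Fin D → Fin m → Fin m => ∀ d, ∀ i ∈ A, f d i ∉ B).card =
      ((m - B.card) ^ A.card * m ^ (m - A.card)) ^ D := by
  classical
  have h1 : (Finset.univ.filter fun f : Fin D → Fin m → Fin m => ∀ d, ∀ i ∈ A, f d i ∉ B) =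
      Fintype.piFinset fun _ : Fin D => Fintype.piFinset fun i : Fin m =>
        if i ∈ A then Finset.univ \ B else Finset.univ := by
    ext f
    simp only [Finset.mem_filter, Finset.mem_univ, true_and, Fintype.mem_piFinset]
    constructor
    · intro h d i
      by_cases hi : i ∈ A
      · rw [if_pos hi]; simp [h d i hi]
      · rw [if_neg hi]; exact Finset.mem_univ _
    · intro h d i hi
      have := h d i
      rw [if_pos hi] at this
      exact (Finset.mem_sdiff.1 this).2
  rw [h1, Fintype.card_piFinset]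
  simp only [Fintype.card_piFinset, Finset.prod_const, Finset.card_univ, Fintype.card_fin]
  congr 1
  have h2 : ∀ i : Fin m, (if i ∈ A then Finset.univ \ B else (Finset.univ : Finset (Fin m))).card
      = if i ∈ A then m - B.card else m := by
    intro i
    by_cases hi : i ∈ A
    · rw [if_pos hi, if_pos hi, Finset.card_sdiff_of_subset (Finset.subset_univ _),
        Finset.card_univ, Fintype.card_fin]
    · rw [if_neg hi, if_neg hi, Finset.card_univ, Fintype.card_fin]
  simp only [h2]
  rw [Finset.prod_ite, Finset.prod_const, Finset.prod_const]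
  congr 2
  · congr 1; ext i; simp
  · have : (Finset.univ.filter fun i : Fin m => i ∉ A) = Finset.univ \ A := by
      ext i; simp
    rw [this, Finset.card_sdiff_of_subset (Finset.subset_univ _), Finset.card_univ,
      Fintype.card_fin]

theorem avoid_bound {DD : ℕ} (hDD : DD = 12768) (m : ℕ) (hm : 1 ≤ m) (A B : Finset (Fin m)) (hA : m ≤ 96 * A.card)
    (hB : m ≤ 96 * B.card) :
    (4 : ℝ) ^ m * ((((m - B.card) ^ A.card * m ^ (m - A.card)) ^ DD : ℕ) : ℝ) <
      ((m ^ m) ^ DD : ℕ) := by
  have hAm : A.card ≤ m := by simpa using Finset.card_le_univ A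
  have hBm : B.card ≤ m := by simpa using Finset.card_le_univ B
  have hmr : (0 : ℝ) < m := by exact_mod_cast hm
  have h1 : ((m - B.card : ℕ) : ℝ) ≤ 95 / 96 * m := by
    rw [Nat.cast_sub hBm]
    have : (m : ℝ) ≤ 96 * B.card := by exact_mod_cast hB
    linarith
  have h2 : ((((m - B.card) ^ A.card * m ^ (m - A.card)) ^ DD : ℕ) : ℝ) ≤
      (((95 : ℝ) / 96) ^ A.card * (m : ℝ) ^ m) ^ DD := by
    push_cast
    apply pow_le_pow_left₀ (by positivity)
    calc ((m - B.card : ℕ) : ℝ) ^ A.card * (m : ℝ) ^ (m - A.card)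
        ≤ (95 / 96 * m) ^ A.card * (m : ℝ) ^ (m - A.card) := by
          gcongr
      _ = (95 / 96) ^ A.card * (m : ℝ) ^ m := by
          rw [mul_pow, mul_assoc, ← pow_add, Nat.add_sub_cancel' hAm]
  have h3 : (((95 : ℝ) / 96) ^ A.card) ^ DD ≤ (((95 : ℝ) / 96) ^ 133) ^ m := by
    rw [← pow_mul, ← pow_mul]
    apply pow_le_pow_of_le_one (by norm_num) (by norm_num)
    subst hDD; omega
  have h4 : (((95 : ℝ) / 96) ^ 133) ^ m < (1 / 4) ^ m := by
    apply pow_lt_pow_left₀ num1 (by positivity) (by omega)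
  have h5 : (4 : ℝ) ^ m * (1 / 4) ^ m = 1 := by
    rw [← mul_pow]; norm_num
  have h6 : (0 : ℝ) < ((m : ℝ) ^ m) ^ DD := by positivity
  calc (4 : ℝ) ^ m * ((((m - B.card) ^ A.card * m ^ (m - A.card)) ^ DD : ℕ) : ℝ)
      ≤ 4 ^ m * (((95 : ℝ) / 96) ^ A.card * (m : ℝ) ^ m) ^ DD := by gcongr
    _ = 4 ^ m * (((95 : ℝ) / 96) ^ A.card) ^ DD * ((m : ℝ) ^ m) ^ DD := by
        rw [mul_pow]; ring
    _ ≤ 4 ^ m * (((95 : ℝ) / 96) ^ 133) ^ m * ((m : ℝ) ^ m) ^ DD := by gcongr
    _ < 4 ^ m * (1 / 4) ^ m * ((m : ℝ) ^ m) ^ DD := by gcongr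
    _ = ((m ^ m) ^ DD : ℕ) := by rw [h5, one_mul]; push_cast; rfl

theorem exists_mixing {DD : ℕ} (hDD : DD = 12768) (m : ℕ) (hm : 1 ≤ m) : ∃ f : Fin DD → Fin m → Fin m,
    ∀ A B : Finset (Fin m), m ≤ 96 * A.card → m ≤ 96 * B.card →
      ∃ d, ∃ i ∈ A, f d i ∈ B := by
  classical
  by_contra hcon
  push Not at hcon
  have hcov : (Finset.univ : Finset (Fin DD → Fin m → Fin m)) ⊆
      ((Finset.univ : Finset (Finset (Fin m) × Finset (Fin m))).filter fun p =>
        m ≤ 96 * p.1.card ∧ m ≤ 96 * p.2.card).biUnion fun p =>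
        Finset.univ.filter fun f : Fin DD → Fin m → Fin m => ∀ d, ∀ i ∈ p.1, f d i ∉ p.2 := by
    intro f _
    obtain ⟨A, B, hA, hB, h⟩ := hcon f
    rw [Finset.mem_biUnion]
    exact ⟨(A, B), Finset.mem_filter.2 ⟨Finset.mem_univ _, hA, hB⟩,
      Finset.mem_filter.2 ⟨Finset.mem_univ _, h⟩⟩
  have h1 := (Finset.card_le_card hcov).trans Finset.card_biUnion_le
  have hcardf : (Finset.univ : Finset (Fin DD → Fin m → Fin m)).card = (m ^ m) ^ DD := by
    rw [Finset.card_univ, Fintype.card_fun, Fintype.card_fun, Fintype.card_fin, Fintype.card_fin]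
  rw [hcardf] at h1
  set P := (Finset.univ : Finset (Finset (Fin m) × Finset (Fin m))).filter fun p =>
        m ≤ 96 * p.1.card ∧ m ≤ 96 * p.2.card with hP
  have hPc : (P.card : ℝ) ≤ 4 ^ m := by
    have : P.card ≤ 4 ^ m := by
      refine (Finset.card_filter_le _ _).trans ?_
      rw [Finset.card_univ, Fintype.card_prod, Fintype.card_finset, Fintype.card_fin,
        ← mul_pow]
      norm_num
    exact_mod_cast this
  have hTpos : (0 : ℝ) < ((m ^ m) ^ DD : ℕ) := by
    have : 0 < (m ^ m) ^ DD := by positivity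
    exact_mod_cast this
  have h2 : (((m ^ m) ^ DD : ℕ) : ℝ) ≤ ∑ p ∈ P,
      ((Finset.univ.filter fun f : Fin DD → Fin m → Fin m => ∀ d, ∀ i ∈ p.1, f d i ∉ p.2).card
        : ℝ) := by
    exact_mod_cast h1
  have h3 : ∑ p ∈ P,
      ((Finset.univ.filter fun f : Fin DD → Fin m → Fin m => ∀ d, ∀ i ∈ p.1, f d i ∉ p.2).card
        : ℝ) < (((m ^ m) ^ DD : ℕ) : ℝ) := by
    rcases P.eq_empty_or_nonempty with hemp | hne
    · rw [hemp, Finset.sum_empty]; exact hTpos
    · have hb : ∀ p ∈ P, ((Finset.univ.filter fun f : Fin DD → Fin m → Fin m =>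
          ∀ d, ∀ i ∈ p.1, f d i ∉ p.2).card : ℝ) < (((m ^ m) ^ DD : ℕ) : ℝ) / 4 ^ m := by
        intro p hp
        rw [hP, Finset.mem_filter] at hp
        rw [card_avoid, lt_div_iff₀ (by positivity), mul_comm]
        exact avoid_bound hDD m hm p.1 p.2 hp.2.1 hp.2.2
      calc _ < ∑ _p ∈ P, (((m ^ m) ^ DD : ℕ) : ℝ) / 4 ^ m := Finset.sum_lt_sum_of_nonempty hne hb
        _ = P.card * ((((m ^ m) ^ DD : ℕ) : ℝ) / 4 ^ m) := by
            rw [Finset.sum_const, nsmul_eq_mul]
        _ ≤ 4 ^ m * ((((m ^ m) ^ DD : ℕ) : ℝ) / 4 ^ m) := by gcongr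
        _ = _ := by field_simp
  linarith

/-- Bipartite graphs with bounded degrees in which every two large sets on different sides are
joined by an edge. -/
theorem exists_bipartite {DD : ℕ} (hDD : DD = 12768) (m : ℕ) (hm : 1 ≤ m) :
    ∃ (G : SimpleGraph (Fin m ⊕ Fin m)) (E : Finset ((Fin m ⊕ Fin m) × (Fin m ⊕ Fin m))),
      (∀ p ∈ E, G.Adj p.1 p.2) ∧ (∀ u v, G.Adj u v → (u, v) ∈ E ∨ (v, u) ∈ E) ∧
      (∀ p ∈ E, p.1.isLeft = true ∧ p.2.isLeft = false) ∧
      E.card ≤ DD * m ∧ (∀ v, (G.neighborSet v).ncard ≤ 96 * DD) ∧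
      (∀ A B : Finset (Fin m), m ≤ 96 * A.card → m ≤ 48 * B.card →
        ∃ i ∈ A, ∃ j ∈ B, G.Adj (Sum.inl i) (Sum.inr j)) := by
  classical
  obtain ⟨f, hf⟩ := exists_mixing hDD m hm
  let deg : Fin m → ℕ := fun j => (Finset.univ.filter fun q : Fin DD × Fin m => f q.1 q.2 = j).card
  let bad : Finset (Fin m) := Finset.univ.filter fun j => 96 * DD < deg j
  let E : Finset ((Fin m ⊕ Fin m) × (Fin m ⊕ Fin m)) :=
    ((Finset.univ : Finset (Fin DD × Fin m)).filter fun q => f q.1 q.2 ∉ bad).image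
      fun q => (Sum.inl q.2, Sum.inr (f q.1 q.2))
  have memE : ∀ u v, (u, v) ∈ E ↔ ∃ d i, f d i ∉ bad ∧ u = Sum.inl i ∧ v = Sum.inr (f d i) := by
    intro u v
    simp only [E, Finset.mem_image, Finset.mem_filter, Finset.mem_univ, true_and, Prod.mk.injEq,
      Prod.exists]
    constructor
    · rintro ⟨d, i, h, rfl, rfl⟩; exact ⟨d, i, h, rfl, rfl⟩
    · rintro ⟨d, i, h, rfl, rfl⟩; exact ⟨d, i, h, rfl, rfl⟩
  let G : SimpleGraph (Fin m ⊕ Fin m) :=
    { Adj := fun u v => (u, v) ∈ E ∨ (v, u) ∈ E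
      symm := ⟨fun u v h => h.symm⟩
      loopless := ⟨by
        intro u h
        have : (u, u) ∈ E := by rcases h with h | h <;> exact h
        obtain ⟨d, i, -, h1, h2⟩ := (memE u u).1 this
        rw [h1] at h2; exact absurd h2 (by simp)⟩ }
  refine ⟨G, E, fun p hp => Or.inl hp, fun u v h => h, ?_, ?_, ?_, ?_⟩
  · rintro ⟨u, v⟩ hp
    obtain ⟨d, i, -, rfl, rfl⟩ := (memE u v).1 hp
    exact ⟨rfl, rfl⟩
  · refine Finset.card_image_le.trans ((Finset.card_filter_le _ _).trans ?_)
    rw [Finset.card_univ, Fintype.card_prod, Fintype.card_fin, Fintype.card_fin]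
  · rintro (i | j)
    · have hsub : G.neighborSet (Sum.inl i) ⊆
          ((Finset.univ.image fun d : Fin DD => (Sum.inr (f d i) : Fin m ⊕ Fin m) :
            Finset (Fin m ⊕ Fin m)) : Set (Fin m ⊕ Fin m)) := by
        intro v hv
        rw [Finset.mem_coe, Finset.mem_image]
        rcases hv with h | h
        · obtain ⟨d, i', -, h1, h2⟩ := (memE _ _).1 h
          have : i = i' := by simpa using h1
          subst this
          exact ⟨d, Finset.mem_univ _, h2.symm⟩
        · obtain ⟨d, i', -, -, h2⟩ := (memE _ _).1 h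
          exact absurd h2 (by simp)
      refine (Set.ncard_le_ncard hsub (Finset.finite_toSet _)).trans ?_
      rw [Set.ncard_coe_finset]
      refine Finset.card_image_le.trans ?_
      rw [Finset.card_univ, Fintype.card_fin]; omega
    · by_cases hj : j ∈ bad
      · have : G.neighborSet (Sum.inr j) = ∅ := by
          ext v
          simp only [SimpleGraph.mem_neighborSet, Set.mem_empty_iff_false, iff_false]
          rintro (h | h)
          · obtain ⟨d, i', -, h1, -⟩ := (memE _ _).1 h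
            exact absurd h1 (by simp)
          · obtain ⟨d, i', h0, -, h2⟩ := (memE _ _).1 h
            have : j = f d i' := by simpa using h2
            exact h0 (this ▸ hj)
        rw [this]; simp
      · have hdeg : deg j ≤ 96 * DD := by
          by_contra h
          push Not at h
          exact hj (Finset.mem_filter.2 ⟨Finset.mem_univ _, h⟩)
        have hsub : G.neighborSet (Sum.inr j) ⊆
            (((Finset.univ.filter fun q : Fin DD × Fin m => f q.1 q.2 = j).image
              fun q => (Sum.inl q.2 : Fin m ⊕ Fin m) : Finset (Fin m ⊕ Fin m)) :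
                Set (Fin m ⊕ Fin m)) := by
          intro v hv
          rw [Finset.mem_coe, Finset.mem_image]
          rcases hv with h | h
          · obtain ⟨d, i', -, h1, -⟩ := (memE _ _).1 h
            exact absurd h1 (by simp)
          · obtain ⟨d, i', -, h1, h2⟩ := (memE _ _).1 h
            have : j = f d i' := by simpa using h2
            exact ⟨(d, i'), Finset.mem_filter.2 ⟨Finset.mem_univ _, this.symm⟩, h1.symm⟩
        refine (Set.ncard_le_ncard hsub (Finset.finite_toSet _)).trans ?_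
        rw [Set.ncard_coe_finset]
        exact Finset.card_image_le.trans hdeg
  · intro A B hA hB
    -- few bad vertices
    have hbad : 96 * bad.card ≤ m := by
      have h1 : ∑ j ∈ bad, deg j ≤ DD * m := by
        have h2 : ∑ j, deg j = DD * m := by
          have := Finset.card_eq_sum_card_fiberwise (s := (Finset.univ : Finset (Fin DD × Fin m)))
            (t := (Finset.univ : Finset (Fin m))) (f := fun q => f q.1 q.2)
            (fun q _ => Finset.mem_univ _)
          rw [Finset.card_univ, Fintype.card_prod, Fintype.card_fin, Fintype.card_fin] at this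
          exact this.symm
        rw [← h2]
        exact Finset.sum_le_sum_of_subset (Finset.subset_univ _)
      have h3 : bad.card * (96 * DD) ≤ ∑ j ∈ bad, deg j := by
        rw [← smul_eq_mul, ← Finset.sum_const]
        refine Finset.sum_le_sum fun j hj => ?_
        exact (Finset.mem_filter.1 hj).2.le
      have h4 : DD * (96 * bad.card) ≤ DD * m := by
        calc DD * (96 * bad.card) = bad.card * (96 * DD) := by ring
          _ ≤ _ := h3.trans h1
      exact Nat.le_of_mul_le_mul_left h4 (by omega)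
    have hB' : m ≤ 96 * (B \ bad).card := by
      have := Finset.le_card_sdiff bad B
      omega
    obtain ⟨d, i, hi, hfi⟩ := hf A (B \ bad) hA hB'
    obtain ⟨h1, h2⟩ := Finset.mem_sdiff.1 hfi
    exact ⟨i, hi, f d i, h1, Or.inl ((memE _ _).2 ⟨d, i, h2, rfl, rfl⟩)⟩

/-- The expansion hypothesis for these graphs. -/
theorem star_of_mixing (m : ℕ) (hm : 48 ≤ m) (G : SimpleGraph (Fin m ⊕ Fin m))
    (hmix : ∀ A B : Finset (Fin m), m ≤ 96 * A.card → m ≤ 48 * B.card →
        ∃ i ∈ A, ∃ j ∈ B, G.Adj (Sum.inl i) (Sum.inr j)) :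
    Star G Finset.univ (m / 6) (m / 12) := by
  classical
  intro F F' hF hF'
  by_contra hcon
  set S : Set (Fin m ⊕ Fin m) := {u | ∃ v, G.Adj u v ∧ ¬ ((u ∈ F ∧ u ∉ F') ∧ (v ∈ F ∧ v ∉ F')) ∧
      ¬ ((u ∈ F' ∧ u ∉ F) ∧ (v ∈ F' ∧ v ∉ F))} with hS
  have hSlt : S.ncard < m / 12 := lt_of_not_ge hcon
  have h96 : ∀ x : ℕ, m ≤ 48 * x → m ≤ 96 * x := by intro x hx; omega
  have good : ∀ u v, G.Adj u v → u ∉ S → ((u ∈ F ∧ u ∉ F') ∧ (v ∈ F ∧ v ∉ F')) ∨
      ((u ∈ F' ∧ u ∉ F) ∧ (v ∈ F' ∧ v ∉ F)) := by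
    intro u v huv hu
    by_contra h
    push Not at h
    exact hu ⟨v, huv, fun h' => absurd h'.2.2 (fun h'' => h'' (h.1 h'.1 h'.2.1)),
      fun h' => absurd h'.2.2 (fun h'' => h'' (h.2 h'.1 h'.2.1))⟩
  have hcoe : ∀ F : Set (Fin m ⊕ Fin m), (F ∩ ((Finset.univ : Finset (Fin m ⊕ Fin m)) :
      Set (Fin m ⊕ Fin m))).ncard = F.ncard := by
    intro F; rw [Finset.coe_univ, Set.inter_univ]
  rw [hcoe] at hF hF'
  -- splitting into the two sides
  have split : ∀ F : Set (Fin m ⊕ Fin m), m / 6 ≤ F.ncard →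
      m ≤ 48 * (Finset.univ.filter fun i : Fin m => Sum.inl i ∈ F ∧ Sum.inl i ∉ S).card ∨
      m ≤ 48 * (Finset.univ.filter fun j : Fin m => Sum.inr j ∈ F ∧ Sum.inr j ∉ S).card := by
    intro F hF
    by_contra h
    push Not at h
    have hsub : F ⊆ S ∪ (((Finset.univ.filter fun i : Fin m => Sum.inl i ∈ F ∧ Sum.inl i ∉ S).image
        (fun i => (Sum.inl i : Fin m ⊕ Fin m)) ∪
        (Finset.univ.filter fun j : Fin m => Sum.inr j ∈ F ∧ Sum.inr j ∉ S).image
        (fun i => (Sum.inr i : Fin m ⊕ Fin m)) : Finset (Fin m ⊕ Fin m)) :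
          Set (Fin m ⊕ Fin m)) := by
      intro u hu
      by_cases huS : u ∈ S
      · exact Or.inl huS
      · right
        rw [Finset.mem_coe, Finset.mem_union]
        rcases u with i | j
        · left; exact Finset.mem_image.2 ⟨i, Finset.mem_filter.2 ⟨Finset.mem_univ _, hu, huS⟩, rfl⟩
        · right; exact Finset.mem_image.2 ⟨j, Finset.mem_filter.2 ⟨Finset.mem_univ _, hu, huS⟩, rfl⟩
    have h1 := (Set.ncard_le_ncard hsub (Set.toFinite _)).trans (Set.ncard_union_le _ _)
    rw [Set.ncard_coe_finset] at h1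
    have h2 := Finset.card_union_le ((Finset.univ.filter fun i : Fin m => Sum.inl i ∈ F ∧
        Sum.inl i ∉ S).image (fun i => (Sum.inl i : Fin m ⊕ Fin m)))
        ((Finset.univ.filter fun j : Fin m => Sum.inr j ∈ F ∧ Sum.inr j ∉ S).image
        (fun i => (Sum.inr i : Fin m ⊕ Fin m)))
    have h3 := Finset.card_image_le (s := Finset.univ.filter fun i : Fin m => Sum.inl i ∈ F ∧
        Sum.inl i ∉ S) (f := fun i => (Sum.inl i : Fin m ⊕ Fin m))
    have h4 := Finset.card_image_le (s := Finset.univ.filter fun j : Fin m => Sum.inr j ∈ F ∧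
        Sum.inr j ∉ S) (f := fun i => (Sum.inr i : Fin m ⊕ Fin m))
    omega
  -- the sides outside S are large
  have sideL : m ≤ (Finset.univ.filter fun i : Fin m => (Sum.inl i : Fin m ⊕ Fin m) ∉ S).card
      + S.ncard := by
    have h1 : (Finset.univ : Finset (Fin m)).card = (Finset.univ.filter fun i : Fin m =>
        (Sum.inl i : Fin m ⊕ Fin m) ∈ S).card + (Finset.univ.filter fun i : Fin m =>
        (Sum.inl i : Fin m ⊕ Fin m) ∉ S).card :=
      (Finset.card_filter_add_card_filter_not _).symm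
    have h2 : (Finset.univ.filter fun i : Fin m => (Sum.inl i : Fin m ⊕ Fin m) ∈ S).card ≤
        S.ncard := by
      rw [← Finset.card_image_of_injective _ (Sum.inl_injective (α := Fin m) (β := Fin m)),
        ← Set.ncard_coe_finset]
      refine Set.ncard_le_ncard ?_ (Set.toFinite _)
      intro u hu
      rw [Finset.mem_coe, Finset.mem_image] at hu
      obtain ⟨i, hi, rfl⟩ := hu
      exact (Finset.mem_filter.1 hi).2
    rw [Finset.card_univ, Fintype.card_fin] at h1
    omega
  have sideR : m ≤ (Finset.univ.filter fun i : Fin m => (Sum.inr i : Fin m ⊕ Fin m) ∉ S).card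
      + S.ncard := by
    have h1 : (Finset.univ : Finset (Fin m)).card = (Finset.univ.filter fun i : Fin m =>
        (Sum.inr i : Fin m ⊕ Fin m) ∈ S).card + (Finset.univ.filter fun i : Fin m =>
        (Sum.inr i : Fin m ⊕ Fin m) ∉ S).card :=
      (Finset.card_filter_add_card_filter_not _).symm
    have h2 : (Finset.univ.filter fun i : Fin m => (Sum.inr i : Fin m ⊕ Fin m) ∈ S).card ≤
        S.ncard := by
      rw [← Finset.card_image_of_injective _ (Sum.inr_injective (α := Fin m) (β := Fin m)),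
        ← Set.ncard_coe_finset]
      refine Set.ncard_le_ncard ?_ (Set.toFinite _)
      intro u hu
      rw [Finset.mem_coe, Finset.mem_image] at hu
      obtain ⟨i, hi, rfl⟩ := hu
      exact (Finset.mem_filter.1 hi).2
    rw [Finset.card_univ, Fintype.card_fin] at h1
    omega
  have hsplitL : (Finset.univ.filter fun i : Fin m => (Sum.inl i : Fin m ⊕ Fin m) ∉ S).card ≤
      (Finset.univ.filter fun i : Fin m => Sum.inl i ∈ F ∧ Sum.inl i ∉ S).card +
      (Finset.univ.filter fun i : Fin m => Sum.inl i ∉ F ∧ Sum.inl i ∉ S).card := by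
    rw [← Finset.card_union_of_disjoint]
    · apply Finset.card_le_card
      intro i hi
      rw [Finset.mem_union, Finset.mem_filter, Finset.mem_filter]
      have := (Finset.mem_filter.1 hi).2
      by_cases h : (Sum.inl i : Fin m ⊕ Fin m) ∈ F
      · exact Or.inl ⟨Finset.mem_univ _, h, this⟩
      · exact Or.inr ⟨Finset.mem_univ _, h, this⟩
    · rw [Finset.disjoint_left]
      intro i h1 h2
      exact (Finset.mem_filter.1 h2).2.1 (Finset.mem_filter.1 h1).2.1
  have hsplitR : (Finset.univ.filter fun i : Fin m => (Sum.inr i : Fin m ⊕ Fin m) ∉ S).card ≤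
      (Finset.univ.filter fun i : Fin m => Sum.inr i ∈ F ∧ Sum.inr i ∉ S).card +
      (Finset.univ.filter fun i : Fin m => Sum.inr i ∉ F ∧ Sum.inr i ∉ S).card := by
    rw [← Finset.card_union_of_disjoint]
    · apply Finset.card_le_card
      intro i hi
      rw [Finset.mem_union, Finset.mem_filter, Finset.mem_filter]
      have := (Finset.mem_filter.1 hi).2
      by_cases h : (Sum.inr i : Fin m ⊕ Fin m) ∈ F
      · exact Or.inl ⟨Finset.mem_univ _, h, this⟩
      · exact Or.inr ⟨Finset.mem_univ _, h, this⟩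
    · rw [Finset.disjoint_left]
      intro i h1 h2
      exact (Finset.mem_filter.1 h2).2.1 (Finset.mem_filter.1 h1).2.1
  rcases split F hF with hL | hR
  · rcases split F' hF' with hL' | hR'
    · -- both on the left
      have h1 : ¬ m ≤ 48 * (Finset.univ.filter fun j : Fin m => Sum.inr j ∉ F ∧
          Sum.inr j ∉ S).card := by
        intro h
        obtain ⟨i, hi, j, hj, hij⟩ := hmix _ _ (h96 _ hL) h
        have hi' := (Finset.mem_filter.1 hi).2
        have hj' := (Finset.mem_filter.1 hj).2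
        rcases good _ _ hij hi'.2 with h2 | h2
        · exact hj'.1 h2.2.1
        · exact h2.1.2 hi'.1
      obtain ⟨i, hi, j, hj, hij⟩ := hmix _ (Finset.univ.filter fun j : Fin m => Sum.inr j ∈ F ∧
          Sum.inr j ∉ S) (h96 _ hL') (by omega)
      have hi' := (Finset.mem_filter.1 hi).2
      have hj' := (Finset.mem_filter.1 hj).2
      rcases good _ _ hij hi'.2 with h2 | h2
      · exact h2.1.2 hi'.1
      · exact h2.2.2 hj'.1
    · obtain ⟨i, hi, j, hj, hij⟩ := hmix _ _ (h96 _ hL) hR'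
      have hi' := (Finset.mem_filter.1 hi).2
      have hj' := (Finset.mem_filter.1 hj).2
      rcases good _ _ hij hi'.2 with h2 | h2
      · exact h2.2.2 hj'.1
      · exact h2.1.2 hi'.1
  · rcases split F' hF' with hL' | hR'
    · obtain ⟨i, hi, j, hj, hij⟩ := hmix _ _ (h96 _ hL') hR
      have hi' := (Finset.mem_filter.1 hi).2
      have hj' := (Finset.mem_filter.1 hj).2
      rcases good _ _ hij hi'.2 with h2 | h2
      · exact h2.1.2 hi'.1
      · exact h2.2.2 hj'.1
    · -- both on the right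
      have h1 : ¬ m ≤ 96 * (Finset.univ.filter fun j : Fin m => Sum.inl j ∉ F ∧
          Sum.inl j ∉ S).card := by
        intro h
        obtain ⟨i, hi, j, hj, hij⟩ := hmix _ _ h hR
        have hi' := (Finset.mem_filter.1 hi).2
        have hj' := (Finset.mem_filter.1 hj).2
        rcases good _ _ hij hi'.2 with h2 | h2
        · exact hi'.1 h2.1.1
        · exact h2.2.2 hj'.1
      obtain ⟨i, hi, j, hj, hij⟩ := hmix (Finset.univ.filter fun j : Fin m => Sum.inl j ∈ F ∧
          Sum.inl j ∉ S) _ (by omega) hR'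
      have hi' := (Finset.mem_filter.1 hi).2
      have hj' := (Finset.mem_filter.1 hj).2
      rcases good _ _ hij hi'.2 with h2 | h2
      · exact h2.2.2 hj'.1
      · exact h2.1.2 hi'.1

end Pool.Agent.Dichotomy
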