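import Pool.Agent.Helper91.Dich.Expand
import Pool.Agent.Helper91.Dich.Det

/-!
Bipartite graphs of bounded degree that expand at all scales.
-/

namespace Pool.Agent.Dichotomy

open Finset Module

set_option linter.unusedSectionVars false

section

variable {V : Type*} [Fintype V] [DecidableEq V]

/-- The outer boundary of a set of vertices. -/
noncomputable def bd (G : SimpleGraph V) (S : Finset V) : Finset V := by
  classical exact univ.filter fun t => t ∉ S ∧ ∃ s ∈ S, G.Adj s t

theorem mem_bd {G : SimpleGraph V} {S : Finset V} {t : V} :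
    t ∈ bd G S ↔ t ∉ S ∧ ∃ s ∈ S, G.Adj s t := by
  classical
  unfold bd; simp

/-- Vertex expansion at all scales. -/
def Exp (G : SimpleGraph V) : Prop :=
  ∀ S : Finset V, 2 * S.card ≤ Fintype.card V → 2 * S.card ≤ 5 * (bd G S).card

theorem star_of_exp (G : SimpleGraph V) (hG : Exp G) (h2 : 2 ≤ Fintype.card V) (a : ℕ) :
    Star G Finset.univ a (a / 4) := by
  classical
  intro F F' hF hF'
  rw [Finset.coe_univ, Set.inter_univ] at hF hF'
  set S : Set V := {u | ∃ v, G.Adj u v ∧ ¬ ((u ∈ F ∧ u ∉ F') ∧ (v ∈ F ∧ v ∉ F')) ∧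
      ¬ ((u ∈ F' ∧ u ∉ F) ∧ (v ∈ F' ∧ v ∉ F))} with hS
  let Sf : Finset V := univ.filter fun u => u ∈ S
  have memSf : ∀ u, u ∈ Sf ↔ u ∈ S := by intro u; simp [Sf]
  have hSc : S.ncard = Sf.card := by
    rw [← Set.ncard_coe_finset]; congr 1; ext u; rw [Finset.mem_coe, memSf]
  rw [hSc]
  have hFc : ∀ F : Set V, F.ncard = (univ.filter fun u => u ∈ F).card := by
    intro F
    rw [← Set.ncard_coe_finset]; congr 1; ext u; simp
  have nbr : ∀ u : V, ∃ v, G.Adj u v := by
    intro u
    have h1 := hG {u} (by rw [card_singleton]; omega)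
    rw [card_singleton] at h1
    have h3 : (bd G {u}).Nonempty := by rw [← card_pos]; omega
    obtain ⟨v, hv⟩ := h3
    obtain ⟨-, s, hs, hadj⟩ := mem_bd.1 hv
    rw [mem_singleton] at hs; subst hs
    exact ⟨v, hadj⟩
  have key : ∀ F F' : Set V, (∀ u, u ∈ F → u ∈ F' → u ∈ Sf) →
      (∀ u v, G.Adj u v → (u ∈ F ∧ u ∉ F') → ¬ (v ∈ F ∧ v ∉ F') → v ∈ Sf) → a ≤ F.ncard →
      2 * (univ.filter fun u => u ∈ F ∧ u ∉ F').card ≤ Fintype.card V → a / 4 ≤ Sf.card := by
    intro F F' h1 h3 h4 h5
    have h6 := hG _ h5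
    have h7 : bd G (univ.filter fun u => u ∈ F ∧ u ∉ F') ⊆ Sf := by
      intro v hv
      obtain ⟨hv1, s, hs, hadj⟩ := mem_bd.1 hv
      refine h3 s v hadj (mem_filter.1 hs).2 ?_
      intro hcon
      exact hv1 (mem_filter.2 ⟨mem_univ _, hcon⟩)
    have h8 := card_le_card h7
    have h9 : (univ.filter fun u => u ∈ F) ⊆ (univ.filter fun u => u ∈ F ∧ u ∉ F') ∪ Sf := by
      intro u hu
      have huF := (mem_filter.1 hu).2
      by_cases hu' : u ∈ F'
      · exact mem_union_right _ (h1 u huF hu')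
      · exact mem_union_left _ (mem_filter.2 ⟨mem_univ _, huF, hu'⟩)
    have h10 := (card_le_card h9).trans (card_union_le _ _)
    rw [hFc] at h4
    omega
  have hboth : ∀ u, u ∈ F → u ∈ F' → u ∈ Sf := by
    intro u hu hu'
    obtain ⟨v, hv⟩ := nbr u
    exact (memSf u).2 ⟨v, hv, fun h => h.1.2 hu', fun h => h.1.2 hu⟩
  have hdisj : (univ.filter fun u => u ∈ F ∧ u ∉ F').card +
      (univ.filter fun u => u ∈ F' ∧ u ∉ F).card ≤ Fintype.card V := by
    rw [← card_union_of_disjoint]
    · exact card_le_univ _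
    · rw [Finset.disjoint_left]
      intro u hu hu'
      exact (mem_filter.1 hu).2.2 (mem_filter.1 hu').2.1
  rcases Nat.lt_or_ge (Fintype.card V) (2 * (univ.filter fun u => u ∈ F ∧ u ∉ F').card)
    with h | h
  · refine key F' F (fun u hu hu' => hboth u hu' hu) ?_ hF' (by omega)
    intro u v huv hu hv
    exact (memSf v).2 ⟨u, huv.symm, fun h' => hu.2 h'.2.1, fun h' => hv h'.1⟩
  · refine key F F' hboth ?_ hF h
    intro u v huv hu hv
    exact (memSf v).2 ⟨u, huv.symm, fun h' => hv h'.1, fun h' => hu.2 h'.2.1⟩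

/-- **The deterministic part**, for graphs that expand at all scales. -/
theorem det_exp (G : SimpleGraph V) (hG : Exp G)
    (P Q : (V → ZMod 2) →ₗ[ZMod 2] (V → ZMod 2))
    (hPQ : ∀ z, P z + Q z = z)
    (hP : Fintype.card V ≤ 4 * finrank (ZMod 2) (LinearMap.range P))
    (hQ : Fintype.card V ≤ 4 * finrank (ZMod 2) (LinearMap.range Q)) (q : ℕ)
    (hq : 100 * q ≤ Fintype.card V) (hn : 48 ≤ Fintype.card V) (T : Finset V)
    (h1 : Fintype.card V ≤ finrank (ZMod 2) ((ZT T).comap P) + q)
    (h2 : Fintype.card V ≤ finrank (ZMod 2) ((LT G T).comap Q) + q) : False := by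
  classical
  obtain ⟨n, hcardV⟩ : ∃ n, Fintype.card V = n := ⟨_, rfl⟩
  rw [hcardV] at hP hQ hq hn h1 h2
  have hfin : finrank (ZMod 2) (V → ZMod 2) = n := by
    rw [Module.finrank_fintype_fun_eq_card, hcardV]
  set A : Finset V := univ \ T with hA
  have memA : ∀ s, s ∈ A ↔ s ∉ T := by intro s; simp [hA]
  have hAT : A.card + T.card = n := by
    have := card_sdiff_add_card_eq_card (subset_univ T)
    rw [card_univ, hcardV] at this
    exact this
  -- step 1
  have s1 : finrank (ZMod 2) (LinearMap.range P) ≤ A.card + q := by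
    have e1 := finrank_le_ker_add_map P ((ZT T).comap P)
    have e2 := LinearMap.finrank_range_add_finrank_ker P
    rw [hfin] at e2
    have e3 : finrank (ZMod 2) (((ZT T).comap P).map P) ≤ A.card := by
      apply finrank_le_of_determined
      intro z hz hzA
      have hz' : z ∈ ZT T := Submodule.map_comap_le P (ZT T) hz
      funext i
      by_cases hi : i ∈ T
      · exact hz' i hi
      · exact hzA i ((memA i).2 hi)
    omega
  -- step 2
  set B : Finset V := T.filter fun t => ∃ s, s ∉ T ∧ G.Adj s t with hB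
  have hBT : B ⊆ T := filter_subset _ _
  have s2 : B.card ≤ 2 * q := by
    have e1 := Submodule.finrank_sup_add_finrank_inf_eq ((ZT T).comap P) ((LT G T).comap Q)
    have e2 : finrank (ZMod 2) (((ZT T).comap P ⊔ (LT G T).comap Q : Submodule _ _)) ≤ n := by
      rw [← hfin]; exact Submodule.finrank_le _
    have e3 : finrank (ZMod 2) (((ZT T).comap P ⊓ (LT G T).comap Q : Submodule _ _)) ≤
        (univ \ B).card := by
      apply finrank_le_of_determined
      rintro z ⟨hz1, hz2⟩ hz3
      funext i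
      by_cases hi : i ∈ B
      · rw [← hPQ z, Pi.add_apply]
        obtain ⟨hiT, s, hs, hadj⟩ := mem_filter.1 hi
        have a1 : P z i = 0 := hz1 i hiT
        have a2 : Q z i = 0 := hz2.1 s i hadj hs hiT
        rw [a1, a2]; rfl
      · exact hz3 i (by simp [hi])
    have e4 := card_sdiff_add_card_eq_card (subset_univ B)
    rw [card_univ, hcardV] at e4
    omega
  -- step 3: T is small
  have s3a : n < 2 * A.card := by
    by_contra hcon
    push Not at hcon
    have e1 := hG A (by rw [hcardV]; exact hcon)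
    have e2 : bd G A ⊆ B := by
      intro t ht
      obtain ⟨ht1, s, hs, hadj⟩ := mem_bd.1 ht
      have htT : t ∈ T := by
        by_contra h; exact ht1 ((memA t).2 h)
      exact mem_filter.2 ⟨htT, s, (memA s).1 hs, hadj⟩
    have e3 := card_le_card e2
    omega
  have s3 : T.card ≤ 7 * q := by
    have e0 : (T \ B).card ≤ T.card := card_le_card sdiff_subset
    have e1 := hG (T \ B) (by rw [hcardV]; omega)
    have e2 : bd G (T \ B) ⊆ B := by
      intro t ht
      obtain ⟨ht1, s, hs, hadj⟩ := mem_bd.1 ht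
      obtain ⟨hsT, hsB⟩ := mem_sdiff.1 hs
      by_cases htT : t ∈ T
      · by_contra htB
        exact ht1 (mem_sdiff.2 ⟨htT, htB⟩)
      · exfalso
        exact hsB (mem_filter.2 ⟨hsT, t, htT, hadj.symm⟩)
    have e3 := card_le_card e2
    have e4 : T.card ≤ (T \ B).card + B.card := by
      have := le_card_sdiff B T
      omega
    omega
  -- step 4: closed sets
  let Closed : Finset V → Prop := fun C => C ⊆ A ∧ ∀ s ∈ C, ∀ t ∈ A \ C, ¬ G.Adj s t
  have s4' : ∀ C, Closed C → 2 * C.card ≤ n → C.card ≤ 5 * q := by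
    intro C hC hCn
    have e1 := hG C (by rw [hcardV]; exact hCn)
    have e2 : bd G C ⊆ B := by
      intro t ht
      obtain ⟨ht1, s, hs, hadj⟩ := mem_bd.1 ht
      have htT : t ∈ T := by
        by_contra h
        exact hC.2 s hs t (mem_sdiff.2 ⟨(memA t).2 h, ht1⟩) hadj
      exact mem_filter.2 ⟨htT, s, (memA s).1 (hC.1 hs), hadj⟩
    have e3 := card_le_card e2
    omega
  have s4 : ∀ C, Closed C → C.card ≤ 5 * q ∨ (A \ C).card ≤ 5 * q := by
    intro C hC
    rcases Nat.lt_or_ge n (2 * C.card) with h | h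
    · right
      refine s4' _ ⟨sdiff_subset, ?_⟩ ?_
      · intro s hs t ht hadj
        rw [Finset.sdiff_sdiff_eq_self hC.1] at ht
        exact hC.2 t ht s hs hadj.symm
      · have := card_sdiff_add_card_eq_card hC.1
        omega
    · left; exact s4' C hC h
  -- step 5: the largest small closed set
  obtain ⟨C0, hC0c, hC0s, hC0max⟩ : ∃ C0, Closed C0 ∧ C0.card ≤ 5 * q ∧
      ∀ C, Closed C → C.card ≤ 5 * q → C.card ≤ C0.card := by
    obtain ⟨F, hF⟩ : ∃ F : Finset (Finset V), ∀ C, C ∈ F ↔ Closed C ∧ C.card ≤ 5 * q :=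
      ⟨univ.filter fun C => Closed C ∧ C.card ≤ 5 * q, by intro C; simp⟩
    have hne : F.Nonempty := ⟨∅, (hF _).2 ⟨⟨empty_subset _, by simp⟩, by simp⟩⟩
    obtain ⟨C0, hC0, hmax⟩ := exists_max_image F card hne
    exact ⟨C0, ((hF _).1 hC0).1, ((hF _).1 hC0).2, fun C h h' => hmax C ((hF _).2 ⟨h, h'⟩)⟩
  have s5 : ∀ C, Closed C → C.card ≤ 5 * q → C ⊆ C0 := by
    intro C hC hCs
    have hU : Closed (C ∪ C0) := by
      refine ⟨union_subset hC.1 hC0c.1, ?_⟩
      intro s hs t ht
      rw [mem_sdiff, mem_union, not_or] at ht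
      rcases mem_union.1 hs with h | h
      · exact hC.2 s h t (mem_sdiff.2 ⟨ht.1, ht.2.1⟩)
      · exact hC0c.2 s h t (mem_sdiff.2 ⟨ht.1, ht.2.2⟩)
    have hUc := card_union_le C C0
    have hUs : (C ∪ C0).card ≤ 5 * q := by
      rcases s4 _ hU with h | h
      · exact h
      · exfalso
        have := card_sdiff_add_card_eq_card hU.1
        omega
    have h3 := hC0max _ hU hUs
    have h4 : C0 = C ∪ C0 := eq_of_subset_of_card_le subset_union_right h3
    rw [h4]; exact subset_union_left
  -- step 6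
  have hA0 : (A \ C0).Nonempty := by
    rw [← card_pos]
    have := card_sdiff_add_card_eq_card hC0c.1
    omega
  obtain ⟨s0, hs0⟩ := hA0
  have s6 : finrank (ZMod 2) (LT G T) ≤ (insert s0 (T ∪ C0)).card := by
    apply finrank_le_of_determined
    intro v hv hv0
    have hcl : ∀ c : ZMod 2, Closed (A.filter fun s => v s = c) := by
      intro c
      refine ⟨filter_subset _ _, ?_⟩
      intro s hs t ht hadj
      obtain ⟨hsA, hsc⟩ := mem_filter.1 hs
      obtain ⟨htA, htc⟩ := mem_sdiff.1 ht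
      apply htc
      rw [mem_filter]
      refine ⟨htA, ?_⟩
      rw [← hsc]
      exact (hv.2 s t hadj ((memA s).1 hsA) ((memA t).1 htA)).symm
    have hs00 : v s0 = 0 := hv0 s0 (mem_insert_self _ _)
    have key : (A.filter fun s => v s = 1) ⊆ C0 := by
      rcases s4 _ (hcl 1) with h | h
      · exact s5 _ (hcl 1) h
      · exfalso
        have h01 : ∀ a : ZMod 2, ¬ a = 1 ↔ a = 0 := by decide
        have e1 : A \ (A.filter fun s => v s = 1) = A.filter fun s => v s = 0 := by
          ext s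
          simp only [mem_sdiff, mem_filter, not_and]
          constructor
          · rintro ⟨a, b⟩; exact ⟨a, (h01 _).1 (b a)⟩
          · rintro ⟨a, b⟩; exact ⟨a, fun _ => (h01 _).2 b⟩
        rw [e1] at h
        have := s5 _ (hcl 0) h
        exact (mem_sdiff.1 hs0).2 (this (mem_filter.2 ⟨(mem_sdiff.1 hs0).1, hs00⟩))
    funext i
    have h01 : ∀ a : ZMod 2, a ≠ 0 → a = 1 := by decide
    by_cases hiT : i ∈ T
    · exact hv0 i (mem_insert_of_mem (mem_union_left _ hiT))
    · by_contra hne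
      have hi1 : v i = 1 := h01 _ hne
      have := key (mem_filter.2 ⟨(memA i).2 hiT, hi1⟩)
      exact hne (hv0 i (mem_insert_of_mem (mem_union_right _ this)))
  have s6' : (insert s0 (T ∪ C0)).card ≤ T.card + C0.card + 1 :=
    (card_insert_le _ _).trans (Nat.succ_le_succ (card_union_le _ _))
  -- step 7
  have s7 : finrank (ZMod 2) (LinearMap.range Q) ≤ q + finrank (ZMod 2) (LT G T) := by
    have e1 := finrank_le_ker_add_map Q ((LT G T).comap Q)
    have e2 := LinearMap.finrank_range_add_finrank_ker Q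
    rw [hfin] at e2
    have e3 : finrank (ZMod 2) (((LT G T).comap Q).map Q) ≤ finrank (ZMod 2) (LT G T) :=
      Submodule.finrank_mono (Submodule.map_comap_le _ _)
    omega
  omega

end

/-- In the mixing graphs, sets of medium size have a large boundary. -/
theorem mixing_bd {m : ℕ} (hm : 48 ≤ m) (G : SimpleGraph (Fin m ⊕ Fin m))
    (hmix : ∀ A B : Finset (Fin m), m ≤ 96 * A.card → m ≤ 48 * B.card →
        ∃ i ∈ A, ∃ j ∈ B, G.Adj (Sum.inl i) (Sum.inr j))
    (S : Finset (Fin m ⊕ Fin m)) (h1 : S.card ≤ m) (h2 : m ≤ 24 * S.card) :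
    23 * m < 24 * (bd G S).card := by
  classical
  have sp : ∀ S : Finset (Fin m ⊕ Fin m), S.toLeft.card + S.toRight.card = S.card :=
    fun S => card_toLeft_add_card_toRight
  let U : Finset (Fin m ⊕ Fin m) := univ \ (S ∪ bd G S)
  have hno : ∀ s ∈ S, ∀ t ∈ U, ¬ G.Adj s t := by
    intro s hs t ht hadj
    have := (mem_sdiff.1 ht).2
    rw [mem_union, not_or] at this
    exact this.2 (mem_bd.2 ⟨this.1, s, hs, hadj⟩)
  have c1 := mixing_small G hmix S U hno
  have c2 := mixing_small G hmix U S (fun s hs t ht h => hno t ht s hs h.symm)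
  have eL : S.toLeft.card + (bd G S).toLeft.card + U.toLeft.card = m := by
    have e1 : U.toLeft = univ \ (S.toLeft ∪ (bd G S).toLeft) := by
      ext i; simp [U]
    have e2 := card_sdiff_add_card_eq_card (subset_univ (S.toLeft ∪ (bd G S).toLeft))
    rw [card_univ, Fintype.card_fin, card_union_of_disjoint] at e2
    · rw [e1]; omega
    · rw [Finset.disjoint_left]
      intro i hi hi'
      exact (mem_bd.1 (mem_toLeft.1 hi')).1 (mem_toLeft.1 hi)
  have eR : S.toRight.card + (bd G S).toRight.card + U.toRight.card = m := by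
    have e1 : U.toRight = univ \ (S.toRight ∪ (bd G S).toRight) := by
      ext i; simp [U]
    have e2 := card_sdiff_add_card_eq_card (subset_univ (S.toRight ∪ (bd G S).toRight))
    rw [card_univ, Fintype.card_fin, card_union_of_disjoint] at e2
    · rw [e1]; omega
    · rw [Finset.disjoint_left]
      intro i hi hi'
      exact (mem_bd.1 (mem_toRight.1 hi')).1 (mem_toRight.1 hi)
  have e3 := sp S
  have e4 := sp (bd G S)
  omega

/-- **Bipartite expanders.** -/
theorem exists_expander {DD : ℕ} (hDD : DD = 12768) (m : ℕ) (hm : 48 ≤ m) :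
    ∃ (V : Type) (_ : Fintype V) (_ : DecidableEq V) (G : SimpleGraph V) (E : Finset (V × V))
      (col : V → Bool), (∀ p ∈ E, G.Adj p.1 p.2) ∧ (∀ u v, G.Adj u v → (u, v) ∈ E ∨ (v, u) ∈ E) ∧
      (∀ p ∈ E, col p.1 = true ∧ col p.2 = false) ∧
      E.card ≤ DD * m ∧ (∀ v, (G.neighborSet v).ncard ≤ 96 * DD) ∧ Exp G ∧
      Fintype.card V ≤ 2 * m ∧ 47 * m ≤ 24 * Fintype.card V ∧
      23 * m ≤ 24 * (Finset.univ.filter fun v => col v = false).card := by
  classical
  obtain ⟨G0, E0, hE0, hEG0, hcol0, hEc0, hdeg0, hmix⟩ := exists_bipartite hDD m (by omega)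
  -- the bad set
  obtain ⟨S, hSm, hSb, hSmax⟩ : ∃ S : Finset (Fin m ⊕ Fin m), S.card ≤ m ∧
      5 * (bd G0 S).card ≤ 2 * S.card ∧ ∀ U : Finset (Fin m ⊕ Fin m), U.card ≤ m →
        5 * (bd G0 U).card ≤ 2 * U.card → U.card ≤ S.card := by
    obtain ⟨F, hF⟩ : ∃ F : Finset (Finset (Fin m ⊕ Fin m)), ∀ C, C ∈ F ↔
        C.card ≤ m ∧ 5 * (bd G0 C).card ≤ 2 * C.card :=
      ⟨univ.filter fun C => C.card ≤ m ∧ 5 * (bd G0 C).card ≤ 2 * C.card, by intro C; simp⟩
    have hne : F.Nonempty := by
      refine ⟨∅, (hF _).2 ⟨by simp, ?_⟩⟩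
      have : bd G0 (∅ : Finset (Fin m ⊕ Fin m)) = ∅ := by
        ext t; rw [mem_bd]; simp
      rw [this]; simp
    obtain ⟨S, hS, hmax⟩ := exists_max_image F card hne
    exact ⟨S, ((hF _).1 hS).1, ((hF _).1 hS).2, fun U h h' => hmax U ((hF _).2 ⟨h, h'⟩)⟩
  have hS24 : 24 * S.card < m := by
    by_contra hcon
    push Not at hcon
    have := mixing_bd hm G0 hmix S hSm hcon
    omega
  let V : Type := {v : Fin m ⊕ Fin m // v ∉ S}
  let G : SimpleGraph V := G0.comap Subtype.val
  let E : Finset (V × V) := univ.filter fun p => (p.1.1, p.2.1) ∈ E0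
  let col : V → Bool := fun v => v.1.isLeft
  have hcardV : Fintype.card V + S.card = 2 * m := by
    have h1 : Fintype.card V = (univ \ S).card := by
      rw [Fintype.card_subtype]
      congr 1
      ext v; simp
    have h2 := card_sdiff_add_card_eq_card (subset_univ S)
    rw [card_univ, Fintype.card_sum, Fintype.card_fin] at h2
    omega
  refine ⟨V, inferInstance, inferInstance, G, E, col, ?_, ?_, ?_, ?_, ?_, ?_, ?_, ?_, ?_⟩
  · intro p hp
    exact hE0 _ (mem_filter.1 hp).2
  · intro u v huv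
    rcases hEG0 u.1 v.1 huv with h | h
    · exact Or.inl (mem_filter.2 ⟨mem_univ _, h⟩)
    · exact Or.inr (mem_filter.2 ⟨mem_univ _, h⟩)
  · intro p hp
    exact hcol0 _ (mem_filter.1 hp).2
  · refine le_trans ?_ hEc0
    refine Finset.card_le_card_of_injOn (fun p : V × V => (p.1.1, p.2.1)) ?_ ?_
    · intro p hp
      exact (mem_filter.1 (Finset.mem_coe.1 hp)).2
    · intro p _ p' _ h
      have h1 := congrArg Prod.fst h
      have h2 := congrArg Prod.snd h
      exact Prod.ext (Subtype.ext h1) (Subtype.ext h2)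
  · intro v
    refine le_trans ?_ (hdeg0 v.1)
    refine Set.ncard_le_ncard_of_injOn Subtype.val ?_ ?_ (Set.toFinite _)
    · intro w hw; exact hw
    · intro a _ b _ h; exact Subtype.ext h
  · -- expansion
    intro X hX
    by_contra hcon
    push Not at hcon
    let X' : Finset (Fin m ⊕ Fin m) := X.map (Function.Embedding.subtype _)
    have memX' : ∀ v, v ∈ X' ↔ ∃ h : v ∉ S, (⟨v, h⟩ : V) ∈ X := by
      intro v
      simp only [X', Finset.mem_map, Function.Embedding.subtype_apply]
      constructor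
      · rintro ⟨a, ha, rfl⟩; exact ⟨a.2, ha⟩
      · rintro ⟨h, hx⟩; exact ⟨⟨v, h⟩, hx, rfl⟩
    have hX'c : X'.card = X.card := card_map _
    have hXm : X.card ≤ m := by omega
    let B' : Finset (Fin m ⊕ Fin m) := (bd G X).map (Function.Embedding.subtype _)
    have memB' : ∀ v, v ∈ B' ↔ ∃ h : v ∉ S, (⟨v, h⟩ : V) ∈ bd G X := by
      intro v
      simp only [B', Finset.mem_map, Function.Embedding.subtype_apply]
      constructor
      · rintro ⟨a, ha, rfl⟩; exact ⟨a.2, ha⟩
      · rintro ⟨h, hx⟩; exact ⟨⟨v, h⟩, hx, rfl⟩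
    have hB'c : B'.card = (bd G X).card := card_map _
    have hdisj : Disjoint X' S := by
      rw [Finset.disjoint_left]
      intro v hv hvS
      obtain ⟨h, -⟩ := (memX' v).1 hv
      exact h hvS
    have hUc : (X' ∪ S).card = X.card + S.card := by
      rw [card_union_of_disjoint hdisj, hX'c]
    have hbdX : bd G0 X' ⊆ B' ∪ S := by
      intro t ht
      obtain ⟨ht1, s, hs, hadj⟩ := mem_bd.1 ht
      by_cases htS : t ∈ S
      · exact mem_union_right _ htS
      · refine mem_union_left _ ((memB' t).2 ⟨htS, ?_⟩)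
        obtain ⟨hsS, hsX⟩ := (memX' s).1 hs
        refine mem_bd.2 ⟨fun h => ht1 ((memX' t).2 ⟨htS, h⟩), ⟨s, hsS⟩, hsX, hadj⟩
    have hbdU : bd G0 (X' ∪ S) ⊆ B' ∪ bd G0 S := by
      intro t ht
      obtain ⟨ht1, s, hs, hadj⟩ := mem_bd.1 ht
      rw [mem_union, not_or] at ht1
      rcases mem_union.1 hs with h | h
      · have h2 := hbdX (mem_bd.2 ⟨ht1.1, s, h, hadj⟩)
        rcases mem_union.1 h2 with h3 | h3
        · exact mem_union_left _ h3
        · exact absurd h3 ht1.2
      · exact mem_union_right _ (mem_bd.2 ⟨ht1.2, s, h, hadj⟩)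
    have c1 := (card_le_card hbdX).trans (card_union_le _ _)
    have c2 := (card_le_card hbdU).trans (card_union_le _ _)
    rw [hB'c] at c1 c2
    rcases Nat.lt_or_ge m (X' ∪ S).card with h | h
    · have h3 := mixing_bd hm G0 hmix X' (by rw [hX'c]; exact hXm) (by rw [hX'c]; omega)
      omega
    · have h3 := hSmax (X' ∪ S) h (by omega)
      omega
  · omega
  · omega
  · have h1 : (univ : Finset (Fin m)).card ≤
        (Finset.univ.filter fun v : V => col v = false).card + S.card := by
      have h2 : ((univ : Finset (Fin m)).map ⟨Sum.inr, Sum.inr_injective⟩ :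
          Finset (Fin m ⊕ Fin m)) ⊆ ((Finset.univ.filter fun v : V => col v = false).map
            (Function.Embedding.subtype _)) ∪ S := by
        intro v hv
        rw [Finset.mem_map] at hv
        obtain ⟨j, -, rfl⟩ := hv
        by_cases h : (Sum.inr j : Fin m ⊕ Fin m) ∈ S
        · exact mem_union_right _ h
        · refine mem_union_left _ ?_
          rw [Finset.mem_map]
          exact ⟨⟨Sum.inr j, h⟩, mem_filter.2 ⟨mem_univ _, rfl⟩, rfl⟩
      have h3 := (card_le_card h2).trans (card_union_le _ _)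
      rw [card_map, card_map] at h3
      exact h3
    rw [card_univ, Fintype.card_fin] at h1
    omega

end Pool.Agent.Dichotomy
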