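import Pool.Agent.Helper91.Dich.Minor

/-!
Every relation that is not affine becomes, after identification of variables and substitution of
constants, a relation with exactly three elements.
-/

namespace Pool.Agent.Dichotomy

set_option linter.unusedSectionVars false

section core

variable {κ : Type*} [Fintype κ] [DecidableEq κ]

theorem z2_eq_add_one : ∀ a b : ZMod 2, a ≠ b → a = b + 1 := by decide

theorem z2_add_self (a : ZMod 2) : a + a = 0 := zmod2_add_self a

/-- The combinatorial core: three elements, all slices and identifications affine. -/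
theorem three_only {R : Set (κ → ZMod 2)} (pts : Fin 3 → κ → ZMod 2) (hpts : ∀ o, pts o ∈ R)
    (s : κ → ZMod 2) (hs : s = pts 0 + pts 1 + pts 2) (hsR : s ∉ R)
    (slice : ∀ k : κ, ∀ u ∈ R, ∀ v ∈ R, ∀ w ∈ R, u k = v k → v k = w k → u + v + w ∈ R)
    (ident : ∀ k l : κ, k ≠ l → ∀ u ∈ R, ∀ v ∈ R, ∀ w ∈ R, u k = u l → v k = v l → w k = w l →
      u + v + w ∈ R) :
    (∀ w ∈ R, ∃ o, w = pts o) ∧ ∃ i j : κ, ∃ o p : Fin 3, o ≠ p ∧ i ≠ j ∧
      (∀ o' : Fin 3, pts o' i = s i + if o' = o then 0 else 1) ∧
      (∀ o' : Fin 3, pts o' j = s j + if o' = p then 0 else 1) := by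
  classical
  -- the class of a coordinate
  have hcls : ∀ k, ∃ o : Fin 3, ∀ o' : Fin 3, pts o' k = s k + if o' = o then 0 else 1 := by
    intro k
    have h1 : ¬ (pts 0 k = pts 1 k ∧ pts 1 k = pts 2 k) := by
      rintro ⟨h1, h2⟩
      apply hsR
      rw [hs]
      exact slice k _ (hpts 0) _ (hpts 1) _ (hpts 2) h1 h2
    have hsk : s k = pts 0 k + pts 1 k + pts 2 k := by rw [hs]; rfl
    have key : ∀ a b c : ZMod 2, ¬ (a = b ∧ b = c) →
        (a = a + b + c + 0 ∧ b = a + b + c + 1 ∧ c = a + b + c + 1) ∨
        (a = a + b + c + 1 ∧ b = a + b + c + 0 ∧ c = a + b + c + 1) ∨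
        (a = a + b + c + 1 ∧ b = a + b + c + 1 ∧ c = a + b + c + 0) := by decide
    rcases key _ _ _ h1 with ⟨a, b, c⟩ | ⟨a, b, c⟩ | ⟨a, b, c⟩
    · refine ⟨0, fun o' => ?_⟩
      rw [hsk]
      fin_cases o'
      · exact a
      · exact b
      · exact c
    · refine ⟨1, fun o' => ?_⟩
      rw [hsk]
      fin_cases o'
      · exact a
      · exact b
      · exact c
    · refine ⟨2, fun o' => ?_⟩
      rw [hsk]
      fin_cases o'
      · exact a
      · exact b
      · exact c
  choose cls hcls using hcls
  let D : Fin 3 → κ → ZMod 2 := fun o => s + pts o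
  have hDk : ∀ o k, D o k = if o = cls k then 0 else 1 := by
    intro o k
    show s k + pts o k = _
    rw [hcls, ← add_assoc, z2_add_self, zero_add]
  have hDp : ∀ o, s + D o = pts o := by
    intro o
    show s + (s + pts o) = pts o
    rw [← add_assoc, pi_add_self, zero_add]
  have hDp' : ∀ o, D o + pts o = s := by
    intro o
    show s + pts o + pts o = s
    rw [add_assoc, pi_add_self, add_zero]
  have third : ∀ o p : Fin 3, o ≠ p → ∃ q : Fin 3, q ≠ o ∧ q ≠ p ∧ ∀ r : Fin 3, r = o ∨ r = p ∨ r = q := by
    decide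
  have hD3 : ∀ o p q : Fin 3, o ≠ p → q ≠ o → q ≠ p → D o + D p = D q := by
    intro o p q hop hqo hqp
    funext k
    rw [Pi.add_apply, hDk, hDk, hDk]
    have key : ∀ o p q c : Fin 3, o ≠ p → q ≠ o → q ≠ p →
        ((if o = c then 0 else 1) + (if p = c then 0 else 1) : ZMod 2) =
          if q = c then 0 else 1 := by decide
    exact key o p q _ hop hqo hqp
  -- the pair of points other than `o`
  have hR1 : ∀ w ∈ R, ∀ k, w k ≠ s k → w + D (cls k) ∈ R := by
    intro w hw k hwk
    obtain ⟨p, q, hp, hq, hpq⟩ : ∃ p q : Fin 3, p ≠ cls k ∧ q ≠ cls k ∧ p ≠ q := by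
      have : ∀ c : Fin 3, ∃ p q : Fin 3, p ≠ c ∧ q ≠ c ∧ p ≠ q := by decide
      exact this (cls k)
    have h1 : pts p k = s k + 1 := by rw [hcls, if_neg hp]
    have h2 : pts q k = s k + 1 := by rw [hcls, if_neg hq]
    have h3 : w k = s k + 1 := z2_eq_add_one _ _ hwk
    have h4 := slice k w hw _ (hpts p) _ (hpts q) (by rw [h3, h1]) (by rw [h1, h2])
    have h5 : w + pts p + pts q = w + D (cls k) := by
      have e1 : D p + D q = D (cls k) := hD3 p q (cls k) hpq (Ne.symm hp) (Ne.symm hq)
      rw [← e1, ← hDp p, ← hDp q]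
      have : w + (s + D p) + (s + D q) = w + (D p + D q) + (s + s) := by abel
      rw [this, pi_add_self, add_zero]
    rw [← h5]; exact h4
  have hsame : ∀ k k', k ≠ k' → cls k = cls k' → s k' = s k + 1 := by
    intro k k' hkk hc
    apply z2_eq_add_one
    intro heq
    apply hsR
    rw [hs]
    refine ident k k' hkk _ (hpts 0) _ (hpts 1) _ (hpts 2) ?_ ?_ ?_ <;>
    rw [hcls _ _, hcls k', hc, heq]
  -- two classes occur
  have htwo : ∃ i j, cls i ≠ cls j := by
    by_contra hcon
    push Not at hcon
    by_cases hne : Nonempty κ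
    · obtain ⟨k0⟩ := hne
      apply hsR
      have : s = pts (cls k0) := by
        funext k
        rw [hcls, hcon k k0, if_pos rfl, add_zero]
      rw [this]; exact hpts _
    · apply hsR
      have : s = pts 0 := by
        funext k
        exact absurd ⟨k⟩ hne
      rw [this]; exact hpts _
  refine ⟨?_, ?_⟩
  swap
  · obtain ⟨i, j, hij⟩ := htwo
    exact ⟨i, j, cls i, cls j, hij, fun h => hij (by rw [h]), hcls i, hcls j⟩
  intro w hw
  by_contra hno
  push Not at hno
  by_cases hcase : ∃ k k', k ≠ k' ∧ cls k = cls k' ∧ w k = w k'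
  · -- case 1
    obtain ⟨k, k', hkk, hc, hwk⟩ := hcase
    have hs1 := hsame k k' hkk hc
    obtain ⟨o, ho⟩ : ∃ o, o = cls k := ⟨_, rfl⟩
    obtain ⟨l, hl⟩ : ∃ l, cls l ≠ o := by
      obtain ⟨i, j, hij⟩ := htwo
      by_cases h : cls i = o
      · exact ⟨j, fun h' => hij (by rw [h, h'])⟩
      · exact ⟨i, h⟩
    obtain ⟨p, hp⟩ : ∃ p, p = cls l := ⟨_, rfl⟩
    have hpo : p ≠ o := by rw [hp]; exact hl
    obtain ⟨q, hqo, hqp, -⟩ := third o p (Ne.symm hpo)
    have hw1 : w + D o ∈ R := by
      by_cases h : w k = s k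
      · have h' : w k' ≠ s k' := by
          rw [← hwk, h, hs1]
          exact fun h' => absurd h' (by generalize s k = a; revert a; decide)
        rw [ho, hc]; exact hR1 w hw k' h'
      · rw [ho]; exact hR1 w hw k h
    have hDol : D o l = 1 := by rw [hDk, if_neg]; rw [← hp]; exact Ne.symm hpo
    obtain ⟨v, hv, hv1, hvl, hvk⟩ : ∃ v, v ∈ R ∧ v + D o ∈ R ∧ v l ≠ s l ∧ v k = v k' := by
      by_cases h : w l = s l
      · refine ⟨w + D o, hw1, ?_, ?_, ?_⟩
        · rw [add_assoc, pi_add_self, add_zero]; exact hw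
        · rw [Pi.add_apply, hDol, h]
          generalize s l = a; revert a; decide
        · rw [Pi.add_apply, Pi.add_apply, hDk, hDk, hwk, ← hc]
      · exact ⟨w, hw, hw1, h, hwk⟩
    have hv2 : v + D p ∈ R := by rw [hp]; exact hR1 v hv l hvl
    have hv3 : v + D q ∈ R := by
      have h1 := ident k k' hkk v hv _ hv1 _ hv2 hvk
        (by rw [Pi.add_apply, Pi.add_apply, hDk, hDk, hvk, ← hc])
        (by rw [Pi.add_apply, Pi.add_apply, hDk, hDk, hvk, ← hc])
      have h2 : v + (v + D o) + (v + D p) = v + D q := by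
        rw [← hD3 o p q (Ne.symm hpo) hqo hqp]
        have : v + (v + D o) + (v + D p) = v + (D o + D p) + (v + v) := by abel
        rw [this, pi_add_self, add_zero]
      rw [← h2]; exact h1
    apply hsR
    have hvl' : v l = s l + 1 := z2_eq_add_one _ _ hvl
    have hDql : D q l = 1 := by rw [hDk, if_neg]; rw [← hp]; exact hqp
    have h11 : ∀ a : ZMod 2, a + 1 + 1 = a := by decide
    have h1 := slice l _ hv1 _ hv3 _ (hpts p)
      (by rw [Pi.add_apply, Pi.add_apply, hDol, hDql])
      (by rw [Pi.add_apply, hDql, hvl', h11, hcls, if_pos hp, add_zero])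
    have h2 : v + D o + (v + D q) + pts p = s := by
      have e1 : D o + D q = D p := hD3 o q p (Ne.symm hqo) hpo (Ne.symm hqp)
      have : v + D o + (v + D q) + pts p = (D o + D q) + pts p + (v + v) := by abel
      rw [this, e1, pi_add_self, add_zero, hDp']
    rw [← h2]; exact h1
  · -- case 2
    push Not at hcase
    -- the value on the classes
    have hμ : ∀ k k', cls k = cls k' → w k + s k = w k' + s k' := by
      intro k k' hc
      by_cases hkk : k = k'
      · rw [hkk]
      · have h1 := hcase k k' hkk hc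
        have h2 := hsame k k' hkk hc
        rw [z2_eq_add_one _ _ h1, h2]
        generalize w k' = a; generalize s k = b
        revert a b; decide
    obtain ⟨μ, hμ'⟩ : ∃ μ : Fin 3 → ZMod 2, ∀ k, w k = s k + μ (cls k) := by
      refine ⟨fun o => if h : ∃ k, cls k = o then w h.choose + s h.choose else 0, fun k => ?_⟩
      have hex : ∃ k', cls k' = cls k := ⟨k, rfl⟩
      simp only [dif_pos hex]
      rw [← hμ k _ hex.choose_spec.symm]
      generalize w k = a; generalize s k = b
      revert a b; decide
    -- even case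
    have heven : ∀ μ : Fin 3 → ZMod 2, (∀ k, w k = s k + μ (cls k)) → μ 0 + μ 1 + μ 2 ≠ 0 := by
      intro μ hμ' h0
      have hcases : (∀ o, μ o = 0) ∨ ∃ o, ∀ c, μ c = if o = c then 0 else 1 := by
        have key : ∀ a b c : ZMod 2, a + b + c = 0 → (a = 0 ∧ b = 0 ∧ c = 0) ∨
            (a = 0 ∧ b = 1 ∧ c = 1) ∨ (a = 1 ∧ b = 0 ∧ c = 1) ∨ (a = 1 ∧ b = 1 ∧ c = 0) := by
          decide
        rcases key _ _ _ h0 with ⟨a, b, c⟩ | ⟨a, b, c⟩ | ⟨a, b, c⟩ | ⟨a, b, c⟩
        · left; intro o; fin_cases o
          · exact a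
          · exact b
          · exact c
        · right; refine ⟨0, fun o => ?_⟩; fin_cases o
          · exact a
          · exact b
          · exact c
        · right; refine ⟨1, fun o => ?_⟩; fin_cases o
          · exact a
          · exact b
          · exact c
        · right; refine ⟨2, fun o => ?_⟩; fin_cases o
          · exact a
          · exact b
          · exact c
      rcases hcases with h | ⟨o, h⟩
      · apply hsR
        have : s = w := by funext k; rw [hμ', h, add_zero]
        rw [this]; exact hw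
      · apply hno o
        rw [← hDp o]
        funext k
        rw [hμ', h, Pi.add_apply, hDk]
    -- all classes occur
    have hall : ∀ o : Fin 3, ∃ k, cls k = o := by
      intro o
      by_contra hcon
      push Not at hcon
      refine heven (fun c => if c = o then (μ 0 + μ 1 + μ 2) + μ o else μ c) ?_ ?_
      · intro k
        simp only [if_neg (hcon k)]
        exact hμ' k
      · have key : ∀ (o : Fin 3) (a b c : ZMod 2), (if (0 : Fin 3) = o then (a + b + c) +
            (![a, b, c] o) else a) + (if (1 : Fin 3) = o then (a + b + c) + (![a, b, c] o) else b)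
            + (if (2 : Fin 3) = o then (a + b + c) + (![a, b, c] o) else c) = 0 := by decide
        have h2 := key o (μ 0) (μ 1) (μ 2)
        have h3 : (![μ 0, μ 1, μ 2] : Fin 3 → ZMod 2) o = μ o := by
          fin_cases o <;> rfl
        rw [h3] at h2
        exact h2
    -- the vector `s + 1`
    have hf : s + (fun _ => 1) ∈ R := by
      have hodd := heven μ hμ'
      have hcases : (∀ o, μ o = 1) ∨ ∃ o, ∀ c, μ c = if o = c then 1 else 0 := by
        have key : ∀ a b c : ZMod 2, a + b + c ≠ 0 → (a = 1 ∧ b = 1 ∧ c = 1) ∨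
            (a = 1 ∧ b = 0 ∧ c = 0) ∨ (a = 0 ∧ b = 1 ∧ c = 0) ∨ (a = 0 ∧ b = 0 ∧ c = 1) := by
          decide
        rcases key _ _ _ hodd with ⟨a, b, c⟩ | ⟨a, b, c⟩ | ⟨a, b, c⟩ | ⟨a, b, c⟩
        · left; intro o; fin_cases o
          · exact a
          · exact b
          · exact c
        · right; refine ⟨0, fun o => ?_⟩; fin_cases o
          · exact a
          · exact b
          · exact c
        · right; refine ⟨1, fun o => ?_⟩; fin_cases o
          · exact a
          · exact b
          · exact c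
        · right; refine ⟨2, fun o => ?_⟩; fin_cases o
          · exact a
          · exact b
          · exact c
      rcases hcases with h | ⟨o, h⟩
      · have : s + (fun _ => 1) = w := by
          funext k; rw [hμ', h]; rfl
        rw [this]; exact hw
      · obtain ⟨k, hk⟩ := hall o
        have h1 := hR1 w hw k (by
          rw [hμ' k, h, if_pos hk.symm]
          generalize s k = a; revert a; decide)
        have h2 : w + D (cls k) = s + (fun _ => 1) := by
          funext k'
          rw [Pi.add_apply, Pi.add_apply, hμ' k', h, hDk, hk, add_assoc]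
          by_cases h3 : o = cls k'
          · rw [if_pos h3, if_pos h3, add_zero]
          · rw [if_neg h3, if_neg h3, zero_add]
        rw [← h2]; exact h1
    have hone : ∀ o, s + (fun _ => 1) + D o ∈ R := by
      intro o
      obtain ⟨k, hk⟩ := hall o
      have h1 := hR1 _ hf k (by
        rw [Pi.add_apply]
        generalize s k = a; revert a; decide)
      rw [hk] at h1; exact h1
    obtain ⟨l, hl⟩ := hall 2
    apply hsR
    have h1 := slice l _ (hone 0) _ (hone 1) _ (hpts 2)
      (by
        rw [Pi.add_apply, Pi.add_apply, Pi.add_apply, Pi.add_apply, hDk, hDk, hl]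
        rfl)
      (by
        rw [Pi.add_apply, Pi.add_apply, hDk, hl, hcls, hl]
        have h11 : ∀ a : ZMod 2, a + 1 + 1 = a + 0 := by decide
        exact h11 _)
    have h2 : s + (fun _ => 1) + D 0 + (s + (fun _ => 1) + D 1) + pts 2 = s := by
      have e1 : D 0 + D 1 = D 2 := hD3 0 1 2 (by decide) (by decide) (by decide)
      have : s + (fun _ => 1) + D 0 + (s + (fun _ => 1) + D 1) + pts 2 =
          (D 0 + D 1) + pts 2 + ((s + (fun _ => 1)) + (s + (fun _ => 1))) := by abel
      rw [this, e1, pi_add_self, add_zero, hDp']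
    rw [← h2]; exact h1

end core

/-- Substitution of variables and constants into a relation. -/
def Subst {ι κ : Type*} (R : Set (ι → ZMod 2)) (σ : ι → κ ⊕ ZMod 2) : Set (κ → ZMod 2) :=
  {u | (fun k => Sum.elim u id (σ k)) ∈ R}

theorem mem_Subst {ι κ : Type*} {R : Set (ι → ZMod 2)} {σ : ι → κ ⊕ ZMod 2} {u : κ → ZMod 2} :
    u ∈ Subst R σ ↔ (fun k => Sum.elim u id (σ k)) ∈ R := Iff.rfl

/-- **Three-element minors.** -/
theorem exists_minor3 {ι : Type} [Fintype ι] {R : Set (ι → ZMod 2)} (hR : ¬ IsAffine R) :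
    ∃ (κ : Type) (_ : Fintype κ) (_ : DecidableEq κ) (σ : ι → κ ⊕ ZMod 2) (i j : κ)
      (s A B : κ → ZMod 2), i ≠ j ∧ Fintype.card κ ≤ Fintype.card ι ∧
      A i = 1 ∧ A j = 0 ∧ B i = 0 ∧ B j = 1 ∧
      ∀ u : κ → ZMod 2, u ∈ Subst R σ ↔ ((u i + s i = 1 ∨ u j + s j = 1) ∧
        ∀ k, u k = s k + (u i + s i) * A k + (u j + s j) * B k) := by
  classical
  let P : ℕ → Prop := fun n => ∃ (κ : Type) (_ : Fintype κ) (σ : ι → κ ⊕ ZMod 2),
    Fintype.card κ = n ∧ ¬ IsAffine (Subst R σ)
  have hP : P (Fintype.card ι) := ⟨ι, inferInstance, Sum.inl, rfl, hR⟩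
  have hex : ∃ n, P n := ⟨_, hP⟩
  obtain ⟨κ, _, σ, hcard, hna⟩ := Nat.find_spec hex
  have hle : Fintype.card κ ≤ Fintype.card ι := by rw [hcard]; exact Nat.find_min' hex hP
  -- substitutions into a smaller set of variables give affine relations
  have step : ∀ (κ' : Type) (_ : Fintype κ'), Fintype.card κ' < Fintype.card κ →
      ∀ (t : κ → κ' ⊕ ZMod 2) (u v w : κ' → ZMod 2),
        (fun k => Sum.elim u id (t k)) ∈ Subst R σ → (fun k => Sum.elim v id (t k)) ∈ Subst R σ →
        (fun k => Sum.elim w id (t k)) ∈ Subst R σ →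
        (fun k => Sum.elim (u + v + w) id (t k)) ∈ Subst R σ := by
    intro κ' _ hlt t u v w hu hv hw
    have haff : IsAffine (Subst R fun k => Sum.elim t Sum.inr (σ k)) := by
      by_contra hcon
      rw [hcard] at hlt
      exact Nat.find_min hex hlt ⟨κ', inferInstance, _, rfl, hcon⟩
    have htr : ∀ u : κ' → ZMod 2, u ∈ (Subst R fun k => Sum.elim t Sum.inr (σ k)) ↔
        (fun k => Sum.elim u id (t k)) ∈ Subst R σ := by
      intro u
      rw [mem_Subst, mem_Subst]
      have : (fun k => Sum.elim u id (Sum.elim t Sum.inr (σ k))) =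
          fun k => Sum.elim (fun k => Sum.elim u id (t k)) id (σ k) := by
        funext k
        rcases σ k with a | a
        · rfl
        · rfl
      rw [this]
    rw [← htr] at hu hv hw ⊢
    exact haff u hu v hv w hw
  have slice : ∀ k : κ, ∀ u ∈ Subst R σ, ∀ v ∈ Subst R σ, ∀ w ∈ Subst R σ, u k = v k →
      v k = w k → u + v + w ∈ Subst R σ := by
    intro k u hu v hv w hw h1 h2
    let t : κ → {l : κ // l ≠ k} ⊕ ZMod 2 := fun l =>
      if h : l = k then Sum.inr (u k) else Sum.inl ⟨l, h⟩
    have hext : ∀ a : κ → ZMod 2, a k = u k →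
        (fun l => Sum.elim (fun l : {l : κ // l ≠ k} => a l) id (t l)) = a := by
      intro a ha
      funext l
      by_cases h : l = k
      · subst h; simp [t, ha]
      · simp [t, h]
    have hlt : Fintype.card {l : κ // l ≠ k} < Fintype.card κ := by
      exact Fintype.card_subtype_lt (x := k) (by simp)
    have h3 := step _ _ hlt t (fun l => u l) (fun l => v l) (fun l => w l)
      (by rw [hext u rfl]; exact hu) (by rw [hext v h1.symm]; exact hv)
      (by rw [hext w (h2.symm.trans h1.symm)]; exact hw)
    have h4 : (fun l => Sum.elim ((fun l : {l : κ // l ≠ k} => u l) +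
        (fun l : {l : κ // l ≠ k} => v l) +
        fun l : {l : κ // l ≠ k} => w l) id (t l)) = u + v + w := by
      have h5 := hext (u + v + w) (by
        rw [Pi.add_apply, Pi.add_apply, ← h2, ← h1, zmod2_add_self, zero_add])
      exact h5
    rw [h4] at h3; exact h3
  have ident : ∀ k l : κ, k ≠ l → ∀ u ∈ Subst R σ, ∀ v ∈ Subst R σ, ∀ w ∈ Subst R σ,
      u k = u l → v k = v l → w k = w l → u + v + w ∈ Subst R σ := by
    intro k l hkl u hu v hv w hw h1 h2 h3
    let t : κ → {l : κ // l ≠ k} ⊕ ZMod 2 := fun l' =>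
      if h : l' = k then Sum.inl ⟨l, Ne.symm hkl⟩ else Sum.inl ⟨l', h⟩
    have hext : ∀ a : κ → ZMod 2, a k = a l →
        (fun l' => Sum.elim (fun l : {l : κ // l ≠ k} => a l) id (t l')) = a := by
      intro a ha
      funext l'
      by_cases h : l' = k
      · subst h; simp [t, ha]
      · simp [t, h]
    have hlt : Fintype.card {l : κ // l ≠ k} < Fintype.card κ := by
      exact Fintype.card_subtype_lt (x := k) (by simp)
    have h4 := step _ _ hlt t (fun l => u l) (fun l => v l) (fun l => w l)
      (by rw [hext u h1]; exact hu) (by rw [hext v h2]; exact hv)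
      (by rw [hext w h3]; exact hw)
    have h5 : (fun l' => Sum.elim ((fun l : {l : κ // l ≠ k} => u l) +
        (fun l : {l : κ // l ≠ k} => v l) +
        fun l : {l : κ // l ≠ k} => w l) id (t l')) = u + v + w := by
      have h6 := hext (u + v + w) (by
        simp only [Pi.add_apply, h1, h2, h3])
      exact h6
    rw [h5] at h4; exact h4
  unfold IsAffine at hna
  push Not at hna
  obtain ⟨x, hx, y, hy, z, hz, hs⟩ := hna
  obtain ⟨honly, i, j, o, p, hop, hij, hi, hj⟩ := three_only (R := Subst R σ) ![x, y, z]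
    (by
      intro o
      fin_cases o
      · exact hx
      · exact hy
      · exact hz) (x + y + z) rfl hs slice ident
  obtain ⟨s, hsd⟩ : ∃ s, s = x + y + z := ⟨_, rfl⟩
  obtain ⟨pts, hpts⟩ : ∃ pts : Fin 3 → κ → ZMod 2, pts = ![x, y, z] := ⟨_, rfl⟩
  rw [← hsd] at hi hj
  rw [← hpts] at honly hi hj
  have hsum : pts 0 + pts 1 + pts 2 = s := by rw [hpts, hsd]; rfl
  have hmem : ∀ o, pts o ∈ Subst R σ := by
    intro o
    rw [hpts]
    fin_cases o
    · exact hx
    · exact hy
    · exact hz
  obtain ⟨q, hqo, hqp, hall⟩ : ∃ q : Fin 3, q ≠ o ∧ q ≠ p ∧ ∀ r : Fin 3, r = o ∨ r = p ∨ r = q := by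
    have : ∀ o p : Fin 3, o ≠ p → ∃ q : Fin 3, q ≠ o ∧ q ≠ p ∧
        ∀ r : Fin 3, r = o ∨ r = p ∨ r = q := by decide
    exact this o p hop
  have hsum' : pts o + pts p + pts q = s := by
    have h1 : ∀ o p q : Fin 3, o ≠ p → q ≠ o → q ≠ p → pts o + pts p + pts q =
        pts 0 + pts 1 + pts 2 := by
      intro o p q h1 h2 h3
      have h4 : ({o, p, q} : Finset (Fin 3)) = Finset.univ := by
        revert o p q; decide
      have h5 : ∑ r ∈ ({o, p, q} : Finset (Fin 3)), pts r = pts o + pts p + pts q := by
        rw [Finset.sum_insert (by simp [h1, Ne.symm h2]), Finset.sum_insert (by simp [Ne.symm h3]),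
          Finset.sum_singleton, add_assoc]
      rw [← h5, h4, Fin.sum_univ_three]
    rw [h1 o p q hop hqo hqp, hsum]
  have oi := hi o
  have pi' := hi p
  have qi := hi q
  have oj := hj o
  have pj := hj p
  have qj := hj q
  rw [if_pos rfl] at oi pj
  rw [if_neg (Ne.symm hop)] at pi'
  rw [if_neg hqo] at qi
  rw [if_neg hop] at oj
  rw [if_neg hqp] at qj
  refine ⟨κ, inferInstance, inferInstance, σ, i, j, s, pts q + pts o, pts q + pts p, hij, hle,
    ?_, ?_, ?_, ?_, ?_⟩
  · rw [Pi.add_apply, qi, oi]; generalize s i = a; revert a; decide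
  · rw [Pi.add_apply, qj, oj]; generalize s j = a; revert a; decide
  · rw [Pi.add_apply, qi, pi']; generalize s i = a; revert a; decide
  · rw [Pi.add_apply, qj, pj]; generalize s j = a; revert a; decide
  · intro u
    have hsk : ∀ k, s k = pts o k + pts p k + pts q k := by
      intro k; rw [← hsum']; rfl
    -- values of the three points
    have val : ∀ k, pts o k = s k + 0 * (pts q + pts o) k + 1 * (pts q + pts p) k ∧
        pts p k = s k + 1 * (pts q + pts o) k + 0 * (pts q + pts p) k ∧
        pts q k = s k + 1 * (pts q + pts o) k + 1 * (pts q + pts p) k := by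
      intro k
      rw [hsk k, Pi.add_apply, Pi.add_apply]
      generalize pts o k = a; generalize pts p k = b; generalize pts q k = c
      revert a b c; decide
    constructor
    · intro hu
      obtain ⟨r, hr⟩ := honly u hu
      have e1 : ∀ a : ZMod 2, a + 0 + a = 0 := by decide
      have e2 : ∀ a : ZMod 2, a + 1 + a = 1 := by decide
      rcases hall r with h | h | h
      · rw [hr, h, oi, oj, e1, e2]
        exact ⟨Or.inr rfl, fun k => (val k).1⟩
      · rw [hr, h, pi', pj, e1, e2]
        exact ⟨Or.inl rfl, fun k => (val k).2.1⟩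
      · rw [hr, h, qi, qj, e2, e2]
        exact ⟨Or.inl rfl, fun k => (val k).2.2⟩
    · rintro ⟨hor, hall'⟩
      have h01 : ∀ a : ZMod 2, a = 0 ∨ a = 1 := by decide
      rcases h01 (u i + s i) with a1 | a1 <;> rcases h01 (u j + s j) with a2 | a2
      · exfalso
        rcases hor with h | h
        · rw [a1] at h; exact absurd h (by decide)
        · rw [a2] at h; exact absurd h (by decide)
      · have : u = pts o := by
          funext k
          rw [hall' k, a1, a2]; exact (val k).1.symm
        rw [this]; exact hmem o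
      · have : u = pts p := by
          funext k
          rw [hall' k, a1, a2]; exact (val k).2.1.symm
        rw [this]; exact hmem p
      · have : u = pts q := by
          funext k
          rw [hall' k, a1, a2]; exact (val k).2.2.symm
        rw [this]; exact hmem q

end Pool.Agent.Dichotomy
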