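import Pool.Agent.Helper91.Dich.Defs
import Pool.Agent.Helper91.Dich.Minor3

/-!
The instance over a language that is not affine: after fixing two variables to `0` and `1` its
solutions are exactly the images of the vertex covers under an affine map.
-/

namespace Pool.Agent.Dichotomy

open Finset

set_option linter.unusedSectionVars false

/-- **The instance.** -/
theorem exists_lift3 {V : Type} [Fintype V] [DecidableEq V] (G : SimpleGraph V)
    (E : Finset (V × V)) (hE : ∀ p ∈ E, G.Adj p.1 p.2) (hEG : ∀ u v, G.Adj u v →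
      (u, v) ∈ E ∨ (v, u) ∈ E) (col : V → Bool) (hcol : ∀ p ∈ E, col p.1 = true ∧ col p.2 = false)
    {r : ℕ} {R : Set (Fin r → ZMod 2)} (hR : ¬ IsAffine R) (N : ℕ)
    (hN : Fintype.card V + 2 + r * E.card ≤ N) :
    ∃ (I : List (Constraint N)) (z0 z1 : Fin N) (emb : V → Fin N) (τ : V → ZMod 2)
      (l0 : Fin N → ZMod 2) (Λ : (V → ZMod 2) →ₗ[ZMod 2] (Fin N → ZMod 2)),
      I.length ≤ E.card + N ∧ (∀ c ∈ I, c.arity = r ∧ HEq c.rel R) ∧
      (∀ y ∈ Sol I, y z0 = 0 → y z1 = 1 → ∃ x ∈ VC G, y = l0 + Λ x) ∧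
      (∀ x ∈ VC G, l0 + Λ x ∈ Sol I) ∧ l0 z0 = 0 ∧ l0 z1 = 1 ∧ (∀ u, l0 (emb u) = τ u) ∧
      (∀ x, Λ x z0 = 0 ∧ Λ x z1 = 0 ∧ ∀ u, Λ x (emb u) = x u) := by
  classical
  obtain ⟨κ, _, _, σ, i, j, s, A, B, hij, hκ, hAi, hAj, hBi, hBj, hmin⟩ := exists_minor3 hR
  rw [Fintype.card_fin] at hκ
  -- the variables
  let T : Type _ := V ⊕ (ZMod 2) ⊕ (E × {k : κ // k ≠ i ∧ k ≠ j})
  have hT : Fintype.card T ≤ N := by
    have h1 : Fintype.card T = Fintype.card V + (2 + E.card *
        Fintype.card {k : κ // k ≠ i ∧ k ≠ j}) := by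
      simp only [T, Fintype.card_sum, Fintype.card_prod, Fintype.card_coe]
      rw [ZMod.card]
    have h2 : Fintype.card {k : κ // k ≠ i ∧ k ≠ j} ≤ r :=
      (Fintype.card_subtype_le _).trans hκ
    have h3 : E.card * Fintype.card {k : κ // k ≠ i ∧ k ≠ j} ≤ r * E.card := by
      rw [mul_comm r]; exact Nat.mul_le_mul_left _ h2
    omega
  obtain ⟨e, he⟩ : ∃ e : T → Fin N, Function.Injective e := by
    have : Fintype.card T ≤ Fintype.card (Fin N) := by rw [Fintype.card_fin]; exact hT
    obtain ⟨f⟩ := Function.Embedding.nonempty_of_card_le this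
    exact ⟨f, f.injective⟩
  -- the arguments of an edge constraint, in terms of the minor
  let ar : E → κ → T := fun p k =>
    if hi : k = i then Sum.inl p.1.1 else if hj : k = j then Sum.inl p.1.2 else
      Sum.inr (Sum.inr (p, ⟨k, hi, hj⟩))
  let con : E → Constraint N := fun p =>
    ⟨r, R, fun k => Sum.elim (fun k' => e (ar p k')) (fun d => e (Sum.inr (Sum.inl d))) (σ k)⟩
  -- the constraint of a padding variable
  let pad : Fin N → Constraint N := fun q =>
    ⟨r, R, fun k => Sum.elim (fun k' => if k' = i then q else e (Sum.inr (Sum.inl (s k' + A k'))))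
      (fun d => e (Sum.inr (Sum.inl d))) (σ k)⟩
  let Pd : Finset (Fin N) := Finset.univ.filter fun q => ¬ ∃ t, e t = q
  let I : List (Constraint N) := (Finset.univ : Finset E).toList.map con ++ Pd.toList.map pad
  have hI : ∀ c, c ∈ I ↔ (∃ p : E, con p = c) ∨ (∃ q, (¬ ∃ t, e t = q) ∧ pad q = c) := by
    intro c; simp [I, Pd]
  let τ : V → ZMod 2 := fun u => if col u = true then s i else s j
  let b0 : T → ZMod 2 := fun t => match t with
    | Sum.inl u => τ u
    | Sum.inr (Sum.inl c) => c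
    | Sum.inr (Sum.inr q) => s q.2
  let b1 : T → ((V → ZMod 2) →ₗ[ZMod 2] ZMod 2) := fun t => match t with
    | Sum.inl u => LinearMap.proj u
    | Sum.inr (Sum.inl _) => 0
    | Sum.inr (Sum.inr q) => A q.2 • LinearMap.proj q.1.1.1 + B q.2 • LinearMap.proj q.1.1.2
  let l0 : Fin N → ZMod 2 := fun q => if hq : ∃ t, e t = q then b0 hq.choose else s i + 1
  let Λ : (V → ZMod 2) →ₗ[ZMod 2] (Fin N → ZMod 2) :=
    LinearMap.pi fun q => if hq : ∃ t, e t = q then b1 hq.choose else 0
  have hl0 : ∀ t, l0 (e t) = b0 t := by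
    intro t
    have hex : ∃ t', e t' = e t := ⟨t, rfl⟩
    have : l0 (e t) = b0 hex.choose := by simp only [l0, dif_pos hex]
    rw [this, he hex.choose_spec]
  have hΛ : ∀ x t, Λ x (e t) = b1 t x := by
    intro x t
    have hex : ∃ t', e t' = e t := ⟨t, rfl⟩
    have : Λ x (e t) = b1 hex.choose x := by
      simp only [Λ, LinearMap.pi_apply, dif_pos hex]
    rw [this, he hex.choose_spec]
  have hl0' : ∀ q, (¬ ∃ t, e t = q) → l0 q = s i + 1 := by
    intro q hq; simp only [l0, dif_neg hq]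
  have hΛ' : ∀ x q, (¬ ∃ t, e t = q) → Λ x q = 0 := by
    intro x q hq; simp only [Λ, LinearMap.pi_apply, dif_neg hq, LinearMap.zero_apply]
  have hs1 : ∀ a : ZMod 2, a + a = 0 := zmod2_add_self
  -- satisfaction of an edge constraint
  have hedge : ∀ (y : Fin N → ZMod 2), y (e (Sum.inr (Sum.inl 0))) = 0 →
      y (e (Sum.inr (Sum.inl 1))) = 1 → ∀ p : E,
      ((fun k => y ((con p).scope k)) ∈ (con p).rel ↔
        (fun k => y (e (ar p k))) ∈ Subst R σ) := by
    intro y h0 h1 p
    have hd : ∀ d : ZMod 2, y (e (Sum.inr (Sum.inl d))) = d := by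
      intro d
      have h01 : ∀ d : ZMod 2, d = 0 ∨ d = 1 := by decide
      rcases h01 d with rfl | rfl
      · exact h0
      · exact h1
    rw [mem_Subst]
    have : (fun k => y ((con p).scope k)) =
        fun k => Sum.elim (fun k => y (e (ar p k))) id (σ k) := by
      funext k
      show y (Sum.elim (fun k' => e (ar p k')) (fun d => e (Sum.inr (Sum.inl d))) (σ k)) = _
      rcases σ k with a | a
      · rfl
      · exact hd a
    rw [this]
  have hpad : ∀ (y : Fin N → ZMod 2), y (e (Sum.inr (Sum.inl 0))) = 0 →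
      y (e (Sum.inr (Sum.inl 1))) = 1 → ∀ q : Fin N,
      ((fun k => y ((pad q).scope k)) ∈ (pad q).rel ↔ y q = s i + 1) := by
    intro y h0 h1 q
    have hd : ∀ d : ZMod 2, y (e (Sum.inr (Sum.inl d))) = d := by
      intro d
      have h01 : ∀ d : ZMod 2, d = 0 ∨ d = 1 := by decide
      rcases h01 d with rfl | rfl
      · exact h0
      · exact h1
    have h2 : (fun k => y ((pad q).scope k)) =
        fun k => Sum.elim (fun k' => if k' = i then y q else s k' + A k') id (σ k) := by
      funext k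
      show y (Sum.elim (fun k' => if k' = i then q else e (Sum.inr (Sum.inl (s k' + A k'))))
        (fun d => e (Sum.inr (Sum.inl d))) (σ k)) = _
      rcases σ k with a | a
      · show y (if a = i then q else e (Sum.inr (Sum.inl (s a + A a)))) =
          if a = i then y q else s a + A a
        by_cases h : a = i
        · rw [if_pos h, if_pos h]
        · rw [if_neg h, if_neg h]; exact hd _
      · exact hd a
    have h3 : (fun k => y ((pad q).scope k)) ∈ (pad q).rel ↔
        (fun k' => if k' = i then y q else s k' + A k') ∈ Subst R σ := by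
      rw [h2]; rfl
    rw [h3, hmin]
    simp only [if_true, if_neg (Ne.symm hij), hAj, add_zero, hs1, zero_mul]
    have e1 : ∀ a b : ZMod 2, a + b = 1 ↔ a = b + 1 := by decide
    constructor
    · rintro ⟨h | h, -⟩
      · exact (e1 _ _).1 h
      · exact absurd h (by decide)
    · intro h
      refine ⟨Or.inl ((e1 _ _).2 h), fun k => ?_⟩
      have h4 : y q + s i = 1 := (e1 _ _).2 h
      rw [h4, one_mul]
      by_cases hk : k = i
      · rw [if_pos hk, hk, hAi]; exact h
      · rw [if_neg hk]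
  refine ⟨I, e (Sum.inr (Sum.inl 0)), e (Sum.inr (Sum.inl 1)), fun u => e (Sum.inl u), τ, l0, Λ,
    ?_, ?_, ?_, ?_, hl0 _, hl0 _, fun u => hl0 _, fun x => ⟨?_, ?_, fun u => ?_⟩⟩
  · have h1 : Pd.card ≤ N := by
      have := Finset.card_le_univ Pd
      rwa [Fintype.card_fin] at this
    simp only [I, List.length_append, List.length_map, Finset.length_toList, Finset.card_univ,
      Fintype.card_coe]
    omega
  · intro c hc
    rcases (hI c).1 hc with ⟨p, rfl⟩ | ⟨q, -, rfl⟩
    · exact ⟨rfl, HEq.rfl⟩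
    · exact ⟨rfl, HEq.rfl⟩
  · intro y hy h0 h1
    have hy1 : ∀ p : E, (fun k => y (e (ar p k))) ∈ Subst R σ := fun p =>
      (hedge y h0 h1 p).1 (hy (con p) ((hI _).2 (Or.inl ⟨p, rfl⟩)))
    have hy2 : ∀ q, (¬ ∃ t, e t = q) → y q = s i + 1 := fun q hq =>
      (hpad y h0 h1 q).1 (hy (pad q) ((hI _).2 (Or.inr ⟨q, hq, rfl⟩)))
    have hari : ∀ p : E, ar p i = Sum.inl p.1.1 := by intro p; simp [ar]
    have harj : ∀ p : E, ar p j = Sum.inl p.1.2 := by intro p; simp [ar, Ne.symm hij]
    have hpair : ∀ p : E, τ p.1.1 = s i ∧ τ p.1.2 = s j := by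
      intro p
      obtain ⟨c1, c2⟩ := hcol p.1 p.2
      exact ⟨by simp [τ, c1], by simp [τ, c2]⟩
    refine ⟨fun u => y (e (Sum.inl u)) + τ u, ?_, ?_⟩
    · have key : ∀ p ∈ E, y (e (Sum.inl p.1)) + τ p.1 = 1 ∨ y (e (Sum.inl p.2)) + τ p.2 = 1 := by
        intro p hp
        have h2 := ((hmin _).1 (hy1 ⟨p, hp⟩)).1
        simp only [hari, harj] at h2
        obtain ⟨t1, t2⟩ := hpair ⟨p, hp⟩
        rw [t1, t2]; exact h2
      intro u v huv
      rcases hEG u v huv with h | h
      · exact key _ h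
      · exact (key _ h).symm
    · funext q
      by_cases hq : ∃ t, e t = q
      · obtain ⟨t, rfl⟩ := hq
        rw [Pi.add_apply, hl0, hΛ]
        rcases t with u | c | ⟨p, k, hki, hkj⟩
        · show y (e (Sum.inl u)) = τ u + (y (e (Sum.inl u)) + τ u)
          have : ∀ a b : ZMod 2, a = b + (a + b) := by decide
          exact this _ _
        · show y (e (Sum.inr (Sum.inl c))) = c + 0
          rw [add_zero]
          have h01 : ∀ d : ZMod 2, d = 0 ∨ d = 1 := by decide
          rcases h01 c with rfl | rfl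
          · exact h0
          · exact h1
        · have h2 := ((hmin _).1 (hy1 p)).2 k
          have hark : ar p k = Sum.inr (Sum.inr (p, ⟨k, hki, hkj⟩)) := by simp [ar, hki, hkj]
          simp only [hari, harj, hark] at h2
          rw [h2]
          obtain ⟨t1, t2⟩ := hpair p
          show _ = s k + (A k * (y (e (Sum.inl p.1.1)) + τ p.1.1) +
            B k * (y (e (Sum.inl p.1.2)) + τ p.1.2))
          rw [t1, t2]; ring
      · rw [Pi.add_apply, hl0' q hq, hΛ' _ q hq, add_zero]
        exact hy2 q hq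
  · intro x hx c hc
    have h0 : (l0 + Λ x) (e (Sum.inr (Sum.inl 0))) = 0 := by
      rw [Pi.add_apply, hl0, hΛ]; rfl
    have h1 : (l0 + Λ x) (e (Sum.inr (Sum.inl 1))) = 1 := by
      rw [Pi.add_apply, hl0, hΛ]; rfl
    rcases (hI c).1 hc with ⟨p, rfl⟩ | ⟨q, hq, rfl⟩
    · refine (hedge _ h0 h1 p).2 ?_
      rw [hmin]
      have hari : ar p i = Sum.inl p.1.1 := by simp [ar]
      have harj : ar p j = Sum.inl p.1.2 := by simp [ar, Ne.symm hij]
      obtain ⟨c1, c2⟩ := hcol p.1 p.2
      have t1 : τ p.1.1 = s i := by simp [τ, c1]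
      have t2 : τ p.1.2 = s j := by simp [τ, c2]
      have vi : (l0 + Λ x) (e (ar p i)) = s i + x p.1.1 := by
        rw [hari, Pi.add_apply, hl0, hΛ]
        show τ p.1.1 + x p.1.1 = _
        rw [t1]
      have vj : (l0 + Λ x) (e (ar p j)) = s j + x p.1.2 := by
        rw [harj, Pi.add_apply, hl0, hΛ]
        show τ p.1.2 + x p.1.2 = _
        rw [t2]
      have e2 : ∀ a b : ZMod 2, a + b + a = b := by decide
      rw [vi, vj, e2, e2]
      refine ⟨hx _ _ (hE p.1 p.2), fun k => ?_⟩
      by_cases hki : k = i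
      · subst hki
        rw [vi, hAi, hBi]; ring
      · by_cases hkj : k = j
        · subst hkj
          rw [vj, hAj, hBj]; ring
        · have hark : ar p k = Sum.inr (Sum.inr (p, ⟨k, hki, hkj⟩)) := by simp [ar, hki, hkj]
          rw [hark, Pi.add_apply, hl0, hΛ]
          show s k + (A k * x p.1.1 + B k * x p.1.2) = _
          ring
    · refine (hpad _ h0 h1 q).2 ?_
      rw [Pi.add_apply, hl0' q hq, hΛ' _ q hq, add_zero]
  · rw [hΛ]; rfl
  · rw [hΛ]; rfl
  · rw [hΛ]; rfl

end Pool.Agent.Dichotomy
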