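import Mathlib

/-!
A relation with few pairs has a large independent set; fooling sets and dimensions.
-/

namespace Pool.Agent.Dichotomy

open Finset Module

theorem exists_indep {α : Type*} [DecidableEq α] (A : Finset α) (Bad : α → α → Prop)
    [∀ x y, Decidable (Bad x y)] (hrefl : ∀ x ∈ A, Bad x x) :
    ∃ J ⊆ A, (∀ x ∈ J, ∀ y ∈ J, x ≠ y → ¬ Bad x y) ∧
      A.card ^ 2 ≤ 8 * (J.card * ((A ×ˢ A).filter fun p => Bad p.1 p.2).card) := by
  classical
  obtain ⟨B, hB⟩ : ∃ B, B = ((A ×ˢ A).filter fun p => Bad p.1 p.2).card := ⟨_, rfl⟩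
  rw [← hB]
  rcases A.eq_empty_or_nonempty with rfl | hne
  · exact ⟨∅, subset_rfl, by simp, by simp⟩
  let dg : α → ℕ := fun x => (A.filter fun y => Bad x y).card + (A.filter fun y => Bad y x).card
  have hsum : ∑ x ∈ A, dg x = 2 * B := by
    rw [sum_add_distrib]
    have h1 : ∑ x ∈ A, (A.filter fun y => Bad x y).card = B := by
      rw [hB, card_filter, sum_product]
      exact sum_congr rfl fun x _ => by rw [card_filter]
    have h2 : ∑ x ∈ A, (A.filter fun y => Bad y x).card = B := by
      rw [hB, card_filter, sum_product_right]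
      exact sum_congr rfl fun x _ => by rw [card_filter]
    rw [h1, h2]; ring
  have hBpos : 0 < B := by
    obtain ⟨x, hx⟩ := hne
    rw [hB, card_pos]
    exact ⟨(x, x), mem_filter.2 ⟨mem_product.2 ⟨hx, hx⟩, hrefl x hx⟩⟩
  have hMpos : 0 < A.card := card_pos.2 hne
  let A' := A.filter fun x => A.card * dg x ≤ 4 * B
  have hA' : A.card ≤ 2 * A'.card := by
    have h1 : A'.card + (A.filter fun x => ¬ (A.card * dg x ≤ 4 * B)).card = A.card :=
      card_filter_add_card_filter_not _
    have h2 : (A.filter fun x => ¬ (A.card * dg x ≤ 4 * B)).card * (4 * B) ≤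
        A.card * (2 * B) := by
      rw [← hsum, mul_sum]
      calc (A.filter fun x => ¬ (A.card * dg x ≤ 4 * B)).card * (4 * B)
          = ∑ x ∈ A.filter fun x => ¬ (A.card * dg x ≤ 4 * B), 4 * B := by
            rw [sum_const, smul_eq_mul]
        _ ≤ ∑ x ∈ A.filter fun x => ¬ (A.card * dg x ≤ 4 * B), A.card * dg x :=
            sum_le_sum fun x hx => (not_le.1 (mem_filter.1 hx).2).le
        _ ≤ ∑ x ∈ A, A.card * dg x := sum_le_sum_of_subset (filter_subset _ _)
    have h3 : (A.filter fun x => ¬ (A.card * dg x ≤ 4 * B)).card * 2 ≤ A.card := by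
      have : (A.filter fun x => ¬ (A.card * dg x ≤ 4 * B)).card * 2 * (2 * B) ≤
          A.card * (2 * B) := by
        calc _ = (A.filter fun x => ¬ (A.card * dg x ≤ 4 * B)).card * (4 * B) := by ring
          _ ≤ _ := h2
      exact Nat.le_of_mul_le_mul_right this (by positivity)
    omega
  -- a maximal independent set
  obtain ⟨F, hF⟩ : ∃ F : Finset (Finset α), ∀ J, J ∈ F ↔ J ⊆ A' ∧
      ∀ x ∈ J, ∀ y ∈ J, x ≠ y → ¬ Bad x y :=
    ⟨A'.powerset.filter fun J => ∀ x ∈ J, ∀ y ∈ J, x ≠ y → ¬ Bad x y, by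
      intro J; rw [mem_filter, mem_powerset]⟩
  obtain ⟨J, hJF, hJmax⟩ := exists_max_image F card ⟨∅, (hF _).2 ⟨empty_subset _, by simp⟩⟩
  obtain ⟨hJA', hJ⟩ := (hF _).1 hJF
  refine ⟨J, hJA'.trans (filter_subset _ _), hJ, ?_⟩
  have hcov : A' ⊆ J.biUnion fun j => (A.filter fun y => Bad j y) ∪ (A.filter fun y => Bad y j) := by
    intro x hx
    rw [mem_biUnion]
    by_contra hcon
    push Not at hcon
    have hxA : x ∈ A := (mem_filter.1 hx).1
    have hnot : ∀ j ∈ J, ¬ Bad j x ∧ ¬ Bad x j := by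
      intro j hj
      have := hcon j hj
      rw [mem_union, not_or, mem_filter, mem_filter] at this
      exact ⟨fun h => this.1 ⟨hxA, h⟩, fun h => this.2 ⟨hxA, h⟩⟩
    have hxJ : x ∉ J := fun h => (hnot x h).1 (hrefl x hxA)
    have h2 : insert x J ∈ F := by
      rw [hF]
      refine ⟨insert_subset hx hJA', ?_⟩
      intro a ha b hb hab
      rw [mem_insert] at ha hb
      rcases ha with rfl | ha
      · rcases hb with rfl | hb
        · exact absurd rfl hab
        · exact (hnot b hb).2
      · rcases hb with rfl | hb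
        · exact (hnot a ha).1
        · exact hJ a ha b hb hab
    have := hJmax _ h2
    rw [card_insert_of_notMem hxJ] at this
    omega
  have h1 : A'.card ≤ ∑ j ∈ J, dg j :=
    (card_le_card hcov).trans (card_biUnion_le.trans (sum_le_sum fun j _ => card_union_le _ _))
  have h2 : A.card * A'.card ≤ J.card * (4 * B) := by
    calc A.card * A'.card ≤ A.card * ∑ j ∈ J, dg j := Nat.mul_le_mul_left _ h1
      _ = ∑ j ∈ J, A.card * dg j := mul_sum _ _ _
      _ ≤ ∑ j ∈ J, 4 * B := sum_le_sum fun j hj => (mem_filter.1 (hJA' hj)).2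
      _ = J.card * (4 * B) := by rw [sum_const, smul_eq_mul]
  calc A.card ^ 2 = A.card * A.card := sq _
    _ ≤ A.card * (2 * A'.card) := Nat.mul_le_mul_left _ hA'
    _ = 2 * (A.card * A'.card) := by ring
    _ ≤ 2 * (J.card * (4 * B)) := Nat.mul_le_mul_left _ h2
    _ = 8 * (J.card * B) := by ring

/-- A fooling set gives linearly independent functions. -/
theorem fooling {K X α : Type*} [Field K] [Fintype X] (W : Submodule K (X → K)) (J : Finset α)
    (h : α → X → K) (p : α → X) (hW : ∀ a ∈ J, h a ∈ W) (hdiag : ∀ a ∈ J, h a (p a) ≠ 0)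
    (hoff : ∀ a ∈ J, ∀ b ∈ J, a ≠ b → h a (p b) = 0) : J.card ≤ finrank K W := by
  classical
  let v : J → W := fun a => ⟨h a, hW a a.2⟩
  have hli : LinearIndependent K v := by
    rw [Fintype.linearIndependent_iff]
    intro g hg b
    have h1 := congrArg (fun w : W => (w : X → K) (p b)) hg
    simp only [v, Submodule.coe_sum, Submodule.coe_smul, Finset.sum_apply, Pi.smul_apply,
      smul_eq_mul, Submodule.coe_zero, Pi.zero_apply] at h1
    rw [Finset.sum_eq_single b] at h1
    · exact (mul_eq_zero.1 h1).resolve_right (hdiag b b.2)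
    · intro a _ hab
      rw [hoff a a.2 b b.2 (fun h => hab (Subtype.ext h)), mul_zero]
    · intro h; exact absurd (mem_univ b) h
  have := hli.fintype_card_le_finrank
  simpa using this

end Pool.Agent.Dichotomy
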