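import Mathlib

/-!
Tree tensor networks over a field for functions of `n` bits.
-/

namespace Pool.Agent.Dichotomy

open Finset Module

/-- `Net K w S W`: the space `W` of functions `F_2^n → K` is the top space of a tree network of
width `w` whose leaves are the variables in `S`.  Every node of the tree carries a space of at
most `w` dimensions; at a leaf the functions depend only on the variable of the leaf; at an inner
node they are linear combinations of products `a * b`, with `a` and `b` in the spaces of the two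
children, whose variables are disjoint. -/
inductive Net (K : Type) [Field K] {n : ℕ} (w : ℕ) :
    Finset (Fin n) → Submodule K ((Fin n → ZMod 2) → K) → Prop
  | leaf (i : Fin n) (W : Submodule K ((Fin n → ZMod 2) → K)) (hw : finrank K W ≤ w)
      (h : ∀ f ∈ W, ∀ x y : Fin n → ZMod 2, x i = y i → f x = f y) : Net K w {i} W
  | node (S S' : Finset (Fin n)) (W A B : Submodule K ((Fin n → ZMod 2) → K))
      (hS : Disjoint S S') (hA : Net K w S A) (hB : Net K w S' B) (hw : finrank K W ≤ w)
      (h : W ≤ Submodule.span K {f | ∃ a ∈ A, ∃ b ∈ B, f = a * b}) : Net K w (S ∪ S') W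

variable {K : Type} [Field K] {n : ℕ}

/-- The functions that depend only on the variables in `S`. -/
def depSub (K : Type) [Field K] {n : ℕ} (S : Finset (Fin n)) :
    Submodule K ((Fin n → ZMod 2) → K) where
  carrier := {f | ∀ x y : Fin n → ZMod 2, (∀ i ∈ S, x i = y i) → f x = f y}
  add_mem' := by
    intro f g hf hg x y hxy
    rw [Pi.add_apply, Pi.add_apply, hf x y hxy, hg x y hxy]
  zero_mem' := fun _ _ _ => rfl
  smul_mem' := by
    intro c f hf x y hxy
    rw [Pi.smul_apply, Pi.smul_apply, hf x y hxy]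

theorem mem_depSub {S : Finset (Fin n)} {f : (Fin n → ZMod 2) → K} : f ∈ depSub K S ↔
    ∀ x y : Fin n → ZMod 2, (∀ i ∈ S, x i = y i) → f x = f y := Iff.rfl

theorem Net.dep {w : ℕ} {S : Finset (Fin n)} {W : Submodule K ((Fin n → ZMod 2) → K)}
    (h : Net K w S W) : W ≤ depSub K S := by
  induction h with
  | leaf i W hw h =>
    intro f hf x y hxy
    exact h f hf x y (hxy i (mem_singleton_self i))
  | node S S' W A B hS hA hB hw h ihA ihB =>
    refine h.trans (Submodule.span_le.2 ?_)
    rintro f ⟨a, ha, b, hb, rfl⟩ x y hxy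
    rw [Pi.mul_apply, Pi.mul_apply, ihA ha x y (fun i hi => hxy i (mem_union_left _ hi)),
      ihB hb x y (fun i hi => hxy i (mem_union_right _ hi))]

/-- The vector that agrees with `z` on `S` and with `y` elsewhere. -/
def mix (S : Finset (Fin n)) (z y : Fin n → ZMod 2) : Fin n → ZMod 2 :=
  fun i => if i ∈ S then z i else y i

theorem mix_of_mem {S : Finset (Fin n)} {z y : Fin n → ZMod 2} {i : Fin n} (h : i ∈ S) :
    mix S z y i = z i := if_pos h

theorem mix_of_notMem {S : Finset (Fin n)} {z y : Fin n → ZMod 2} {i : Fin n} (h : i ∉ S) :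
    mix S z y i = y i := if_neg h

theorem Net.child {S S' : Finset (Fin n)} {W A B : Submodule K ((Fin n → ZMod 2) → K)}
    (hS : Disjoint S S') (hA : A ≤ depSub K S) (hB : B ≤ depSub K S')
    (h : W ≤ Submodule.span K {f | ∃ a ∈ A, ∃ b ∈ B, f = a * b}) (F : (Fin n → ZMod 2) → K)
    (hF : ∀ y, (fun z => F (mix (S ∪ S') z y)) ∈ W) (y : Fin n → ZMod 2) :
    (fun z => F (mix S z y)) ∈ A := by
  have h1 : W ≤ A.comap (LinearMap.funLeft K K (fun z => mix S z y)) := by
    refine h.trans (Submodule.span_le.2 ?_)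
    rintro f ⟨a, ha, b, hb, rfl⟩
    rw [SetLike.mem_coe, Submodule.mem_comap]
    have e : LinearMap.funLeft K K (fun z => mix S z y) (a * b) = b y • a := by
      funext z
      rw [LinearMap.funLeft_apply, Pi.mul_apply, Pi.smul_apply, smul_eq_mul, mul_comm]
      congr 1
      · apply hB hb
        intro i hi
        exact mix_of_notMem (fun h => Finset.disjoint_left.1 hS h hi)
      · apply hA ha
        intro i hi
        exact mix_of_mem hi
    rw [e]
    exact A.smul_mem _ ha
  have h2 := h1 (hF y)
  rw [Submodule.mem_comap] at h2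
  have e : LinearMap.funLeft K K (fun z => mix S z y) (fun z => F (mix (S ∪ S') z y)) =
      fun z => F (mix S z y) := by
    funext z
    rw [LinearMap.funLeft_apply]
    congr 1
    funext i
    by_cases hi : i ∈ S ∪ S'
    · rw [mix_of_mem hi]
    · rw [mix_of_notMem hi, mix_of_notMem (fun h => hi (mem_union_left _ h))]
  rwa [e] at h2

/-- A balanced node of a tree network. -/
theorem Net.balanced {w : ℕ} {S : Finset (Fin n)} {W : Submodule K ((Fin n → ZMod 2) → K)}
    (h : Net K w S W) (F : (Fin n → ZMod 2) → K)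
    (r : Finset (Fin n) → ℕ) (hleaf : ∀ i, r {i} ≤ 1)
    (hadd : ∀ S S' : Finset (Fin n), Disjoint S S' → r (S ∪ S') ≤ r S + r S') (m : ℕ)
    (hm : 1 ≤ m) (hF : ∀ y, (fun z => F (mix S z y)) ∈ W) (hr : 2 * m < 3 * r S) :
    ∃ (S' : Finset (Fin n)) (W' : Submodule K ((Fin n → ZMod 2) → K)), finrank K W' ≤ w ∧
      (∀ y, (fun z => F (mix S' z y)) ∈ W') ∧ 2 * m < 3 * r S' ∧ 3 * r S' ≤ 4 * m := by
  induction h with
  | leaf i W hw h =>
    exact ⟨{i}, W, hw, hF, hr, by have := hleaf i; omega⟩
  | node S S' W A B hS hA hB hw h ihA ihB =>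
    by_cases hle : 3 * r (S ∪ S') ≤ 4 * m
    · exact ⟨S ∪ S', W, hw, hF, hr, hle⟩
    · have h1 := hadd S S' hS
      rcases lt_or_ge (2 * m) (3 * r S) with h2 | h2
      · exact ihA (fun y => Net.child hS hA.dep hB.dep h F hF y) h2
      · have h3 : 2 * m < 3 * r S' := by omega
        refine ihB (fun y => ?_) h3
        refine Net.child (W := W) hS.symm hB.dep hA.dep ?_ F (fun y => ?_) y
        · refine h.trans (Submodule.span_mono ?_)
          rintro f ⟨a, ha, b, hb, rfl⟩
          exact ⟨b, hb, a, ha, mul_comm _ _⟩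
        · rw [union_comm]; exact hF y

end Pool.Agent.Dichotomy
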