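import Pool.Agent.Helper91.Dich.Defs

/-!
The instance over a language that is not affine, with an affine map that lifts the vertex covers
to solutions.
-/

namespace Pool.Agent.Dichotomy

open Finset

set_option linter.unusedSectionVars false

theorem lift_value (w11 w01 w10 s t : ZMod 2) :
    ((s = 1 ∧ t = 1) → w11 + w01 + w10 + (s * (w11 + w01) + t * (w11 + w10)) = w11) ∧
    ((s = 0 ∧ t = 1) → w11 + w01 + w10 + (s * (w11 + w01) + t * (w11 + w10)) = w01) ∧
    ((s = 1 ∧ t = 0) → w11 + w01 + w10 + (s * (w11 + w01) + t * (w11 + w10)) = w10) := by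
  revert w11 w01 w10 s t; decide

/-- The instance built from a bipartite graph and a relation with a three element minor. -/
theorem exists_lift {V : Type*} [Fintype V] [DecidableEq V] (G : SimpleGraph V)
    (E : Finset (V × V)) (hE : ∀ p ∈ E, G.Adj p.1 p.2) (hEG : ∀ u v, G.Adj u v →
      (u, v) ∈ E ∨ (v, u) ∈ E) (col : V → Bool) (hcol : ∀ p ∈ E, col p.1 = true ∧ col p.2 = false)
    {r : ℕ} {R : Set (Fin r → ZMod 2)} (hR : ¬ IsAffine R) (N : ℕ)
    (hN : Fintype.card V + 2 + r * E.card ≤ N) :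
    ∃ (I : List (Constraint N)) (z0 z1 : Fin N) (emb : V → Fin N) (τ : V → ZMod 2)
      (l0 : Fin N → ZMod 2) (Λ : (V → ZMod 2) →ₗ[ZMod 2] (Fin N → ZMod 2)),
      I.length = E.card ∧ (∀ c ∈ I, c.arity = r ∧ HEq c.rel R) ∧
      (∀ y ∈ Sol I, y z0 = 0 → y z1 = 1 → (fun u => y (emb u) + τ u) ∈ VC G) ∧
      (∀ x ∈ VC G, l0 + Λ x ∈ Sol I) ∧ l0 z0 = 0 ∧ l0 z1 = 1 ∧ (∀ u, l0 (emb u) = τ u) ∧
      (∀ x, Λ x z0 = 0 ∧ Λ x z1 = 0 ∧ ∀ u, Λ x (emb u) = x u) := by
  classical
  obtain ⟨i, j, hij, S, hiS, hjS, ρ, α, β, hmin⟩ := exists_minor hR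
  -- the variables
  let T : Type _ := V ⊕ (ZMod 2) ⊕ (E × Fin r)
  have hT : Fintype.card T ≤ N := by
    have : Fintype.card T = Fintype.card V + (2 + E.card * r) := by
      simp only [T, Fintype.card_sum, Fintype.card_prod, Fintype.card_coe, Fintype.card_fin]
      rw [ZMod.card]
    rw [this]; rw [mul_comm r] at hN; omega
  obtain ⟨e, he⟩ : ∃ e : T → Fin N, Function.Injective e := by
    have : Fintype.card T ≤ Fintype.card (Fin N) := by rw [Fintype.card_fin]; exact hT
    obtain ⟨f⟩ := Function.Embedding.nonempty_of_card_le this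
    exact ⟨f, f.injective⟩
  let sc : E → Fin r → T := fun p k =>
    if k = i then Sum.inl p.1.1 else if k = j then Sum.inl p.1.2 else
      if k ∈ S then Sum.inr (Sum.inl (ρ k)) else Sum.inr (Sum.inr (p, k))
  let con : E → Constraint N := fun p => ⟨r, R, fun k => e (sc p k)⟩
  let I : List (Constraint N) := (Finset.univ : Finset E).toList.map con
  have hI : ∀ c, c ∈ I ↔ ∃ p : E, con p = c := by
    intro c; simp [I]
  let τ : V → ZMod 2 := fun u => if col u = true then α else β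
  -- the witnesses
  have hw : ∀ s t : ZMod 2, ∃ w : Fin r → ZMod 2, (s = 1 ∨ t = 1) → w ∈ R ∧
      (∀ k ∈ S, w k = ρ k) ∧ w i = s + α ∧ w j = t + β := by
    intro s t
    by_cases hst : s = 1 ∨ t = 1
    · obtain ⟨w, h1, h2, h3, h4⟩ := (hmin (s + α) (t + β)).2 (by
        rintro ⟨h1, h2⟩
        have h3 : ∀ a b : ZMod 2, a + b = b → a = 0 := by decide
        rcases hst with h | h
        · rw [h3 _ _ h1] at h; exact absurd h (by decide)
        · rw [h3 _ _ h2] at h; exact absurd h (by decide))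
      exact ⟨w, fun _ => ⟨h1, h2, h3, h4⟩⟩
    · exact ⟨0, fun h => absurd h hst⟩
  choose w hw using hw
  let A : Fin r → ZMod 2 := fun k => w 1 1 k + w 0 1 k
  let B : Fin r → ZMod 2 := fun k => w 1 1 k + w 1 0 k
  let c0 : Fin r → ZMod 2 := fun k => w 1 1 k + w 0 1 k + w 1 0 k
  let b0 : T → ZMod 2 := fun t => match t with
    | Sum.inl u => τ u
    | Sum.inr (Sum.inl c) => c
    | Sum.inr (Sum.inr q) => c0 q.2
  let b1 : T → ((V → ZMod 2) →ₗ[ZMod 2] ZMod 2) := fun t => match t with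
    | Sum.inl u => LinearMap.proj u
    | Sum.inr (Sum.inl _) => 0
    | Sum.inr (Sum.inr q) => A q.2 • LinearMap.proj q.1.1.1 + B q.2 • LinearMap.proj q.1.1.2
  let l0 : Fin N → ZMod 2 := fun q => if hq : ∃ t, e t = q then b0 hq.choose else 0
  let Λ : (V → ZMod 2) →ₗ[ZMod 2] (Fin N → ZMod 2) :=
    LinearMap.pi fun q => if hq : ∃ t, e t = q then b1 hq.choose else 0
  have hl0 : ∀ t, l0 (e t) = b0 t := by
    intro t
    have hex : ∃ t', e t' = e t := ⟨t, rfl⟩
    have : l0 (e t) = b0 hex.choose := by simp only [l0, dif_pos hex]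
    rw [this, he hex.choose_spec]
  have hΛ : ∀ x t, Λ x (e t) = b1 t x := by
    intro x t
    have hex : ∃ t', e t' = e t := ⟨t, rfl⟩
    have : Λ x (e t) = b1 hex.choose x := by
      simp only [Λ, LinearMap.pi_apply, dif_pos hex]
    rw [this, he hex.choose_spec]
  refine ⟨I, e (Sum.inr (Sum.inl 0)), e (Sum.inr (Sum.inl 1)), fun u => e (Sum.inl u), τ, l0, Λ,
    ?_, ?_, ?_, ?_, hl0 _, hl0 _, fun u => hl0 _, fun x => ⟨?_, ?_, fun u => ?_⟩⟩
  · simp [I]
  · intro c hc
    obtain ⟨p, rfl⟩ := (hI c).1 hc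
    exact ⟨rfl, HEq.rfl⟩
  · intro y hy h0 h1
    have h2 : ∀ a b : ZMod 2, a + b = 1 ↔ a ≠ b := by decide
    have key : ∀ p ∈ E, y (e (Sum.inl p.1)) + τ p.1 = 1 ∨ y (e (Sum.inl p.2)) + τ p.2 = 1 := by
      intro p hp
      have hc : (fun k => y (e (sc ⟨p, hp⟩ k))) ∈ R := hy (con ⟨p, hp⟩) ((hI _).2 ⟨⟨p, hp⟩, rfl⟩)
      have h5 := (hmin (y (e (Sum.inl p.1))) (y (e (Sum.inl p.2)))).1 ⟨_, hc, ?_, ?_, ?_⟩
      · obtain ⟨c1, c2⟩ := hcol p hp
        have t1 : τ p.1 = α := by simp [τ, c1]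
        have t2 : τ p.2 = β := by simp [τ, c2]
        rw [t1, t2, h2, h2]
        tauto
      · intro k hk
        have hki : k ≠ i := by rintro rfl; exact hiS hk
        have hkj : k ≠ j := by rintro rfl; exact hjS hk
        have hsck : sc ⟨p, hp⟩ k = Sum.inr (Sum.inl (ρ k)) := by simp [sc, hki, hkj, hk]
        show y (e (sc ⟨p, hp⟩ k)) = ρ k
        rw [hsck]
        have h3 : ∀ a : ZMod 2, a = 0 ∨ a = 1 := by decide
        rcases h3 (ρ k) with h | h
        · rw [h]; exact h0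
        · rw [h]; exact h1
      · show y (e (sc ⟨p, hp⟩ i)) = _
        have : sc ⟨p, hp⟩ i = Sum.inl p.1 := by simp [sc]
        rw [this]
      · show y (e (sc ⟨p, hp⟩ j)) = _
        have : sc ⟨p, hp⟩ j = Sum.inl p.2 := by simp [sc, hij.symm]
        rw [this]
    intro u v huv
    rcases hEG u v huv with h | h
    · exact key _ h
    · exact (key _ h).symm
  · intro x hx c hc
    obtain ⟨p, rfl⟩ := (hI c).1 hc
    show (fun k => (l0 + Λ x) (e (sc p k))) ∈ R
    have hst : x p.1.1 = 1 ∨ x p.1.2 = 1 := hx _ _ (hE p.1 p.2)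
    obtain ⟨c1, c2⟩ := hcol p.1 p.2
    have t1 : τ p.1.1 = α := by simp [τ, c1]
    have t2 : τ p.1.2 = β := by simp [τ, c2]
    obtain ⟨hwR, hwS, hwi, hwj⟩ := hw (x p.1.1) (x p.1.2) hst
    have : (fun k => (l0 + Λ x) (e (sc p k))) = w (x p.1.1) (x p.1.2) := by
      funext k
      rw [Pi.add_apply, hl0, hΛ]
      by_cases hki : k = i
      · subst hki
        simp only [sc, if_pos, b0, b1, LinearMap.proj_apply]
        rw [hwi, t1]; exact add_comm _ _
      · by_cases hkj : k = j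
        · subst hkj
          simp only [sc, if_neg hki, if_pos, b0, b1, LinearMap.proj_apply]
          rw [hwj, t2]; exact add_comm _ _
        · by_cases hkS : k ∈ S
          · simp only [sc, if_neg hki, if_neg hkj, if_pos hkS, b0, b1, LinearMap.zero_apply]
            rw [hwS k hkS, add_zero]
          · simp only [sc, if_neg hki, if_neg hkj, if_neg hkS, b0, b1, LinearMap.add_apply,
              LinearMap.smul_apply, LinearMap.proj_apply, smul_eq_mul, c0, A, B]
            obtain ⟨q1, q2, q3⟩ := lift_value (w 1 1 k) (w 0 1 k) (w 1 0 k) (x p.1.1) (x p.1.2)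
            have h01 : ∀ a : ZMod 2, a = 0 ∨ a = 1 := by decide
            rw [mul_comm (w 1 1 k + w 0 1 k), mul_comm (w 1 1 k + w 1 0 k)]
            rcases h01 (x p.1.1) with a1 | a1 <;> rcases h01 (x p.1.2) with a2 | a2
            · exfalso
              rcases hst with h | h
              · rw [a1] at h; exact absurd h (by decide)
              · rw [a2] at h; exact absurd h (by decide)
            · rw [q2 ⟨a1, a2⟩, a1, a2]
            · rw [q3 ⟨a1, a2⟩, a1, a2]
            · rw [q1 ⟨a1, a2⟩, a1, a2]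
    rw [this]; exact hwR
  · rw [hΛ]; rfl
  · rw [hΛ]; rfl
  · rw [hΛ]; rfl

end Pool.Agent.Dichotomy
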