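import Pool.Agent.Helper91.Dich.Mix
import Pool.Agent.Helper91.Dich.Net
import Pool.Agent.Helper91.Dich.Lift
import Pool.Agent.Helper91.Dich.Indep

/-!
The width of tree networks for the solutions of an instance.
-/

namespace Pool.Agent.Dichotomy

open Finset Module

set_option linter.unusedSectionVars false

variable {N : ℕ}

/-- The projection to the coordinates in `S`. -/
def prS (S : Finset (Fin N)) : (Fin N → ZMod 2) →ₗ[ZMod 2] (Fin N → ZMod 2) where
  toFun z := mix S z 0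
  map_add' a b := by
    funext i
    by_cases h : i ∈ S
    · simp [mix, h]
    · simp [mix, h]
  map_smul' c a := by
    funext i
    by_cases h : i ∈ S
    · simp [mix, h]
    · simp [mix, h]

theorem prS_apply (S : Finset (Fin N)) (z : Fin N → ZMod 2) : prS S z = mix S z 0 := rfl

theorem mix_eq (S : Finset (Fin N)) (z y : Fin N → ZMod 2) :
    mix S z y = prS S z + prS Sᶜ y := by
  funext i
  by_cases h : i ∈ S
  · simp [prS_apply, mix, h]
  · simp [prS_apply, mix, h]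

theorem mix_self (S : Finset (Fin N)) (z : Fin N → ZMod 2) : mix S z z = z := by
  funext i
  by_cases h : i ∈ S <;> simp [mix, h]

theorem mix_univ (z y : Fin N → ZMod 2) : mix univ z y = z := by
  funext i; simp [mix]

theorem prS_union (S S' : Finset (Fin N)) (h : Disjoint S S') (z : Fin N → ZMod 2) :
    prS (S ∪ S') z = prS S z + prS S' z := by
  funext i
  have hd : i ∈ S → i ∉ S' := fun h1 h2 => Finset.disjoint_left.1 h h1 h2
  by_cases h1 : i ∈ S
  · simp [prS_apply, mix, h1, hd h1]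
  · by_cases h2 : i ∈ S'
    · simp [prS_apply, mix, h1, h2]
    · simp [prS_apply, mix, h1, h2]

theorem z2sum : ∀ a b c : ZMod 2, a + b = c → b = c + a := by decide

/-- **The width of tree networks**: the inequality. -/
theorem signed_bound {m : ℕ} (hm : 48 ≤ m) (G : SimpleGraph (Fin m ⊕ Fin m)) (D : ℕ)
    (hD : ∀ v, (G.neighborSet v).ncard ≤ D)
    (hmix : ∀ A B : Finset (Fin m), m ≤ 96 * A.card → m ≤ 48 * B.card →
        ∃ i ∈ A, ∃ j ∈ B, G.Adj (Sum.inl i) (Sum.inr j))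
    {S0 : Set (Fin N → ZMod 2)} {z0 z1 : Fin N} {emb : (Fin m ⊕ Fin m) → Fin N}
    {τ : (Fin m ⊕ Fin m) → ZMod 2} {l0 : Fin N → ZMod 2}
    {Λ : ((Fin m ⊕ Fin m) → ZMod 2) →ₗ[ZMod 2] (Fin N → ZMod 2)}
    (hI1 : ∀ y ∈ S0, y z0 = 0 → y z1 = 1 → (fun u => y (emb u) + τ u) ∈ VC G)
    (hI2 : ∀ x ∈ VC G, l0 + Λ x ∈ S0) (hl0 : l0 z0 = 0) (hl1 : l0 z1 = 1)
    (hle : ∀ u, l0 (emb u) = τ u)
    (hΛ : ∀ x, Λ x z0 = 0 ∧ Λ x z1 = 0 ∧ ∀ u, Λ x (emb u) = x u)
    {K : Type} [Field K] (f : (Fin N → ZMod 2) → K) (hf : ∀ x, f x ≠ 0 ↔ x ∈ S0)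
    (e : (Fin N → ZMod 2) ≃ₗ[ZMod 2] (Fin N → ZMod 2)) (w : ℕ)
    (W : Submodule K ((Fin N → ZMod 2) → K)) (hW : Net K w univ W)
    (hfW : (fun x => f (e x)) ∈ W) (q : ℕ) (hq : 100 * q ≤ m) (k t : ℕ)
    (ht : t ≤ (q + 1) / (D + 1)) :
    (1 : ℝ) ≤ (128 * w) ^ (2 * (k + 1)) *
      (4 ^ m * ((2 ^ (D + 1) / (2 ^ (D + 1) + 1)) ^ t) ^ k +
        (2 ^ (D + 1) / (2 ^ (D + 1) + 1)) ^ t) := by
  classical
  have hcardV : Fintype.card (Fin m ⊕ Fin m) = 2 * m := by
    rw [Fintype.card_sum, Fintype.card_fin]; ring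
  have hfin : finrank (ZMod 2) ((Fin m ⊕ Fin m) → ZMod 2) = 2 * m := by
    rw [Module.finrank_fintype_fun_eq_card, hcardV]
  -- the maps
  let core : (Fin N → ZMod 2) →ₗ[ZMod 2] ((Fin m ⊕ Fin m) → ZMod 2) :=
    LinearMap.funLeft (ZMod 2) (ZMod 2) emb
  let PS : Finset (Fin N) → (((Fin m ⊕ Fin m) → ZMod 2) →ₗ[ZMod 2] ((Fin m ⊕ Fin m) → ZMod 2)) :=
    fun S => core ∘ₗ e.toLinearMap ∘ₗ prS S ∘ₗ e.symm.toLinearMap ∘ₗ Λ
  have hPS : ∀ S x, PS S x = core (e (prS S (e.symm (Λ x)))) := fun _ _ => rfl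
  have hcoreΛ : ∀ x, core (Λ x) = x := fun x => funext fun u => (hΛ x).2.2 u
  have hPSuniv : ∀ x, PS univ x = x := by
    intro x
    rw [hPS, prS_apply, mix_univ, e.apply_symm_apply, hcoreΛ]
  have hPSadd : ∀ S S' : Finset (Fin N), Disjoint S S' → ∀ x, PS (S ∪ S') x = PS S x + PS S' x := by
    intro S S' h x
    rw [hPS, hPS, hPS, prS_union S S' h, map_add, map_add]
  -- ranks
  let r : Finset (Fin N) → ℕ := fun S => finrank (ZMod 2) (LinearMap.range (PS S))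
  have hadd : ∀ S S' : Finset (Fin N), Disjoint S S' → r (S ∪ S') ≤ r S + r S' := by
    intro S S' h
    have h1 : LinearMap.range (PS (S ∪ S')) ≤ LinearMap.range (PS S) ⊔ LinearMap.range (PS S') := by
      rintro _ ⟨x, rfl⟩
      rw [hPSadd S S' h]
      exact Submodule.add_mem_sup ⟨x, rfl⟩ ⟨x, rfl⟩
    exact (Submodule.finrank_mono h1).trans (Submodule.finrank_add_le_finrank_add_finrank _ _)
  have hleaf : ∀ i, r {i} ≤ 1 := by
    intro i
    have h1 : LinearMap.range (PS {i}) ≤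
        Submodule.span (ZMod 2) {core (e (Pi.single i 1))} := by
      rintro _ ⟨x, rfl⟩
      rw [hPS]
      have h2 : prS {i} (e.symm (Λ x)) = (e.symm (Λ x)) i • Pi.single i 1 := by
        funext j
        by_cases hj : j = i
        · subst hj; simp [prS_apply, mix]
        · simp [prS_apply, mix, hj]
      rw [h2, map_smul, map_smul]
      exact Submodule.smul_mem _ _ (Submodule.mem_span_singleton_self _)
    refine (Submodule.finrank_mono h1).trans ?_
    refine (finrank_span_le_card _).trans ?_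
    simp
  have hruniv : r univ = 2 * m := by
    have : LinearMap.range (PS univ) = ⊤ := by
      rw [LinearMap.range_eq_top]
      exact fun x => ⟨x, hPSuniv x⟩
    show finrank (ZMod 2) (LinearMap.range (PS univ)) = 2 * m
    rw [this, finrank_top, hfin]
  -- the balanced node
  obtain ⟨S, W', hW'w, hW'F, hr1, hr2⟩ := hW.balanced (fun x => f (e x)) r hleaf hadd m (by omega)
    (by intro y; simp only [mix_univ]; exact hfW) (by rw [hruniv]; omega)
  have hPQ : ∀ x, PS S x + PS Sᶜ x = x := by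
    intro x
    rw [← hPSadd S Sᶜ disjoint_compl_right, union_compl, hPSuniv]
  have hrc : 2 * m ≤ r S + r Sᶜ := by
    have := hadd S Sᶜ disjoint_compl_right
    rwa [union_compl, hruniv] at this
  have hP : m ≤ 2 * finrank (ZMod 2) (LinearMap.range (PS S)) := by
    have : m ≤ 2 * r S := by omega
    exact this
  have hQ : m ≤ 2 * finrank (ZMod 2) (LinearMap.range (PS Sᶜ)) := by
    have : m ≤ 2 * r Sᶜ := by omega
    exact this
  have hmb := mixing_bound hm G D hD hmix (PS S) (PS Sᶜ) hPQ hP hQ q hq k t ht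
  -- the points
  let pt : ((Fin m ⊕ Fin m) → ZMod 2) → (Fin N → ZMod 2) := fun x => e.symm (l0 + Λ x)
  let κ : ((Fin m ⊕ Fin m) → ZMod 2) → ZMod 2 × ZMod 2 := fun x =>
    (e (prS S (pt x)) z0, e (prS S (pt x)) z1)
  have hsplit : ∀ p, e (prS S p) + e (prS Sᶜ p) = e p := by
    intro p
    rw [← map_add, ← mix_eq, mix_self]
  have hκeq : ∀ x x', κ x = κ x' →
      (e (mix S (pt x) (pt x'))) z0 = 0 ∧ (e (mix S (pt x) (pt x'))) z1 = 1 := by
    intro x x' hκ
    have h1 : e (pt x') = l0 + Λ x' := e.apply_symm_apply _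
    have h2 := hsplit (pt x')
    rw [h1] at h2
    have h3 := congrFun h2 z0
    have h4 := congrFun h2 z1
    simp only [Pi.add_apply, hl0, hl1, (hΛ x').1, (hΛ x').2.1, add_zero] at h3 h4
    have k0 : e (prS S (pt x)) z0 = e (prS S (pt x')) z0 := congrArg Prod.fst hκ
    have k1 : e (prS S (pt x)) z1 = e (prS S (pt x')) z1 := congrArg Prod.snd hκ
    rw [mix_eq, map_add]
    refine ⟨?_, ?_⟩
    · rw [Pi.add_apply, k0]; exact h3
    · rw [Pi.add_apply, k1]; exact h4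
  have hcore : ∀ x x', (fun u => e (mix S (pt x) (pt x')) (emb u) + τ u) =
      PS S x + PS Sᶜ x' := by
    intro x x'
    funext u
    have h1 : e (mix S (pt x) (pt x')) = (e (prS S (e.symm l0)) + e (prS Sᶜ (e.symm l0))) +
        (e (prS S (e.symm (Λ x))) + e (prS Sᶜ (e.symm (Λ x')))) := by
      rw [mix_eq]
      simp only [pt, map_add]
      abel
    rw [hsplit, e.apply_symm_apply] at h1
    rw [h1, Pi.add_apply, hle]
    have h2 : ∀ a b : ZMod 2, a + b + a = b := by decide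
    rw [h2]
    rfl
  have hoff : ∀ x x', κ x = κ x' → ¬ (PS S x + PS Sᶜ x' ∈ VC G) →
      f (e (mix S (pt x) (pt x'))) = 0 := by
    intro x x' hκ hn
    by_contra hne
    have h1 := (hf _).1 hne
    obtain ⟨h2, h3⟩ := hκeq x x' hκ
    apply hn
    rw [← hcore x x']
    exact hI1 _ h1 h2 h3
  -- the class
  obtain ⟨κ0, hκ0⟩ : ∃ κ0, (VCf G).card ≤ 4 * ((VCf G).filter fun x => κ x = κ0).card := by
    have h1 := card_eq_sum_card_fiberwise (s := VCf G) (t := (univ : Finset (ZMod 2 × ZMod 2)))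
      (f := κ) (fun x _ => mem_univ _)
    have h2 : ∑ _b : ZMod 2 × ZMod 2, (VCf G).card ≤
        ∑ b : ZMod 2 × ZMod 2, 4 * ((VCf G).filter fun x => κ x = b).card := by
      rw [← mul_sum, ← h1, sum_const, card_univ, Fintype.card_prod, ZMod.card]
      simp
    obtain ⟨b, -, hb⟩ := exists_le_of_sum_le univ_nonempty h2
    exact ⟨b, hb⟩
  obtain ⟨C, hC⟩ : ∃ C, C = (VCf G).filter fun x => κ x = κ0 := ⟨_, rfl⟩
  rw [← hC] at hκ0
  have hCsub : C ⊆ VCf G := by rw [hC]; exact filter_subset _ _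
  have hCκ : ∀ x ∈ C, κ x = κ0 := by intro x hx; rw [hC] at hx; exact (mem_filter.1 hx).2
  obtain ⟨J, hJC, hJ, hJc⟩ := exists_indep C (fun x y => PS S x + PS Sᶜ y ∈ VC G) (by
    intro x hx
    show PS S x + PS Sᶜ x ∈ VC G
    rw [hPQ]
    exact (mem_VCf G).1 (hCsub hx))
  -- the fooling set
  have hJw : J.card ≤ w := by
    refine le_trans ?_ hW'w
    refine fooling W' J (fun a z => f (e (mix S z (pt a)))) pt (fun a _ => hW'F (pt a)) ?_ ?_
    · intro a ha
      rw [mix_self]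
      rw [hf]
      show e (pt a) ∈ S0
      have h1 : e (pt a) = l0 + Λ a := e.apply_symm_apply _
      rw [h1]
      exact hI2 _ ((mem_VCf G).1 (hCsub (hJC ha)))
    · intro a ha b hb hab
      refine hoff b a ?_ (hJ b hb a ha (Ne.symm hab))
      rw [hCκ b (hJC hb), hCκ a (hJC ha)]
  obtain ⟨Nb, hNb⟩ : ∃ Nb, Nb = ((VCf G ×ˢ VCf G).filter fun p => PS S p.1 + PS Sᶜ p.2 ∈
    VC G).card := ⟨_, rfl⟩
  rw [← hNb] at hmb
  have hNbC : ((C ×ˢ C).filter fun p => PS S p.1 + PS Sᶜ p.2 ∈ VC G).card ≤ Nb := by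
    rw [hNb]
    exact card_le_card (filter_subset_filter _ (product_subset_product hCsub hCsub))
  have hfinal : (VCf G).card ^ 2 ≤ 128 * w * Nb := by
    have h1 : C.card ^ 2 ≤ 8 * (w * Nb) :=
      hJc.trans (Nat.mul_le_mul_left _ (Nat.mul_le_mul hJw hNbC))
    calc (VCf G).card ^ 2 ≤ (4 * C.card) ^ 2 := Nat.pow_le_pow_left hκ0 2
      _ = 16 * C.card ^ 2 := by ring
      _ ≤ 16 * (8 * (w * Nb)) := Nat.mul_le_mul_left _ h1
      _ = 128 * w * Nb := by ring
  have hapos : (0 : ℝ) < ((VCf G).card : ℝ) := by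
    rw [Nat.cast_pos, card_pos]
    exact ⟨fun _ => 1, (mem_VCf G).2 fun _ _ _ => Or.inl rfl⟩
  obtain ⟨a, ha⟩ : ∃ a : ℝ, a = ((VCf G).card : ℝ) := ⟨_, rfl⟩
  rw [← ha] at hmb hapos
  have hfinal' : a ^ 2 ≤ (128 * w) * Nb := by rw [ha]; exact_mod_cast hfinal
  obtain ⟨X, hX⟩ : ∃ X : ℝ, X = (4 ^ m * ((2 ^ (D + 1) / (2 ^ (D + 1) + 1)) ^ t) ^ k +
        (2 ^ (D + 1) / (2 ^ (D + 1) + 1)) ^ t) := ⟨_, rfl⟩
  rw [← hX] at hmb ⊢
  have h5 : a ^ (4 * (k + 1)) ≤ (128 * w) ^ (2 * (k + 1)) * (X * a ^ (4 * (k + 1))) := by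
    calc a ^ (4 * (k + 1)) = (a ^ 2) ^ (2 * (k + 1)) := by rw [← pow_mul]; ring_nf
      _ ≤ ((128 * w) * Nb) ^ (2 * (k + 1)) := pow_le_pow_left₀ (by positivity) hfinal' _
      _ = (128 * w) ^ (2 * (k + 1)) * (Nb : ℝ) ^ (2 * (k + 1)) := mul_pow _ _ _
      _ ≤ (128 * w) ^ (2 * (k + 1)) * (X * a ^ (4 * (k + 1))) :=
          mul_le_mul_of_nonneg_left hmb (by positivity)
  have h6 : 0 < a ^ (4 * (k + 1)) := by positivity
  have h7 : 1 * a ^ (4 * (k + 1)) ≤ ((128 * w) ^ (2 * (k + 1)) * X) * a ^ (4 * (k + 1)) := by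
    rw [one_mul, mul_assoc]; exact h5
  exact le_of_mul_le_mul_right h7 h6

end Pool.Agent.Dichotomy
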