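import Pool.Agent.Helper91.Dich.Path3
import Pool.Agent.Helper91.Dich.Mix3
import Pool.Agent.Helper91.Dich.Lift3
import Pool.Agent.Helper34.XTW.Sumset2

/-!
The inequality of the path argument for programs with tensor network leaves.
-/

namespace Pool.Agent.Dichotomy

open Finset Module

set_option linter.unusedSectionVars false

theorem pat_univ {V : Type*} [Fintype V] [DecidableEq V] (U : Set (V → ZMod 2)) :
    pat Finset.univ U = U.ncard := by
  rw [pat_eq]
  apply Set.ncard_image_of_injective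
  intro x y h
  funext i
  exact congrFun h ⟨i, mem_univ i⟩

/-- **The main inequality.** -/
theorem main_bound {N : ℕ} {V : Type} [Fintype V] [DecidableEq V] (hn : 48 ≤ Fintype.card V)
    (G : SimpleGraph V) (D : ℕ) (hD : ∀ v, (G.neighborSet v).ncard ≤ D) (hG : Exp G)
    {S0 : Set (Fin N → ZMod 2)} {z0 z1 : Fin N} {emb : V → Fin N} {τ : V → ZMod 2}
    {l0 : Fin N → ZMod 2} {Λ : (V → ZMod 2) →ₗ[ZMod 2] (Fin N → ZMod 2)}
    (hI1 : ∀ y ∈ S0, y z0 = 0 → y z1 = 1 → ∃ x ∈ VC G, y = l0 + Λ x)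
    (hI2 : ∀ x ∈ VC G, l0 + Λ x ∈ S0) (hl0 : l0 z0 = 0) (hl1 : l0 z1 = 1)
    (hle : ∀ u, l0 (emb u) = τ u)
    (hΛ : ∀ x, Λ x z0 = 0 ∧ Λ x z1 = 0 ∧ ∀ u, Λ x (emb u) = x u)
    (a q k t : ℕ) (hq : 100 * q ≤ Fintype.card V) (ht : t ≤ (q + 1) / (D + 1))
    {g : Type} [Fintype g] {rk : g → ℕ} {W : ℕ} {M : g → Set (Fin N → ZMod 2)}
    (hM : IsProgL (NetLeaf W) rk M) {v : g} (hv : M v = S0)
    (δ : ℝ) (hδ0 : 0 ≤ δ) (hδ : (128 * (W : ℝ)) ^ (2 * (k + 1)) *
      (2 ^ Fintype.card V * ((2 ^ (D + 1) / (2 ^ (D + 1) + 1)) ^ t) ^ k +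
        (2 ^ (D + 1) / (2 ^ (D + 1) + 1)) ^ t) ≤ δ ^ (4 * (k + 1))) :
    ((VC G).ncard : ℝ) ≤ (4 * (Fintype.card g : ℝ) *
        (2 ^ (2 * (D + 1)) / (2 ^ (2 * (D + 1)) + 1)) ^ (a / 4 / (2 * (D + 1) ^ 2)) +
      4 * (Fintype.card g : ℝ) * (2 ^ a * δ)) * (VC G).ncard +
      2 * (4 * (Fintype.card g : ℝ)) ^ 3 * ((2 : ℝ) ^ a) ^ 3 := by
  classical
  obtain ⟨β, hβd⟩ : ∃ β : ℝ, β = ((2 : ℝ) ^ (2 * (D + 1)) /
    (2 ^ (2 * (D + 1)) + 1)) ^ (a / 4 / (2 * (D + 1) ^ 2)) := ⟨_, rfl⟩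
  rw [← hβd]
  have hβ0 : 0 ≤ β := by rw [hβd]; positivity
  obtain ⟨A, hA⟩ : ∃ A : Set (Fin N → ZMod 2), A = cls z0 z1 (0, 1) S0 := ⟨_, rfl⟩
  have hAmem : ∀ y, y ∈ A ↔ ∃ x ∈ VC G, y = l0 + Λ x := by
    intro y
    rw [hA]
    constructor
    · rintro ⟨hy, h0, h1⟩; exact hI1 y hy h0 h1
    · rintro ⟨x, hx, rfl⟩
      refine ⟨hI2 x hx, ?_, ?_⟩
      · rw [Pi.add_apply, hl0, (hΛ x).1, add_zero]
      · rw [Pi.add_apply, hl1, (hΛ x).2.1, add_zero]
  have hΛinj : Function.Injective Λ := by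
    intro x y h
    funext u
    rw [← (hΛ x).2.2 u, ← (hΛ y).2.2 u, h]
  have hAimg : A = (fun x => l0 + Λ x) '' VC G := by
    ext y
    rw [hAmem]
    constructor
    · rintro ⟨x, hx, rfl⟩; exact ⟨x, hx, rfl⟩
    · rintro ⟨x, hx, rfl⟩; exact ⟨x, hx, rfl⟩
  have hlinj : Function.Injective fun x => l0 + Λ x :=
    fun x y h => hΛinj (add_left_cancel h)
  have hAcard : A.ncard = (VC G).ncard := by
    rw [hAimg]; exact Set.ncard_image_of_injective _ hlinj
  -- the projection to the core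
  let core : (Fin N → ZMod 2) → (V → ZMod 2) := fun y u => y (emb u)
  have hcadd : ∀ y y', core (y + y') = core y + core y' := fun _ _ => rfl
  have hcoreA : ∀ x, core (l0 + Λ x) = τ + x := by
    intro x; funext u
    show l0 (emb u) + Λ x (emb u) = τ u + x u
    rw [hle, (hΛ x).2.2]
  have hτ2 : ∀ x : V → ZMod 2, τ + (τ + x) = x := by
    intro x; rw [← add_assoc, pi_add_self, zero_add]
  have hcoreinj : ∀ y ∈ A, ∀ y' ∈ A, core y = core y' → y = y' := by
    intro y hy y' hy' h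
    obtain ⟨x, -, rfl⟩ := (hAmem y).1 hy
    obtain ⟨x', -, rfl⟩ := (hAmem y').1 hy'
    rw [hcoreA, hcoreA] at h
    rw [add_left_cancel h]
  -- the class of the top
  have hprog := slice_isProg hM z0 z1
  have htop : cls z0 z1 ((v, ((0 : ZMod 2), (1 : ZMod 2))).2)
      (M ((v, ((0 : ZMod 2), (1 : ZMod 2))).1)) = A := by
    rw [hA]
    show cls z0 z1 (0, 1) (M v) = _
    rw [hv]
  have hβ : ∀ U U' : Set (Fin N → ZMod 2), (∀ u ∈ U, ∀ v ∈ U', u + v ∈ A) →
      2 ^ a ≤ U.ncard → 2 ^ a ≤ U'.ncard → ((ssum U U').ncard : ℝ) ≤ β * A.ncard := by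
    intro U U' hUU hU hU'
    have hne : ∀ U : Set (Fin N → ZMod 2), 2 ^ a ≤ U.ncard → U.Nonempty := by
      intro U hU
      exact (Set.ncard_pos (Set.toFinite _)).1 (lt_of_lt_of_le (by positivity) hU)
    obtain ⟨u0, hu0⟩ := hne U hU
    obtain ⟨v0, hv0⟩ := hne U' hU'
    have hin : Set.InjOn (fun y => τ + core y) U := by
      intro y hy y' hy' h
      have h1 : core y = core y' := add_left_cancel h
      have h2 := hcoreinj _ (hUU y hy v0 hv0) _ (hUU y' hy' v0 hv0) (by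
        rw [hcadd, hcadd, h1])
      exact add_right_cancel h2
    have hin' : Set.InjOn core U' := by
      intro y hy y' hy' h
      have h2 := hcoreinj _ (hUU u0 hu0 y hy) _ (hUU u0 hu0 y' hy') (by
        rw [hcadd, hcadd, h])
      exact add_left_cancel h2
    have hs := Pool.Agent.Helper34.XTW.sumset G D hD Finset.univ a (a / 4)
      (star_of_exp G hG (by omega) a) ((fun y => τ + core y) '' U) (core '' U') (by
        rintro _ ⟨y, hy, rfl⟩ _ ⟨y', hy', rfl⟩
        obtain ⟨x, hx, hyy⟩ := (hAmem _).1 (hUU y hy y' hy')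
        have : τ + core y + core y' = x := by
          rw [add_assoc, ← hcadd, hyy, hcoreA, hτ2]
        show τ + core y + core y' ∈ VC G
        rw [this]; exact hx)
      (by rw [pat_univ, hin.ncard_image]; exact hU)
      (by rw [pat_univ, hin'.ncard_image]; exact hU')
    rw [hAcard, hβd]
    refine le_trans ?_ hs
    have hin2 : Set.InjOn (fun y => τ + core y) (ssum U U') := by
      rintro y ⟨u, hu, w, hw, rfl⟩ y' ⟨u', hu', w', hw', rfl⟩ h
      exact hcoreinj _ (hUU u hu w hw) _ (hUU u' hu' w' hw') (add_left_cancel h)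
    rw [← hin2.ncard_image]
    have h5 : (fun y => τ + core y) '' (ssum U U') ⊆
        {z | ∃ u ∈ (fun y => τ + core y) '' U, ∃ v ∈ core '' U', z = u + v} := by
      rintro _ ⟨_, ⟨u, hu, w, hw, rfl⟩, rfl⟩
      exact ⟨_, ⟨u, hu, rfl⟩, _, ⟨w, hw, rfl⟩, by
        show τ + core (u + w) = τ + core u + core w
        rw [hcadd, add_assoc]⟩
    exact_mod_cast Set.ncard_le_ncard h5 (Set.toFinite _)
  have hlam : ∀ S' : Set (Fin N → ZMod 2), (∃ S ζ, NetLeaf W S ∧ S' = cls z0 z1 ζ S) →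
      (ctx A S').ncard < 2 ^ a →
      ((ssum (ctx A S') S').ncard : ℝ) ≤ (2 ^ a * δ) * A.ncard := by
    rintro S' ⟨S, ζ, ⟨K, _, f, e, U, hf, hU, hfU⟩, hS'⟩ hctx
    have hstep : ∀ c ∈ ctx A S', (S'.ncard : ℝ) ≤ δ * A.ncard := by
      intro c hc
      let X : Finset (V → ZMod 2) := (VCf G).filter fun x => c + (l0 + Λ x) ∈ S'
      have hXc : S'.ncard = X.card := by
        have h1 : (fun x => c + (l0 + Λ x)) '' (X : Set (V → ZMod 2)) = S' := by
          ext y
          constructor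
          · rintro ⟨x, hx, rfl⟩
            exact (mem_filter.1 (Finset.mem_coe.1 hx)).2
          · intro hy
            obtain ⟨x, hx, hxy⟩ := (hAmem _).1 (hc y hy)
            have h2 : c + (l0 + Λ x) = y := by
              rw [← hxy, ← add_assoc, pi_add_self, zero_add]
            refine ⟨x, Finset.mem_coe.2 (mem_filter.2 ⟨(mem_VCf G).2 hx, ?_⟩), h2⟩
            show c + (l0 + Λ x) ∈ S'
            rw [h2]; exact hy
        rw [← h1, Set.ncard_image_of_injective, Set.ncard_coe_finset]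
        intro x y h
        exact hlinj (add_left_cancel h)
      have hb := leaf_bound hn G D hD hG hI1 hΛ f e W U hU hfU ζ c (by
          intro y hy h0 h1
          have hyS : y ∈ S' := by
            rw [hS']; exact ⟨(hf y).1 hy, h0, h1⟩
          obtain h2 := hc y hyS
          rw [hA] at h2
          exact ⟨h2.1, h2.2.1, h2.2.2⟩) X (filter_subset _ _) (by
          intro x hx
          have h1 := (mem_filter.1 hx).2
          rw [hS'] at h1
          exact ⟨(hf _).2 h1.1, h1.2.1, h1.2.2⟩) q hq k t ht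
      have h3 : (X.card : ℝ) ^ (4 * (k + 1)) ≤ (δ * A.ncard) ^ (4 * (k + 1)) := by
        refine hb.trans ?_
        rw [← mul_assoc, hAcard, ← card_VCf, mul_pow δ]
        exact mul_le_mul_of_nonneg_right hδ (by positivity)
      rw [hXc]
      exact (pow_le_pow_iff_left₀ (Nat.cast_nonneg _) (by positivity) (by omega)).1 h3
    rcases (ctx A S').eq_empty_or_nonempty with he | ⟨c, hc⟩
    · have : ssum (ctx A S') S' = ∅ := by
        rw [he]
        ext z
        constructor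
        · rintro ⟨u, hu, -⟩; exact absurd hu (Set.notMem_empty _)
        · intro h; exact absurd h (Set.notMem_empty _)
      rw [this, Set.ncard_empty, Nat.cast_zero]
      positivity
    · have h4 := hstep c hc
      have h5 : ((ssum (ctx A S') S').ncard : ℝ) ≤ (ctx A S').ncard * S'.ncard := by
        exact_mod_cast ssum_ncard (ctx A S') S'
      have h6 : ((ctx A S').ncard : ℝ) ≤ 2 ^ a := by exact_mod_cast hctx.le
      calc ((ssum (ctx A S') S').ncard : ℝ) ≤ (ctx A S').ncard * S'.ncard := h5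
        _ ≤ 2 ^ a * (δ * A.ncard) := mul_le_mul h6 h4 (Nat.cast_nonneg _) (by positivity)
        _ = _ := by ring
  have hpb := path_bound3 (fun w : g × (ZMod 2 × ZMod 2) => rk w.1) (2 ^ a) Nat.one_le_two_pow
    (fun w => cls z0 z1 w.2 (M w.1)) hprog A (v, (0, 1)) htop β (2 ^ a * δ) hβ0 (by positivity)
    hβ hlam
  have hc4 : (Fintype.card (g × (ZMod 2 × ZMod 2)) : ℝ) = 4 * (Fintype.card g : ℝ) := by
    rw [Fintype.card_prod, Fintype.card_prod, ZMod.card]; push_cast; ring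
  rw [hc4, hAcard] at hpb
  push_cast at hpb
  linarith

end Pool.Agent.Dichotomy
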