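import Pool.Agent.Helper91.Dich.LightLeaf5
import Pool.Agent.Helper34.XTW.StarLinked

/-!
The main inequality for programs with tensor network leaves and graphs with a linked set.
-/

namespace Pool.Agent.Dichotomy

open Finset Module Pool.Agent.Helper34.XTW

set_option linter.unusedSectionVars false

section

variable {n : ℕ} {V : Type} [Fintype V] [DecidableEq V] {G : SimpleGraph V}
  {core0 : (Fin n → ZMod 2) →ₗ[ZMod 2] (V → ZMod 2)}
  {Λ0 : (V → ZMod 2) →ₗ[ZMod 2] (Fin n → ZMod 2)} {l0 : Fin n → ZMod 2}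
  (hcΛ : ∀ x, core0 (Λ0 x) = x)

include hcΛ in
theorem main5 (hiso : ∀ v, ∃ u, G.Adj v u) (D : ℕ) (hD : ∀ v, (G.neighborSet v).ncard ≤ D)
    (X : Finset V) (k a b m : ℕ) (hk : 1 ≤ k) (hX : Linked G X k) (hX2 : 2 ≤ X.card)
    (ha : 1 ≤ a) (hm : 1 ≤ m)
    (h1 : 80 * m + 5 * b + a ≤ X.card) (h2 : 8 * m + b ≤ k)
    (cl : (Fin n → ZMod 2) →ₗ[ZMod 2] (ZMod 2 × ZMod 2)) {g : Type*} [Fintype g] {rk : g → ℕ}
    {W : ℕ} {M : g → Set (Fin n → ZMod 2)}
    (hM : IsProgL (fun S' => ∃ S ζ, NetLeaf W S ∧ S' = {y | y ∈ S ∧ cl y = ζ}) rk M)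
    (v : g) (hv : M v ⊆ AA G Λ0 l0)
    (k0 t : ℕ) (ht : t ≤ ((m + 1) / 2) / (D + 1)) (δ lam : ℝ) (hδ0 : 0 ≤ δ)
    (hδ : (128 * (W : ℝ)) ^ (2 * (k0 + 1)) *
      (16 ^ m * ((2 ^ (D + 1) / (2 ^ (D + 1) + 1)) ^ t) ^ k0 +
        (2 ^ (D + 1) / (2 ^ (D + 1) + 1)) ^ t) ≤ δ ^ (4 * (k0 + 1)))
    (hl1 : (2 ^ (2 * (D + 1)) / (2 ^ (2 * (D + 1)) + 1)) ^ (b / (2 * (D + 1) ^ 2)) ≤ lam)
    (hl2 : 2 ^ b * δ ≤ lam) :
    ((M v).ncard : ℝ) ≤ ((Fintype.card g : ℝ) * (2 ^ (2 * (D + 1)) /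
        (2 ^ (2 * (D + 1)) + 1)) ^ (min k ((a + 1) / 2) / (2 * (D + 1) ^ 2)) +
      (Fintype.card g : ℝ) * lam + 2 * (Fintype.card g : ℝ) ^ 3 *
        (2 ^ (D + 1) / (2 ^ (D + 1) + 1)) ^ ((X.card - 3 * a) / (D + 1))) * (VC G).ncard := by
  classical
  let Heavy : Set (Fin n → ZMod 2) → Prop := fun U => a ≤ (free (core0 '' U) ∩ X).ncard
  have hlam0 : 0 ≤ lam := le_trans (by positivity) hl1
  have h0 : ¬ Heavy {0} := by
    intro h
    have h3 : free (core0 '' ({0} : Set (Fin n → ZMod 2))) = ∅ := by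
      rw [Set.eq_empty_iff_forall_notMem]
      rintro v ⟨_, ⟨x, hx, rfl⟩, _, ⟨y, hy, rfl⟩, hne⟩
      rw [Set.mem_singleton_iff] at hx hy
      rw [hx, hy] at hne
      exact hne rfl
    have h4 : a ≤ (free (core0 '' ({0} : Set (Fin n → ZMod 2))) ∩ X).ncard := h
    rw [h3, Set.empty_inter, Set.ncard_empty] at h4
    omega
  have hβ : ∀ U U' : Set (Fin n → ZMod 2), (∀ u ∈ U, ∀ v ∈ U', u + v ∈ AA G Λ0 l0) → Heavy U →
      Heavy U' → ((ssum U U').ncard : ℝ) ≤ (2 ^ (2 * (D + 1)) /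
        (2 ^ (2 * (D + 1)) + 1)) ^ (min k ((a + 1) / 2) / (2 * (D + 1) ^ 2)) *
          (VC G).ncard := by
    intro U U' hUU hU hU'
    exact ssum_bad hcΛ D hD _ hUU (star_linked hk hX hX2 a _ _ hU hU')
  have hκ : ∀ U1 U2 U3 : Set (Fin n → ZMod 2), ¬ Heavy U1 → ¬ Heavy U2 → ¬ Heavy U3 →
      ssum U1 (ssum U2 U3) ⊆ AA G Λ0 l0 → ((ssum U1 (ssum U2 U3)).ncard : ℝ) ≤
        (2 ^ (D + 1) / (2 ^ (D + 1) + 1)) ^ ((X.card - 3 * a) / (D + 1)) * (VC G).ncard := by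
    intro U1 U2 U3 hU1 hU2 hU3 hsub
    rcases (ssum U1 (ssum U2 U3)).eq_empty_or_nonempty with he | ⟨y0, hy0⟩
    · rw [he, Set.ncard_empty, Nat.cast_zero]; positivity
    have hfin : ∀ U : Set (Fin n → ZMod 2), ¬ Heavy U →
        (X.filter fun v => v ∈ free (core0 '' U)).card ≤ a := by
      intro U hU
      have h3 : (free (core0 '' U) ∩ X).ncard = (X.filter fun v => v ∈ free (core0 '' U)).card := by
        rw [← Set.ncard_coe_finset]
        congr 1
        ext v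
        rw [mem_coe, mem_filter, Set.mem_inter_iff, mem_coe]
        exact and_comm
      have h4 : ¬ a ≤ (free (core0 '' U) ∩ X).ncard := hU
      rw [h3] at h4
      omega
    let X' : Finset V := X.filter fun v => v ∉ free (core0 '' U1) ∧ v ∉ free (core0 '' U2) ∧
      v ∉ free (core0 '' U3)
    have hX'c : X.card - 3 * a ≤ X'.card := by
      have h3 : X ⊆ X' ∪ (X.filter fun v => v ∈ free (core0 '' U1)) ∪
          (X.filter fun v => v ∈ free (core0 '' U2)) ∪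
          (X.filter fun v => v ∈ free (core0 '' U3)) := by
        intro v hv
        simp only [X', mem_union, mem_filter]
        tauto
      have h4 := card_le_card h3
      have h5 := card_union_le (X' ∪ (X.filter fun v => v ∈ free (core0 '' U1)) ∪
          (X.filter fun v => v ∈ free (core0 '' U2))) (X.filter fun v => v ∈ free (core0 '' U3))
      have h6 := card_union_le (X' ∪ (X.filter fun v => v ∈ free (core0 '' U1)))
          (X.filter fun v => v ∈ free (core0 '' U2))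
      have h7 := card_union_le X' (X.filter fun v => v ∈ free (core0 '' U1))
      have h8 := hfin U1 hU1
      have h9 := hfin U2 hU2
      have h10 := hfin U3 hU3
      omega
    have hconst : ∀ U : Set (Fin n → ZMod 2), ∀ v, v ∉ free (core0 '' U) → ∀ x ∈ U, ∀ y ∈ U,
        core0 x v = core0 y v := by
      intro U v hv x hx y hy
      by_contra h
      exact hv ⟨_, ⟨x, hx, rfl⟩, _, ⟨y, hy, rfl⟩, h⟩
    have h3 : ((ssum U1 (ssum U2 U3)).ncard : ℝ) ≤
        (({x ∈ VC G | ∀ i ∈ X', x i = (core0 y0 + core0 l0) i} : Set (V → ZMod 2)).ncard : ℝ) := by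
      have hmaps : ∀ y ∈ ssum U1 (ssum U2 U3), (fun y => core0 y + core0 l0) y ∈
          ({x ∈ VC G | ∀ i ∈ X', x i = (core0 y0 + core0 l0) i} : Set (V → ZMod 2)) := by
        intro y hy
        refine ⟨AA_core hcΛ (hsub hy), fun i hi => ?_⟩
        obtain ⟨-, hi1, hi2, hi3⟩ := mem_filter.1 hi
        obtain ⟨u1, hu1, _, ⟨u2, hu2, u3, hu3, rfl⟩, rfl⟩ := hy
        obtain ⟨w1, hw1, _, ⟨w2, hw2, w3, hw3, rfl⟩, rfl⟩ := hy0
        simp only [map_add, Pi.add_apply]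
        rw [hconst U1 i hi1 u1 hu1 w1 hw1, hconst U2 i hi2 u2 hu2 w2 hw2,
          hconst U3 i hi3 u3 hu3 w3 hw3]
      have hinj : Set.InjOn (fun y => core0 y + core0 l0) (ssum U1 (ssum U2 U3)) :=
        (AA_injOn hcΛ (G := G)).mono hsub
      exact_mod_cast Set.ncard_le_ncard_of_injOn _ hmaps hinj (Set.toFinite _)
    refine h3.trans ((entropy G D hD X' _).trans ?_)
    refine mul_le_mul_of_nonneg_right ?_ (Nat.cast_nonneg _)
    apply pow_le_pow_of_le_one (by positivity)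
    · rw [div_le_one (by positivity)]; linarith
    · exact Nat.div_le_div_right hX'c
  have hlam : ∀ S', (∃ S ζ, NetLeaf W S ∧ S' = {y | y ∈ S ∧ cl y = ζ}) →
      ¬ Heavy (ctx (AA G Λ0 l0) S') →
      ((ssum (ctx (AA G Λ0 l0) S') S').ncard : ℝ) ≤ lam * (VC G).ncard := by
    intro S' hS' hlight
    exact light_leaf hcΛ hiso D hD X k a b m hm hX h1 h2 cl W hS' hlight k0 t ht δ lam hδ0 hδ
      hl1 hl2
  have := path_bound5 rk M hM (AA G Λ0 l0) v hv _ _ _ (by positivity) (by positivity)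
    (by positivity) h0 hβ hlam hκ
  refine this.trans (le_of_eq ?_)
  ring

end

end Pool.Agent.Dichotomy
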