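import Pool.Agent.Helper91.Dich.Seq5

/-!
Existence of a long mixed sequence of edges in a graph with a linked set.
-/

namespace Pool.Agent.Dichotomy

open Finset Module

set_option linter.unusedSectionVars false

section

variable {V : Type} [Fintype V] [DecidableEq V]

/-- `X` is linked in `G` up to an error `b`. -/
def LinkedR (G : SimpleGraph V) (X : Finset V) (k b : ℕ) : Prop :=
  ∀ A B : Finset V, A ∪ B = Finset.univ → (∀ u ∉ B, ∀ v ∉ A, ¬ G.Adj u v) →
    (A ∩ B).card + b < k → (X \ B).card ≤ (A ∩ B).card + b ∨ (X \ A).card ≤ (A ∩ B).card + b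

/-- Few vertices have a coordinate that is, on a subspace of small codimension, zero or equal to
another coordinate. -/
theorem bad_vertices (K : Submodule (ZMod 2) (V → ZMod 2)) (d : ℕ)
    (hK : Fintype.card V ≤ finrank (ZMod 2) K + d) (B0 : Finset V)
    (hB0 : ∀ s ∈ B0, (∀ x ∈ K, x s = 0) ∨ ∃ s', s' ≠ s ∧ ∀ x ∈ K, x s = x s') :
    B0.card ≤ 2 * d := by
  classical
  let F : V → (K → ZMod 2) := fun s x => x.1 s
  obtain ⟨t, htR, htb⟩ := Set.exists_subset_bijOn {s | F s ≠ 0} F
  have htfin : t.Finite := Set.toFinite t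
  obtain ⟨T, hT⟩ : ∃ T : Finset V, (T : Set V) = t := ⟨htfin.toFinset, htfin.coe_toFinset⟩
  rw [← hT] at htR htb
  have hinj : ∀ s ∈ T, ∀ s' ∈ T, F s = F s' → s = s' := fun s hs s' hs' h =>
    htb.injOn (Finset.mem_coe.2 hs) (Finset.mem_coe.2 hs') h
  -- the dimension
  have h1 : finrank (ZMod 2) K ≤ T.card := by
    let L : K →ₗ[ZMod 2] (T → ZMod 2) :=
      (LinearMap.funLeft (ZMod 2) (ZMod 2) (fun s : T => (s : V))).comp K.subtype
    have hL : ∀ x s, L x s = x.1 s := fun _ _ => rfl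
    have hLinj : Function.Injective L := by
      rw [injective_iff_map_eq_zero]
      intro x hx
      apply Subtype.ext
      funext s
      by_cases hs : F s = 0
      · exact congrFun hs x
      · obtain ⟨s', hs', hss⟩ := htb.surjOn ⟨s, hs, rfl⟩
        have h2 := congrFun hx ⟨s', Finset.mem_coe.1 hs'⟩
        rw [hL] at h2
        have h3 := congrFun hss x
        show x.1 s = 0
        rw [← show x.1 s' = x.1 s from h3]
        exact h2
    have := LinearMap.finrank_le_finrank_of_injective hLinj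
    rwa [Module.finrank_fintype_fun_eq_card, Fintype.card_coe] at this
  have h2 : (univ \ T).card ≤ d := by
    rw [card_sdiff_of_subset (subset_univ T), card_univ]; omega
  -- the partners
  have h3 : (B0 ∩ T).card ≤ (univ \ T).card := by
    have hpart : ∀ s ∈ B0 ∩ T, ∃ s', s' ≠ s ∧ F s = F s' := by
      intro s hs
      obtain ⟨hsB, hsT⟩ := mem_inter.1 hs
      rcases hB0 s hsB with h | ⟨s', hne, h⟩
      · have h6 : F s ≠ 0 := htR (Finset.mem_coe.2 hsT)
        exact absurd (funext fun x : K => h x.1 x.2) h6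
      · exact ⟨s', hne, funext fun x => h x.1 x.2⟩
    choose! g hg1 hg2 using hpart
    refine card_le_card_of_injOn g ?_ ?_
    · intro s hs
      have hs' := Finset.mem_coe.1 hs
      refine Finset.mem_coe.2 (mem_sdiff.2 ⟨mem_univ _, fun hgT => ?_⟩)
      exact hg1 s hs' (hinj s (mem_inter.1 hs').2 (g s) hgT (hg2 s hs')).symm
    · intro s hs s2 hs2 h
      have e1 := hg2 s (Finset.mem_coe.1 hs)
      have e2 := hg2 s2 (Finset.mem_coe.1 hs2)
      rw [h, ← e2] at e1
      exact hinj s (mem_inter.1 (Finset.mem_coe.1 hs)).2 s2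
        (mem_inter.1 (Finset.mem_coe.1 hs2)).2 e1
  have h4 : B0.card ≤ (B0 ∩ T).card + (univ \ T).card := by
    have h5 : B0 ⊆ (B0 ∩ T) ∪ (univ \ T) := by
      intro s hs
      by_cases hsT : s ∈ T
      · exact mem_union_left _ (mem_inter.2 ⟨hs, hsT⟩)
      · exact mem_union_right _ (mem_sdiff.2 ⟨mem_univ _, hsT⟩)
    exact (card_le_card h5).trans (card_union_le _ _)
  omega

/-- The rank on the coordinates in `X` of a map that vanishes at the coordinates in `Z` on a
subspace of small codimension. -/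
theorem rank_bound (L : (V → ZMod 2) →ₗ[ZMod 2] (V → ZMod 2)) (X Z : Finset V)
    (K : Submodule (ZMod 2) (V → ZMod 2)) (d : ℕ)
    (hK : Fintype.card V ≤ finrank (ZMod 2) K + d) (hZ : ∀ s ∈ Z, ∀ x ∈ K, L x s = 0) :
    finrank (ZMod 2) (LinearMap.range
      ((LinearMap.funLeft (ZMod 2) (ZMod 2) (fun s : X => (s : V))).comp L)) ≤
      (X \ Z).card + d := by
  classical
  obtain ⟨M, hM⟩ : ∃ M, M = (LinearMap.funLeft (ZMod 2) (ZMod 2) (fun s : X => (s : V))).comp L :=
    ⟨_, rfl⟩
  have hMa : ∀ x (s : X), M x s = L x s := by intro x s; rw [hM]; rfl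
  rw [← hM]
  have h1 := LinearMap.finrank_range_add_finrank_ker M
  have h2 := LinearMap.finrank_range_add_finrank_ker (M.domRestrict K)
  rw [Module.finrank_fintype_fun_eq_card] at h1
  have h3 : finrank (ZMod 2) (LinearMap.ker (M.domRestrict K)) ≤
      finrank (ZMod 2) (LinearMap.ker M) := by
    let j : LinearMap.ker (M.domRestrict K) →ₗ[ZMod 2] LinearMap.ker M :=
      LinearMap.codRestrict _ (K.subtype.comp (Submodule.subtype _)) (by
        rintro ⟨x, hx⟩
        rw [LinearMap.mem_ker] at hx ⊢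
        exact hx)
    refine LinearMap.finrank_le_finrank_of_injective (f := j) ?_
    intro x y h
    apply Subtype.ext
    apply Subtype.ext
    exact congrArg (fun z : LinearMap.ker M => (z : V → ZMod 2)) h
  have h4 : finrank (ZMod 2) (LinearMap.range (M.domRestrict K)) ≤ (X \ Z).card := by
    let R : (X → ZMod 2) →ₗ[ZMod 2] (((X \ Z : Finset V) : Type) → ZMod 2) :=
      LinearMap.funLeft (ZMod 2) (ZMod 2) (fun s => ⟨s.1, (mem_sdiff.1 s.2).1⟩)
    let R' : LinearMap.range (M.domRestrict K) →ₗ[ZMod 2] _ := R.domRestrict _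
    have hR' : Function.Injective R' := by
      rw [injective_iff_map_eq_zero]
      rintro ⟨_, ⟨x, rfl⟩⟩ h
      apply Subtype.ext
      funext s
      show M x.1 s = 0
      by_cases hs : (s : V) ∈ Z
      · rw [hMa]; exact hZ s hs x.1 x.2
      · exact congrFun h ⟨s.1, mem_sdiff.2 ⟨s.2, hs⟩⟩
    have := LinearMap.finrank_le_finrank_of_injective hR'
    rwa [Module.finrank_fintype_fun_eq_card, Fintype.card_coe] at this
  omega

/-- One greedy step. -/
theorem exists_mixed_edge (G : SimpleGraph V) (X : Finset V) (k b d : ℕ)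
    (hX : LinkedR G X k b) (P Q : (V → ZMod 2) →ₗ[ZMod 2] (V → ZMod 2))
    (hPQ : ∀ z, P z + Q z = z)
    (hP : X.card ≤ 4 * finrank (ZMod 2) (LinearMap.range
      ((LinearMap.funLeft (ZMod 2) (ZMod 2) (fun s : X => (s : V))).comp P)))
    (hQ : X.card ≤ 4 * finrank (ZMod 2) (LinearMap.range
      ((LinearMap.funLeft (ZMod 2) (ZMod 2) (fun s : X => (s : V))).comp Q)))
    (K : Submodule (ZMod 2) (V → ZMod 2)) (hK : Fintype.card V ≤ finrank (ZMod 2) K + d)
    (h1 : 20 * d + 4 * b < X.card) (h2 : 10 * d + 4 * b + 2 ≤ X.card) (h3 : 2 * d + b < k) :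
    ∃ e : V × V, G.Adj e.1 e.2 ∧ (∃ x ∈ K, at2 e (P x) ≠ 0) ∧ (∃ x ∈ K, at2 e (Q x) ≠ 0) ∧
      ∀ l : ZMod 2 × ZMod 2, l ≠ 0 → ∃ x ∈ K, l.1 * x e.1 + l.2 * x e.2 ≠ 0 := by
  classical
  by_contra hcon
  push Not at hcon
  let B0 : Finset V := univ.filter fun s => (∀ x ∈ K, x s = 0) ∨ ∃ s', s' ≠ s ∧ ∀ x ∈ K, x s = x s'
  have hB0 : B0.card ≤ 2 * d := bad_vertices K d hK B0 fun s hs => (mem_filter.1 hs).2
  let α : V → Prop := fun s => ∀ x ∈ K, P x s = 0
  let β : V → Prop := fun s => ∀ x ∈ K, Q x s = 0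
  have hαβ : ∀ s, s ∉ B0 → ¬ (α s ∧ β s) := by
    rintro s hs ⟨ha, hb⟩
    apply hs
    refine mem_filter.2 ⟨mem_univ _, Or.inl fun x hx => ?_⟩
    rw [← hPQ x, Pi.add_apply, ha x hx, hb x hx, add_zero]
  have hedge : ∀ s s', s ∉ B0 → s' ∉ B0 → G.Adj s s' → (α s ∧ α s') ∨ (β s ∧ β s') := by
    intro s s' hs hs' hadj
    by_cases hP1 : ∀ x ∈ K, at2 (s, s') (P x) = 0
    · left
      exact ⟨fun x hx => congrArg Prod.fst (hP1 x hx), fun x hx => congrArg Prod.snd (hP1 x hx)⟩
    · by_cases hQ1 : ∀ x ∈ K, at2 (s, s') (Q x) = 0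
      · right
        exact ⟨fun x hx => congrArg Prod.fst (hQ1 x hx), fun x hx => congrArg Prod.snd (hQ1 x hx)⟩
      · push Not at hP1 hQ1
        exfalso
        obtain ⟨l, hl0, hl⟩ := hcon (s, s') hadj hP1 hQ1
        have hs0 : ¬ ∀ x ∈ K, x s = 0 := fun h =>
          hs (mem_filter.2 ⟨mem_univ _, Or.inl h⟩)
        have hs0' : ¬ ∀ x ∈ K, x s' = 0 := fun h =>
          hs' (mem_filter.2 ⟨mem_univ _, Or.inl h⟩)
        have hss : ¬ ∀ x ∈ K, x s = x s' := fun h =>
          hs (mem_filter.2 ⟨mem_univ _, Or.inr ⟨s', (G.ne_of_adj hadj).symm, h⟩⟩)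
        obtain ⟨l1, l2⟩ := l
        have h01 : ∀ c : ZMod 2, c = 0 ∨ c = 1 := by decide
        rcases h01 l1 with rfl | rfl
        · rcases h01 l2 with rfl | rfl
          · exact hl0 rfl
          · refine hs0' fun x hx => ?_
            have := hl x hx
            simpa using this
        · rcases h01 l2 with rfl | rfl
          · refine hs0 fun x hx => ?_
            have := hl x hx
            simpa using this
          · refine hss fun x hx => ?_
            have := hl x hx
            simp only [one_mul] at this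
            have h2 : ∀ a b : ZMod 2, a + b = 0 → a = b := by decide
            exact h2 _ _ this
  let A1 : Finset V := univ.filter fun s => s ∉ B0 ∧ α s
  let C1 : Finset V := univ.filter fun s => s ∉ B0 ∧ ¬ α s ∧ ¬ β s
  have memA1 : ∀ s, s ∈ A1 ↔ s ∉ B0 ∧ α s := by intro s; simp [A1]
  have memC1 : ∀ s, s ∈ C1 ↔ s ∉ B0 ∧ ¬ α s ∧ ¬ β s := by intro s; simp [C1]
  -- the separations
  have hsep : ∀ γ ⊆ C1, (X ∩ (A1 ∪ γ)).card ≤ 2 * d + b ∨
      (X \ (B0 ∪ (A1 ∪ γ))).card ≤ 2 * d + b := by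
    intro γ hγ
    have hAγ : ∀ s ∈ A1 ∪ γ, s ∉ B0 := by
      intro s hs
      rcases mem_union.1 hs with h | h
      · exact ((memA1 s).1 h).1
      · exact ((memC1 s).1 (hγ h)).1
    have hint : (B0 ∪ (A1 ∪ γ)) ∩ (univ \ (A1 ∪ γ)) = B0 := by
      ext s
      rw [mem_inter, mem_union, mem_sdiff]
      constructor
      · rintro ⟨h | h, -, h'⟩
        · exact h
        · exact absurd h h'
      · intro h
        exact ⟨Or.inl h, mem_univ _, fun h' => hAγ s h' h⟩
    have := hX (B0 ∪ (A1 ∪ γ)) (univ \ (A1 ∪ γ)) (by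
        ext s
        simp only [mem_union, mem_sdiff, mem_univ, true_and, iff_true]
        tauto) (by
        intro u hu v hv hadj
        rw [mem_sdiff, not_and_or, not_not] at hu
        have hu' : u ∈ A1 ∪ γ := hu.resolve_left (fun h => h (mem_univ _))
        rw [mem_union, not_or] at hv
        have hvB := hv.1
        have hvA := hv.2
        rw [mem_union, not_or] at hvA
        have huB := hAγ u hu'
        rcases hedge u v huB hvB hadj with ⟨ha, ha'⟩ | ⟨hb, hb'⟩
        · exact hvA.1 ((memA1 v).2 ⟨hvB, ha'⟩)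
        · rcases mem_union.1 hu' with h | h
          · exact hαβ u huB ⟨((memA1 u).1 h).2, hb⟩
          · exact ((memC1 u).1 (hγ h)).2.2 hb) (by rw [hint]; omega)
    rw [hint] at this
    have e1 : X \ (univ \ (A1 ∪ γ)) = X ∩ (A1 ∪ γ) := by
      ext s
      rw [mem_sdiff, mem_sdiff, mem_inter]
      constructor
      · rintro ⟨h, h'⟩
        refine ⟨h, ?_⟩
        by_contra h''
        exact h' ⟨mem_univ _, h''⟩
      · rintro ⟨h, h'⟩
        exact ⟨h, fun h'' => h''.2 h'⟩
    rw [e1] at this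
    omega
  -- the ranks
  have hrP := rank_bound P X (univ.filter fun s => α s) K d hK (by
    intro s hs x hx; exact (mem_filter.1 hs).2 x hx)
  have hrQ := rank_bound Q X (univ.filter fun s => β s) K d hK (by
    intro s hs x hx; exact (mem_filter.1 hs).2 x hx)
  have hXA : d + (2 * d + b) + 2 * d < X.card := by omega
  -- the first split
  have hs1 : (X \ (B0 ∪ (A1 ∪ C1))).card ≤ 2 * d + b := by
    refine (hsep C1 subset_rfl).resolve_left fun h => ?_
    have h5 : X \ (univ.filter fun s => β s) ⊆ B0 ∪ (X ∩ (A1 ∪ C1)) := by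
      intro s hs
      obtain ⟨hsX, hsb⟩ := mem_sdiff.1 hs
      have hsb' : ¬ β s := fun h => hsb (mem_filter.2 ⟨mem_univ _, h⟩)
      by_cases hsB : s ∈ B0
      · exact mem_union_left _ hsB
      · refine mem_union_right _ (mem_inter.2 ⟨hsX, ?_⟩)
        by_cases hsa : α s
        · exact mem_union_left _ ((memA1 s).2 ⟨hsB, hsa⟩)
        · exact mem_union_right _ ((memC1 s).2 ⟨hsB, hsa, hsb'⟩)
    have h6 := (card_le_card h5).trans (card_union_le _ _)
    omega
  have hs2 : (X ∩ (A1 ∪ ∅)).card ≤ 2 * d + b := by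
    refine (hsep ∅ (empty_subset _)).resolve_right fun h => ?_
    have h5 : X \ (univ.filter fun s => α s) ⊆ B0 ∪ (X \ (B0 ∪ (A1 ∪ ∅))) := by
      intro s hs
      obtain ⟨hsX, hsa⟩ := mem_sdiff.1 hs
      have hsa' : ¬ α s := fun h => hsa (mem_filter.2 ⟨mem_univ _, h⟩)
      by_cases hsB : s ∈ B0
      · exact mem_union_left _ hsB
      · refine mem_union_right _ (mem_sdiff.2 ⟨hsX, ?_⟩)
        rw [mem_union, mem_union, not_or, not_or]
        exact ⟨hsB, fun h => hsa' ((memA1 s).1 h).2, notMem_empty _⟩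
    have h6 := (card_le_card h5).trans (card_union_le _ _)
    omega
  rw [union_empty] at hs2
  -- the third split
  have hC : X.card ≤ (X ∩ C1).card + 2 * d + (2 * d + b) + (2 * d + b) := by
    have h5 : X ⊆ (X ∩ C1) ∪ B0 ∪ (X ∩ A1) ∪ (X \ (B0 ∪ (A1 ∪ C1))) := by
      intro s hs
      simp only [mem_union, mem_inter, mem_sdiff]
      tauto
    have h6 := card_le_card h5
    have h7 := card_union_le ((X ∩ C1) ∪ B0 ∪ (X ∩ A1)) (X \ (B0 ∪ (A1 ∪ C1)))
    have h8 := card_union_le ((X ∩ C1) ∪ B0) (X ∩ A1)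
    have h9 := card_union_le (X ∩ C1) B0
    omega
  obtain ⟨γ, hγ, hγc⟩ := exists_subset_card_eq (s := X ∩ C1) (n := 2 * d + b + 1) (by omega)
  rcases hsep γ (hγ.trans inter_subset_right) with h | h
  · have h5 : γ ⊆ X ∩ (A1 ∪ γ) := fun s hs =>
      mem_inter.2 ⟨(mem_inter.1 (hγ hs)).1, mem_union_right _ hs⟩
    have := card_le_card h5
    omega
  · have h5 : (X ∩ C1) \ γ ⊆ X \ (B0 ∪ (A1 ∪ γ)) := by
      intro s hs
      obtain ⟨hs1, hs2⟩ := mem_sdiff.1 hs
      obtain ⟨hsX, hsC⟩ := mem_inter.1 hs1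
      obtain ⟨c1, c2, c3⟩ := (memC1 s).1 hsC
      refine mem_sdiff.2 ⟨hsX, ?_⟩
      rw [mem_union, mem_union, not_or, not_or]
      exact ⟨c1, fun h => c2 ((memA1 s).1 h).2, hs2⟩
    have h6 := card_le_card h5
    rw [card_sdiff_of_subset hγ] at h6
    omega

/-- **A long mixed sequence.** -/
theorem exists_good (G : SimpleGraph V) (X : Finset V) (k b : ℕ)
    (hX : LinkedR G X k b) (P Q : (V → ZMod 2) →ₗ[ZMod 2] (V → ZMod 2))
    (hPQ : ∀ z, P z + Q z = z)
    (hP : X.card ≤ 4 * finrank (ZMod 2) (LinearMap.range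
      ((LinearMap.funLeft (ZMod 2) (ZMod 2) (fun s : X => (s : V))).comp P)))
    (hQ : X.card ≤ 4 * finrank (ZMod 2) (LinearMap.range
      ((LinearMap.funLeft (ZMod 2) (ZMod 2) (fun s : X => (s : V))).comp Q))) (M : ℕ)
    (h1 : 80 * M + 4 * b ≤ X.card) (h2 : 8 * M + b ≤ k) (hV : Nonempty (V × V)) : ∀ m ≤ M,
    ∃ f : ℕ → V × V, Good G P Q f m := by
  intro m
  induction m with
  | zero =>
    intro _
    obtain ⟨e⟩ := hV
    exact ⟨fun _ => e, fun i hi => absurd hi (Nat.not_lt_zero i)⟩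
  | succ m ih =>
    intro hm
    obtain ⟨f, hf⟩ := ih (by omega)
    obtain ⟨e, he1, he2, he3, he4⟩ := exists_mixed_edge G X k b (4 * m) hX P Q hPQ hP hQ
      (KK P Q f m) (finrank_KK P Q f m) (by omega) (by omega) (by omega)
    have hKK : ∀ i ≤ m, KK P Q (Function.update f m e) i = KK P Q f i := by
      intro i hi
      ext x
      rw [mem_KK, mem_KK]
      constructor
      · intro h j hj
        have := h j hj
        rwa [Function.update_of_ne (by omega)] at this
      · intro h j hj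
        rw [Function.update_of_ne (by omega)]
        exact h j hj
    refine ⟨Function.update f m e, fun i hi => ?_⟩
    rw [hKK i (by omega)]
    rcases Nat.lt_succ_iff_lt_or_eq.1 hi with h | h
    · rw [Function.update_of_ne (by omega)]
      exact hf i h
    · subst h
      rw [Function.update_self]
      exact ⟨he1, he2, he3, he4⟩

end

end Pool.Agent.Dichotomy
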