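import Mathlib

/-!
From the inequality of the path argument to an exponential lower bound.
-/

namespace Pool.Agent.Dichotomy

open Filter Topology

theorem pow_div_le {ρ : ℝ} (h0 : 0 < ρ) (h1 : ρ < 1) {L : ℕ} (hL : 0 < L) (k : ℕ) :
    ρ ^ (k / L) ≤ ρ⁻¹ * (ρ ^ ((1 : ℝ) / L)) ^ k := by
  have hLr : (0 : ℝ) < L := by exact_mod_cast hL
  have e1 : (ρ ^ ((1 : ℝ) / L)) ^ k = ρ ^ ((k : ℝ) / L) := by
    rw [← Real.rpow_natCast, ← Real.rpow_mul h0.le]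
    congr 1; ring
  have e2 : ρ⁻¹ * ρ ^ ((k : ℝ) / L) = ρ ^ ((k : ℝ) / L - 1) := by
    rw [Real.rpow_sub h0, Real.rpow_one]; ring
  rw [e1, e2, ← Real.rpow_natCast]
  apply Real.rpow_le_rpow_of_exponent_ge h0 h1.le
  have h2 : k < L * (k / L + 1) := Nat.lt_mul_div_succ k hL
  have h3 : (k : ℝ) < L * ((k / L : ℕ) + 1) := by exact_mod_cast h2
  rw [sub_le_iff_le_add, div_le_iff₀ hLr]
  linarith

/-- The robust version: `φ` is the fraction of the target captured by a gate. -/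
theorem numeric_rob (ρ ρ' : ℝ) (h0 : 0 < ρ) (h1 : ρ < 1) (h0' : 0 < ρ') (h1' : ρ' < 1)
    (L1 L2 q L3 : ℕ) (hL1 : 0 < L1) (hL2 : 0 < L2) (hq : 0 < q) (hL3 : 0 < L3)
    (h8 : (8 : ℝ) ^ L2 * ρ' ^ q < 1) :
    ∃ c : ℝ, 0 < c ∧ ∀ n k : ℕ, n ≤ L3 * (k + 1) → ∀ s W φ : ℝ, 1 ≤ s → 0 ≤ W → 0 ≤ φ → φ ≤ 1 →
      φ ≤ 4 * s * ρ ^ (k / L1) + ρ' ^ (k / L2) *
        (4 * s * 2 ^ (k / q) * W + 3 * (4 * s) ^ 3 * ((2 : ℝ) ^ (k / q)) ^ 3) →
      (2 : ℝ) ^ (c * n) * φ ≤ 2 * (s + W) ^ 3 := by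
  have hqr : (0 : ℝ) < q := by exact_mod_cast hq
  have hL2r : (0 : ℝ) < L2 := by exact_mod_cast hL2
  have hL1r : (0 : ℝ) < L1 := by exact_mod_cast hL1
  have hL3r : (0 : ℝ) < L3 := by exact_mod_cast hL3
  -- the decay rates
  set a : ℝ := ρ ^ ((1 : ℝ) / L1) with ha
  set b : ℝ := (8 : ℝ) ^ ((1 : ℝ) / q) * ρ' ^ ((1 : ℝ) / L2) with hb
  have ha0 : 0 < a := Real.rpow_pos_of_pos h0 _
  have ha1 : a < 1 := Real.rpow_lt_one h0.le h1 (by positivity)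
  have hb0 : 0 < b := by positivity
  have hb1 : b < 1 := by
    have e : b ^ (q * L2) = (8 : ℝ) ^ L2 * ρ' ^ q := by
      rw [hb, mul_pow]
      congr 1
      · rw [← Real.rpow_natCast, ← Real.rpow_mul (by norm_num)]
        rw [show (1 : ℝ) / q * ((q * L2 : ℕ) : ℝ) = (L2 : ℝ) by push_cast; field_simp]
        exact Real.rpow_natCast _ _
      · rw [← Real.rpow_natCast, ← Real.rpow_mul h0'.le]
        rw [show (1 : ℝ) / L2 * ((q * L2 : ℕ) : ℝ) = (q : ℝ) by push_cast; field_simp]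
        exact Real.rpow_natCast _ _
    by_contra hcon
    push Not at hcon
    have : 1 ≤ b ^ (q * L2) := one_le_pow₀ hcon
    rw [e] at this; linarith
  -- choose δ
  obtain ⟨δ, hδ0, hδa, hδb⟩ : ∃ δ : ℝ, 0 < δ ∧ (2 : ℝ) ^ δ * a < 1 ∧ (2 : ℝ) ^ δ * b < 1 := by
    have hc : Tendsto (fun δ : ℝ => (2 : ℝ) ^ δ) (𝓝[>] 0) (𝓝 1) := by
      have h := (Real.continuous_const_rpow (a := 2) (by norm_num)).tendsto (0 : ℝ)
      rw [Real.rpow_zero] at h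
      exact h.mono_left nhdsWithin_le_nhds
    have t1 : Tendsto (fun δ : ℝ => (2 : ℝ) ^ δ * a) (𝓝[>] 0) (𝓝 (1 * a)) := hc.mul_const a
    have t2 : Tendsto (fun δ : ℝ => (2 : ℝ) ^ δ * b) (𝓝[>] 0) (𝓝 (1 * b)) := hc.mul_const b
    rw [one_mul] at t1 t2
    have := (t1.eventually (gt_mem_nhds ha1)).and ((t2.eventually (gt_mem_nhds hb1)).and
      self_mem_nhdsWithin)
    obtain ⟨δ, hd1, hd2, hd3⟩ := this.exists
    exact ⟨δ, hd3, hd1, hd2⟩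
  set d : ℝ := (2 : ℝ) ^ δ with hd
  have hd1 : 1 ≤ d := Real.one_le_rpow (by norm_num) hδ0.le
  have hd0 : 0 < d := by linarith
  have hdk : ∀ k : ℕ, (2 : ℝ) ^ (δ * k) = d ^ k := by
    intro k; rw [Real.rpow_mul (by norm_num), Real.rpow_natCast]
  -- k0
  obtain ⟨k0, hk0⟩ : ∃ k0 : ℕ, ∀ k ≥ k0, 4 * ρ⁻¹ * (d * a) ^ k + 196 * ρ'⁻¹ * (d * b) ^ k
      < 1 := by
    have t1 : Tendsto (fun k : ℕ => (d * a) ^ k) atTop (𝓝 0) :=
      tendsto_pow_atTop_nhds_zero_of_lt_one (by positivity) hδa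
    have t2 : Tendsto (fun k : ℕ => (d * b) ^ k) atTop (𝓝 0) :=
      tendsto_pow_atTop_nhds_zero_of_lt_one (by positivity) hδb
    have t3 := (t1.const_mul (4 * ρ⁻¹)).add (t2.const_mul (196 * ρ'⁻¹))
    rw [mul_zero, mul_zero, add_zero] at t3
    have := t3.eventually (gt_mem_nhds (show (0 : ℝ) < 1 by norm_num))
    rw [eventually_atTop] at this
    exact this
  -- the key claim
  have key : ∀ k ≥ k0, ∀ s W φ : ℝ, 1 ≤ s → 0 ≤ W →
      φ ≤ 4 * s * ρ ^ (k / L1) + ρ' ^ (k / L2) *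
        (4 * s * 2 ^ (k / q) * W + 3 * (4 * s) ^ 3 * ((2 : ℝ) ^ (k / q)) ^ 3) →
      d ^ k * φ ≤ (s + W) ^ 3 := by
    intro k hk s W φ hs hW hφ
    have hs0 : 0 ≤ s := by linarith
    have p1 := pow_div_le h0 h1 hL1 k
    have p2 := pow_div_le h0' h1' hL2 k
    rw [← ha] at p1
    set w : ℝ := (2 : ℝ) ^ (k / q) with hw
    have hw1 : 1 ≤ w := one_le_pow₀ (by norm_num)
    have hw3 : w ^ 3 ≤ ((8 : ℝ) ^ ((1 : ℝ) / q)) ^ k := by
      have e1 : w ^ 3 = (8 : ℝ) ^ ((k / q : ℕ) : ℝ) := by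
        rw [hw, ← pow_mul, mul_comm, pow_mul, Real.rpow_natCast]; norm_num
      have e2 : ((8 : ℝ) ^ ((1 : ℝ) / q)) ^ k = (8 : ℝ) ^ ((k : ℝ) / q) := by
        rw [← Real.rpow_natCast, ← Real.rpow_mul (by norm_num)]
        congr 1; ring
      rw [e1, e2]
      apply Real.rpow_le_rpow_of_exponent_le (by norm_num)
      exact Nat.cast_div_le
    set t : ℝ := s + W with ht
    have ht1 : 1 ≤ t := by linarith
    have hst : s ≤ t := by linarith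
    have hWt : W ≤ t := by linarith
    have ht2 : t ≤ t ^ 3 := by nlinarith [sq_nonneg t]
    have ht3 : t * t ≤ t ^ 3 := by nlinarith [sq_nonneg t]
    have hA : 4 * s * ρ ^ (k / L1) ≤ 4 * ρ⁻¹ * a ^ k * t ^ 3 := by
      calc 4 * s * ρ ^ (k / L1) ≤ 4 * t ^ 3 * (ρ⁻¹ * a ^ k) := by
            gcongr
            exact hst.trans ht2
        _ = 4 * ρ⁻¹ * a ^ k * t ^ 3 := by ring
    have hB1 : 4 * s * w * W ≤ 4 * t ^ 3 * w ^ 3 := by
      calc 4 * s * w * W ≤ 4 * t * w * t := by gcongr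
        _ = 4 * (t * t) * w := by ring
        _ ≤ 4 * t ^ 3 * w ^ 3 := by
            have : w ≤ w ^ 3 := by nlinarith [sq_nonneg w]
            gcongr
    have hB2 : 3 * (4 * s) ^ 3 * w ^ 3 ≤ 192 * t ^ 3 * w ^ 3 := by
      have : 3 * (4 * s) ^ 3 ≤ 192 * t ^ 3 := by
        have : s ^ 3 ≤ t ^ 3 := by gcongr
        nlinarith
      gcongr
    have hB : ρ' ^ (k / L2) * (4 * s * w * W + 3 * (4 * s) ^ 3 * w ^ 3) ≤
        196 * ρ'⁻¹ * b ^ k * t ^ 3 := by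
      calc ρ' ^ (k / L2) * (4 * s * w * W + 3 * (4 * s) ^ 3 * w ^ 3)
          ≤ (ρ'⁻¹ * (ρ' ^ ((1 : ℝ) / L2)) ^ k) * (196 * t ^ 3 * w ^ 3) := by
            gcongr
            linarith
        _ ≤ (ρ'⁻¹ * (ρ' ^ ((1 : ℝ) / L2)) ^ k) * (196 * t ^ 3 *
            ((8 : ℝ) ^ ((1 : ℝ) / q)) ^ k) := by gcongr
        _ = 196 * ρ'⁻¹ * b ^ k * t ^ 3 := by
            rw [hb, mul_pow]; ring
    have hφ2 : φ ≤ 4 * ρ⁻¹ * a ^ k * t ^ 3 + 196 * ρ'⁻¹ * b ^ k * t ^ 3 := by linarith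
    calc d ^ k * φ ≤ d ^ k * (4 * ρ⁻¹ * a ^ k * t ^ 3 + 196 * ρ'⁻¹ * b ^ k * t ^ 3) := by gcongr
      _ = (4 * ρ⁻¹ * (d * a) ^ k + 196 * ρ'⁻¹ * (d * b) ^ k) * t ^ 3 := by
          rw [mul_pow, mul_pow]; ring
      _ ≤ 1 * t ^ 3 := by
          have := (hk0 k hk).le
          gcongr
      _ = t ^ 3 := one_mul _
  refine ⟨min δ 1 / (L3 * (k0 + 1)), by positivity, ?_⟩
  intro n k hn s W φ hs hW hφ0 hφ1 hineq
  set c : ℝ := min δ 1 / (L3 * (k0 + 1)) with hc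
  have hnr : (n : ℝ) ≤ L3 * (k + 1) := by exact_mod_cast hn
  have hk0r : (0 : ℝ) ≤ k0 := Nat.cast_nonneg _
  have hkr : (0 : ℝ) ≤ k := Nat.cast_nonneg _
  rcases Nat.lt_or_ge k k0 with hk | hk
  · -- small k
    have hk' : (k : ℝ) + 1 ≤ k0 + 1 := by
      have : (k : ℝ) < k0 := by exact_mod_cast hk
      linarith
    have h3 : c * n ≤ 1 := by
      rw [hc, div_mul_eq_mul_div, div_le_iff₀ (by positivity), one_mul]
      calc min δ 1 * n ≤ 1 * (L3 * (k + 1)) := by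
            gcongr
            exact min_le_right _ _
        _ ≤ L3 * (k0 + 1) := by rw [one_mul]; gcongr
    have h4 : (2 : ℝ) ^ (c * n) ≤ 2 := by
      calc (2 : ℝ) ^ (c * n) ≤ 2 ^ (1 : ℝ) := Real.rpow_le_rpow_of_exponent_le (by norm_num) h3
        _ = 2 := Real.rpow_one _
    have h5 : 1 ≤ (s + W) ^ 3 := one_le_pow₀ (by linarith)
    calc (2 : ℝ) ^ (c * n) * φ ≤ 2 * 1 := by gcongr
      _ ≤ 2 * (s + W) ^ 3 := by linarith
  · have hcn : c * n ≤ δ * k + 1 := by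
      have h2 : c * n ≤ min δ 1 * (k + 1) := by
        rw [hc, div_mul_eq_mul_div, div_le_iff₀ (by positivity)]
        have hm : 0 ≤ min δ 1 := by positivity
        calc min δ 1 * n ≤ min δ 1 * (L3 * (k + 1)) := by gcongr
          _ ≤ min δ 1 * (L3 * (k + 1)) * (k0 + 1) := by
              apply le_mul_of_one_le_right (by positivity); linarith
          _ = min δ 1 * (k + 1) * (L3 * (k0 + 1)) := by ring
      have h3 : min δ 1 * (k + 1) ≤ δ * k + 1 := by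
        have e1 : min δ 1 * k ≤ δ * k := by gcongr; exact min_le_left _ _
        have e2 : min δ 1 ≤ 1 := min_le_right _ _
        linarith
      linarith
    have h6 := key k hk s W φ hs hW hineq
    calc (2 : ℝ) ^ (c * n) * φ ≤ 2 ^ (δ * k + 1) * φ := by
          gcongr
          · norm_num
      _ = 2 * (d ^ k * φ) := by
          rw [Real.rpow_add (by norm_num), Real.rpow_one, hdk]; ring
      _ ≤ 2 * (s + W) ^ 3 := by linarith

theorem cube_root_bound {c n t : ℝ} (ht : 0 ≤ t) (h : (2 : ℝ) ^ (c * n) ≤ 2 * t ^ 3) :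
    (2 : ℝ) ^ (c / 3 * n) ≤ 2 * t := by
  have h1 : ((2 : ℝ) ^ (c / 3 * n)) ^ 3 = 2 ^ (c * n) := by
    rw [← Real.rpow_natCast, ← Real.rpow_mul (by norm_num)]
    congr 1; push_cast; ring
  have h2 : ((2 : ℝ) ^ (c / 3 * n)) ^ 3 ≤ (2 * t) ^ 3 := by
    rw [h1]
    have : 0 ≤ t ^ 3 := by positivity
    nlinarith
  exact le_of_pow_le_pow_left₀ (by norm_num) (by positivity) h2

theorem numeric (ρ ρ' : ℝ) (h0 : 0 < ρ) (h1 : ρ < 1) (h0' : 0 < ρ') (h1' : ρ' < 1)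
    (L1 L2 q L3 : ℕ) (hL1 : 0 < L1) (hL2 : 0 < L2) (hq : 0 < q) (hL3 : 0 < L3)
    (h8 : (8 : ℝ) ^ L2 * ρ' ^ q < 1) :
    ∃ c : ℝ, 0 < c ∧ ∀ n k : ℕ, n ≤ L3 * (k + 1) → ∀ s W : ℝ, 1 ≤ s → 0 ≤ W →
      1 ≤ 4 * s * ρ ^ (k / L1) + ρ' ^ (k / L2) *
        (4 * s * 2 ^ (k / q) * W + 3 * (4 * s) ^ 3 * ((2 : ℝ) ^ (k / q)) ^ 3) →
      (2 : ℝ) ^ (c * n) ≤ 2 * (s + W) := by
  obtain ⟨c, hc, h⟩ := numeric_rob ρ ρ' h0 h1 h0' h1' L1 L2 q L3 hL1 hL2 hq hL3 h8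
  refine ⟨c / 3, by positivity, ?_⟩
  intro n k hn s W hs hW hineq
  have := h n k hn s W 1 hs hW zero_le_one le_rfl hineq
  rw [mul_one] at this
  exact cube_root_bound (by linarith) this

end Pool.Agent.Dichotomy
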