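import Pool.Agent.Helper91.Dich.Transfer
import Pool.Agent.Helper91.Dich.Expand
import Pool.Agent.Helper91.Dich.Numeric
import Pool.Agent.Helper34.XTW.StarLinked
import Pool.Agent.Helper34.XTW.Sumset2
import Pool.Agent.Helper34.XTW.Entropy

/-!
The lower bounds for vertex covers and for instances over a language that is not affine.
-/

namespace Pool.Agent.Dichotomy

open Finset Pool.Agent.Helper34.XTW Pool.Agent.Helper97.Pendant

theorem VC_nonempty {V : Type*} (G : SimpleGraph V) : (VC G).Nonempty :=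
  ⟨fun _ => 1, fun _ _ _ => Or.inl rfl⟩

/-- The inequality of the path argument for an instance whose solutions project to the
(translated) vertex covers of a graph. -/
theorem instance_bound {V : Type} [Fintype V] [DecidableEq V] (G : SimpleGraph V) (D : ℕ)
    (hD : ∀ v, (G.neighborSet v).ncard ≤ D) (X : Finset V) (a t : ℕ) (hstar : Star G X a t)
    (κ : ℝ) (hκ0 : 0 ≤ κ)
    (hκ : ∀ p : V → ZMod 2, ({x | x ∈ VC G ∧ ∀ i ∈ X, x i = p i}.ncard : ℝ) ≤
      κ * (VC G).ncard)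
    {N : ℕ} {S : Set (Fin N → ZMod 2)} {z0 z1 : Fin N} {emb : V → Fin N} {τ : V → ZMod 2}
    (hI : ∀ x : V → ZMod 2, (∃ y ∈ S, y z0 = 0 ∧ y z1 = 1 ∧ ∀ u, x u = y (emb u)) ↔
        x + τ ∈ VC G)
    {g : Type} [Fintype g] {rk : g → ℕ} {W : ℕ} {M : g → Set (Fin N → ZMod 2)}
    (hM : IsProg rk W M) {v : g} (hv : M v = S) :
    1 ≤ 4 * (Fintype.card g : ℝ) *
        (2 ^ (2 * (D + 1)) / (2 ^ (2 * (D + 1)) + 1)) ^ (t / (2 * (D + 1) ^ 2)) +
      κ * (4 * (Fintype.card g : ℝ) * 2 ^ a * W + 3 * (4 * (Fintype.card g : ℝ)) ^ 3 *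
        ((2 : ℝ) ^ a) ^ 3) := by
  classical
  set β : ℝ := ((2 : ℝ) ^ (2 * (D + 1)) / (2 ^ (2 * (D + 1)) + 1)) ^ (t / (2 * (D + 1) ^ 2))
    with hβd
  have hβ : ∀ U U' : Set (V → ZMod 2), (∀ u ∈ U, ∀ v ∈ U', u + v ∈ VC G) → 2 ^ a ≤ pat X U →
      2 ^ a ≤ pat X U' → ((ssum U U').ncard : ℝ) ≤ β * (VC G).ncard := by
    intro U U' h h1 h2
    exact sumset G D hD X a t hstar U U' h h1 h2
  obtain ⟨hcard, hβ', hκ'⟩ := translate_bounds (X := X) (K := 2 ^ a) τ hβ hκ
  have hprog := derived_isProg hM z0 z1 emb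
  have htop : derived M z0 z1 emb (v, (0, 1)) = {x | x + τ ∈ VC G} := by
    ext x
    rw [← show (∃ y ∈ S, y z0 = 0 ∧ y z1 = 1 ∧ ∀ u, x u = y (emb u)) ↔ x ∈ {x | x + τ ∈ VC G}
      from hI x, ← hv]
    rfl
  have hne : ({x | x + τ ∈ VC G} : Set (V → ZMod 2)).Nonempty := by
    obtain ⟨x, hx⟩ := VC_nonempty G
    refine ⟨x + τ, ?_⟩
    show x + τ + τ ∈ VC G
    rw [add_assoc, pi_add_self, add_zero]; exact hx
  have hpb := path_bound (fun w : g × (ZMod 2 × ZMod 2) => rk w.1) W (2 ^ a) Nat.one_le_two_pow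
    (derived M z0 z1 emb) hprog _ hne X (v, (0, 1)) htop β κ (by positivity) hκ0 hβ' hκ'
  have hc4 : (Fintype.card (g × (ZMod 2 × ZMod 2)) : ℝ) = 4 * (Fintype.card g : ℝ) := by
    rw [Fintype.card_prod, Fintype.card_prod, ZMod.card]; push_cast; ring
  rw [hc4] at hpb
  push_cast at hpb
  exact hpb

/-- The robust inequality for the vertex covers themselves. -/
theorem graph_bound {V : Type} [Fintype V] [DecidableEq V] (G : SimpleGraph V) (D : ℕ)
    (hD : ∀ v, (G.neighborSet v).ncard ≤ D) (X : Finset V) (a t : ℕ) (hstar : Star G X a t)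
    (κ : ℝ) (hκ0 : 0 ≤ κ)
    (hκ : ∀ p : V → ZMod 2, ({x | x ∈ VC G ∧ ∀ i ∈ X, x i = p i}.ncard : ℝ) ≤
      κ * (VC G).ncard)
    {g : Type} [Fintype g] {rk : g → ℕ} {W : ℕ} {M : g → Set (V → ZMod 2)}
    (hM : IsProg rk W M) {v : g} (hv : M v ⊆ VC G) :
    ((M v).ncard : ℝ) ≤ (4 * (Fintype.card g : ℝ) *
        (2 ^ (2 * (D + 1)) / (2 ^ (2 * (D + 1)) + 1)) ^ (t / (2 * (D + 1) ^ 2)) +
      κ * (4 * (Fintype.card g : ℝ) * 2 ^ a * W + 3 * (4 * (Fintype.card g : ℝ)) ^ 3 *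
        ((2 : ℝ) ^ a) ^ 3)) * (VC G).ncard := by
  classical
  set β : ℝ := ((2 : ℝ) ^ (2 * (D + 1)) / (2 ^ (2 * (D + 1)) + 1)) ^ (t / (2 * (D + 1) ^ 2))
    with hβd
  have hβ0 : 0 ≤ β := by positivity
  have hβ : ∀ U U' : Set (V → ZMod 2), (∀ u ∈ U, ∀ v ∈ U', u + v ∈ VC G) → 2 ^ a ≤ pat X U →
      2 ^ a ≤ pat X U' → ((ssum U U').ncard : ℝ) ≤ β * (VC G).ncard := by
    intro U U' h h1 h2
    exact sumset G D hD X a t hstar U U' h h1 h2
  have hpb := path_bound_sub rk W (2 ^ a) Nat.one_le_two_pow M hM (VC G) X v hv β κ hβ0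
    hκ0 hβ hκ
  push_cast at hpb
  set s : ℝ := (Fintype.card g : ℝ) with hs
  have hs0 : 0 ≤ s := Nat.cast_nonneg _
  refine hpb.trans ?_
  have hW0 : (0 : ℝ) ≤ W := Nat.cast_nonneg _
  have e1 : s * β ≤ 4 * s * β := by nlinarith [mul_nonneg hs0 hβ0]
  have e2 : s * 2 ^ a * W ≤ 4 * s * 2 ^ a * W := by
    have : 0 ≤ s * 2 ^ a * W := by positivity
    nlinarith
  have e3 : 3 * s ^ 3 * ((2 : ℝ) ^ a) ^ 3 ≤ 3 * (4 * s) ^ 3 * ((2 : ℝ) ^ a) ^ 3 := by
    have : s ^ 3 ≤ (4 * s) ^ 3 := by gcongr; linarith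
    gcongr
  have e4 : κ * (s * 2 ^ a * W + 3 * s ^ 3 * ((2 : ℝ) ^ a) ^ 3) ≤
      κ * (4 * s * 2 ^ a * W + 3 * (4 * s) ^ 3 * ((2 : ℝ) ^ a) ^ 3) := by gcongr
  gcongr

theorem rho_pos (D : ℕ) : (0 : ℝ) < 2 ^ D / (2 ^ D + 1) := by positivity

theorem rho_lt (D : ℕ) : (2 : ℝ) ^ D / (2 ^ D + 1) < 1 := by
  rw [div_lt_one (by positivity)]; linarith

/-- **Exponential lower bound for every language that is not affine.** -/
theorem hard_language {r : ℕ} {R : Set (Fin r → ZMod 2)} (hR : ¬ IsAffine R) :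
    ∃ c : ℝ, 0 < c ∧ ∃ C : ℕ, ∀ n : ℕ, ∃ I : List (Constraint n), I.length ≤ C * n ∧
      (∀ c ∈ I, c.arity = r ∧ HEq c.rel R) ∧
      ∀ (g : Type) (_ : Fintype g) (rk : g → ℕ) (W : ℕ) (M : g → Set (Fin n → ZMod 2)),
        IsProg rk W M → (∃ v, M v = Sol I) → (2 : ℝ) ^ (c * n) ≤ 2 * (Fintype.card g + W) := by
  classical
  obtain ⟨DD, hDD⟩ : ∃ DD : ℕ, DD = 12768 := ⟨_, rfl⟩
  set D := 96 * DD with hD
  set ρ : ℝ := (2 : ℝ) ^ (2 * (D + 1)) / (2 ^ (2 * (D + 1)) + 1) with hρ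
  set L := 2 * (D + 1) ^ 2 with hL
  set B := 2 + r * DD with hB
  obtain ⟨c, hc, hnum⟩ := numeric ρ (1 / 2) (rho_pos _) (rho_lt _) (by norm_num) (by norm_num)
    (12 * L) 1 6 (50 * B) (by positivity) (by norm_num) (by norm_num) (by positivity)
    (by norm_num)
  refine ⟨c, hc, DD, ?_⟩
  intro n
  -- trivial instance if n is small
  set m := (n - 2) / B with hm
  have hBpos : 0 < B := by positivity
  rcases Nat.lt_or_ge m 48 with hm48 | hm48
  · refine ⟨[], by simp, by simp, ?_⟩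
    intro g _ rk W M hM ⟨v, hv⟩
    have hs1 : (1 : ℝ) ≤ Fintype.card g := by exact_mod_cast Fintype.card_pos_iff.2 ⟨v⟩
    have hW0 : (0 : ℝ) ≤ W := Nat.cast_nonneg _
    have hn : n ≤ 50 * B * (0 + 1) := by
      have h1 : n - 2 < B * (m + 1) := Nat.lt_mul_div_succ _ hBpos
      have h2 : B * (m + 1) ≤ B * 48 := Nat.mul_le_mul_left _ (by omega)
      have h3 : 2 ≤ B := by omega
      omega
    refine hnum n 0 hn _ _ hs1 hW0 ?_
    simp only [Nat.zero_div, pow_zero, mul_one, one_mul]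
    nlinarith [mul_nonneg (by linarith : (0:ℝ) ≤ Fintype.card g) hW0,
      pow_pos (by linarith : (0:ℝ) < Fintype.card g) 3]
  · obtain ⟨G, E, hE, hEG, hcol, hEc, hdeg, hmix⟩ := exists_bipartite hDD m (by omega)
    have hcardV : Fintype.card (Fin m ⊕ Fin m) = 2 * m := by
      rw [Fintype.card_sum, Fintype.card_fin]; ring
    have hmB : m * B + 2 ≤ n := by
      have h1 : m * B ≤ n - 2 := Nat.div_mul_le_self _ _
      have h2 : 0 < m * B := by positivity
      omega
    obtain ⟨I, z0, z1, emb, τ, hlen, hrel, hI⟩ := exists_instance G E hE hEG Sum.isLeft hcol hR n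
      (by
        rw [hcardV]
        have : r * E.card ≤ r * (DD * m) := Nat.mul_le_mul_left _ hEc
        calc 2 * m + 2 + r * E.card ≤ 2 * m + 2 + r * (DD * m) := by omega
          _ = m * B + 2 := by rw [hB]; ring
          _ ≤ n := hmB)
    refine ⟨I, ?_, hrel, ?_⟩
    · rw [hlen]
      refine hEc.trans (Nat.mul_le_mul_left _ ?_)
      have : m ≤ m * B := Nat.le_mul_of_pos_right _ hBpos
      omega
    · intro g _ rk W M hM ⟨v, hv⟩
      have hs1 : (1 : ℝ) ≤ Fintype.card g := by exact_mod_cast Fintype.card_pos_iff.2 ⟨v⟩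
      have hW0 : (0 : ℝ) ≤ W := Nat.cast_nonneg _
      have hn : n ≤ 50 * B * (m + 1) := by
        have h1 : n - 2 < B * (m + 1) := Nat.lt_mul_div_succ _ hBpos
        have h3 : 2 ≤ B := by omega
        have h4 : 50 * B * (m + 1) = 50 * (B * (m + 1)) := by ring
        have h5 : 2 ≤ B * (m + 1) := by nlinarith
        omega
      refine hnum n m hn _ _ hs1 hW0 ?_
      have hstar := star_of_mixing m hm48 G hmix
      -- the density of a point
      have hVCpos : (0 : ℝ) < (VC G).ncard := by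
        exact_mod_cast (Set.ncard_pos (Set.toFinite _)).2 (VC_nonempty G)
      have hVC : (2 : ℝ) ^ m ≤ (VC G).ncard := by
        have h1 : ((Finset.univ : Finset (Fin m → ZMod 2)).image
            (fun (y : Fin m → ZMod 2) (u : Fin m ⊕ Fin m) => Sum.elim (fun _ => (1 : ZMod 2)) y u)
            : Set (Fin m ⊕ Fin m → ZMod 2)) ⊆ VC G := by
          intro x hx
          rw [Finset.mem_coe, Finset.mem_image] at hx
          obtain ⟨y, -, rfl⟩ := hx
          intro u w huw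
          rcases hEG u w huw with h | h
          · have := (hcol _ h).1
            rcases u with u | u
            · exact Or.inl rfl
            · exact absurd this (by simp)
          · have := (hcol _ h).1
            rcases w with w | w
            · exact Or.inr rfl
            · exact absurd this (by simp)
        have h2 := Set.ncard_le_ncard h1 (Set.toFinite _)
        rw [Set.ncard_coe_finset, Finset.card_image_of_injective, Finset.card_univ,
          Fintype.card_fun, ZMod.card, Fintype.card_fin] at h2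
        · exact_mod_cast h2
        · intro y y' h
          funext j
          exact congrFun h (Sum.inr j)
      have hκ : ∀ p : (Fin m ⊕ Fin m) → ZMod 2,
          ({x | x ∈ VC G ∧ ∀ i ∈ (Finset.univ : Finset (Fin m ⊕ Fin m)), x i = p i}.ncard : ℝ) ≤
          (1 / 2) ^ m * (VC G).ncard := by
        intro p
        have h1 : {x | x ∈ VC G ∧ ∀ i ∈ (Finset.univ : Finset (Fin m ⊕ Fin m)), x i = p i} ⊆ {p} := by
          rintro x ⟨-, hx⟩
          exact funext fun i => hx i (Finset.mem_univ i)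
        have h2 := Set.ncard_le_ncard h1 (Set.toFinite _)
        rw [Set.ncard_singleton] at h2
        have h3 : ({x | x ∈ VC G ∧ ∀ i ∈ (Finset.univ : Finset (Fin m ⊕ Fin m)),
          x i = p i}.ncard : ℝ) ≤ 1 := by exact_mod_cast h2
        refine h3.trans ?_
        calc (1 : ℝ) = (1 / 2) ^ m * 2 ^ m := by rw [← mul_pow]; norm_num
          _ ≤ (1 / 2) ^ m * (VC G).ncard := by gcongr
      have hb := instance_bound G D hdeg Finset.univ (m / 6) (m / 12) hstar ((1 / 2) ^ m)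
        (by positivity) hκ hI hM hv
      rw [Nat.div_div_eq_div_mul, ← hρ, ← hL] at hb
      rw [Nat.div_one]
      exact hb

end Pool.Agent.Dichotomy
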