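import Pool.Agent.Helper91.Dich.Final3
import Pool.Agent.Helper91.Dich.Numeric4
import Pool.Agent.Helper91.Dich.Hard

/-!
The exponential lower bound for programs with tensor network leaves, for every relation that is
not affine.
-/

namespace Pool.Agent.Dichotomy

open Finset Module

/-- The number of vertex covers of a bipartite graph. -/
theorem pow_le_VC {V : Type} [Fintype V] [DecidableEq V] (G : SimpleGraph V)
    (E : Finset (V × V)) (hEG : ∀ u v, G.Adj u v → (u, v) ∈ E ∨ (v, u) ∈ E) (col : V → Bool)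
    (hcol : ∀ p ∈ E, col p.1 = true ∧ col p.2 = false) :
    (2 : ℝ) ^ (univ.filter fun v => col v = false).card ≤ (VC G).ncard := by
  classical
  have h1 : ((Finset.univ : Finset ({v // col v = false} → ZMod 2)).image
      (fun (y : {v // col v = false} → ZMod 2) (u : V) =>
        if h : col u = false then y ⟨u, h⟩ else (1 : ZMod 2)) : Set (V → ZMod 2)) ⊆ VC G := by
    intro x hx
    rw [Finset.mem_coe, Finset.mem_image] at hx
    obtain ⟨y, -, rfl⟩ := hx
    intro u w huw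
    rcases hEG u w huw with h | h
    · have := (hcol _ h).1
      left
      show (if h : col u = false then y ⟨u, h⟩ else (1 : ZMod 2)) = 1
      rw [dif_neg (by rw [this]; simp)]
    · have := (hcol _ h).1
      right
      show (if h : col w = false then y ⟨w, h⟩ else (1 : ZMod 2)) = 1
      rw [dif_neg (by rw [this]; simp)]
  have h2 := Set.ncard_le_ncard h1 (Set.toFinite _)
  rw [Set.ncard_coe_finset, Finset.card_image_of_injective, Finset.card_univ,
    Fintype.card_fun, ZMod.card, Fintype.card_subtype] at h2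
  · exact_mod_cast h2
  · intro y y' h
    funext j
    have := congrFun h j.1
    simp only [dif_pos j.2] at this
    exact this

/-- **Exponential lower bound for every relation that is not affine.** -/
theorem hard_network {r : ℕ} {R : Set (Fin r → ZMod 2)} (hR : ¬ IsAffine R) :
    ∃ c : ℝ, 0 < c ∧ ∃ C : ℕ, ∀ n : ℕ, ∃ I : List (Constraint n), I.length ≤ C * n ∧
      (∀ c ∈ I, c.arity = r ∧ HEq c.rel R) ∧
      ∀ (g : Type) (_ : Fintype g) (rk : g → ℕ) (W : ℕ) (M : g → Set (Fin n → ZMod 2)),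
        IsProgL (NetLeaf W) rk M → (∃ v, M v = Sol I) →
          (2 : ℝ) ^ (c * n) ≤ 2 * (Fintype.card g + W) := by
  classical
  obtain ⟨DD, hDD⟩ : ∃ DD : ℕ, DD = 12768 := ⟨_, rfl⟩
  obtain ⟨D, hD⟩ : ∃ D, D = 96 * DD := ⟨_, rfl⟩
  obtain ⟨ρ, hρ⟩ : ∃ ρ : ℝ, ρ = 2 ^ (D + 1) / (2 ^ (D + 1) + 1) := ⟨_, rfl⟩
  obtain ⟨ρ2, hρ2⟩ : ∃ ρ2 : ℝ, ρ2 = 2 ^ (2 * (D + 1)) / (2 ^ (2 * (D + 1)) + 1) := ⟨_, rfl⟩
  have hρ0 : 0 < ρ := by rw [hρ]; positivity
  have hρ1 : ρ < 1 := by rw [hρ, div_lt_one (by positivity)]; linarith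
  have hρ20 : 0 < ρ2 := by rw [hρ2]; positivity
  have hρ21 : ρ2 < 1 := by rw [hρ2, div_lt_one (by positivity)]; linarith
  obtain ⟨B, hB⟩ : ∃ B, B = 2 + r * DD := ⟨_, rfl⟩
  have hBpos : 0 < B := by omega
  obtain ⟨k, q0, c, hc, hnum⟩ := numeric4 ρ ρ2 hρ0 hρ1 hρ20 hρ21 (100 * (D + 1))
    (2 * (D + 1) ^ 2) (50 * B) (by positivity) (by positivity) (by positivity)
  refine ⟨c, hc, DD + 1, ?_⟩
  intro n
  obtain ⟨m, hm⟩ : ∃ m, m = (n - 2) / B := ⟨_, rfl⟩
  rcases Nat.lt_or_ge m 48 with hm48 | hm48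
  · refine ⟨[], by simp, by simp, ?_⟩
    intro g _ rk W M hM ⟨v, hv⟩
    have hs1 : (1 : ℝ) ≤ Fintype.card g := by exact_mod_cast Fintype.card_pos_iff.2 ⟨v⟩
    have hW0 : (0 : ℝ) ≤ W := Nat.cast_nonneg _
    have hn : n ≤ 50 * B * (0 + 1) := by
      have h1 : n - 2 < B * (m + 1) := by rw [hm]; exact Nat.lt_mul_div_succ _ hBpos
      have h2 : B * (m + 1) ≤ B * 48 := Nat.mul_le_mul_left _ (by omega)
      have h3 : 2 ≤ B := by omega
      omega
    refine hnum n 0 hn 0 0 (by omega) (by omega) 1 _ _ (by norm_num) hs1 hW0 ?_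
    intro δ hδ0 hδ
    simp only [Nat.zero_div, pow_zero, mul_one, one_mul, one_pow]
    have : (0 : ℝ) ≤ (4 * (Fintype.card g : ℝ)) ^ 3 := by positivity
    nlinarith [mul_nonneg (by linarith : (0:ℝ) ≤ Fintype.card g) hδ0]
  · obtain ⟨V, _, _, G, E, col, hE, hEG, hcol, hEc, hdeg, hExp, hV2, hV1, hVr⟩ :=
      exists_expander hDD m hm48
    have hmB : m * B + 2 ≤ n := by
      have h1 : m * B ≤ n - 2 := by rw [hm]; exact Nat.div_mul_le_self _ _
      have h2 : 0 < m * B := by positivity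
      omega
    obtain ⟨I, z0, z1, emb, τ, l0, Λ, hlen, hrel, hI1, hI2, hl0, hl1, hle, hΛ⟩ :=
      exists_lift3 G E hE hEG col hcol hR n (by
        have : r * E.card ≤ r * (DD * m) := Nat.mul_le_mul_left _ hEc
        calc Fintype.card V + 2 + r * E.card ≤ 2 * m + 2 + r * (DD * m) := by omega
          _ = m * B + 2 := by rw [hB]; ring
          _ ≤ n := hmB)
    refine ⟨I, ?_, hrel, ?_⟩
    · refine hlen.trans ?_
      have h1 : m ≤ m * B := Nat.le_mul_of_pos_right _ hBpos
      have h2 : E.card ≤ DD * n := hEc.trans (Nat.mul_le_mul_left _ (by omega))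
      rw [Nat.add_mul, one_mul]; omega
    · intro g _ rk W M hM ⟨v, hv⟩
      have hs1 : (1 : ℝ) ≤ Fintype.card g := by exact_mod_cast Fintype.card_pos_iff.2 ⟨v⟩
      have hW0 : (0 : ℝ) ≤ W := Nat.cast_nonneg _
      have hn : n ≤ 50 * B * (m + 1) := by
        have h1 : n - 2 < B * (m + 1) := by rw [hm]; exact Nat.lt_mul_div_succ _ hBpos
        have h3 : 2 ≤ B := by omega
        have h4 : 50 * B * (m + 1) = 50 * (B * (m + 1)) := by ring
        have h5 : 2 ≤ B * (m + 1) := by nlinarith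
        omega
      have hVm : m ≤ Fintype.card V := by omega
      refine hnum n m hn (Fintype.card V) _ hV2 hVr _ _ _ (pow_le_VC G E hEG col hcol) hs1 hW0 ?_
      intro δ hδ0 hδ
      have ht : m / (100 * (D + 1)) ≤ (m / 100 + 1) / (D + 1) := by
        rw [← Nat.div_div_eq_div_mul]
        exact Nat.div_le_div_right (by omega)
      have hb := main_bound (by omega) G D (by rw [hD]; exact hdeg) hExp hI1 hI2 hl0 hl1 hle hΛ
        (m / q0) (m / 100) k (m / (100 * (D + 1)))
        ((Nat.mul_div_le _ _).trans hVm) ht hM hv δ hδ0 (by rw [← hρ]; exact hδ)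
      rw [← hρ2] at hb
      exact hb

end Pool.Agent.Dichotomy
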