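import Pool.Agent.Helper91.Dich.Numeric

/-!
From the main inequality to a bound that is exponential in the tree-width.
-/

namespace Pool.Agent.Dichotomy

open Filter Topology

theorem numeric5_aux (b Cst : ℝ) (hb0 : 0 < b) (hb1 : b < 1) :
    ∃ c : ℝ, 0 < c ∧ ∀ tw k : ℕ, tw ≤ 4 * (k + 1) → ∀ y φ : ℝ, 1 ≤ y → 0 ≤ φ → φ ≤ 1 →
      φ ≤ y ^ 3 * (Cst * b ^ k) → (2 : ℝ) ^ (c * tw) * φ ≤ 2 * y ^ 3 := by
  obtain ⟨δ, hδ0, hδa⟩ : ∃ δ : ℝ, 0 < δ ∧ (2 : ℝ) ^ δ * b < 1 := by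
    have hc : Tendsto (fun δ : ℝ => (2 : ℝ) ^ δ) (𝓝[>] 0) (𝓝 1) := by
      have h := (Real.continuous_const_rpow (a := 2) (by norm_num)).tendsto (0 : ℝ)
      rw [Real.rpow_zero] at h
      exact h.mono_left nhdsWithin_le_nhds
    have t1 : Tendsto (fun δ : ℝ => (2 : ℝ) ^ δ * b) (𝓝[>] 0) (𝓝 (1 * b)) := hc.mul_const b
    rw [one_mul] at t1
    obtain ⟨δ, hd1, hd2⟩ := ((t1.eventually (gt_mem_nhds hb1)).and self_mem_nhdsWithin).exists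
    exact ⟨δ, hd2, hd1⟩
  obtain ⟨d, hd⟩ : ∃ d : ℝ, d = (2 : ℝ) ^ δ := ⟨_, rfl⟩
  rw [← hd] at hδa
  have hd0 : 0 < d := by rw [hd]; positivity
  have hdk : ∀ k : ℕ, (2 : ℝ) ^ (δ * k) = d ^ k := by
    intro k; rw [Real.rpow_mul (by norm_num), Real.rpow_natCast, hd]
  obtain ⟨m0, hm0⟩ : ∃ m0 : ℕ, ∀ m ≥ m0, Cst * d * (d * b) ^ m < 1 := by
    have t1 : Tendsto (fun m : ℕ => (d * b) ^ m) atTop (𝓝 0) :=
      tendsto_pow_atTop_nhds_zero_of_lt_one (by positivity) hδa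
    have t2 : Tendsto (fun m : ℕ => Cst * d * (d * b) ^ m) atTop (𝓝 (Cst * d * 0)) :=
      t1.const_mul _
    rw [mul_zero] at t2
    exact eventually_atTop.1 (t2.eventually (gt_mem_nhds one_pos))
  refine ⟨min (δ / 4) (1 / (4 * (m0 + 1))), by positivity, ?_⟩
  intro n m hn y φ hy hφ0 hφ1 h
  have hnr : (n : ℝ) ≤ 4 * (m + 1) := by exact_mod_cast hn
  obtain ⟨c, hc⟩ : ∃ c : ℝ, c = min (δ / 4) (1 / (4 * (m0 + 1))) := ⟨_, rfl⟩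
  rw [← hc]
  have hcpos : 0 < c := by rw [hc]; positivity
  have hc1 : c ≤ δ / 4 := by rw [hc]; exact min_le_left _ _
  have hc2 : c ≤ 1 / (4 * (m0 + 1)) := by rw [hc]; exact min_le_right _ _
  have hy3 : 1 ≤ y ^ 3 := one_le_pow₀ hy
  rcases lt_or_ge m m0 with hm | hm
  · have hmr : (m : ℝ) ≤ m0 := by exact_mod_cast hm.le
    have h2 : c * n ≤ 1 := by
      calc c * n ≤ 1 / (4 * (m0 + 1)) * (4 * (m0 + 1)) := by
            refine mul_le_mul hc2 ?_ (Nat.cast_nonneg _) (by positivity)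
            refine hnr.trans ?_
            linarith
        _ = 1 := by field_simp
    calc (2 : ℝ) ^ (c * n) * φ ≤ 2 ^ (1 : ℝ) * 1 :=
          mul_le_mul (Real.rpow_le_rpow_of_exponent_le (by norm_num) h2) hφ1 hφ0 (by positivity)
      _ = 2 := by rw [Real.rpow_one, mul_one]
      _ ≤ 2 * y ^ 3 := by linarith
  · have e1 : (2 : ℝ) ^ (c * n) ≤ d ^ (m + 1) := by
      rw [← hdk]
      apply Real.rpow_le_rpow_of_exponent_le (by norm_num)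
      push_cast
      calc c * n ≤ δ / 4 * (4 * (m + 1)) := mul_le_mul hc1 hnr (Nat.cast_nonneg _) (by positivity)
        _ = δ * (m + 1) := by field_simp
    have e2 : (2 : ℝ) ^ (c * n) * φ ≤ d ^ (m + 1) * (y ^ 3 * (Cst * b ^ m)) :=
      mul_le_mul e1 h hφ0 (by positivity)
    have e6 : d ^ (m + 1) * (y ^ 3 * (Cst * b ^ m)) = y ^ 3 * (Cst * d * (d * b) ^ m) := by
      rw [mul_pow, pow_succ]; ring
    have e7 := hm0 m hm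
    have e8 : y ^ 3 * (Cst * d * (d * b) ^ m) ≤ y ^ 3 * 1 :=
      mul_le_mul_of_nonneg_left e7.le (by positivity)
    rw [e6] at e2
    linarith

theorem numeric5 (ρ ρ2 : ℝ) (h0 : 0 < ρ) (h1 : ρ < 1) (h20 : 0 < ρ2) (h21 : ρ2 < 1)
    (L1 L2 L4 : ℕ) (hL1 : 0 < L1) (hL2 : 0 < L2) (hL4 : 0 < L4) :
    ∃ (k0 q0 : ℕ) (c : ℝ), 5 ≤ q0 ∧ 0 < c ∧ ∀ tw k : ℕ, tw ≤ 4 * (k + 1) →
      ∀ s W φ : ℝ, 1 ≤ s → 0 ≤ W → 0 ≤ φ → φ ≤ 1 →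
      (80 ≤ k → ∀ δ lam : ℝ, 0 ≤ δ → (128 * W) ^ (2 * (k0 + 1)) *
        (16 ^ (k / 80) * (ρ ^ (k / L1)) ^ k0 + ρ ^ (k / L1)) ≤ δ ^ (4 * (k0 + 1)) →
        ρ2 ^ (k / q0 / L2) ≤ lam → 2 ^ (k / q0) * δ ≤ lam →
        φ ≤ s * ρ2 ^ (k / 4 / L2) + s * lam + 2 * s ^ 3 * ρ ^ (k / L4)) →
      (2 : ℝ) ^ (c * tw) * φ ≤ 2 * (s + W) ^ 3 := by
  have hL1r : (0 : ℝ) < L1 := by exact_mod_cast hL1
  obtain ⟨a, ha⟩ : ∃ a : ℝ, a = ρ ^ ((1 : ℝ) / L1) := ⟨_, rfl⟩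
  have ha0 : 0 < a := by rw [ha]; exact Real.rpow_pos_of_pos h0 _
  have ha1 : a < 1 := by rw [ha]; exact Real.rpow_lt_one h0.le h1 (by positivity)
  obtain ⟨k0, hk⟩ := exists_pow_lt_of_lt_one (show (0 : ℝ) < a / 4 by positivity) ha1
  obtain ⟨e, he⟩ : ∃ e : ℕ, e = 4 * (k0 + 1) := ⟨_, rfl⟩
  have hepos : 0 < e := by omega
  have her : (0 : ℝ) < e := by exact_mod_cast hepos
  obtain ⟨b3, hb3⟩ : ∃ b3 : ℝ, b3 = a ^ ((1 : ℝ) / e) := ⟨_, rfl⟩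
  have hb30 : 0 < b3 := by rw [hb3]; exact Real.rpow_pos_of_pos ha0 _
  have hb31 : b3 < 1 := by rw [hb3]; exact Real.rpow_lt_one ha0.le ha1 (by positivity)
  have hb3e : b3 ^ e = a := by
    rw [hb3, ← Real.rpow_natCast, ← Real.rpow_mul ha0.le, one_div, inv_mul_cancel₀ her.ne',
      Real.rpow_one]
  obtain ⟨q1, hq1⟩ := exists_pow_lt_of_lt_one (show (0 : ℝ) < 1 / 2 by norm_num) hb31
  obtain ⟨q0, hq0⟩ : ∃ q0, q0 = q1 + 5 := ⟨_, rfl⟩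
  have hq0pos : 0 < q0 := by omega
  have hq0r : (0 : ℝ) < q0 := by exact_mod_cast hq0pos
  obtain ⟨ρ3, hρ3⟩ : ∃ ρ3 : ℝ, ρ3 = 2 * b3 ^ q0 := ⟨_, rfl⟩
  have hρ30 : 0 < ρ3 := by rw [hρ3]; positivity
  have hρ31 : ρ3 < 1 := by
    have h3 : b3 ^ q0 ≤ b3 ^ q1 := pow_le_pow_of_le_one hb30.le hb31.le (by omega)
    rw [hρ3]; linarith
  obtain ⟨C1, hC1⟩ : ∃ C1 : ℝ, C1 = ρ⁻¹ ^ k0 + ρ⁻¹ := ⟨_, rfl⟩
  have hρinv : 1 ≤ ρ⁻¹ := (one_le_inv₀ h0).2 h1.le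
  have hC11 : 1 ≤ C1 := by
    rw [hC1]
    have : 0 < ρ⁻¹ ^ k0 := by positivity
    linarith
  have hC10 : 0 < C1 := by linarith
  -- the bases
  have hLL : 0 < 4 * L2 := by positivity
  have hLL' : 0 < q0 * L2 := by positivity
  obtain ⟨bβ, hbβ⟩ : ∃ x : ℝ, x = ρ2 ^ ((1 : ℝ) / (4 * L2 : ℕ)) := ⟨_, rfl⟩
  obtain ⟨b4, hb4⟩ : ∃ x : ℝ, x = ρ3 ^ ((1 : ℝ) / q0) := ⟨_, rfl⟩
  obtain ⟨b5, hb5⟩ : ∃ x : ℝ, x = ρ2 ^ ((1 : ℝ) / (q0 * L2 : ℕ)) := ⟨_, rfl⟩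
  obtain ⟨b6, hb6⟩ : ∃ x : ℝ, x = ρ ^ ((1 : ℝ) / L4) := ⟨_, rfl⟩
  have hLLr : (0 : ℝ) < ((4 * L2 : ℕ) : ℝ) := by exact_mod_cast hLL
  have hLLr' : (0 : ℝ) < ((q0 * L2 : ℕ) : ℝ) := by exact_mod_cast hLL'
  have hL4r : (0 : ℝ) < (L4 : ℝ) := by exact_mod_cast hL4
  have hbβ0 : 0 < bβ := by rw [hbβ]; exact Real.rpow_pos_of_pos h20 _
  have hbβ1 : bβ < 1 := by rw [hbβ]; exact Real.rpow_lt_one h20.le h21 (by positivity)
  have hb40 : 0 < b4 := by rw [hb4]; exact Real.rpow_pos_of_pos hρ30 _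
  have hb41 : b4 < 1 := by rw [hb4]; exact Real.rpow_lt_one hρ30.le hρ31 (by positivity)
  have hb50 : 0 < b5 := by rw [hb5]; exact Real.rpow_pos_of_pos h20 _
  have hb51 : b5 < 1 := by rw [hb5]; exact Real.rpow_lt_one h20.le h21 (by positivity)
  have hb60 : 0 < b6 := by rw [hb6]; exact Real.rpow_pos_of_pos h0 _
  have hb61 : b6 < 1 := by rw [hb6]; exact Real.rpow_lt_one h0.le h1 (by positivity)
  obtain ⟨b, hb⟩ : ∃ b : ℝ, b = max (max bβ b4) (max b5 b6) := ⟨_, rfl⟩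
  have hbb : bβ ≤ b := by rw [hb]; exact (le_max_left _ _).trans (le_max_left _ _)
  have hb4b : b4 ≤ b := by rw [hb]; exact (le_max_right _ _).trans (le_max_left _ _)
  have hb5b : b5 ≤ b := by rw [hb]; exact (le_max_left _ _).trans (le_max_right _ _)
  have hb6b : b6 ≤ b := by rw [hb]; exact (le_max_right _ _).trans (le_max_right _ _)
  have hb0 : 0 < b := lt_of_lt_of_le hbβ0 hbb
  have hb1 : b < 1 := by rw [hb]; exact max_lt (max_lt hbβ1 hb41) (max_lt hb51 hb61)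
  obtain ⟨Cst, hCst⟩ : ∃ Cst : ℝ, Cst = 2 * ρ2⁻¹ + 2 * ρ⁻¹ + 128 * (C1 * ρ3⁻¹) + (b⁻¹) ^ 80 :=
    ⟨_, rfl⟩
  have hCst0 : 0 < Cst := by rw [hCst]; positivity
  obtain ⟨c, hc, hnum⟩ := numeric5_aux b Cst hb0 hb1
  refine ⟨k0, q0, c, by omega, hc, ?_⟩
  intro tw k htw s W φ hs hW hφ0 hφ1 h
  obtain ⟨y, hy⟩ : ∃ y : ℝ, y = s + W := ⟨_, rfl⟩
  have hy1 : 1 ≤ y := by linarith
  have hsy : s ≤ y := by linarith
  have hWy : W ≤ y := by linarith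
  rw [← hy]
  refine hnum tw k htw y φ hy1 hφ0 hφ1 ?_
  have hbk : 0 < b ^ k := by positivity
  have hy3 : 1 ≤ y ^ 3 := one_le_pow₀ hy1
  rcases Nat.lt_or_ge k 80 with hk80 | hk80
  · have h3 : 1 ≤ (b⁻¹) ^ 80 * b ^ k := by
      have h4 : b ^ 80 ≤ b ^ k := pow_le_pow_of_le_one hb0.le hb1.le hk80.le
      have h5 : (b⁻¹) ^ 80 * b ^ 80 = 1 := by
        rw [← mul_pow, inv_mul_cancel₀ hb0.ne', one_pow]
      calc (1 : ℝ) = (b⁻¹) ^ 80 * b ^ 80 := h5.symm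
        _ ≤ (b⁻¹) ^ 80 * b ^ k := mul_le_mul_of_nonneg_left h4 (by positivity)
    have h4 : (b⁻¹) ^ 80 * b ^ k ≤ Cst * b ^ k := by
      refine mul_le_mul_of_nonneg_right ?_ hbk.le
      have : 0 ≤ 2 * ρ2⁻¹ + 2 * ρ⁻¹ + 128 * (C1 * ρ3⁻¹) := by positivity
      rw [hCst]; linarith
    calc φ ≤ 1 := hφ1
      _ ≤ y ^ 3 := hy3
      _ = y ^ 3 * 1 := (mul_one _).symm
      _ ≤ y ^ 3 * (Cst * b ^ k) := mul_le_mul_of_nonneg_left (h3.trans h4) (by positivity)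
  specialize h hk80
  rw [← he] at h
  obtain ⟨z, hz⟩ : ∃ z : ℝ, z = C1 * b3 ^ k := ⟨_, rfl⟩
  have hz0 : 0 < z := by rw [hz]; positivity
  have e2 : ρ ^ (k / L1) ≤ ρ⁻¹ * a ^ k := by rw [ha]; exact pow_div_le h0 h1 hL1 k
  have e3 : 16 ^ (k / 80) * (ρ ^ (k / L1)) ^ k0 + ρ ^ (k / L1) ≤ C1 * a ^ k := by
    have s0 : (16 : ℝ) ^ (k / 80) ≤ 4 ^ k := by
      calc (16 : ℝ) ^ (k / 80) = 4 ^ (2 * (k / 80)) := by rw [pow_mul]; norm_num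
        _ ≤ 4 ^ k := pow_le_pow_right₀ (by norm_num) (by omega)
    have s1 : (ρ ^ (k / L1)) ^ k0 ≤ ρ⁻¹ ^ k0 * (a ^ k0) ^ k := by
      calc (ρ ^ (k / L1)) ^ k0 ≤ (ρ⁻¹ * a ^ k) ^ k0 := pow_le_pow_left₀ (by positivity) e2 k0
        _ = ρ⁻¹ ^ k0 * (a ^ k0) ^ k := by rw [mul_pow, ← pow_mul, ← pow_mul, mul_comm k k0]
    have s2 : (4 : ℝ) ^ k * (a ^ k0) ^ k ≤ a ^ k := by
      rw [← mul_pow]
      exact pow_le_pow_left₀ (by positivity) (by linarith) k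
    calc 16 ^ (k / 80) * (ρ ^ (k / L1)) ^ k0 + ρ ^ (k / L1)
        ≤ 4 ^ k * (ρ⁻¹ ^ k0 * (a ^ k0) ^ k) + ρ⁻¹ * a ^ k :=
          add_le_add (mul_le_mul s0 s1 (by positivity) (by positivity)) e2
      _ = ρ⁻¹ ^ k0 * (4 ^ k * (a ^ k0) ^ k) + ρ⁻¹ * a ^ k := by ring
      _ ≤ ρ⁻¹ ^ k0 * a ^ k + ρ⁻¹ * a ^ k := by
          have := mul_le_mul_of_nonneg_left s2 (show (0 : ℝ) ≤ ρ⁻¹ ^ k0 by positivity)
          linarith
      _ = C1 * a ^ k := by rw [hC1]; ring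
  have e4 : C1 * a ^ k ≤ z ^ e := by
    rw [hz, mul_pow, ← pow_mul, mul_comm k e, pow_mul, hb3e]
    refine mul_le_mul_of_nonneg_right ?_ (by positivity)
    exact le_self_pow₀ hC11 hepos.ne'
  have e5 : (128 * W) ^ (2 * (k0 + 1)) * (16 ^ (k / 80) * (ρ ^ (k / L1)) ^ k0 + ρ ^ (k / L1)) ≤
      (128 * y * z) ^ e := by
    rw [mul_pow (128 * y) z e]
    refine mul_le_mul ?_ (e3.trans e4) (by positivity) (by positivity)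
    calc (128 * W) ^ (2 * (k0 + 1)) ≤ (128 * y) ^ (2 * (k0 + 1)) :=
          pow_le_pow_left₀ (by positivity) (by linarith) _
      _ ≤ (128 * y) ^ e := pow_le_pow_right₀ (by linarith) (by omega)
  obtain ⟨lam, hlam⟩ : ∃ lam : ℝ, lam = ρ2 ^ (k / q0 / L2) +
    2 ^ (k / q0) * (128 * y * z) := ⟨_, rfl⟩
  have hmain := h (128 * y * z) lam (by positivity) e5
    (by rw [hlam]; have : 0 ≤ 2 ^ (k / q0) * (128 * y * z) := by positivity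
        linarith)
    (by rw [hlam]; have : 0 ≤ ρ2 ^ (k / q0 / L2) := by positivity
        linarith)
  -- the parts
  have p1 : ρ2 ^ (k / 4 / L2) ≤ ρ2⁻¹ * b ^ k := by
    rw [Nat.div_div_eq_div_mul]
    have h3 := pow_div_le h20 h21 hLL k
    rw [← hbβ] at h3
    refine h3.trans ?_
    exact mul_le_mul_of_nonneg_left (pow_le_pow_left₀ hbβ0.le hbb k) (by positivity)
  have p2 : 2 ^ (k / q0) * z ≤ C1 * ρ3⁻¹ * b ^ k := by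
    have h4 : b3 ^ k ≤ (b3 ^ q0) ^ (k / q0) := by
      rw [← pow_mul]
      exact pow_le_pow_of_le_one hb30.le hb31.le (Nat.mul_div_le k q0)
    have h5 : (2 : ℝ) ^ (k / q0) * b3 ^ k ≤ ρ3 ^ (k / q0) := by
      calc (2 : ℝ) ^ (k / q0) * b3 ^ k ≤ 2 ^ (k / q0) * (b3 ^ q0) ^ (k / q0) :=
            mul_le_mul_of_nonneg_left h4 (by positivity)
        _ = ρ3 ^ (k / q0) := by rw [← mul_pow, hρ3]
    have h6 : ρ3 ^ (k / q0) ≤ ρ3⁻¹ * b4 ^ k := by rw [hb4]; exact pow_div_le hρ30 hρ31 hq0pos k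
    calc 2 ^ (k / q0) * z = C1 * (2 ^ (k / q0) * b3 ^ k) := by rw [hz]; ring
      _ ≤ C1 * (ρ3⁻¹ * b4 ^ k) := mul_le_mul_of_nonneg_left (h5.trans h6) hC10.le
      _ ≤ C1 * (ρ3⁻¹ * b ^ k) := by
          refine mul_le_mul_of_nonneg_left ?_ hC10.le
          exact mul_le_mul_of_nonneg_left (pow_le_pow_left₀ hb40.le hb4b k) (by positivity)
      _ = _ := by ring
  have p3 : ρ2 ^ (k / q0 / L2) ≤ ρ2⁻¹ * b ^ k := by
    rw [Nat.div_div_eq_div_mul]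
    have h3 := pow_div_le h20 h21 hLL' k
    rw [← hb5] at h3
    refine h3.trans ?_
    exact mul_le_mul_of_nonneg_left (pow_le_pow_left₀ hb50.le hb5b k) (by positivity)
  have p4 : ρ ^ (k / L4) ≤ ρ⁻¹ * b ^ k := by
    have h3 := pow_div_le h0 h1 hL4 k
    rw [← hb6] at h3
    refine h3.trans ?_
    exact mul_le_mul_of_nonneg_left (pow_le_pow_left₀ hb60.le hb6b k) (by positivity)
  have hs3 : s ^ 3 ≤ y ^ 3 := pow_le_pow_left₀ (by linarith) hsy 3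
  have hy13 : y ≤ y ^ 3 := le_self_pow₀ hy1 (by norm_num)
  have hy23 : y ^ 2 ≤ y ^ 3 := pow_le_pow_right₀ hy1 (by norm_num)
  have hsy3 : s ≤ y ^ 3 := hsy.trans hy13
  have q1' : s * ρ2 ^ (k / 4 / L2) ≤ y ^ 3 * (ρ2⁻¹ * b ^ k) :=
    mul_le_mul hsy3 p1 (by positivity) (by positivity)
  have q2' : s * lam ≤ y ^ 3 * (ρ2⁻¹ * b ^ k) + y ^ 3 * (128 * (C1 * ρ3⁻¹) * b ^ k) := by
    have h11 : s * y ≤ y ^ 3 := by
      calc s * y ≤ y * y := mul_le_mul_of_nonneg_right hsy (by linarith)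
        _ = y ^ 2 := by ring
        _ ≤ _ := hy23
    have h12 : s * ρ2 ^ (k / q0 / L2) ≤ y ^ 3 * (ρ2⁻¹ * b ^ k) :=
      mul_le_mul hsy3 p3 (by positivity) (by positivity)
    have h13 : s * (2 ^ (k / q0) * (128 * y * z)) ≤
        y ^ 3 * (128 * (C1 * ρ3⁻¹) * b ^ k) := by
      calc s * (2 ^ (k / q0) * (128 * y * z)) =
            128 * ((s * y) * (2 ^ (k / q0) * z)) := by ring
        _ ≤ 128 * (y ^ 3 * (C1 * ρ3⁻¹ * b ^ k)) := by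
            refine mul_le_mul_of_nonneg_left ?_ (by norm_num)
            exact mul_le_mul h11 p2 (by positivity) (by positivity)
        _ = _ := by ring
    rw [hlam, mul_add]
    exact add_le_add h12 h13
  have q3' : 2 * s ^ 3 * ρ ^ (k / L4) ≤ y ^ 3 * (2 * ρ⁻¹ * b ^ k) := by
    calc 2 * s ^ 3 * ρ ^ (k / L4) = 2 * (s ^ 3 * ρ ^ (k / L4)) := by ring
      _ ≤ 2 * (y ^ 3 * (ρ⁻¹ * b ^ k)) := by
          refine mul_le_mul_of_nonneg_left ?_ (by norm_num)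
          exact mul_le_mul hs3 p4 (by positivity) (by positivity)
      _ = _ := by ring
  have h14 : y ^ 3 * (ρ2⁻¹ * b ^ k) + (y ^ 3 * (ρ2⁻¹ * b ^ k) +
      y ^ 3 * (128 * (C1 * ρ3⁻¹) * b ^ k)) + y ^ 3 * (2 * ρ⁻¹ * b ^ k) ≤
      y ^ 3 * (Cst * b ^ k) := by
    have h15 : y ^ 3 * (Cst * b ^ k) = y ^ 3 * (ρ2⁻¹ * b ^ k) + (y ^ 3 * (ρ2⁻¹ * b ^ k) +
      y ^ 3 * (128 * (C1 * ρ3⁻¹) * b ^ k)) + y ^ 3 * (2 * ρ⁻¹ * b ^ k) +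
      y ^ 3 * ((b⁻¹) ^ 80 * b ^ k) := by rw [hCst]; ring
    have h16 : 0 ≤ y ^ 3 * ((b⁻¹) ^ 80 * b ^ k) := by positivity
    linarith
  linarith

end Pool.Agent.Dichotomy
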