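import Pool.Agent.Helper91.Dich.Final5
import Pool.Agent.Helper91.Dich.Numeric5
import Pool.Agent.Helper91.Dich.Lift3
import Pool.Agent.Helper91.Dich.Hard

/-!
The tree-width law for programs with tensor network leaves.
-/

namespace Pool.Agent.Dichotomy

open Finset Module Pool.Agent.Helper34.XTW Pool.Agent.Helper97.Pendant

theorem IsProgL.mono {ι g : Type*} {Leaf Leaf' : Set (ι → ZMod 2) → Prop}
    (h : ∀ S, Leaf S → Leaf' S) {rk : g → ℕ} {M : g → Set (ι → ZMod 2)}
    (hM : IsProgL Leaf rk M) : IsProgL Leaf' rk M := by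
  intro v
  rcases hM v with h1 | h1
  · exact Or.inl (h _ h1)
  · exact Or.inr h1

/-- The general form: the bound for a gate whose elements are images of vertex covers. -/
theorem general_width (D : ℕ) : ∃ c : ℝ, 0 < c ∧ ∀ (n : ℕ) (V : Type) (_ : Fintype V)
    (_ : DecidableEq V) (G : SimpleGraph V), (∀ v, ∃ u, G.Adj v u) →
    (∀ v, (G.neighborSet v).ncard ≤ D) →
    ∀ (core0 : (Fin n → ZMod 2) →ₗ[ZMod 2] (V → ZMod 2))
      (Λ0 : (V → ZMod 2) →ₗ[ZMod 2] (Fin n → ZMod 2)) (l0 : Fin n → ZMod 2),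
      (∀ x, core0 (Λ0 x) = x) → ∀ (cl : (Fin n → ZMod 2) →ₗ[ZMod 2] (ZMod 2 × ZMod 2)) (g : Type)
      (_ : Fintype g) (rk : g → ℕ) (W : ℕ) (M : g → Set (Fin n → ZMod 2)),
      IsProgL (fun S' => ∃ S ζ, NetLeaf W S ∧ S' = {y | y ∈ S ∧ cl y = ζ}) rk M →
      ∀ v, M v ⊆ AA G Λ0 l0 →
        (2 : ℝ) ^ (c * treewidth G) * (M v).ncard ≤
          2 * (Fintype.card g + W) ^ 3 * (VC G).ncard := by
  classical
  obtain ⟨ρ, hρ⟩ : ∃ ρ : ℝ, ρ = 2 ^ (D + 1) / (2 ^ (D + 1) + 1) := ⟨_, rfl⟩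
  obtain ⟨ρ2, hρ2⟩ : ∃ ρ2 : ℝ, ρ2 = 2 ^ (2 * (D + 1)) / (2 ^ (2 * (D + 1)) + 1) := ⟨_, rfl⟩
  have hρ0 : 0 < ρ := by rw [hρ]; positivity
  have hρ1 : ρ < 1 := by rw [hρ, div_lt_one (by positivity)]; linarith
  have hρ20 : 0 < ρ2 := by rw [hρ2]; positivity
  have hρ21 : ρ2 < 1 := by rw [hρ2, div_lt_one (by positivity)]; linarith
  obtain ⟨k0, q0, c, hq0, hc, hnum⟩ := numeric5 ρ ρ2 hρ0 hρ1 hρ20 hρ21 (160 * (D + 1))
    (2 * (D + 1) ^ 2) (D + 1) (by positivity) (by positivity) (by positivity)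
  refine ⟨c, hc, ?_⟩
  intro n V _ _ G hiso hD core0 Λ0 l0 hcΛ cl g _ rk W M hM v hv
  obtain ⟨k, hk⟩ : ∃ k, k = treewidth G / 4 := ⟨_, rfl⟩
  have htw : treewidth G ≤ 4 * (k + 1) := by omega
  have hs1 : (1 : ℝ) ≤ Fintype.card g := by exact_mod_cast Fintype.card_pos_iff.2 ⟨v⟩
  have hVCpos : (0 : ℝ) < (VC G).ncard := by
    exact_mod_cast (Set.ncard_pos (Set.toFinite _)).2 (VC_nonempty G)
  have hle : ((M v).ncard : ℝ) ≤ (VC G).ncard := by
    rw [← AA_ncard hcΛ (G := G) (l0 := l0)]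
    exact_mod_cast Set.ncard_le_ncard hv (Set.toFinite _)
  have h2 := hnum (treewidth G) k htw (Fintype.card g) W ((M v).ncard / (VC G).ncard) hs1
    (Nat.cast_nonneg _) (by positivity) ((div_le_one hVCpos).2 hle) (by
      intro hk80 δ lam hδ0 hδ hl1 hl2
      obtain ⟨X, hXc, hX⟩ := exists_linked (G := G) (k := k) (by omega) (by omega)
      have hq5 : k / q0 ≤ k / 5 := Nat.div_le_div_left hq0 (by norm_num)
      have ht : k / (160 * (D + 1)) ≤ ((k / 80 + 1) / 2) / (D + 1) := by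
        rw [← Nat.div_div_eq_div_mul]
        exact Nat.div_le_div_right (by omega)
      have hb := main5 hcΛ hiso D hD X k (k / 2) (k / q0) (k / 80) (by omega) hX (by omega)
        (by omega) (by omega) (by omega) (by omega) cl hM v hv k0 (k / (160 * (D + 1))) ht
        δ lam hδ0 (by rw [← hρ]; exact hδ) (by rw [← hρ2]; exact hl1) hl2
      rw [← hρ, ← hρ2] at hb
      rw [div_le_iff₀ hVCpos]
      refine hb.trans (mul_le_mul_of_nonneg_right ?_ hVCpos.le)
      have e1 : ρ2 ^ (min k ((k / 2 + 1) / 2) / (2 * (D + 1) ^ 2)) ≤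
          ρ2 ^ (k / 4 / (2 * (D + 1) ^ 2)) :=
        pow_le_pow_of_le_one hρ20.le hρ21.le (Nat.div_le_div_right (by omega))
      have e2 : ρ ^ ((X.card - 3 * (k / 2)) / (D + 1)) ≤ ρ ^ (k / (D + 1)) :=
        pow_le_pow_of_le_one hρ0.le hρ1.le (Nat.div_le_div_right (by omega))
      have hs0 : (0 : ℝ) ≤ Fintype.card g := by linarith
      refine add_le_add (add_le_add ?_ le_rfl) ?_
      · exact mul_le_mul_of_nonneg_left e1 hs0
      · exact mul_le_mul_of_nonneg_left e2 (by positivity))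
  rw [← mul_div_assoc, div_le_iff₀ hVCpos] at h2
  exact h2

/-- **The tree-width law for programs with tensor network leaves.** -/
theorem hard_network_width (D : ℕ) : ∃ c : ℝ, 0 < c ∧ ∀ (n : ℕ) (G : SimpleGraph (Fin n)),
    (∀ v, ∃ u, G.Adj v u) → (∀ v, (G.neighborSet v).ncard ≤ D) →
    ∀ (g : Type) (_ : Fintype g) (rk : g → ℕ) (W : ℕ) (M : g → Set (Fin n → ZMod 2)),
      IsProgL (NetLeaf W) rk M → ∀ v, M v ⊆ VC G →
        (2 : ℝ) ^ (c * treewidth G) * (M v).ncard ≤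
          2 * (Fintype.card g + W) ^ 3 * (VC G).ncard := by
  obtain ⟨c, hc, h⟩ := general_width D
  refine ⟨c, hc, ?_⟩
  intro n G hiso hD g _ rk W M hM v hv
  refine h n (Fin n) inferInstance inferInstance G hiso hD LinearMap.id LinearMap.id 0
    (fun x => rfl) 0 g inferInstance rk W M (hM.mono fun S hS => ⟨S, 0, hS, ?_⟩) v ?_
  · intro y hy
    exact ⟨y, hv hy, by rw [zero_add]; rfl⟩
  · ext y
    constructor
    · intro hy; exact ⟨hy, rfl⟩
    · intro hy; exact hy.1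

/-- **Languages: for every bipartite graph of bounded degree without isolated vertices there is an instance whose
size is exponential in the tree-width of the graph.** -/
theorem hard_language_network_width (D : ℕ) {r : ℕ} {R : Set (Fin r → ZMod 2)}
    (hR : ¬ IsAffine R) :
    ∃ c : ℝ, 0 < c ∧ ∀ (V : Type) (_ : Fintype V) (G : SimpleGraph V) (col : V → Bool),
      (∀ v, ∃ u, G.Adj v u) → (∀ v, (G.neighborSet v).ncard ≤ D) →
      (∀ u v, G.Adj u v → col u ≠ col v) →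
      ∀ N : ℕ, (r * D + 1) * Fintype.card V + 2 ≤ N →
      ∃ I : List (Constraint N), I.length ≤ D * Fintype.card V + N ∧
        (∀ c ∈ I, c.arity = r ∧ HEq c.rel R) ∧
        ∀ (g : Type) (_ : Fintype g) (rk : g → ℕ) (W : ℕ) (M : g → Set (Fin N → ZMod 2)),
          IsProgL (NetLeaf W) rk M → (∃ v, M v = Sol I) →
          (2 : ℝ) ^ (c * treewidth G) ≤ 2 * (Fintype.card g + W) := by
  classical
  obtain ⟨c, hc, h⟩ := general_width D
  refine ⟨c / 7, by positivity, ?_⟩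
  intro V _ G col hiso hD hcol N hN
  let E : Finset (V × V) := Finset.univ.filter fun p => G.Adj p.1 p.2 ∧ col p.1 = true
  have hEc : E.card ≤ D * Fintype.card V := by
    have h1 : E.card ≤ ∑ u : V, (E.filter fun p => p.1 = u).card := by
      exact (Finset.card_eq_sum_card_fiberwise (f := fun p : V × V => p.1)
        (t := (Finset.univ : Finset V)) (fun p _ => Finset.mem_univ p.1)).le
    refine h1.trans ?_
    have h2 : ∀ u ∈ (Finset.univ : Finset V), (E.filter fun p => p.1 = u).card ≤ D := by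
      intro u _
      refine le_trans ?_ (hD u)
      rw [← Set.ncard_coe_finset]
      refine Set.ncard_le_ncard_of_injOn (fun p => p.2) ?_ ?_ (Set.toFinite _)
      · intro p hp
        obtain ⟨hpE, rfl⟩ := Finset.mem_filter.1 (Finset.mem_coe.1 hp)
        exact (Finset.mem_filter.1 hpE).2.1
      · intro p hp p' hp' hpp
        obtain ⟨-, h1⟩ := Finset.mem_filter.1 (Finset.mem_coe.1 hp)
        obtain ⟨-, h2⟩ := Finset.mem_filter.1 (Finset.mem_coe.1 hp')
        exact Prod.ext (h1.trans h2.symm) hpp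
    calc ∑ u : V, (E.filter fun p => p.1 = u).card ≤ ∑ _u : V, D := Finset.sum_le_sum h2
      _ = D * Fintype.card V := by rw [Finset.sum_const, Finset.card_univ, smul_eq_mul]; ring
  obtain ⟨I, z0, z1, emb, τ, l0, Λ, hlen, hrel, hI1, hI2, hl0, hl1, hle, hΛ⟩ := exists_lift3 G E
    (fun p hp => (Finset.mem_filter.1 hp).2.1)
    (fun u v huv => by
      rcases Bool.eq_false_or_eq_true (col u) with h | h
      · left; exact Finset.mem_filter.2 ⟨Finset.mem_univ _, huv, h⟩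
      · right
        refine Finset.mem_filter.2 ⟨Finset.mem_univ _, huv.symm, ?_⟩
        have := hcol u v huv
        rw [h] at this
        rcases Bool.eq_false_or_eq_true (col v) with h' | h'
        · exact h'
        · exact absurd h'.symm this)
    col (fun p hp => by
      obtain ⟨h1, h2⟩ := (Finset.mem_filter.1 hp).2
      refine ⟨h2, ?_⟩
      have := hcol _ _ h1
      rw [h2] at this
      rcases Bool.eq_false_or_eq_true (col p.2) with h' | h'
      · exact absurd h'.symm this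
      · exact h') hR N (by
      have : r * E.card ≤ r * (D * Fintype.card V) := Nat.mul_le_mul_left _ hEc
      calc Fintype.card V + 2 + r * E.card ≤ Fintype.card V + 2 + r * (D * Fintype.card V) := by
            omega
        _ = (r * D + 1) * Fintype.card V + 2 := by ring
        _ ≤ N := hN)
  refine ⟨I, by omega, hrel, ?_⟩
  intro g _ rk W M hM ⟨v, hv⟩
  have hs1 : (1 : ℝ) ≤ Fintype.card g := by exact_mod_cast Fintype.card_pos_iff.2 ⟨v⟩
  have hW0 : (0 : ℝ) ≤ W := Nat.cast_nonneg _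
  let cl : (Fin N → ZMod 2) →ₗ[ZMod 2] (ZMod 2 × ZMod 2) :=
    LinearMap.prod (LinearMap.proj z0) (LinearMap.proj z1)
  have hcls : ∀ ζ (S : Set (Fin N → ZMod 2)), cls z0 z1 ζ S = {y | y ∈ S ∧ cl y = ζ} := by
    intro ζ S
    ext y
    constructor
    · rintro ⟨h1, h2, h3⟩; exact ⟨h1, Prod.ext h2 h3⟩
    · rintro ⟨h1, h2⟩; exact ⟨h1, congrArg Prod.fst h2, congrArg Prod.snd h2⟩
  have hprog := slice_isProg hM z0 z1
  have hprog' : IsProgL (fun S' => ∃ S ζ, NetLeaf W S ∧ S' = {y | y ∈ S ∧ cl y = ζ})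
      (fun v : g × (ZMod 2 × ZMod 2) => rk v.1) (fun v => cls z0 z1 v.2 (M v.1)) := by
    refine hprog.mono ?_
    rintro S' ⟨S, ζ, h1, h2⟩
    exact ⟨S, ζ, h1, by rw [h2, hcls]⟩
  have htop : cls z0 z1 (0, 1) (M v) = AA G Λ l0 := by
    rw [hv]
    ext y
    constructor
    · rintro ⟨hy, h0, h1⟩; exact hI1 y hy h0 h1
    · rintro ⟨x, hx, rfl⟩
      refine ⟨hI2 x hx, ?_, ?_⟩
      · rw [Pi.add_apply, hl0, (hΛ x).1, add_zero]
      · rw [Pi.add_apply, hl1, (hΛ x).2.1, add_zero]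
  have hcΛ : ∀ x, (LinearMap.funLeft (ZMod 2) (ZMod 2) emb) (Λ x) = x := by
    intro x; funext u; exact (hΛ x).2.2 u
  have hb := h N V inferInstance inferInstance G hiso hD (LinearMap.funLeft (ZMod 2) (ZMod 2) emb)
    Λ l0 hcΛ cl (g × (ZMod 2 × ZMod 2)) inferInstance _ W _ hprog' (v, (0, 1)) htop.le
  have hVCpos : (0 : ℝ) < (VC G).ncard := by
    exact_mod_cast (Set.ncard_pos (Set.toFinite _)).2 (VC_nonempty G)
  have htop' : cls z0 z1 ((v, ((0 : ZMod 2), (1 : ZMod 2))).2)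
      (M ((v, ((0 : ZMod 2), (1 : ZMod 2))).1)) = AA G Λ l0 := htop
  rw [htop', AA_ncard hcΛ] at hb
  have hb2 := (mul_le_mul_iff_left₀ hVCpos).1 hb
  have hc4 : (Fintype.card (g × (ZMod 2 × ZMod 2)) : ℝ) = 4 * (Fintype.card g : ℝ) := by
    rw [Fintype.card_prod, Fintype.card_prod, ZMod.card]; push_cast; ring
  rw [hc4] at hb2
  obtain ⟨y, hy⟩ : ∃ y : ℝ, y = Fintype.card g + W := ⟨_, rfl⟩
  have hy1 : 1 ≤ y := by linarith
  rw [← hy]
  have h4y : 4 * (Fintype.card g : ℝ) + W ≤ 4 * y := by linarith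
  have h5 : (2 : ℝ) ^ (c * treewidth G) ≤ (2 * y) ^ 7 := by
    calc (2 : ℝ) ^ (c * treewidth G) ≤ 2 * (4 * (Fintype.card g : ℝ) + W) ^ 3 := hb2
      _ ≤ 2 * (4 * y) ^ 3 := by
          refine mul_le_mul_of_nonneg_left ?_ (by norm_num)
          exact pow_le_pow_left₀ (by positivity) h4y 3
      _ = 128 * y ^ 3 := by ring
      _ ≤ 128 * y ^ 7 := by
          refine mul_le_mul_of_nonneg_left ?_ (by norm_num)
          exact pow_le_pow_right₀ hy1 (by norm_num)
      _ = (2 * y) ^ 7 := by ring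
  have h6 : ((2 : ℝ) ^ (c / 7 * treewidth G)) ^ 7 = 2 ^ (c * treewidth G) := by
    rw [← Real.rpow_natCast, ← Real.rpow_mul (by norm_num)]
    congr 1; push_cast; ring
  rw [← h6] at h5
  exact (pow_le_pow_iff_left₀ (by positivity) (by positivity) (by norm_num)).1 h5

end Pool.Agent.Dichotomy
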