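import Pool.Agent.Helper91.Dich.Path3
import Pool.Agent.Helper91.Dich.AffBasis

/-!
Affine sets and small sets are supports of functions with small tree networks; XOR programs are
programs with tensor network leaves.
-/

namespace Pool.Agent.Dichotomy

open Finset Module

/-- A family of product functions spans the top space of a tree network. -/
theorem net_products {K : Type} [Field K] {n w : ℕ} {J : Type} [Fintype J]
    (hJ : Fintype.card J ≤ w) (a : J → Fin n → ZMod 2 → K) (S : Finset (Fin n))
    (hS : S.Nonempty) :
    Net K w S (Submodule.span K (Set.range fun j => fun x : Fin n → ZMod 2 =>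
      ∏ i ∈ S, a j i (x i))) := by
  classical
  have hfr : ∀ v : J → ((Fin n → ZMod 2) → K),
      finrank K (Submodule.span K (Set.range v)) ≤ w := fun v =>
    (finrank_range_le_card v).trans hJ
  induction hS using Finset.Nonempty.cons_induction with
  | singleton i =>
    refine Net.leaf i _ (hfr _) ?_
    have : Submodule.span K (Set.range fun j => fun x : Fin n → ZMod 2 =>
        ∏ i ∈ {i}, a j i (x i)) ≤ depSub K {i} := by
      refine Submodule.span_le.2 ?_
      rintro f ⟨j, rfl⟩ x y hxy
      refine Finset.prod_congr rfl fun i' hi' => ?_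
      rw [hxy i' hi']
    intro f hf x y hxy
    exact this hf x y (fun i' hi' => by rw [mem_singleton.1 hi']; exact hxy)
  | cons i S hi hS ih =>
    have h1 : Net K w {i} (Submodule.span K (Set.range fun j => fun x : Fin n → ZMod 2 =>
        a j i (x i))) := by
      refine Net.leaf i _ (hfr _) ?_
      have : Submodule.span K (Set.range fun j => fun x : Fin n → ZMod 2 =>
          a j i (x i)) ≤ depSub K {i} := by
        refine Submodule.span_le.2 ?_
        rintro f ⟨j, rfl⟩ x y hxy
        show a j i (x i) = a j i (y i)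
        rw [hxy i (mem_singleton_self i)]
      intro f hf x y hxy
      exact this hf x y (fun i' hi' => by rw [mem_singleton.1 hi']; exact hxy)
    have h2 := Net.node {i} S (Submodule.span K (Set.range fun j =>
      fun x : Fin n → ZMod 2 => ∏ i' ∈ cons i S hi, a j i' (x i'))) _ _
      (disjoint_singleton_left.2 hi) h1 ih (hfr _) (by
        refine Submodule.span_le.2 ?_
        rintro f ⟨j, rfl⟩
        refine Submodule.subset_span ⟨fun x => a j i (x i), Submodule.subset_span ⟨j, rfl⟩,
          fun x => ∏ i' ∈ S, a j i' (x i'), Submodule.subset_span ⟨j, rfl⟩, ?_⟩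
        funext x
        show ∏ i' ∈ cons i S hi, a j i' (x i') = a j i (x i) * ∏ i' ∈ S, a j i' (x i')
        rw [prod_cons])
    rw [cons_eq_insert, insert_eq]
    rw [cons_eq_insert, insert_eq] at h2
    exact h2

/-- Affine sets are leaves of width one. -/
theorem netLeaf_of_affine {n : ℕ} (hn : 0 < n) (A : Set (Fin n → ZMod 2)) (hA : IsAffine A) :
    NetLeaf 1 A := by
  classical
  have : NeZero n := ⟨hn.ne'⟩
  obtain ⟨e, he⟩ := affine_product A hA
  obtain ⟨κ, a, ha⟩ := he ℚ inferInstance (fun x => if x ∈ A then 1 else 0)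
    (fun x hx => if_pos hx) (fun x hx => if_neg hx)
  refine ⟨ℚ, inferInstance, fun x => if x ∈ A then 1 else 0, e, _, ?_,
    net_products (J := Unit) (w := 1) (by simp) (fun _ => a) univ univ_nonempty, ?_⟩
  · intro x
    by_cases h : x ∈ A
    · simp [h]
    · simp [h]
  · have : (fun x => if e x ∈ A then (1 : ℚ) else 0) =
        κ • fun x : Fin n → ZMod 2 => ∏ i ∈ univ, a i (x i) := by
      funext x
      rw [Pi.smul_apply, smul_eq_mul]
      exact ha x
    show (fun x => if e x ∈ A then (1 : ℚ) else 0) ∈ _
    rw [this]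
    exact Submodule.smul_mem _ _ (Submodule.subset_span ⟨(), rfl⟩)

/-- Sets with at most `W` elements are leaves of width `W`. -/
theorem netLeaf_of_ncard {n W : ℕ} (hn : 0 < n) (A : Set (Fin n → ZMod 2))
    (hA : A.ncard ≤ W) : NetLeaf W A := by
  classical
  have : NeZero n := ⟨hn.ne'⟩
  refine ⟨ℚ, inferInstance, fun x => if x ∈ A then 1 else 0, LinearEquiv.refl _ _, _, ?_,
    net_products (J := (Set.toFinite A).toFinset) (w := W) (by
      rw [Fintype.card_coe, ← Set.ncard_eq_toFinset_card]; exact hA)
      (fun p i c => if c = p.1 i then 1 else 0) univ univ_nonempty, ?_⟩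
  · intro x
    by_cases h : x ∈ A
    · simp [h]
    · simp [h]
  · have : (fun x => if (LinearEquiv.refl (ZMod 2) (Fin n → ZMod 2)) x ∈ A then (1 : ℚ) else 0) =
        ∑ p : (Set.toFinite A).toFinset, fun x : Fin n → ZMod 2 =>
          ∏ i ∈ univ, (if x i = p.1 i then (1 : ℚ) else 0) := by
      funext x
      rw [Finset.sum_apply]
      have hprod : ∀ p : (Set.toFinite A).toFinset,
          ∏ i ∈ univ, (if x i = p.1 i then (1 : ℚ) else 0) = if x = p.1 then 1 else 0 := by
        intro p
        by_cases h : x = p.1
        · rw [if_pos h, Finset.prod_eq_one]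
          intro i _
          exact if_pos (congrFun h i)
        · rw [if_neg h]
          obtain ⟨i, hi⟩ := Function.ne_iff.1 h
          exact Finset.prod_eq_zero (mem_univ i) (if_neg hi)
      simp only [hprod]
      show (if x ∈ A then (1 : ℚ) else 0) = _
      by_cases h : x ∈ A
      · rw [if_pos h]
        have hx : x ∈ (Set.toFinite A).toFinset := (Set.Finite.mem_toFinset _).2 h
        rw [Finset.sum_eq_single (⟨x, hx⟩ : (Set.toFinite A).toFinset)]
        · rw [if_pos rfl]
        · intro p _ hp
          refine if_neg fun hxp => hp ?_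
          exact Subtype.ext hxp.symm
        · intro h'; exact absurd (mem_univ _) h'
      · rw [if_neg h]
        symm
        apply Finset.sum_eq_zero
        intro p _
        refine if_neg fun hxp => h ?_
        have := (Set.Finite.mem_toFinset _).1 p.2
        rw [← hxp] at this
        exact this
    show (fun x => if (LinearEquiv.refl (ZMod 2) (Fin n → ZMod 2)) x ∈ A then (1 : ℚ) else 0) ∈ _
    rw [this]
    exact Submodule.sum_mem _ fun p _ => Submodule.subset_span ⟨p, rfl⟩

theorem Net.mono {K : Type} [Field K] {n w w' : ℕ} (hw : w ≤ w') {S : Finset (Fin n)}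
    {W : Submodule K ((Fin n → ZMod 2) → K)} (h : Net K w S W) : Net K w' S W := by
  induction h with
  | leaf i W h1 h2 => exact Net.leaf i W (h1.trans hw) h2
  | node S S' W A B hS hA hB h1 h2 ihA ihB => exact Net.node S S' W A B hS ihA ihB (h1.trans hw) h2

theorem NetLeaf.mono {n w w' : ℕ} (hw : w ≤ w') {S : Set (Fin n → ZMod 2)}
    (h : NetLeaf w S) : NetLeaf w' S := by
  obtain ⟨K, _, f, e, U, hf, hU, hfU⟩ := h
  exact ⟨K, inferInstance, f, e, U, hf, hU.mono hw, hfU⟩

/-- XOR programs are programs with tensor network leaves. -/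
theorem IsProg.isProgL {n : ℕ} (hn : 0 < n) {g : Type*} {rk : g → ℕ} {W : ℕ}
    {M : g → Set (Fin n → ZMod 2)} (h : IsProg rk W M) : IsProgL (NetLeaf (max W 1)) rk M := by
  intro v
  rcases h v with ⟨-, h1⟩ | h1 | h1
  · exact Or.inl ((netLeaf_of_ncard hn _ h1).mono (le_max_left _ _))
  · exact Or.inl ((netLeaf_of_affine hn _ h1).mono (le_max_right _ _))
  · exact Or.inr h1

end Pool.Agent.Dichotomy
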