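import Pool.Agent.Helper91.Dich.Greedy5
import Pool.Agent.Helper91.Dich.Net
import Pool.Agent.Helper91.Dich.Indep
import Pool.Agent.Helper91.Dich.Signed

/-!
The bound for one tensor network leaf, for graphs with a linked set.
-/

namespace Pool.Agent.Dichotomy

open Finset Module

set_option linter.unusedSectionVars false

/-- **The bound for a leaf.**  `f` has a tree network of width `w`; the points `y` of the class `ζ`
with `f y ≠ 0` are mapped to vertex covers of `G` by `y ↦ core y + κ0`.  Then only few vertex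
covers `x` have `f (l1 + Λ x) ≠ 0`. -/
theorem leaf_bound5 {N : ℕ} {V : Type} [Fintype V] [DecidableEq V]
    (G : SimpleGraph V) (D : ℕ) (hD : ∀ v, (G.neighborSet v).ncard ≤ D) (X : Finset V)
    (k b m : ℕ) (hm : 1 ≤ m) (hX : LinkedR G X k b) (h1 : 80 * m + 4 * b ≤ X.card)
    (h2 : 8 * m + b ≤ k)
    (cl : (Fin N → ZMod 2) →ₗ[ZMod 2] (ZMod 2 × ZMod 2))
    (core : (Fin N → ZMod 2) →ₗ[ZMod 2] (V → ZMod 2))
    (Λ : (V → ZMod 2) →ₗ[ZMod 2] (Fin N → ZMod 2)) (hcoreΛ : ∀ x, core (Λ x) = x)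
    (κ0 : V → ZMod 2) (l1 : Fin N → ZMod 2) (hl1 : core l1 = κ0)
    {K : Type} [Field K] (f : (Fin N → ZMod 2) → K)
    (e : (Fin N → ZMod 2) ≃ₗ[ZMod 2] (Fin N → ZMod 2)) (w : ℕ)
    (W : Submodule K ((Fin N → ZMod 2) → K)) (hW : Net K w univ W)
    (hfW : (fun x => f (e x)) ∈ W) (ζ : ZMod 2 × ZMod 2)
    (hc : ∀ y, f y ≠ 0 → cl y = ζ → core y + κ0 ∈ VC G)
    (Y : Finset (V → ZMod 2)) (hY : Y ⊆ VCf G)
    (hYf : ∀ x ∈ Y, f (l1 + Λ x) ≠ 0 ∧ cl (l1 + Λ x) = ζ) (k0 t : ℕ)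
    (ht : t ≤ ((m + 1) / 2) / (D + 1)) :
    (Y.card : ℝ) ^ (4 * (k0 + 1)) ≤ (128 * w) ^ (2 * (k0 + 1)) *
      ((16 ^ m * ((2 ^ (D + 1) / (2 ^ (D + 1) + 1)) ^ t) ^ k0 +
        (2 ^ (D + 1) / (2 ^ (D + 1) + 1)) ^ t) * ((VCf G).card : ℝ) ^ (4 * (k0 + 1))) := by
  classical
  let πX : (V → ZMod 2) →ₗ[ZMod 2] (X → ZMod 2) :=
    LinearMap.funLeft (ZMod 2) (ZMod 2) (fun s : X => (s : V))
  -- the maps
  let PS : Finset (Fin N) → ((V → ZMod 2) →ₗ[ZMod 2] (V → ZMod 2)) :=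
    fun S => core ∘ₗ e.toLinearMap ∘ₗ prS S ∘ₗ e.symm.toLinearMap ∘ₗ Λ
  have hPS : ∀ S x, PS S x = core (e (prS S (e.symm (Λ x)))) := fun _ _ => rfl
  have hPSuniv : ∀ x, PS univ x = x := by
    intro x
    rw [hPS, prS_apply, mix_univ, e.apply_symm_apply, hcoreΛ]
  have hPSadd : ∀ S S' : Finset (Fin N), Disjoint S S' → ∀ x, PS (S ∪ S') x = PS S x + PS S' x := by
    intro S S' h x
    rw [hPS, hPS, hPS, prS_union S S' h, map_add, map_add]
  -- ranks
  let r : Finset (Fin N) → ℕ := fun S => finrank (ZMod 2) (LinearMap.range (πX.comp (PS S)))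
  have hadd : ∀ S S' : Finset (Fin N), Disjoint S S' → r (S ∪ S') ≤ r S + r S' := by
    intro S S' h
    have h1 : LinearMap.range (πX.comp (PS (S ∪ S'))) ≤
        LinearMap.range (πX.comp (PS S)) ⊔ LinearMap.range (πX.comp (PS S')) := by
      rintro _ ⟨x, rfl⟩
      rw [LinearMap.comp_apply, hPSadd S S' h, map_add]
      exact Submodule.add_mem_sup ⟨x, rfl⟩ ⟨x, rfl⟩
    exact (Submodule.finrank_mono h1).trans (Submodule.finrank_add_le_finrank_add_finrank _ _)
  have hleaf : ∀ i, r {i} ≤ 1 := by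
    intro i
    have h1 : LinearMap.range (πX.comp (PS {i})) ≤
        Submodule.span (ZMod 2) {πX (core (e (Pi.single i 1)))} := by
      rintro _ ⟨x, rfl⟩
      rw [LinearMap.comp_apply, hPS]
      have h2 : prS {i} (e.symm (Λ x)) = (e.symm (Λ x)) i • Pi.single i 1 := by
        funext j
        by_cases hj : j = i
        · subst hj; simp [prS_apply, mix]
        · simp [prS_apply, mix, hj]
      rw [h2, map_smul, map_smul, map_smul]
      exact Submodule.smul_mem _ _ (Submodule.mem_span_singleton_self _)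
    refine (Submodule.finrank_mono h1).trans ?_
    refine (finrank_span_le_card _).trans ?_
    simp
  have hruniv : r univ = X.card := by
    have : LinearMap.range (πX.comp (PS univ)) = ⊤ := by
      rw [LinearMap.range_eq_top]
      intro y
      refine ⟨fun v => if h : v ∈ X then y ⟨v, h⟩ else 0, ?_⟩
      rw [LinearMap.comp_apply, hPSuniv]
      funext s
      show (if h : (s : V) ∈ X then y ⟨s, h⟩ else 0) = y s
      rw [dif_pos s.2]
    show finrank (ZMod 2) (LinearMap.range (πX.comp (PS univ))) = X.card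
    rw [this, finrank_top, Module.finrank_fintype_fun_eq_card, Fintype.card_coe]
  -- the balanced node
  obtain ⟨S, W', hW'w, hW'F, hr1, hr2⟩ := hW.balanced (fun x => f (e x)) r hleaf hadd
    ((X.card + 1) / 2) (by omega) (by intro y; simp only [mix_univ]; exact hfW)
    (by rw [hruniv]; omega)
  have hPQ : ∀ x, PS S x + PS Sᶜ x = x := by
    intro x
    rw [← hPSadd S Sᶜ disjoint_compl_right, union_compl, hPSuniv]
  have hrc : X.card ≤ r S + r Sᶜ := by
    have := hadd S Sᶜ disjoint_compl_right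
    rwa [union_compl, hruniv] at this
  have hP : X.card ≤ 4 * finrank (ZMod 2) (LinearMap.range (πX.comp (PS S))) := by
    have : X.card ≤ 4 * r S := by omega
    exact this
  have hQ : X.card ≤ 4 * finrank (ZMod 2) (LinearMap.range (πX.comp (PS Sᶜ))) := by
    have : X.card ≤ 4 * r Sᶜ := by omega
    exact this
  have hVne : Nonempty (V × V) := by
    have : X.Nonempty := by rw [← card_pos]; omega
    obtain ⟨v, -⟩ := this
    exact ⟨(v, v)⟩
  obtain ⟨F, hF⟩ := exists_good G X k b hX (PS S) (PS Sᶜ) hPQ hP hQ m h1 h2 hVne m le_rfl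
  have hmb := mixing_bound5 G (PS S) (PS Sᶜ) F D hD hPQ hF k0 t ht
  -- the points
  let pt : (V → ZMod 2) → (Fin N → ZMod 2) := fun x => e.symm (l1 + Λ x)
  let κ : (V → ZMod 2) → ZMod 2 × ZMod 2 := fun x => cl (e (prS S (pt x)))
  have hsplit : ∀ p, e (prS S p) + e (prS Sᶜ p) = e p := by
    intro p
    rw [← map_add, ← mix_eq, mix_self]
  have hept : ∀ x, e (pt x) = l1 + Λ x := fun x => e.apply_symm_apply _
  have hκeq : ∀ x, ∀ x' ∈ Y, κ x = κ x' → cl (e (mix S (pt x) (pt x'))) = ζ := by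
    intro x x' hx' hκ
    have h2 := hsplit (pt x')
    rw [hept] at h2
    rw [mix_eq, map_add, map_add]
    have k0 : cl (e (prS S (pt x))) = cl (e (prS S (pt x'))) := hκ
    rw [k0, ← map_add, h2]
    exact (hYf x' hx').2
  have hcore : ∀ x x', core (e (mix S (pt x) (pt x'))) + κ0 = PS S x + PS Sᶜ x' := by
    intro x x'
    have h1 : e (mix S (pt x) (pt x')) =
        (e (prS S (e.symm l1)) + e (prS Sᶜ (e.symm l1))) +
        (e (prS S (e.symm (Λ x))) + e (prS Sᶜ (e.symm (Λ x')))) := by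
      rw [mix_eq]
      simp only [pt, map_add]
      abel
    rw [hsplit, e.apply_symm_apply] at h1
    rw [h1, map_add, map_add, hl1, hPS, hPS]
    have : ∀ a b : V → ZMod 2, κ0 + (a + b) + κ0 = (κ0 + κ0) + (a + b) := by intro a b; abel
    rw [this, pi_add_self, zero_add]
  have hoff : ∀ x, ∀ x' ∈ Y, κ x = κ x' → ¬ (PS S x + PS Sᶜ x' ∈ VC G) →
      f (e (mix S (pt x) (pt x'))) = 0 := by
    intro x x' hx' hκ hn'
    by_contra hne
    apply hn'
    rw [← hcore]
    exact hc _ hne (hκeq x x' hx' hκ)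
  -- the class
  obtain ⟨κ1, hκ1⟩ : ∃ κ1, Y.card ≤ 4 * (Y.filter fun x => κ x = κ1).card := by
    have h1 := card_eq_sum_card_fiberwise (s := Y) (t := (univ : Finset (ZMod 2 × ZMod 2)))
      (f := κ) (fun x _ => mem_univ _)
    have h2 : ∑ _b : ZMod 2 × ZMod 2, Y.card ≤
        ∑ b : ZMod 2 × ZMod 2, 4 * (Y.filter fun x => κ x = b).card := by
      rw [← mul_sum, ← h1, sum_const, card_univ, Fintype.card_prod, ZMod.card]
      simp
    obtain ⟨b, -, hb⟩ := exists_le_of_sum_le univ_nonempty h2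
    exact ⟨b, hb⟩
  obtain ⟨C, hC⟩ : ∃ C, C = Y.filter fun x => κ x = κ1 := ⟨_, rfl⟩
  rw [← hC] at hκ1
  have hCY : C ⊆ Y := by rw [hC]; exact filter_subset _ _
  have hCsub : C ⊆ VCf G := hCY.trans hY
  have hCκ : ∀ x ∈ C, κ x = κ1 := by intro x hx; rw [hC] at hx; exact (mem_filter.1 hx).2
  obtain ⟨J, hJC, hJ, hJc⟩ := exists_indep C (fun x y => PS S x + PS Sᶜ y ∈ VC G) (by
    intro x hx
    show PS S x + PS Sᶜ x ∈ VC G
    rw [hPQ]
    exact (mem_VCf G).1 (hCsub hx))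
  -- the fooling set
  have hJw : J.card ≤ w := by
    refine le_trans ?_ hW'w
    refine fooling W' J (fun a z => f (e (mix S z (pt a)))) pt (fun a _ => hW'F (pt a)) ?_ ?_
    · intro a ha
      rw [mix_self, hept]
      exact (hYf a (hCY (hJC ha))).1
    · intro a ha b hb hab
      refine hoff b a (hCY (hJC ha)) ?_ (hJ b hb a ha (Ne.symm hab))
      rw [hCκ b (hJC hb), hCκ a (hJC ha)]
  obtain ⟨Nb, hNb⟩ : ∃ Nb, Nb = ((VCf G ×ˢ VCf G).filter fun p => PS S p.1 + PS Sᶜ p.2 ∈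
    VC G).card := ⟨_, rfl⟩
  rw [← hNb] at hmb
  have hNbC : ((C ×ˢ C).filter fun p => PS S p.1 + PS Sᶜ p.2 ∈ VC G).card ≤ Nb := by
    rw [hNb]
    exact card_le_card (filter_subset_filter _ (product_subset_product hCsub hCsub))
  have hfinal : Y.card ^ 2 ≤ 128 * w * Nb := by
    have h1 : C.card ^ 2 ≤ 8 * (w * Nb) :=
      hJc.trans (Nat.mul_le_mul_left _ (Nat.mul_le_mul hJw hNbC))
    calc Y.card ^ 2 ≤ (4 * C.card) ^ 2 := Nat.pow_le_pow_left hκ1 2
      _ = 16 * C.card ^ 2 := by ring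
      _ ≤ 16 * (8 * (w * Nb)) := Nat.mul_le_mul_left _ h1
      _ = 128 * w * Nb := by ring
  have hfinal' : (Y.card : ℝ) ^ 2 ≤ (128 * w) * Nb := by exact_mod_cast hfinal
  calc (Y.card : ℝ) ^ (4 * (k0 + 1)) = ((Y.card : ℝ) ^ 2) ^ (2 * (k0 + 1)) := by
        rw [← pow_mul]; ring_nf
    _ ≤ ((128 * w) * Nb) ^ (2 * (k0 + 1)) := pow_le_pow_left₀ (by positivity) hfinal' _
    _ = (128 * w) ^ (2 * (k0 + 1)) * (Nb : ℝ) ^ (2 * (k0 + 1)) := mul_pow _ _ _
    _ ≤ _ := mul_le_mul_of_nonneg_left hmb (by positivity)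

end Pool.Agent.Dichotomy
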