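import Pool.Agent.Helper91.Dich.Path3

/-!
The path argument with a general notion of heavy sets.
-/

namespace Pool.Agent.Dichotomy

open Finset

set_option linter.unusedSectionVars false

variable {ι : Type*} [Fintype ι] [DecidableEq ι]

theorem walk5 {g : Type*} {Leaf Heavy : Set (ι → ZMod 2) → Prop} (rk : g → ℕ)
    (M : g → Set (ι → ZMod 2)) (A : Set (ι → ZMod 2)) (hM : IsProgL Leaf rk M) :
    ∀ n : ℕ, ∀ v : g, rk v = n → ¬ Heavy (ctx A (M v)) → ∀ c ∈ ctx A (M v), ∀ y ∈ M v,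
      (∃ w, Heavy (M w) ∧ Heavy (ctx A (M w)) ∧ c + y ∈ ssum (ctx A (M w)) (M w)) ∨
      (∃ w, Leaf (M w) ∧ ¬ Heavy (ctx A (M w)) ∧ c + y ∈ ssum (ctx A (M w)) (M w)) ∨
      (∃ w a, M a ⊆ M w ∧ ¬ Heavy (ctx A (M w)) ∧ ¬ Heavy (M a) ∧
        c + y ∈ ssum (ctx A (M w)) (M a)) ∨
      (∃ w a b, ssum (M a) (M b) ⊆ M w ∧ ¬ Heavy (ctx A (M w)) ∧ ¬ Heavy (M a) ∧
        ¬ Heavy (M b) ∧ c + y ∈ ssum (ctx A (M w)) (ssum (M a) (M b))) := by
  intro n
  induction n using Nat.strong_induction_on with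
  | _ n ih =>
    intro v hv hlight c hc y hy
    rcases hM v with hleaf | ⟨Q, P, hQ, hP, hmem⟩
    · exact Or.inr (Or.inl ⟨v, hleaf, hlight, c, hc, y, hy, rfl⟩)
    · rcases (hmem y).1 hy with ⟨a, ha, hya⟩ | ⟨p, hp, y1, hy1, y2, hy2, rfl⟩
      · -- a union
        have hsub : M a ⊆ M v := fun y' hy' => (hmem y').2 (Or.inl ⟨a, ha, hy'⟩)
        have hca : c ∈ ctx A (M a) := fun y' hy' => hc y' (hsub hy')
        by_cases hMa : Heavy (M a)
        · by_cases hla : Heavy (ctx A (M a))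
          · exact Or.inl ⟨a, hMa, hla, c, hca, y, hya, rfl⟩
          · exact ih (rk a) (hv ▸ hQ a ha) a rfl hla c hca y hya
        · exact Or.inr (Or.inr (Or.inl ⟨v, a, hsub, hlight, hMa, c, hc, y, hya, rfl⟩))
      · -- a sum
        have hmem' : ∀ z1 ∈ M p.1, ∀ z2 ∈ M p.2, z1 + z2 ∈ M v := by
          intro z1 hz1 z2 hz2
          exact (hmem _).2 (Or.inr ⟨p, hp, z1, hz1, z2, hz2, rfl⟩)
        by_cases hM1 : Heavy (M p.1)
        · have hca : c + y2 ∈ ctx A (M p.1) := by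
            intro y' hy'
            have := hc _ (hmem' y' hy' y2 hy2)
            have heq : c + y2 + y' = c + (y' + y2) := by abel
            rw [heq]; exact this
          have heq : c + (y1 + y2) = c + y2 + y1 := by abel
          by_cases hla : Heavy (ctx A (M p.1))
          · exact Or.inl ⟨p.1, hM1, hla, c + y2, hca, y1, hy1, heq⟩
          · have := ih (rk p.1) (hv ▸ (hP p hp).1) p.1 rfl hla (c + y2) hca y1 hy1
            rw [heq]; exact this
        · by_cases hM2 : Heavy (M p.2)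
          · have hca : c + y1 ∈ ctx A (M p.2) := by
              intro y' hy'
              have := hc _ (hmem' y1 hy1 y' hy')
              have heq : c + y1 + y' = c + (y1 + y') := by abel
              rw [heq]; exact this
            have heq : c + (y1 + y2) = c + y1 + y2 := by abel
            by_cases hla : Heavy (ctx A (M p.2))
            · exact Or.inl ⟨p.2, hM2, hla, c + y1, hca, y2, hy2, heq⟩
            · have := ih (rk p.2) (hv ▸ (hP p hp).2) p.2 rfl hla (c + y1) hca y2 hy2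
              rw [heq]; exact this
          · refine Or.inr (Or.inr (Or.inr ⟨v, p.1, p.2, ?_, hlight, hM1, hM2,
              c, hc, y1 + y2, ⟨y1, hy1, y2, hy2, rfl⟩, rfl⟩))
            rintro _ ⟨z1, hz1, z2, hz2, rfl⟩
            exact hmem' z1 hz1 z2 hz2

theorem ssum_zero (U : Set (ι → ZMod 2)) : ssum U {0} = U := by
  ext z
  constructor
  · rintro ⟨u, hu, v, hv, rfl⟩
    rw [Set.mem_singleton_iff.1 hv, add_zero]; exact hu
  · intro hz
    exact ⟨z, hz, 0, rfl, (add_zero z).symm⟩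

/-- **Path argument** with a general notion of heavy sets, for a gate whose elements are in `A`. -/
theorem path_bound5 {g : Type*} [Fintype g] {Leaf Heavy : Set (ι → ZMod 2) → Prop} (rk : g → ℕ)
    (M : g → Set (ι → ZMod 2)) (hM : IsProgL Leaf rk M) (A : Set (ι → ZMod 2))
    (top : g) (htop : M top ⊆ A) (β lam κ : ℝ) (hβ0 : 0 ≤ β) (hlam0 : 0 ≤ lam) (hκ0 : 0 ≤ κ)
    (h0 : ¬ Heavy {0})
    (hβ : ∀ U U' : Set (ι → ZMod 2), (∀ u ∈ U, ∀ v ∈ U', u + v ∈ A) → Heavy U →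
      Heavy U' → ((ssum U U').ncard : ℝ) ≤ β)
    (hlam : ∀ S, Leaf S → ¬ Heavy (ctx A S) → ((ssum (ctx A S) S).ncard : ℝ) ≤ lam)
    (hκ : ∀ U1 U2 U3 : Set (ι → ZMod 2), ¬ Heavy U1 → ¬ Heavy U2 → ¬ Heavy U3 →
      ssum U1 (ssum U2 U3) ⊆ A → ((ssum U1 (ssum U2 U3)).ncard : ℝ) ≤ κ) :
    ((M top).ncard : ℝ) ≤ (Fintype.card g : ℝ) * β + (Fintype.card g : ℝ) * lam
      + 2 * (Fintype.card g : ℝ) ^ 3 * κ := by
  classical
  have hgpos : (1 : ℝ) ≤ (Fintype.card g : ℝ) := by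
    exact_mod_cast Fintype.card_pos_iff.2 ⟨top⟩
  obtain ⟨s, hs⟩ : ∃ s : ℝ, s = (Fintype.card g : ℝ) := ⟨_, rfl⟩
  rw [← hs] at hgpos ⊢
  have hctx : ∀ S T : Set (ι → ZMod 2), T ⊆ S → ssum (ctx A S) T ⊆ A := by
    rintro S T hTS _ ⟨c, hc, y, hy, rfl⟩
    exact hc y (hTS hy)
  let B1 : g → Set (ι → ZMod 2) := fun w =>
    if Heavy (M w) ∧ Heavy (ctx A (M w)) then ssum (ctx A (M w)) (M w) else ∅
  let B2 : g → Set (ι → ZMod 2) := fun w =>
    if Leaf (M w) ∧ ¬ Heavy (ctx A (M w)) then ssum (ctx A (M w)) (M w) else ∅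
  let B3 : g × g → Set (ι → ZMod 2) := fun w =>
    if M w.2 ⊆ M w.1 ∧ ¬ Heavy (ctx A (M w.1)) ∧ ¬ Heavy (M w.2) then
      ssum (ctx A (M w.1)) (M w.2) else ∅
  let B4 : g × g × g → Set (ι → ZMod 2) := fun w =>
    if ssum (M w.2.1) (M w.2.2) ⊆ M w.1 ∧ ¬ Heavy (ctx A (M w.1)) ∧ ¬ Heavy (M w.2.1) ∧
      ¬ Heavy (M w.2.2) then ssum (ctx A (M w.1)) (ssum (M w.2.1) (M w.2.2)) else ∅
  have h1 : ∀ w, ((B1 w).ncard : ℝ) ≤ β := by
    intro w
    by_cases h : Heavy (M w) ∧ Heavy (ctx A (M w))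
    · simp only [B1, if_pos h]
      exact hβ _ _ (fun u hu v hv => hu v hv) h.2 h.1
    · simp only [B1, if_neg h, Set.ncard_empty, Nat.cast_zero]; exact hβ0
  have h2 : ∀ w, ((B2 w).ncard : ℝ) ≤ lam := by
    intro w
    by_cases h : Leaf (M w) ∧ ¬ Heavy (ctx A (M w))
    · simp only [B2, if_pos h]; exact hlam _ h.1 h.2
    · simp only [B2, if_neg h, Set.ncard_empty, Nat.cast_zero]; exact hlam0
  have h3 : ∀ w, ((B3 w).ncard : ℝ) ≤ κ := by
    intro w
    by_cases h : M w.2 ⊆ M w.1 ∧ ¬ Heavy (ctx A (M w.1)) ∧ ¬ Heavy (M w.2)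
    · simp only [B3, if_pos h]
      have := hκ (ctx A (M w.1)) (M w.2) {0} h.2.1 h.2.2 h0 (by
        rw [ssum_zero]; exact hctx _ _ h.1)
      rwa [ssum_zero] at this
    · simp only [B3, if_neg h, Set.ncard_empty, Nat.cast_zero]; exact hκ0
  have h4 : ∀ w, ((B4 w).ncard : ℝ) ≤ κ := by
    intro w
    by_cases h : ssum (M w.2.1) (M w.2.2) ⊆ M w.1 ∧ ¬ Heavy (ctx A (M w.1)) ∧
        ¬ Heavy (M w.2.1) ∧ ¬ Heavy (M w.2.2)
    · simp only [B4, if_pos h]
      exact hκ _ _ _ h.2.1 h.2.2.1 h.2.2.2 (hctx _ _ h.1)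
    · simp only [B4, if_neg h, Set.ncard_empty, Nat.cast_zero]; exact hκ0
  have hs3 : (1 : ℝ) ≤ s ^ 3 := one_le_pow₀ hgpos
  have hsβ : 0 ≤ s * β := by positivity
  have hsl : 0 ≤ s * lam := by positivity
  by_cases htl : Heavy (M top)
  swap
  · have h5 := hκ (M top) {0} {0} htl h0 h0 (by rw [ssum_zero, ssum_zero]; exact htop)
    rw [ssum_zero, ssum_zero] at h5
    have h6 : κ ≤ s ^ 3 * κ := by
      have := mul_le_mul_of_nonneg_right hs3 hκ0
      linarith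
    have h7 : 0 ≤ s ^ 3 * κ := by positivity
    linarith
  have hcover : M top ⊆ (⋃ w, B1 w) ∪ (⋃ w, B2 w) ∪ (⋃ w, B3 w) ∪ (⋃ w, B4 w) := by
    intro x hxtop
    have h0 : (0 : ι → ZMod 2) ∈ ctx A (M top) := by
      intro y hy; rw [zero_add]; exact htop hy
    have hxx : (0 : ι → ZMod 2) + x = x := zero_add x
    by_cases hl : Heavy (ctx A (M top))
    · refine Or.inl (Or.inl (Or.inl (Set.mem_iUnion.2 ⟨top, ?_⟩)))
      simp only [B1, if_pos (And.intro htl hl)]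
      exact ⟨0, h0, x, hxtop, hxx.symm⟩
    · rcases walk5 rk M A hM (rk top) top rfl hl 0 h0 x hxtop with
        ⟨w, hw, hw', hmem⟩ | ⟨w, hw, hw', hmem⟩ | ⟨w, a, hsub, hw, ha, hmem⟩ |
        ⟨w, a, b, hsub, hw, ha, hb, hmem⟩
      · rw [hxx] at hmem
        refine Or.inl (Or.inl (Or.inl (Set.mem_iUnion.2 ⟨w, ?_⟩)))
        simp only [B1, if_pos (And.intro hw hw')]; exact hmem
      · rw [hxx] at hmem
        refine Or.inl (Or.inl (Or.inr (Set.mem_iUnion.2 ⟨w, ?_⟩)))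
        simp only [B2, if_pos (And.intro hw hw')]; exact hmem
      · rw [hxx] at hmem
        refine Or.inl (Or.inr (Set.mem_iUnion.2 ⟨(w, a), ?_⟩))
        simp only [B3, if_pos (And.intro hsub (And.intro hw ha))]; exact hmem
      · rw [hxx] at hmem
        refine Or.inr (Set.mem_iUnion.2 ⟨(w, a, b), ?_⟩)
        simp only [B4, if_pos (And.intro hsub (And.intro hw (And.intro ha hb)))]; exact hmem
  have hc1 := ncard_iUnion_le B1 _ h1
  have hc2 := ncard_iUnion_le B2 _ h2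
  have hc3 := ncard_iUnion_le B3 _ h3
  have hc4 := ncard_iUnion_le B4 _ h4
  have htot : ((M top).ncard : ℝ) ≤ (⋃ w, B1 w).ncard + (⋃ w, B2 w).ncard + (⋃ w, B3 w).ncard
      + (⋃ w, B4 w).ncard := by
    have e1 := Set.ncard_le_ncard hcover (Set.toFinite _)
    have e2 := Set.ncard_union_le ((⋃ w, B1 w) ∪ (⋃ w, B2 w) ∪ (⋃ w, B3 w)) (⋃ w, B4 w)
    have e3 := Set.ncard_union_le ((⋃ w, B1 w) ∪ (⋃ w, B2 w)) (⋃ w, B3 w)
    have e4 := Set.ncard_union_le (⋃ w, B1 w) (⋃ w, B2 w)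
    have : (M top).ncard ≤ (⋃ w, B1 w).ncard + (⋃ w, B2 w).ncard + (⋃ w, B3 w).ncard
      + (⋃ w, B4 w).ncard := by omega
    exact_mod_cast this
  simp only [Fintype.card_prod, Nat.cast_mul] at hc3 hc4
  rw [← hs] at hc1 hc2 hc3 hc4
  have e3 : s * s * κ ≤ s ^ 3 * κ := by
    have a1 : s * s ≤ s ^ 3 := by
      have : s ^ 2 ≤ s ^ 3 := pow_le_pow_right₀ hgpos (by norm_num)
      calc s * s = s ^ 2 := by ring
        _ ≤ _ := this
    exact mul_le_mul_of_nonneg_right a1 hκ0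
  have e4 : s * (s * s) * κ = s ^ 3 * κ := by ring
  linarith

end Pool.Agent.Dichotomy
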