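import Pool.Agent.Helper34.XTW.Sumset2

/-!
The sumset lemma of `Pool/Agent/Helper34/XTW/Sumset2.lean` with hypotheses on the coordinates that
are not constant.
-/

set_option autoImplicit false

namespace Pool.Agent.Dichotomy

open Finset Pool.Agent.Helper34.XTW

variable {V : Type*}

/-- The sumset lemma in terms of the number of endpoints of bad edges. -/
theorem sumset_bad [Fintype V] [DecidableEq V] (G : SimpleGraph V) (D : ℕ)
    (hD : ∀ v, (G.neighborSet v).ncard ≤ D) (t : ℕ)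
    (U U' : Set (V → ZMod 2)) (h : ∀ u ∈ U, ∀ v ∈ U', u + v ∈ VC G)
    (ht : t ≤ {u | ∃ v, G.Adj u v ∧
      ¬ ((u ∈ free U ∧ u ∉ free U') ∧ (v ∈ free U ∧ v ∉ free U')) ∧
      ¬ ((u ∈ free U' ∧ u ∉ free U) ∧ (v ∈ free U' ∧ v ∉ free U))}.ncard) :
    (({z | ∃ u ∈ U, ∃ v ∈ U', z = u + v} : Set (V → ZMod 2)).ncard : ℝ) ≤
      (2 ^ (2 * (D + 1)) / (2 ^ (2 * (D + 1)) + 1)) ^ (t / (2 * (D + 1) ^ 2)) *
        (VC G).ncard := by
  classical
  set F := free U with hF
  set F' := free U' with hF'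
  set S : Set V := {u | ∃ v, G.Adj u v ∧ ¬ ((u ∈ F ∧ u ∉ F') ∧ (v ∈ F ∧ v ∉ F')) ∧
      ¬ ((u ∈ F' ∧ u ∉ F) ∧ (v ∈ F' ∧ v ∉ F))} with hS
  -- the bad edges
  set I : Finset (V × V) := univ.filter fun e => G.Adj e.1 e.2 ∧
      ¬ ((e.1 ∈ F ∧ e.1 ∉ F') ∧ (e.2 ∈ F ∧ e.2 ∉ F')) ∧
      ¬ ((e.1 ∈ F' ∧ e.1 ∉ F) ∧ (e.2 ∈ F' ∧ e.2 ∉ F)) with hI
  set core : V × V → Finset V := fun e => {e.1, e.2} with hcore
  set nb : V × V → Finset V := fun e => cl G e.1 ∪ cl G e.2 with hnb
  have hdj : ∀ e f : V × V, ¬ Disjoint (core e) (nb f) ↔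
      ∃ w ∈ core e, ∃ w' ∈ core f, w ∈ cl G w' := by
    intro e f
    rw [Finset.not_disjoint_iff]
    constructor
    · rintro ⟨w, h1, h2⟩
      refine ⟨w, h1, ?_⟩
      simp only [hnb, mem_union] at h2
      rcases h2 with h2 | h2
      · exact ⟨f.1, by simp [hcore], h2⟩
      · exact ⟨f.2, by simp [hcore], h2⟩
    · rintro ⟨w, h1, w', h2, h3⟩
      refine ⟨w, h1, ?_⟩
      simp only [hcore, mem_insert, mem_singleton] at h2
      simp only [hnb, mem_union]
      rcases h2 with rfl | rfl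
      · exact Or.inl h3
      · exact Or.inr h3
  obtain ⟨M, hMI, hM1, hM2⟩ := exists_far I core nb (by
    intro e _ f _ h1
    by_contra h2
    rw [hdj] at h2
    obtain ⟨w, hw, w', hw', h3⟩ := h2
    exact ((hdj e f).mpr ⟨w', hw', w, hw, mem_cl_comm.mp h3⟩) h1)
  have hnbcard : ∀ e, (nb e).card ≤ 2 * (D + 1) := by
    intro e
    refine (card_union_le _ _).trans ?_
    have h1 := card_cl_le hD e.1
    have h2 := card_cl_le hD e.2
    omega
  -- every vertex of `S` is near an edge of `M`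
  have hcardS : S.ncard ≤ M.card * (2 * (D + 1) ^ 2) := by
    have h1 : S ⊆ ((M.biUnion fun f => (nb f).biUnion fun w => cl G w : Finset V) : Set V) := by
      rintro u ⟨v, huv⟩
      have he : (u, v) ∈ I := by
        rw [hI, mem_filter]
        exact ⟨mem_univ _, huv⟩
      obtain ⟨f, hf, h2⟩ := hM2 _ he
      rw [mem_coe, mem_biUnion]
      refine ⟨f, hf, ?_⟩
      rw [mem_biUnion]
      rcases h2 with rfl | h2
      · refine ⟨u, ?_, mem_cl.mpr (Or.inl rfl)⟩
        simp only [hnb, mem_union]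
        exact Or.inl (mem_cl.mpr (Or.inl rfl))
      · rw [Finset.not_disjoint_iff] at h2
        obtain ⟨w, hw1, hw2⟩ := h2
        refine ⟨w, hw2, ?_⟩
        simp only [hcore, mem_insert, mem_singleton] at hw1
        rcases hw1 with rfl | rfl
        · exact mem_cl.mpr (Or.inl rfl)
        · exact mem_cl.mpr (Or.inr huv.1.symm)
    have h2 := Set.ncard_le_ncard h1 (Finset.finite_toSet _)
    rw [Set.ncard_coe_finset] at h2
    refine h2.trans (card_biUnion_le.trans ?_)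
    refine (Finset.sum_le_card_nsmul _ _ (2 * (D + 1) ^ 2) (fun f _ => ?_)).trans
      (le_of_eq (smul_eq_mul _ _))
    refine card_biUnion_le.trans ?_
    refine (Finset.sum_le_card_nsmul _ _ _ (fun w _ => card_cl_le hD w)).trans ?_
    rw [smul_eq_mul]
    calc (nb f).card * (D + 1) ≤ (2 * (D + 1)) * (D + 1) := Nat.mul_le_mul_right _ (hnbcard f)
      _ = 2 * (D + 1) ^ 2 := by ring
  have hMcard : t / (2 * (D + 1) ^ 2) ≤ M.card := by
    apply Nat.div_le_of_le_mul
    rw [mul_comm]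
    exact ht.trans hcardS
  -- missing patterns
  have hmiss : ∀ e ∈ I, ∃ p : ZMod 2 × ZMod 2, (p.1 = 1 ∨ p.2 = 1) ∧
      ∀ x ∈ U, ∀ y ∈ U', ¬ ((x + y) e.1 = p.1 ∧ (x + y) e.2 = p.2) := by
    intro e he
    rw [hI, mem_filter] at he
    obtain ⟨-, hadj, he1, he2⟩ := he
    by_contra hcon
    push Not at hcon
    rcases edge_lemma (U := U) (U' := U') (u := e.1) (v := e.2)
      (fun x hx y hy => h x hx y hy _ _ hadj) (fun a b hab => by
        obtain ⟨x, hx, y, hy, h1, h2⟩ := hcon (a, b) hab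
        exact ⟨x, hx, y, hy, h1, h2⟩) with h3 | h3
    · exact he1 h3
    · exact he2 h3
  choose! p hp1 hp2 using hmiss
  have hsw := switch (VC G) M core nb (fun e x => ¬ (x e.1 = (p e).1 ∧ x e.2 = (p e).2))
    (2 * (D + 1)) hM1 (by
      intro e _ x y hxy hx
      rw [hxy e.1 (by simp [hcore]), hxy e.2 (by simp [hcore])]
      exact hx) (fun e _ => hnbcard e) (by
      intro e he x hx
      have heI := hMI he
      have hadj : G.Adj e.1 e.2 := by
        rw [hI, mem_filter] at heI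
        exact heI.2.1
      refine ⟨_, patch_two hx e.1 e.2 (p e).1 (p e).2 (hp1 e heI), ?_, ?_⟩
      · intro v hv
        have hv1 : v ≠ e.1 := by
          rintro rfl
          exact hv (mem_union_left _ (mem_cl.mpr (Or.inl rfl)))
        have hv2 : v ≠ e.2 := by
          rintro rfl
          exact hv (mem_union_right _ (mem_cl.mpr (Or.inl rfl)))
        simp only [hv1, hv2, if_false]
        rw [if_neg hv]
      · rw [not_not]
        have hne := G.ne_of_adj hadj
        simp only [if_true, hne.symm, if_false, and_self])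
  have hsub : ({z | ∃ u ∈ U, ∃ v ∈ U', z = u + v} : Set (V → ZMod 2)) ⊆
      {x ∈ VC G | ∀ e ∈ M, ¬ (x e.1 = (p e).1 ∧ x e.2 = (p e).2)} := by
    rintro z ⟨x, hx, y, hy, rfl⟩
    exact ⟨h x hx y hy, fun e he => hp2 e (hMI he) x hx y hy⟩
  have h2 : (({z | ∃ u ∈ U, ∃ v ∈ U', z = u + v} : Set (V → ZMod 2)).ncard : ℝ) ≤
      (({x ∈ VC G | ∀ e ∈ M, ¬ (x e.1 = (p e).1 ∧ x e.2 = (p e).2)} :
        Set (V → ZMod 2)).ncard : ℝ) := by
    exact_mod_cast Set.ncard_le_ncard hsub (Set.toFinite _)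
  refine h2.trans (hsw.trans ?_)
  refine mul_le_mul_of_nonneg_right ?_ (Nat.cast_nonneg _)
  apply pow_le_pow_of_le_one (by positivity) _ hMcard
  rw [div_le_one (by positivity)]
  linarith

/-- The sumset lemma in terms of the coordinates that are not constant. -/
theorem sumset_free [Fintype V] [DecidableEq V] (G : SimpleGraph V) (D : ℕ)
    (hD : ∀ v, (G.neighborSet v).ncard ≤ D) (X : Finset V) (a t : ℕ) (hstar : Star G X a t)
    (U U' : Set (V → ZMod 2)) (h : ∀ u ∈ U, ∀ v ∈ U', u + v ∈ VC G)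
    (hU : a ≤ (free U ∩ X).ncard) (hU' : a ≤ (free U' ∩ X).ncard) :
    (({z | ∃ u ∈ U, ∃ v ∈ U', z = u + v} : Set (V → ZMod 2)).ncard : ℝ) ≤
      (2 ^ (2 * (D + 1)) / (2 ^ (2 * (D + 1)) + 1)) ^ (t / (2 * (D + 1) ^ 2)) *
        (VC G).ncard :=
  sumset_bad G D hD t U U' h (hstar _ _ hU hU')

end Pool.Agent.Dichotomy
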