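import Pool.Agent.Helper91.Dich.Leaf5
import Pool.Agent.Helper91.Dich.Path5
import Pool.Agent.Helper91.Dich.Sumset5
import Pool.Agent.Helper91.Dich.Expander3
import Pool.Agent.Helper34.XTW.Linked

/-!
A tensor network leaf with light contexts covers only few vertex covers.
-/

namespace Pool.Agent.Dichotomy

open Finset Module Pool.Agent.Helper34.XTW

set_option linter.unusedSectionVars false

section

variable {n : ℕ} {V : Type} [Fintype V] [DecidableEq V] (G : SimpleGraph V)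
  (core0 : (Fin n → ZMod 2) →ₗ[ZMod 2] (V → ZMod 2))
  (Λ0 : (V → ZMod 2) →ₗ[ZMod 2] (Fin n → ZMod 2)) (l0 : Fin n → ZMod 2)

/-- The image of the vertex covers. -/
def AA : Set (Fin n → ZMod 2) := {y | ∃ x ∈ VC G, y = l0 + Λ0 x}

variable {G core0 Λ0 l0} (hcΛ : ∀ x, core0 (Λ0 x) = x)

include hcΛ in
theorem AA_core {y : Fin n → ZMod 2} (hy : y ∈ AA G Λ0 l0) : core0 y + core0 l0 ∈ VC G := by
  obtain ⟨x, hx, rfl⟩ := hy
  rw [map_add, hcΛ]
  have : core0 l0 + x + core0 l0 = (core0 l0 + core0 l0) + x := by abel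
  rw [this, pi_add_self, zero_add]
  exact hx

include hcΛ in
theorem AA_diff {y y' : Fin n → ZMod 2} (hy : y ∈ AA G Λ0 l0) (hy' : y' ∈ AA G Λ0 l0) :
    y + y' = Λ0 (core0 (y + y')) := by
  obtain ⟨x, -, rfl⟩ := hy
  obtain ⟨x', -, rfl⟩ := hy'
  have : l0 + Λ0 x + (l0 + Λ0 x') = (l0 + l0) + Λ0 (x + x') := by rw [map_add]; abel
  rw [this, pi_add_self, zero_add, hcΛ]

include hcΛ in
theorem AA_ncard : (AA G Λ0 l0).ncard = (VC G).ncard := by
  have h : AA G Λ0 l0 = (fun x => l0 + Λ0 x) '' VC G := by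
    ext y
    constructor
    · rintro ⟨x, hx, rfl⟩; exact ⟨x, hx, rfl⟩
    · rintro ⟨x, hx, rfl⟩; exact ⟨x, hx, rfl⟩
  rw [h, Set.ncard_image_of_injective]
  intro x y hxy
  have h1 := add_left_cancel hxy
  rw [← hcΛ x, ← hcΛ y, h1]

include hcΛ in
theorem AA_injOn : Set.InjOn (fun y => core0 y + core0 l0) (AA G Λ0 l0) := by
  intro y hy y' hy' h
  have h1 : core0 y = core0 y' := add_right_cancel h
  have h2 := AA_diff hcΛ hy hy'
  rw [map_add, h1, pi_add_self, map_zero] at h2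
  have h3 : y + y' + y' = 0 + y' := by rw [h2]
  rw [add_assoc, pi_add_self, add_zero, zero_add] at h3
  exact h3

theorem zne : ∀ a b c : ZMod 2, a ≠ b → a + c = 0 ∨ b + c = 0 := by decide

variable {C S : Set (Fin n → ZMod 2)} (hCS : ∀ c ∈ C, ∀ s ∈ S, c + s ∈ AA G Λ0 l0)

include hcΛ hCS in
/-- At the boundary of the free coordinates of the contexts all values are `1`. -/
theorem bd_one {u t : V} (hu : u ∈ free (core0 '' C)) (ht : t ∉ free (core0 '' C))
    (hut : G.Adj u t) {c s : Fin n → ZMod 2} (hc : c ∈ C) (hs : s ∈ S) :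
    (core0 (c + s) + core0 l0) t = 1 := by
  obtain ⟨_, ⟨c1, hc1, rfl⟩, _, ⟨c2, hc2, rfl⟩, hne⟩ := hu
  have hconst : ∀ c' ∈ C, core0 c' t = core0 c t := by
    intro c' hc'
    by_contra h
    exact ht ⟨_, ⟨c', hc', rfl⟩, _, ⟨c, hc, rfl⟩, h⟩
  have key : ∀ c' ∈ C, (core0 (c' + s) + core0 l0) u = 0 → (core0 (c + s) + core0 l0) t = 1 := by
    intro c' hc' h0
    have h1 := (AA_core hcΛ (hCS c' hc' s hs)) u t hut
    rw [h0] at h1
    have h2 := h1.resolve_left (by decide)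
    rw [map_add, Pi.add_apply, Pi.add_apply, hconst c' hc'] at h2
    rw [map_add, Pi.add_apply, Pi.add_apply]
    exact h2
  rcases zne _ _ ((core0 s + core0 l0) u) hne with h | h
  · refine key c1 hc1 ?_
    rw [map_add]
    simp only [Pi.add_apply] at h ⊢
    rw [add_assoc]; exact h
  · refine key c2 hc2 ?_
    rw [map_add]
    simp only [Pi.add_apply] at h ⊢
    rw [add_assoc]; exact h

end

end Pool.Agent.Dichotomy
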