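import Pool.Agent.Helper91.Dich.Sub5

/-!
A tensor network leaf with light contexts covers only few vertex covers.
-/

namespace Pool.Agent.Dichotomy

open Finset Module Pool.Agent.Helper34.XTW

set_option linter.unusedSectionVars false

section

variable {n : ℕ} {V : Type} [Fintype V] [DecidableEq V] {G : SimpleGraph V}
  {core0 : (Fin n → ZMod 2) →ₗ[ZMod 2] (V → ZMod 2)}
  {Λ0 : (V → ZMod 2) →ₗ[ZMod 2] (Fin n → ZMod 2)} {l0 : Fin n → ZMod 2}
  (hcΛ : ∀ x, core0 (Λ0 x) = x)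

include hcΛ in
/-- The case of a small boundary, for points whose differences vanish on the free coordinates of
the contexts. -/
theorem leaf_case2 (D : ℕ) (hD : ∀ v, (G.neighborSet v).ncard ≤ D) (X : Finset V)
    (k b m : ℕ) (hm : 1 ≤ m) (hX : Linked G X k) (F B : Finset V)
    (hBd : ∀ u ∈ F, ∀ v, G.Adj u v → v ∈ F ∨ v ∈ B) (hFB : Disjoint F B) (hB : B.card ≤ b)
    (h1 : 80 * m + 5 * b + (X ∩ F).card ≤ X.card) (h2 : 8 * m + b ≤ k)
    (cl : (Fin n → ZMod 2) →ₗ[ZMod 2] (ZMod 2 × ZMod 2)) (ζ : ZMod 2 × ZMod 2) (W : ℕ)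
    {K : Type} [Field K] (f : (Fin n → ZMod 2) → K)
    (e : (Fin n → ZMod 2) ≃ₗ[ZMod 2] (Fin n → ZMod 2))
    (U : Submodule K ((Fin n → ZMod 2) → K)) (hU : Net K W univ U)
    (hfU : (fun x => f (e x)) ∈ U) {C S : Set (Fin n → ZMod 2)}
    (hCf : ∀ c ∈ C, ∀ y, f y ≠ 0 → cl y = ζ → c + y ∈ AA G Λ0 l0)
    (hSf : ∀ s ∈ S, f s ≠ 0 ∧ cl s = ζ)
    (hC : ∀ c ∈ C, ∀ c' ∈ C, ∀ v, v ∉ F → core0 (c + c') v = 0)
    (hS : ∀ s ∈ S, ∀ s' ∈ S, ∀ v, v ∈ F ∨ v ∈ B → core0 (s + s') v = 0)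
    (k0 t : ℕ) (ht : t ≤ ((m + 1) / 2) / (D + 1)) (δ : ℝ) (hδ0 : 0 ≤ δ)
    (hδ : (128 * (W : ℝ)) ^ (2 * (k0 + 1)) *
      (16 ^ m * ((2 ^ (D + 1) / (2 ^ (D + 1) + 1)) ^ t) ^ k0 +
        (2 ^ (D + 1) / (2 ^ (D + 1) + 1)) ^ t) ≤ δ ^ (4 * (k0 + 1))) :
    ((ssum C S).ncard : ℝ) ≤ δ * (VC G).ncard := by
  classical
  rcases C.eq_empty_or_nonempty with hCe | ⟨c0, hc0⟩
  · have : ssum C S = ∅ := by
      rw [hCe]
      ext z
      constructor
      · rintro ⟨u, hu, -⟩; exact absurd hu (Set.notMem_empty _)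
      · intro h; exact absurd h (Set.notMem_empty _)
    rw [this, Set.ncard_empty, Nat.cast_zero]
    positivity
  rcases S.eq_empty_or_nonempty with hSe | ⟨s0, hs0⟩
  · have : ssum C S = ∅ := by
      rw [hSe]
      ext z
      constructor
      · rintro ⟨u, -, v, hv, -⟩; exact absurd hv (Set.notMem_empty _)
      · intro h; exact absurd h (Set.notMem_empty _)
    rw [this, Set.ncard_empty, Nat.cast_zero]
    positivity
  have hCS : ∀ c ∈ C, ∀ s ∈ S, c + s ∈ AA G Λ0 l0 := fun c hc s hs =>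
    hCf c hc s (hSf s hs).1 (hSf s hs).2
  -- the data on the remaining graph
  let core := (rst0 F B).comp core0
  let Λ := Λ0.comp (ext0 F B)
  have hcoreΛ : ∀ x, core (Λ x) = x := by
    intro x
    show rst0 F B (core0 (Λ0 (ext0 F B x))) = x
    rw [hcΛ, rst0_ext0]
  obtain ⟨κ0, hκ0⟩ : ∃ κ0, κ0 = rst0 F B (core0 c0 + core0 l0) := ⟨_, rfl⟩
  obtain ⟨l1, hl1⟩ : ∃ l1, l1 = s0 + Λ (core s0 + κ0) := ⟨_, rfl⟩
  have hcl1 : core l1 = κ0 := by
    rw [hl1, map_add, hcoreΛ, ← add_assoc, pi_add_self, zero_add]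
  have hSrep : ∀ s ∈ S, s = l1 + Λ (core s + κ0) := by
    intro s hs
    have h3 : s + s0 = Λ0 (core0 (s + s0)) := by
      have := AA_diff hcΛ (hCS c0 hc0 s hs) (hCS c0 hc0 s0 hs0)
      have h4 : c0 + s + (c0 + s0) = s + s0 := by
        have : c0 + s + (c0 + s0) = (c0 + c0) + (s + s0) := by abel
        rw [this, pi_add_self, zero_add]
      rwa [h4] at this
    have h5 : ext0 F B (core (s + s0)) = core0 (s + s0) :=
      ext0_rst0 _ (hS s hs s0 hs0)
    have h6 : s + s0 = Λ (core (s + s0)) := by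
      show s + s0 = Λ0 (ext0 F B (core (s + s0)))
      rw [h5]; exact h3
    have h7 : Λ (core s0 + κ0) + Λ (core s + κ0) = s + s0 := by
      rw [← map_add]
      have : core s0 + κ0 + (core s + κ0) = core (s + s0) := by
        have h8 : core s0 + κ0 + (core s + κ0) = core s + core s0 + (κ0 + κ0) := by abel
        rw [h8, pi_add_self, add_zero, map_add]
      rw [this, ← h6]
    rw [hl1, add_assoc, h7]
    have : s0 + (s + s0) = s + (s0 + s0) := by abel
    rw [this, pi_add_self, add_zero]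
  have hVCr : ∀ y ∈ AA G Λ0 l0, rst0 F B (core0 y + core0 l0) ∈ VC (GG G F B) := by
    intro y hy u v huv
    exact (AA_core hcΛ hy) u.1 v.1 huv
  have hcf : ∀ y, f y ≠ 0 → cl y = ζ → core y + κ0 ∈ VC (GG G F B) := by
    intro y hy0 hy1
    have := hVCr _ (hCf c0 hc0 y hy0 hy1)
    have h8 : rst0 F B (core0 (c0 + y) + core0 l0) = core y + κ0 := by
      have h9 : core0 (c0 + y) + core0 l0 = core0 y + (core0 c0 + core0 l0) := by
        rw [map_add]; abel
      rw [hκ0, h9, map_add (rst0 F B)]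
      rfl
    rwa [h8] at this
  let Y : Finset (VV F B → ZMod 2) := (VCf (GG G F B)).filter fun x => l1 + Λ x ∈ S
  have hYS : S.ncard = Y.card := by
    have h3 : S = (fun x => l1 + Λ x) '' (Y : Set (VV F B → ZMod 2)) := by
      ext s
      constructor
      · intro hs
        refine ⟨core s + κ0, Finset.mem_coe.2 (mem_filter.2 ⟨(mem_VCf _).2 ?_, ?_⟩), ?_⟩
        · exact hcf s (hSf s hs).1 (hSf s hs).2
        · rw [← hSrep s hs]; exact hs
        · exact (hSrep s hs).symm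
      · rintro ⟨x, hx, rfl⟩
        exact (mem_filter.1 (Finset.mem_coe.1 hx)).2
    rw [h3, Set.ncard_image_of_injective, Set.ncard_coe_finset]
    intro x y hxy
    have := add_left_cancel hxy
    rw [← hcoreΛ x, ← hcoreΛ y, this]
  have hXr := linkedR_sub (G := G) hX hBd hB
  have hXc := card_sub_X (F := F) (B := B) X
  have hb := leaf_bound5 (GG G F B) D (GG_degree hD) (univ.filter fun v : VV F B => v.1 ∈ X)
    k b m hm hXr (by omega) h2 cl core Λ hcoreΛ κ0 l1 hcl1 f e W U hU hfU ζ hcf Y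
    (filter_subset _ _) (by
      intro x hx
      exact hSf _ (mem_filter.1 hx).2) k0 t ht
  have h3 : (Y.card : ℝ) ≤ δ * (VC (GG G F B)).ncard := by
    have h4 : (Y.card : ℝ) ^ (4 * (k0 + 1)) ≤ (δ * (VC (GG G F B)).ncard) ^ (4 * (k0 + 1)) := by
      refine hb.trans ?_
      rw [← mul_assoc, ← card_VCf, mul_pow δ]
      exact mul_le_mul_of_nonneg_right hδ (pow_nonneg (Nat.cast_nonneg _) _)
    have hnn : 0 ≤ δ * ((VC (GG G F B)).ncard : ℝ) := mul_nonneg hδ0 (Nat.cast_nonneg _)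
    have hne : 4 * (k0 + 1) ≠ 0 := by omega
    exact (pow_le_pow_iff_left₀ (Nat.cast_nonneg _) hnn hne).1 h4
  have h4 : C.ncard * (VC (GG G F B)).ncard ≤ (VC G).ncard :=
    ctx_mul_le hcΛ hCS hBd hFB hC ⟨s0, hs0⟩
  have h5 : ((ssum C S).ncard : ℝ) ≤ C.ncard * S.ncard := by exact_mod_cast ssum_ncard C S
  calc ((ssum C S).ncard : ℝ) ≤ C.ncard * S.ncard := h5
    _ = C.ncard * (Y.card : ℝ) := by rw [hYS]
    _ ≤ C.ncard * (δ * (VC (GG G F B)).ncard) :=
        mul_le_mul_of_nonneg_left h3 (Nat.cast_nonneg _)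
    _ = δ * ((C.ncard : ℝ) * (VC (GG G F B)).ncard) := by ring
    _ ≤ δ * (VC G).ncard := by
        refine mul_le_mul_of_nonneg_left ?_ hδ0
        exact_mod_cast h4

theorem free_shift {V : Type*} (U : Set (V → ZMod 2)) (τ : V → ZMod 2) :
    free ((fun x => x + τ) '' U) = free U := by
  ext v
  constructor
  · rintro ⟨_, ⟨x, hx, rfl⟩, _, ⟨y, hy, rfl⟩, h⟩
    refine ⟨x, hx, y, hy, fun h' => h ?_⟩
    simp only [Pi.add_apply, h']
  · rintro ⟨x, hx, y, hy, h⟩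
    refine ⟨_, ⟨x, hx, rfl⟩, _, ⟨y, hy, rfl⟩, fun h' => h ?_⟩
    simp only [Pi.add_apply] at h'
    exact add_right_cancel h'

include hcΛ in
/-- A sumset inside the image of the vertex covers with many bad edges is small. -/
theorem ssum_bad (D : ℕ) (hD : ∀ v, (G.neighborSet v).ncard ≤ D) (t : ℕ)
    {U U' : Set (Fin n → ZMod 2)} (hUU : ∀ u ∈ U, ∀ v ∈ U', u + v ∈ AA G Λ0 l0)
    (ht : t ≤ {u | ∃ v, G.Adj u v ∧
      ¬ ((u ∈ free (core0 '' U) ∧ u ∉ free (core0 '' U')) ∧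
        (v ∈ free (core0 '' U) ∧ v ∉ free (core0 '' U'))) ∧
      ¬ ((u ∈ free (core0 '' U') ∧ u ∉ free (core0 '' U)) ∧
        (v ∈ free (core0 '' U') ∧ v ∉ free (core0 '' U)))}.ncard) :
    ((ssum U U').ncard : ℝ) ≤
      (2 ^ (2 * (D + 1)) / (2 ^ (2 * (D + 1)) + 1)) ^ (t / (2 * (D + 1) ^ 2)) *
        (VC G).ncard := by
  have hs := sumset_bad G D hD t
    ((fun x => x + core0 l0) '' (core0 '' U)) (core0 '' U') (by
      rintro _ ⟨_, ⟨u, hu, rfl⟩, rfl⟩ _ ⟨w, hw, rfl⟩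
      have := AA_core hcΛ (hUU u hu w hw)
      have h3 : (fun x => x + core0 l0) (core0 u) + core0 w = core0 (u + w) + core0 l0 := by
        show core0 u + core0 l0 + core0 w = _
        rw [map_add]; abel
      rw [h3]; exact this) (by rw [free_shift]; exact ht)
  refine le_trans ?_ hs
  have hmaps : ∀ y ∈ ssum U U', (fun y => core0 y + core0 l0) y ∈
      ({z | ∃ u ∈ (fun x => x + core0 l0) '' (core0 '' U), ∃ v ∈ core0 '' U', z = u + v} :
        Set (V → ZMod 2)) := by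
    rintro _ ⟨u, hu, w, hw, rfl⟩
    refine ⟨_, ⟨_, ⟨u, hu, rfl⟩, rfl⟩, _, ⟨w, hw, rfl⟩, ?_⟩
    show core0 (u + w) + core0 l0 = core0 u + core0 l0 + core0 w
    rw [map_add]; abel
  have hinj : Set.InjOn (fun y => core0 y + core0 l0) (ssum U U') := by
    refine (AA_injOn hcΛ (G := G)).mono ?_
    rintro _ ⟨u, hu, w, hw, rfl⟩
    exact hUU u hu w hw
  exact_mod_cast Set.ncard_le_ncard_of_injOn _ hmaps hinj (Set.toFinite _)

include hcΛ in
/-- **A leaf with light contexts.** -/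
theorem light_leaf (hiso : ∀ v, ∃ u, G.Adj v u) (D : ℕ)
    (hD : ∀ v, (G.neighborSet v).ncard ≤ D)
    (X : Finset V) (k a b m : ℕ) (hm : 1 ≤ m) (hX : Linked G X k)
    (h1 : 80 * m + 5 * b + a ≤ X.card) (h2 : 8 * m + b ≤ k)
    (cl : (Fin n → ZMod 2) →ₗ[ZMod 2] (ZMod 2 × ZMod 2)) (W : ℕ) {S' : Set (Fin n → ZMod 2)}
    (hS' : ∃ S ζ, NetLeaf W S ∧ S' = {y | y ∈ S ∧ cl y = ζ})
    (hlight : ¬ a ≤ (free (core0 '' ctx (AA G Λ0 l0) S') ∩ X).ncard)
    (k0 t : ℕ) (ht : t ≤ ((m + 1) / 2) / (D + 1)) (δ lam : ℝ) (hδ0 : 0 ≤ δ)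
    (hδ : (128 * (W : ℝ)) ^ (2 * (k0 + 1)) *
      (16 ^ m * ((2 ^ (D + 1) / (2 ^ (D + 1) + 1)) ^ t) ^ k0 +
        (2 ^ (D + 1) / (2 ^ (D + 1) + 1)) ^ t) ≤ δ ^ (4 * (k0 + 1)))
    (hl1 : (2 ^ (2 * (D + 1)) / (2 ^ (2 * (D + 1)) + 1)) ^ (b / (2 * (D + 1) ^ 2)) ≤ lam)
    (hl2 : 2 ^ b * δ ≤ lam) :
    ((ssum (ctx (AA G Λ0 l0) S') S').ncard : ℝ) ≤ lam * (VC G).ncard := by
  classical
  obtain ⟨S, ζ, ⟨K, _, f, e, U, hf, hU, hfU⟩, hS'⟩ := hS'
  have hlam0 : 0 ≤ lam := le_trans (by positivity) hl1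
  obtain ⟨C, hCd⟩ : ∃ C, C = ctx (AA G Λ0 l0) S' := ⟨_, rfl⟩
  rw [← hCd] at hlight ⊢
  have hCS : ∀ c ∈ C, ∀ s ∈ S', c + s ∈ AA G Λ0 l0 := by
    intro c hc s hs; rw [hCd] at hc; exact hc s hs
  have hfin : ∀ U : Set V, ∃ F : Finset V, (∀ v, v ∈ F ↔ v ∈ U) := by
    intro U
    exact ⟨(Set.toFinite U).toFinset, fun v => Set.Finite.mem_toFinset _⟩
  obtain ⟨F, memF⟩ := hfin (free (core0 '' C))
  obtain ⟨F', memF'⟩ := hfin (free (core0 '' S'))
  have hlight' : (X ∩ F).card < a := by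
    have h3 : (free (core0 '' C) ∩ X).ncard = (X ∩ F).card := by
      rw [← Set.ncard_coe_finset]
      congr 1
      ext v
      rw [Finset.mem_coe, mem_inter, Set.mem_inter_iff, memF, Finset.mem_coe]
      exact and_comm
    rw [h3] at hlight
    exact not_le.1 hlight
  obtain ⟨Bad, hBad⟩ := hfin {u | ∃ v, G.Adj u v ∧
      ¬ ((u ∈ free (core0 '' C) ∧ u ∉ free (core0 '' S')) ∧
        (v ∈ free (core0 '' C) ∧ v ∉ free (core0 '' S'))) ∧
      ¬ ((u ∈ free (core0 '' S') ∧ u ∉ free (core0 '' C)) ∧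
        (v ∈ free (core0 '' S') ∧ v ∉ free (core0 '' C)))}
  rcases Nat.lt_or_ge Bad.card b with hBb | hBb
  swap
  · -- many bad edges
    have h3 := ssum_bad hcΛ D hD b hCS (by
      refine hBb.trans (le_of_eq ?_)
      rw [← Set.ncard_coe_finset]
      congr 1
      ext u
      rw [Finset.mem_coe, hBad])
    exact h3.trans (mul_le_mul_of_nonneg_right hl1 (Nat.cast_nonneg _))
  · -- few bad edges
    obtain ⟨B, hBdef⟩ : ∃ B, B = bd G F := ⟨_, rfl⟩
    have memB : ∀ t, t ∈ B ↔ t ∉ F ∧ ∃ s ∈ F, G.Adj s t := by intro t; rw [hBdef]; exact mem_bd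
    have hone : ∀ t ∈ B, ∀ c ∈ C, ∀ s ∈ S', (core0 (c + s) + core0 l0) t = 1 := by
      intro t ht c hc s hs
      obtain ⟨htF, u, hu, hadj⟩ := (memB t).1 ht
      exact bd_one hcΛ hCS ((memF u).1 hu) (fun h => htF ((memF t).2 h)) hadj hc hs
    have hBc : B.card ≤ b := by
      refine (card_le_card ?_).trans hBb.le
      intro t ht
      obtain ⟨htF, u, hu, hadj⟩ := (memB t).1 ht
      rw [hBad]
      refine ⟨u, hadj.symm, fun h => htF ((memF t).2 h.1.1), fun h => h.2.2 ((memF u).1 hu)⟩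
    have hTc : (F ∩ F').card ≤ b := by
      refine (card_le_card ?_).trans hBb.le
      intro u hu
      obtain ⟨hu1, hu2⟩ := mem_inter.1 hu
      obtain ⟨v, hv⟩ := hiso u
      rw [hBad]
      refine ⟨v, hv, fun h => h.1.2 ((memF' u).1 hu2), fun h => h.1.2 ((memF u).1 hu1)⟩
    have hBd : ∀ u ∈ F, ∀ v, G.Adj u v → v ∈ F ∨ v ∈ B := by
      intro u hu v huv
      by_cases hv : v ∈ F
      · exact Or.inl hv
      · exact Or.inr ((memB v).2 ⟨hv, u, hu, huv⟩)
    have hFB : Disjoint F B := by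
      rw [disjoint_left]; intro v hv hv'; exact ((memB v).1 hv').1 hv
    obtain ⟨R, hR⟩ : ∃ R, R = F ∩ F' := ⟨_, rfl⟩
    let Sσ : (R → ZMod 2) → Set (Fin n → ZMod 2) := fun σ => {s | s ∈ S' ∧ ∀ u : R, core0 s u = σ u}
    have hcov : ssum C S' = ⋃ σ, ssum C (Sσ σ) := by
      ext z
      rw [Set.mem_iUnion]
      constructor
      · rintro ⟨c, hc, s, hs, rfl⟩
        exact ⟨fun u => core0 s u, c, hc, s, ⟨hs, fun u => rfl⟩, rfl⟩
      · rintro ⟨σ, c, hc, s, hs, rfl⟩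
        exact ⟨c, hc, s, hs.1, rfl⟩
    have hpart : ∀ σ, ((ssum C (Sσ σ)).ncard : ℝ) ≤ δ * (VC G).ncard := by
      intro σ
      rcases C.eq_empty_or_nonempty with hCe | ⟨c0, hc0⟩
      · have : ssum C (Sσ σ) = ∅ := by
          rw [hCe]
          ext z
          constructor
          · rintro ⟨u, hu, -⟩; exact absurd hu (Set.notMem_empty _)
          · intro h; exact absurd h (Set.notMem_empty _)
        rw [this, Set.ncard_empty, Nat.cast_zero]
        positivity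
      refine leaf_case2 (l0 := l0) hcΛ D hD X k b m hm hX F B hBd hFB hBc (by omega) h2 cl ζ W f
        e U hU hfU ?_ ?_ ?_ ?_ k0 t ht δ hδ0 hδ
      · intro c hc y hy0 hy1
        refine hCS c hc y ?_
        rw [hS']; exact ⟨(hf y).1 hy0, hy1⟩
      · intro s hs
        have := hs.1
        rw [hS'] at this
        exact ⟨(hf s).2 this.1, this.2⟩
      · intro c hc c' hc' v hv
        rw [map_add, Pi.add_apply]
        by_contra hne
        apply hv
        rw [memF]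
        refine ⟨_, ⟨c, hc, rfl⟩, _, ⟨c', hc', rfl⟩, fun h => hne ?_⟩
        rw [h]; exact zmod2_add_self _
      · intro s hs s' hs' v hv
        rcases hv with hv | hv
        · rw [map_add, Pi.add_apply]
          by_cases hv' : v ∈ F'
          · have hvR : v ∈ R := by rw [hR]; exact mem_inter.2 ⟨hv, hv'⟩
            rw [hs.2 ⟨v, hvR⟩, hs'.2 ⟨v, hvR⟩]
            exact zmod2_add_self _
          · by_contra hne
            apply hv'
            rw [memF']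
            refine ⟨_, ⟨s, hs.1, rfl⟩, _, ⟨s', hs'.1, rfl⟩, fun h => hne ?_⟩
            rw [h]; exact zmod2_add_self _
        · have e1 := hone v hv c0 hc0 s hs.1
          have e2 := hone v hv c0 hc0 s' hs'.1
          simp only [map_add, Pi.add_apply] at e1 e2 ⊢
          have h3 : ∀ a b c l : ZMod 2, c + a + l = 1 → c + b + l = 1 → a + b = 0 := by decide
          exact h3 _ _ _ _ e1 e2
    rw [hcov]
    refine (ncard_iUnion_le _ _ hpart).trans ?_
    rw [Fintype.card_fun, ZMod.card, Fintype.card_coe, ← mul_assoc]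
    refine mul_le_mul_of_nonneg_right (le_trans ?_ hl2) (Nat.cast_nonneg _)
    refine mul_le_mul_of_nonneg_right ?_ hδ0
    push_cast
    exact pow_le_pow_right₀ (by norm_num) (by rw [hR]; exact hTc)

end

end Pool.Agent.Dichotomy
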