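import Mathlib

/-!
A Boolean relation that is not affine has a binary minor (fix some coordinates, project away
some coordinates) with exactly three elements.
-/

namespace Pool.Agent.Dichotomy

open Finset

set_option linter.unusedSectionVars false

variable {ι : Type*} [Fintype ι] [DecidableEq ι]

/-- Closed under `x + y + z`: an affine subspace or the empty set. -/
def IsAffine {ι : Type*} (R : Set (ι → ZMod 2)) : Prop :=
  ∀ x ∈ R, ∀ y ∈ R, ∀ z ∈ R, x + y + z ∈ R

/-- The minor of `R` that keeps the coordinates in `T`, fixes those in `S` to the values `ρ`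
and projects away the others. -/
def Min (R : Set (ι → ZMod 2)) (T S : Finset ι) (ρ : ι → ZMod 2) : Set (ι → ZMod 2) :=
  {x | ∃ y ∈ R, (∀ k ∈ S, y k = ρ k) ∧ ∀ k ∈ T, y k = x k}

theorem Min_congr {R : Set (ι → ZMod 2)} {T S : Finset ι} {ρ x x' : ι → ZMod 2}
    (h : ∀ k ∈ T, x k = x' k) (hx : x ∈ Min R T S ρ) : x' ∈ Min R T S ρ := by
  obtain ⟨y, hy, hS, hT⟩ := hx
  exact ⟨y, hy, hS, fun k hk => (hT k hk).trans (h k hk)⟩

theorem Min_project {R : Set (ι → ZMod 2)} {T S : Finset ι} {ρ x : ι → ZMod 2} {l : ι} :
    x ∈ Min R (T.erase l) S ρ → ∃ c, Function.update x l c ∈ Min R T S ρ := by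
  rintro ⟨y, hy, hS, hT⟩
  refine ⟨y l, y, hy, hS, fun k hk => ?_⟩
  by_cases hkl : k = l
  · subst hkl; simp
  · rw [Function.update_of_ne hkl]
    exact hT k (Finset.mem_erase.2 ⟨hkl, hk⟩)

theorem Min_project' {R : Set (ι → ZMod 2)} {T S : Finset ι} {ρ x : ι → ZMod 2} {l : ι}
    (hx : x ∈ Min R T S ρ) : x ∈ Min R (T.erase l) S ρ := by
  obtain ⟨y, hy, hS, hT⟩ := hx
  exact ⟨y, hy, hS, fun k hk => hT k (Finset.mem_of_mem_erase hk)⟩

theorem Min_fix {R : Set (ι → ZMod 2)} {T S : Finset ι} {ρ x : ι → ZMod 2} {l : ι} {c : ZMod 2}
    (hl : l ∈ T) (hd : Disjoint T S) (hc : x l = c) :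
    x ∈ Min R (T.erase l) (insert l S) (Function.update ρ l c) ↔ x ∈ Min R T S ρ := by
  constructor
  · rintro ⟨y, hy, hS, hT⟩
    refine ⟨y, hy, fun k hk => ?_, fun k hk => ?_⟩
    · have hkl : k ≠ l := by
        rintro rfl; exact (Finset.disjoint_left.1 hd hl) hk
      have := hS k (Finset.mem_insert_of_mem hk)
      rwa [Function.update_of_ne hkl] at this
    · by_cases hkl : k = l
      · subst hkl
        have := hS k (Finset.mem_insert_self _ _)
        rw [Function.update_self] at this
        rw [this, hc]
      · exact hT k (Finset.mem_erase.2 ⟨hkl, hk⟩)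
  · rintro ⟨y, hy, hS, hT⟩
    refine ⟨y, hy, fun k hk => ?_, fun k hk => hT k (Finset.mem_of_mem_erase hk)⟩
    by_cases hkl : k = l
    · rw [hkl, Function.update_self, hT _ hl, hc]
    · rw [Function.update_of_ne hkl]
      exact hS k ((Finset.mem_insert.1 hk).resolve_left hkl)

theorem zmod2_add_self (a : ZMod 2) : a + a = 0 := by
  revert a; decide

theorem pi_add_self (a : ι → ZMod 2) : a + a = 0 := by
  funext i; exact zmod2_add_self _

/-- The core of the argument: if all one step minors are affine and there are at least three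
coordinates, the relation is affine. -/
theorem affine_of_minors {R : Set (ι → ZMod 2)} {T S : Finset ι} {ρ : ι → ZMod 2}
    (hd : Disjoint T S) (hT : 3 ≤ T.card)
    (hproj : ∀ l ∈ T, IsAffine (Min R (T.erase l) S ρ))
    (hfix : ∀ l ∈ T, ∀ c, IsAffine (Min R (T.erase l) (insert l S) (Function.update ρ l c))) :
    IsAffine (Min R T S ρ) := by
  classical
  intro x hx y hy z hz
  by_contra hs
  set s := x + y + z with hsdef
  set R' := Min R T S ρ with hR'
  let e : ι → (ι → ZMod 2) := fun i => Pi.single i 1
  -- slices are affine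
  have slice : ∀ l ∈ T, ∀ c, ∀ u ∈ R', ∀ v ∈ R', ∀ w ∈ R', u l = c → v l = c → w l = c →
      u + v + w ∈ R' := by
    intro l hl c u hu v hv w hw h1 h2 h3
    have := hfix l hl c u ((Min_fix hl hd h1).2 hu) v ((Min_fix hl hd h2).2 hv) w
      ((Min_fix hl hd h3).2 hw)
    refine (Min_fix hl hd ?_).1 this
    simp only [Pi.add_apply, h1, h2, h3]
    rw [zmod2_add_self, zero_add]
  have upd : ∀ (u : ι → ZMod 2) (i : ι) (c : ZMod 2), Function.update u i c = u ∨
      Function.update u i c = u + e i := by
    intro u i c
    by_cases hc : c = u i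
    · left; rw [hc]; exact Function.update_eq_self i u
    · right
      have h1 : c = u i + 1 := by
        revert hc; generalize u i = a; revert a c; decide
      funext k
      by_cases hk : k = i
      · subst hk; simp [e, h1]
      · simp [e, hk]
  -- (1)
  have h1 : ∀ i ∈ T, s + e i ∈ R' := by
    intro i hi
    have := hproj i hi x (Min_project' hx) y (Min_project' hy) z (Min_project' hz)
    obtain ⟨c, hc⟩ := Min_project this
    rcases upd s i c with h | h
    · rw [← hsdef, h] at hc; exact absurd hc hs
    · rw [← hsdef, h] at hc; exact hc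
  have eij : ∀ i j : ι, i ≠ j → e i j = 0 := by
    intro i j h; simp [e, Pi.single_apply, h.symm]
  have eii : ∀ i, e i i = 1 := by intro i; simp [e]
  -- (2)
  have h2 : ∀ i ∈ T, ∀ j ∈ T, i ≠ j → s + e i + e j ∉ R' := by
    intro i hi j hj hij hcon
    obtain ⟨k, hk, hki, hkj⟩ : ∃ k ∈ T, k ≠ i ∧ k ≠ j := by
      by_contra hno
      push Not at hno
      have : T ⊆ {i, j} := by
        intro k hk
        rw [Finset.mem_insert, Finset.mem_singleton]
        by_cases hki : k = i
        · exact Or.inl hki
        · exact Or.inr (hno k hk hki)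
      have := (Finset.card_le_card this).trans (Finset.card_le_two)
      omega
    have := slice k hk (s k) (s + e i) (h1 i hi) (s + e j) (h1 j hj) (s + e i + e j) hcon
      (by simp [eij i k hki.symm]) (by simp [eij j k hkj.symm])
      (by simp [eij i k hki.symm, eij j k hkj.symm])
    apply hs
    have heq : s + e i + (s + e j) + (s + e i + e j) = s := by
      have : s + e i + (s + e j) + (s + e i + e j) = s + (s + s) + (e i + e i) + (e j + e j) := by
        abel
      rw [this, pi_add_self, pi_add_self, pi_add_self]; simp
    rwa [heq] at this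
  -- (3)
  have h3 : ∀ i ∈ T, ∀ j ∈ T, ∀ k ∈ T, i ≠ j → i ≠ k → j ≠ k → s + e i + e j + e k ∈ R' := by
    intro i hi j hj k hk hij hik hjk
    have hsk : s ∈ Min R (T.erase k) S ρ := by
      refine Min_congr ?_ (Min_project' (l := k) (h1 k hk))
      intro m hm
      have : k ≠ m := (Finset.ne_of_mem_erase hm).symm
      simp [eij k m this]
    have := hproj k hk s hsk (s + e i) (Min_project' (h1 i hi)) (s + e j) (Min_project' (h1 j hj))
    have heq : s + (s + e i) + (s + e j) = s + e i + e j := by
      have : s + (s + e i) + (s + e j) = s + (s + s) + e i + e j := by abel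
      rw [this, pi_add_self]; simp
    rw [heq] at this
    obtain ⟨c, hc⟩ := Min_project this
    rcases upd (s + e i + e j) k c with h | h
    · rw [h] at hc; exact absurd hc (h2 i hi j hj hij)
    · rw [h] at hc; exact hc
  -- (4)
  have h4 : ∀ n : ℕ, ∀ u : ι → ZMod 2, (T.filter fun k => u k ≠ s k).card = n →
      (u ∈ R' ↔ n % 2 = 1) := by
    intro n
    induction n using Nat.strong_induction_on with
    | _ n ih =>
      intro u hu
      set D := T.filter fun k => u k ≠ s k with hD
      have memD : ∀ k, k ∈ D ↔ k ∈ T ∧ u k ≠ s k := by intro k; simp [hD]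
      have uval : ∀ k ∈ D, u k = s k + 1 := by
        intro k hk
        have := ((memD k).1 hk).2
        revert this; generalize u k = a; generalize s k = b; revert a b; decide
      have uval' : ∀ k ∈ T, k ∉ D → u k = s k := by
        intro k hk hkD
        by_contra hne
        exact hkD ((memD k).2 ⟨hk, hne⟩)
      rcases Nat.lt_or_ge n 3 with hn | hn
      · interval_cases n
        · -- D empty
          have hDe : D = ∅ := Finset.card_eq_zero.1 hu
          have : u ∉ R' := by
            intro hcon
            apply hs
            refine Min_congr ?_ hcon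
            intro k hk
            exact uval' k hk (by rw [hDe]; simp)
          simp [this]
        · obtain ⟨i, hi⟩ := Finset.card_eq_one.1 hu
          have hiD : i ∈ D := by rw [hi]; simp
          have : u ∈ R' := by
            refine Min_congr ?_ (h1 i ((memD i).1 hiD).1)
            intro k hk
            by_cases hki : k = i
            · subst hki; simp [eii, uval k hiD]
            · rw [uval' k hk (by rw [hi]; simp [hki])]
              simp [eij i k (Ne.symm hki)]
          simp [this]
        · obtain ⟨i, j, hij, hi⟩ := Finset.card_eq_two.1 hu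
          have hiD : i ∈ D := by rw [hi]; simp
          have hjD : j ∈ D := by rw [hi]; simp
          have : u ∉ R' := by
            intro hcon
            refine h2 i ((memD i).1 hiD).1 j ((memD j).1 hjD).1 hij (Min_congr ?_ hcon)
            intro k hk
            by_cases hki : k = i
            · subst hki; simp [eii, uval k hiD, eij j k hij.symm]
            · by_cases hkj : k = j
              · subst hkj; simp [eii, uval k hjD, eij i k hij]
              · rw [uval' k hk (by rw [hi]; simp [hki, hkj])]
                simp [eij i k (Ne.symm hki), eij j k (Ne.symm hkj)]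
          simp [this]
      · -- at least three differences
        obtain ⟨l, i, j, hlD, hiD, hjD, hli, hlj, hij⟩ : ∃ l i j, l ∈ D ∧ i ∈ D ∧ j ∈ D ∧
            l ≠ i ∧ l ≠ j ∧ i ≠ j := by
          have : 2 < D.card := by omega
          obtain ⟨a, b, c, ha, hb, hc, hab, hac, hbc⟩ := Finset.two_lt_card_iff.1 this
          exact ⟨a, b, c, ha, hb, hc, hab, hac, hbc⟩
        have hlT := ((memD l).1 hlD).1
        have hiT := ((memD i).1 hiD).1
        have hjT := ((memD j).1 hjD).1
        set u' := u + e i + e j with hu'
        have hD' : (T.filter fun k => u' k ≠ s k) = (D.erase i).erase j := by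
          ext k
          simp only [Finset.mem_filter, Finset.mem_erase, memD]
          by_cases hki : k = i
          · subst hki
            have : u' k = s k := by
              simp only [hu', Pi.add_apply, eii, eij j k hij.symm, uval k hiD]
              rw [add_assoc (s k), zmod2_add_self]; simp
            simp [this]
          · by_cases hkj : k = j
            · subst hkj
              have : u' k = s k := by
                simp only [hu', Pi.add_apply, eii, eij i k hij, uval k hjD]
                rw [add_zero, add_assoc (s k), zmod2_add_self]; simp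
              simp [this]
            · have : u' k = u k := by
                simp [hu', eij i k (Ne.symm hki), eij j k (Ne.symm hkj)]
              simp [this, hki, hkj]
        have hcard : (T.filter fun k => u' k ≠ s k).card = n - 2 := by
          rw [hD', Finset.card_erase_of_mem (Finset.mem_erase.2 ⟨hij.symm, hjD⟩),
            Finset.card_erase_of_mem hiD, hu]
          omega
        have hih := ih (n - 2) (by omega) u' hcard
        have hsl : s + e l ∈ R' := h1 l hlT
        have hsl3 : s + e l + e i + e j ∈ R' := h3 l hlT i hiT j hjT hli hlj hij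
        have hul : u l = s l + 1 := uval l hlD
        have key : u ∈ R' ↔ u' ∈ R' := by
          constructor
          · intro h
            have := slice l hlT (s l + 1) u h (s + e l) hsl (s + e l + e i + e j) hsl3 hul
              (by simp [eii]) (by simp [eii, eij i l hli.symm, eij j l hlj.symm])
            have heq : u + (s + e l) + (s + e l + e i + e j) = u' := by
              have : u + (s + e l) + (s + e l + e i + e j)
                  = u + (s + s) + (e l + e l) + e i + e j := by abel
              rw [this, pi_add_self, pi_add_self]; simp [hu']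
            rwa [heq] at this
          · intro h
            have hul' : u' l = s l + 1 := by
              simp [hu', hul, eij i l hli.symm, eij j l hlj.symm]
            have := slice l hlT (s l + 1) u' h (s + e l) hsl (s + e l + e i + e j) hsl3 hul'
              (by simp [eii]) (by simp [eii, eij i l hli.symm, eij j l hlj.symm])
            have heq : u' + (s + e l) + (s + e l + e i + e j) = u := by
              have : u' + (s + e l) + (s + e l + e i + e j)
                  = u + (s + s) + (e l + e l) + (e i + e i) + (e j + e j) := by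
                rw [hu']; abel
              rw [this, pi_add_self, pi_add_self, pi_add_self, pi_add_self]; simp
            rwa [heq] at this
        rw [key, hih]
        omega
  -- conclusion
  have hodd : ∀ u : ι → ZMod 2, u ∈ R' ↔ ∑ k ∈ T, (u k + s k) = 1 := by
    intro u
    rw [h4 _ u rfl]
    have hsum : ∑ k ∈ T, (u k + s k) = ((T.filter fun k => u k ≠ s k).card : ZMod 2) := by
      rw [Finset.card_filter, Nat.cast_sum]
      refine Finset.sum_congr rfl fun k _ => ?_
      generalize u k = a; generalize s k = b; revert a b; decide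
    rw [hsum]
    generalize (T.filter fun k => u k ≠ s k).card = n
    rw [show (1 : ZMod 2) = ((1 : ℕ) : ZMod 2) by simp, ZMod.natCast_eq_natCast_iff']
  apply hs
  rw [hodd]
  have hx' := (hodd x).1 hx
  have hy' := (hodd y).1 hy
  have hz' := (hodd z).1 hz
  have : ∑ k ∈ T, (s k + s k) = ∑ k ∈ T, (x k + s k) + ∑ k ∈ T, (y k + s k)
      + ∑ k ∈ T, (z k + s k) := by
    rw [← Finset.sum_add_distrib, ← Finset.sum_add_distrib]
    refine Finset.sum_congr rfl fun k _ => ?_
    have : s k = x k + y k + z k := by simp [hsdef]
    rw [this]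
    generalize x k = a; generalize y k = b; generalize z k = c
    revert a b c; decide
  rw [this, hx', hy', hz']
  decide

theorem three_cases (a b x1 x2 y1 y2 z1 z2 : ZMod 2)
    (h : ¬ (a = x1 + y1 + z1 ∧ b = x2 + y2 + z2)) (h1 : ¬ (x1 = y1 ∧ x2 = y2))
    (h2 : ¬ (x1 = z1 ∧ x2 = z2)) (h3 : ¬ (y1 = z1 ∧ y2 = z2)) :
    (a = x1 ∧ b = x2) ∨ (a = y1 ∧ b = y2) ∨ (a = z1 ∧ b = z2) := by
  have key : ∀ x1 x2 y1 y2 : ZMod 2, ¬ (x1 = y1 ∧ x2 = y2) →
      ∀ z1 z2 : ZMod 2, ¬ (x1 = z1 ∧ x2 = z2) → ¬ (y1 = z1 ∧ y2 = z2) →
      ∀ a b : ZMod 2, ¬ (a = x1 + y1 + z1 ∧ b = x2 + y2 + z2) →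
        (a = x1 ∧ b = x2) ∨ (a = y1 ∧ b = y2) ∨ (a = z1 ∧ b = z2) := by
    intro x1 x2 y1 y2
    revert x1 x2 y1 y2
    decide
  exact key x1 x2 y1 y2 h1 z1 z2 h2 h3 a b h

/-- **Lemma P.**  A relation that is not affine has a binary minor with exactly three
elements. -/
theorem exists_minor {R : Set (ι → ZMod 2)} (hR : ¬ IsAffine R) :
    ∃ i j : ι, i ≠ j ∧ ∃ S : Finset ι, i ∉ S ∧ j ∉ S ∧ ∃ ρ : ι → ZMod 2, ∃ α β : ZMod 2,
      ∀ a b : ZMod 2, (∃ y ∈ R, (∀ k ∈ S, y k = ρ k) ∧ y i = a ∧ y j = b) ↔
        ¬ (a = α ∧ b = β) := by
  classical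
  let P : ℕ → Prop := fun n => ∃ T S : Finset ι, ∃ ρ : ι → ZMod 2, T.card = n ∧ Disjoint T S ∧
    ¬ IsAffine (Min R T S ρ)
  have hP : ∃ n, P n := by
    refine ⟨_, Finset.univ, ∅, 0, rfl, by simp, ?_⟩
    intro h
    apply hR
    have : Min R Finset.univ ∅ 0 = R := by
      ext x
      constructor
      · rintro ⟨y, hy, -, hT⟩
        have : y = x := funext fun k => hT k (Finset.mem_univ k)
        rwa [← this]
      · intro hx; exact ⟨x, hx, by simp, by simp⟩
    rwa [this] at h
  obtain ⟨T, S, ρ, hTc, hd, hna⟩ := Nat.find_spec hP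
  have hmin : ∀ (T' S' : Finset ι) (ρ' : ι → ZMod 2), T'.card < Nat.find hP → Disjoint T' S' →
      IsAffine (Min R T' S' ρ') := by
    intro T' S' ρ' hc hd'
    by_contra hcon
    exact Nat.find_min hP hc ⟨T', S', ρ', rfl, hd', hcon⟩
  have hlt3 : T.card < 3 := by
    by_contra h3
    push Not at h3
    apply hna
    refine affine_of_minors hd h3 ?_ ?_
    · intro l hl
      refine hmin _ _ _ ?_ (hd.mono_left (Finset.erase_subset _ _))
      rw [Finset.card_erase_of_mem hl, ← hTc]
      omega
    · intro l hl c
      refine hmin _ _ _ ?_ ?_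
      · rw [Finset.card_erase_of_mem hl, ← hTc]
        omega
      · rw [Finset.disjoint_insert_right]
        exact ⟨by simp, hd.mono_left (Finset.erase_subset _ _)⟩
  unfold IsAffine at hna
  push Not at hna
  obtain ⟨x, hx, y, hy, z, hz, hs⟩ := hna
  -- for every choice of values the membership only depends on the coordinates in T
  have hone : ∀ k ∈ T, ¬ (∀ m ∈ T, m = k) := by
    intro k hk hall
    apply hs
    have h2 : ∀ a b c : ZMod 2, a + b + c = a ∨ a + b + c = b ∨ a + b + c = c := by decide
    rcases h2 (x k) (y k) (z k) with h | h | h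
    · refine Min_congr ?_ hx; intro m hm; rw [hall m hm]; exact h.symm
    · refine Min_congr ?_ hy; intro m hm; rw [hall m hm]; exact h.symm
    · refine Min_congr ?_ hz; intro m hm; rw [hall m hm]; exact h.symm
  have hT2 : T.card = 2 := by
    have h0 : T.card ≠ 0 := by
      intro h
      rw [Finset.card_eq_zero] at h
      apply hs
      refine Min_congr ?_ hx
      intro m hm; rw [h] at hm; simp at hm
    have h1 : T.card ≠ 1 := by
      intro h
      obtain ⟨k, hk⟩ := Finset.card_eq_one.1 h
      exact hone k (by rw [hk]; simp) (by intro m hm; rw [hk] at hm; simpa using hm)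
    omega
  obtain ⟨i, j, hij, hTij⟩ := Finset.card_eq_two.1 hT2
  have hiT : i ∈ T := by rw [hTij]; simp
  have hjT : j ∈ T := by rw [hTij]; simp
  refine ⟨i, j, hij, S, Finset.disjoint_left.1 hd hiT, Finset.disjoint_left.1 hd hjT, ρ,
    (x + y + z) i, (x + y + z) j, ?_⟩
  -- translate to the two coordinates
  have htr : ∀ w : ι → ZMod 2, w ∈ Min R T S ρ ↔
      ∃ v ∈ R, (∀ k ∈ S, v k = ρ k) ∧ v i = w i ∧ v j = w j := by
    intro w
    constructor
    · rintro ⟨v, hv, hS, hT⟩
      exact ⟨v, hv, hS, hT i hiT, hT j hjT⟩
    · rintro ⟨v, hv, hS, h1, h2⟩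
      refine ⟨v, hv, hS, ?_⟩
      intro k hk
      rw [hTij] at hk
      rcases Finset.mem_insert.1 hk with rfl | hk
      · exact h1
      · rw [Finset.mem_singleton] at hk; subst hk; exact h2
  intro a b
  let w : ι → ZMod 2 := fun k => if k = i then a else b
  have hwi : w i = a := by simp [w]
  have hwj : w j = b := by simp [w, hij.symm]
  have hw := htr w
  rw [hwi, hwj] at hw
  rw [← hw]
  constructor
  · rintro hmem ⟨ha, hb⟩
    apply hs
    refine Min_congr ?_ hmem
    intro k hk
    rw [hTij] at hk
    rcases Finset.mem_insert.1 hk with rfl | hk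
    · rw [hwi, ha]
    · rw [Finset.mem_singleton] at hk; subst hk; rw [hwj, hb]
  · intro hne
    -- (a,b) is one of the three values of x, y, z
    have hcases : (a = x i ∧ b = x j) ∨ (a = y i ∧ b = y j) ∨ (a = z i ∧ b = z j) := by
      -- the three points are pairwise different at (i,j)
      have hxy : ¬ (x i = y i ∧ x j = y j) := by
        rintro ⟨h1, h2⟩
        apply hs
        refine Min_congr ?_ hz
        intro k hk
        rw [hTij] at hk
        rcases Finset.mem_insert.1 hk with rfl | hk
        · simp [h1, zmod2_add_self]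
        · rw [Finset.mem_singleton] at hk; subst hk; simp [h2, zmod2_add_self]
      have hxz : ¬ (x i = z i ∧ x j = z j) := by
        rintro ⟨h1, h2⟩
        apply hs
        refine Min_congr ?_ hy
        intro k hk
        have hq : ∀ a b : ZMod 2, b = a + b + a := by decide
        rw [hTij] at hk
        rcases Finset.mem_insert.1 hk with rfl | hk
        · simp only [Pi.add_apply, h1]; exact hq _ _
        · rw [Finset.mem_singleton] at hk; subst hk; simp only [Pi.add_apply, h2]; exact hq _ _
      have hyz : ¬ (y i = z i ∧ y j = z j) := by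
        rintro ⟨h1, h2⟩
        apply hs
        refine Min_congr ?_ hx
        intro k hk
        have hq : ∀ a b : ZMod 2, b = b + a + a := by decide
        rw [hTij] at hk
        rcases Finset.mem_insert.1 hk with rfl | hk
        · simp only [Pi.add_apply, h1]; exact hq _ _
        · rw [Finset.mem_singleton] at hk; subst hk; simp only [Pi.add_apply, h2]; exact hq _ _
      simp only [Pi.add_apply] at hne
      exact three_cases _ _ _ _ _ _ _ _ hne hxy hxz hyz
    rcases hcases with ⟨h1, h2⟩ | ⟨h1, h2⟩ | ⟨h1, h2⟩
    · refine Min_congr ?_ hx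
      intro k hk
      rw [hTij] at hk
      rcases Finset.mem_insert.1 hk with rfl | hk
      · rw [hwi, h1]
      · rw [Finset.mem_singleton] at hk; subst hk; rw [hwj, h2]
    · refine Min_congr ?_ hy
      intro k hk
      rw [hTij] at hk
      rcases Finset.mem_insert.1 hk with rfl | hk
      · rw [hwi, h1]
      · rw [Finset.mem_singleton] at hk; subst hk; rw [hwj, h2]
    · refine Min_congr ?_ hz
      intro k hk
      rw [hTij] at hk
      rcases Finset.mem_insert.1 hk with rfl | hk
      · rw [hwi, h1]
      · rw [Finset.mem_singleton] at hk; subst hk; rw [hwj, h2]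

end Pool.Agent.Dichotomy
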