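import Pool.Agent.Helper91.Dich.Count

/-!
For two linear maps `P`, `Q` of large rank with `P + Q = 1`, the vector `P x + Q y` is a vertex
cover only for an exponentially small fraction of the pairs `x`, `y` of vertex covers.
-/

namespace Pool.Agent.Dichotomy

open Finset Module

set_option linter.unusedSectionVars false

theorem edge4 : ∀ ws wt us ut vs vt : ZMod 2, (ws = 1 ∨ wt = 1) → (ws + us = 1 ∨ wt + ut = 1) →
    (ws + vs = 1 ∨ wt + vt = 1) → (ws + us + vs = 1 ∨ wt + ut + vt = 1) →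
    (us = 0 ∧ ut = 0) ∨ (vs = 0 ∧ vt = 0) ∨ (us = vs ∧ ut = vt) := by decide

theorem z2a : ∀ a b c : ZMod 2, a + b + (c + a) = c + b := by decide
theorem z2b : ∀ a b d : ZMod 2, a + b + (d + b) = a + d := by decide
theorem z2c : ∀ a b c d : ZMod 2, a + b + (c + a) + (d + b) = c + d := by decide
theorem z2n : ∀ a : ZMod 2, a ≠ 0 → a = 1 := by decide

section

variable {V : Type*} [Fintype V] [DecidableEq V]

theorem edge_dichotomy (G : SimpleGraph V) (P Q : (V → ZMod 2) →ₗ[ZMod 2] (V → ZMod 2))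
    {x0 x1 y0 y1 : V → ZMod 2} (h00 : P x0 + Q y0 ∈ VC G) (h10 : P x1 + Q y0 ∈ VC G)
    (h01 : P x0 + Q y1 ∈ VC G) (h11 : P x1 + Q y1 ∈ VC G) {s t : V} (hst : G.Adj s t) :
    (P (x1 + x0) s = 0 ∧ P (x1 + x0) t = 0) ∨ (Q (y1 + y0) s = 0 ∧ Q (y1 + y0) t = 0) ∨
      (P (x1 + x0) s = Q (y1 + y0) s ∧ P (x1 + x0) t = Q (y1 + y0) t) := by
  have a1 := h00 s t hst
  have a2 := h10 s t hst
  have a3 := h01 s t hst
  have a4 := h11 s t hst
  simp only [Pi.add_apply] at a1 a2 a3 a4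
  simp only [map_add, Pi.add_apply]
  refine edge4 (P x0 s + Q y0 s) (P x0 t + Q y0 t) _ _ _ _ a1 ?_ ?_ ?_
  · rw [z2a, z2a]; exact a2
  · rw [z2b, z2b]; exact a3
  · rw [z2c, z2c]; exact a4

/-- The common zeros of a family. -/
def Tz {k : ℕ} (P : (V → ZMod 2) →ₗ[ZMod 2] (V → ZMod 2)) (τ : Fin (k + 1) → V → ZMod 2) :
    Finset V := by
  classical exact Finset.univ.filter fun s => ∀ i, P (τ i + τ 0) s = 0

theorem mem_Tz {k : ℕ} {P : (V → ZMod 2) →ₗ[ZMod 2] (V → ZMod 2)} {τ : Fin (k + 1) → V → ZMod 2}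
    {s : V} : s ∈ Tz P τ ↔ ∀ i, P (τ i + τ 0) s = 0 := by
  classical
  unfold Tz
  simp

theorem mem_LT_of_all (G : SimpleGraph V) (P Q : (V → ZMod 2) →ₗ[ZMod 2] (V → ZMod 2)) {k : ℕ}
    {τ : Fin (k + 1) → V → ZMod 2} {y0 y1 : V → ZMod 2}
    (h : ∀ i, P (τ i) + Q y0 ∈ VC G ∧ P (τ i) + Q y1 ∈ VC G) :
    Q (y1 + y0) ∈ LT G (Tz P τ) := by
  have key : ∀ i s t, G.Adj s t → _ := fun i s t hst =>
    edge_dichotomy G P Q (h 0).1 (h i).1 (h 0).2 (h i).2 hst
  refine ⟨fun s t hst hs ht => ?_, fun s t hst hs ht => ?_⟩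
  · rw [mem_Tz] at hs ht
    push Not at hs
    obtain ⟨i, hi⟩ := hs
    rcases key i s t hst with h1 | h1 | h1
    · exact absurd h1.1 hi
    · exact h1.2
    · rw [← h1.2]; exact ht i
  · rw [mem_Tz] at hs ht
    push Not at hs ht
    obtain ⟨i, hi⟩ := hs
    obtain ⟨j, hj⟩ := ht
    rcases key i s t hst with h1 | h1 | h1
    · exact absurd h1.1 hi
    · rw [h1.1, h1.2]
    · rcases key j s t hst with h2 | h2 | h2
      · exact absurd h2.2 hj
      · rw [h2.1, h2.2]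
      · rw [← h1.1, ← h2.2, z2n _ hi, z2n _ hj]

variable (G : SimpleGraph V) (D : ℕ) (hD : ∀ v, (G.neighborSet v).ncard ≤ D)

/-- The vertex covers as a finite set. -/
noncomputable def VCf : Finset (V → ZMod 2) := (Set.toFinite (VC G)).toFinset

theorem mem_VCf {x : V → ZMod 2} : x ∈ VCf G ↔ x ∈ VC G := by
  unfold VCf; simp

theorem card_VCf : (VCf G).card = (VC G).ncard := by
  unfold VCf
  rw [Set.ncard_eq_toFinset_card (VC G) (Set.toFinite _)]

include hD in
/-- Anti-concentration in terms of finite sets. -/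
theorem anticonc_f [DecidableEq (V → ZMod 2)] (M : Submodule (ZMod 2) (V → ZMod 2))
    [DecidablePred fun x => x ∈ M] (c : V → ZMod 2) (t : ℕ)
    (ht : t ≤ (Fintype.card V - finrank (ZMod 2) M) / (D + 1)) :
    (((VCf G).filter fun x => x + c ∈ M).card : ℝ) ≤
      (2 ^ (D + 1) / (2 ^ (D + 1) + 1)) ^ t * (VCf G).card := by
  have h1 := anticonc G D hD M c
  have h2 : ((VCf G).filter fun x => x + c ∈ M).card =
      ({x | x ∈ VC G ∧ x + c ∈ M} : Set (V → ZMod 2)).ncard := by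
    rw [← Set.ncard_coe_finset]
    congr 1
    ext x
    simp [mem_VCf]
  have hρ0 : (0 : ℝ) ≤ 2 ^ (D + 1) / (2 ^ (D + 1) + 1) := by positivity
  have hρ1 : (2 : ℝ) ^ (D + 1) / (2 ^ (D + 1) + 1) ≤ 1 := by
    rw [div_le_one (by positivity)]; linarith
  rw [h2, card_VCf]
  refine h1.trans ?_
  exact mul_le_mul_of_nonneg_right (pow_le_pow_of_le_one hρ0 hρ1 ht) (Nat.cast_nonneg _)

include hD in
/-- The tuples that vanish on a set `T` on which `P` has large rank are few. -/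
theorem few_tuples [DecidableEq (V → ZMod 2)] (M : Submodule (ZMod 2) (V → ZMod 2))
    [DecidablePred fun x => x ∈ M] (t k : ℕ)
    (ht : t ≤ (Fintype.card V - finrank (ZMod 2) M) / (D + 1)) :
    (((Fintype.piFinset fun _ : Fin (k + 1) => VCf G).filter
      fun τ => ∀ i, τ i + τ 0 ∈ M).card : ℝ) ≤
      (VCf G).card * ((2 ^ (D + 1) / (2 ^ (D + 1) + 1)) ^ t * (VCf G).card) ^ k := by
  have h1 : ((Fintype.piFinset fun _ : Fin (k + 1) => VCf G).filter
      fun τ => ∀ i, τ i + τ 0 ∈ M).card ≤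
      ((VCf G).sigma fun c => Fintype.piFinset fun _ : Fin k =>
        (VCf G).filter fun x => x + c ∈ M).card := by
    refine Finset.card_le_card_of_injOn (fun τ => ⟨τ 0, fun i => τ i.succ⟩) ?_ ?_
    · intro τ hτ
      rw [Finset.mem_coe, mem_filter, Fintype.mem_piFinset] at hτ
      rw [Finset.mem_coe, mem_sigma]
      refine ⟨hτ.1 0, ?_⟩
      rw [Fintype.mem_piFinset]
      intro i
      exact mem_filter.2 ⟨hτ.1 _, hτ.2 _⟩
    · intro τ _ τ' _ h
      have h0 : τ 0 = τ' 0 := congrArg Sigma.fst h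
      have h2 : (fun i : Fin k => τ i.succ) = fun i => τ' i.succ := by
        have := (Sigma.mk.inj h).2
        exact eq_of_heq this
      funext i
      refine Fin.cases h0 (fun j => congrFun h2 j) i
  rw [card_sigma] at h1
  have h2 : (((Fintype.piFinset fun _ : Fin (k + 1) => VCf G).filter
      fun τ => ∀ i, τ i + τ 0 ∈ M).card : ℝ) ≤ ∑ c ∈ VCf G,
      ((Fintype.piFinset fun _ : Fin k => (VCf G).filter fun x => x + c ∈ M).card : ℝ) := by
    exact_mod_cast h1
  refine h2.trans ?_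
  have h3 : ∀ c ∈ VCf G, ((Fintype.piFinset fun _ : Fin k =>
      (VCf G).filter fun x => x + c ∈ M).card : ℝ) ≤
      ((2 ^ (D + 1) / (2 ^ (D + 1) + 1)) ^ t * (VCf G).card) ^ k := by
    intro c _
    rw [Fintype.card_piFinset, Finset.prod_const, Finset.card_univ, Fintype.card_fin]
    push_cast
    exact pow_le_pow_left₀ (Nat.cast_nonneg _) (anticonc_f G D hD M c t ht) _
  refine (Finset.sum_le_card_nsmul _ _ _ h3).trans ?_
  rw [nsmul_eq_mul]

end

/-- **The mixing bound.** -/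
theorem mixing_bound {m : ℕ} (hm : 48 ≤ m) (G : SimpleGraph (Fin m ⊕ Fin m)) (D : ℕ)
    (hD : ∀ v, (G.neighborSet v).ncard ≤ D)
    (hmix : ∀ A B : Finset (Fin m), m ≤ 96 * A.card → m ≤ 48 * B.card →
        ∃ i ∈ A, ∃ j ∈ B, G.Adj (Sum.inl i) (Sum.inr j))
    (P Q : ((Fin m ⊕ Fin m) → ZMod 2) →ₗ[ZMod 2] ((Fin m ⊕ Fin m) → ZMod 2))
    (hPQ : ∀ z, P z + Q z = z) (hP : m ≤ 2 * finrank (ZMod 2) (LinearMap.range P))
    (hQ : m ≤ 2 * finrank (ZMod 2) (LinearMap.range Q)) (q : ℕ) (hq : 100 * q ≤ m) (k t : ℕ)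
    (ht : t ≤ (q + 1) / (D + 1)) [∀ x y, Decidable (P x + Q y ∈ VC G)] :
    ((((VCf G ×ˢ VCf G).filter fun p => P p.1 + Q p.2 ∈ VC G).card : ℝ)) ^ (2 * (k + 1)) ≤
      (4 ^ m * ((2 ^ (D + 1) / (2 ^ (D + 1) + 1)) ^ t) ^ k +
        (2 ^ (D + 1) / (2 ^ (D + 1) + 1)) ^ t) * ((VCf G).card : ℝ) ^ (4 * (k + 1)) := by
  classical
  have hcardV : Fintype.card (Fin m ⊕ Fin m) = 2 * m := by
    rw [Fintype.card_sum, Fintype.card_fin]; ring
  obtain ⟨ρ, hρ⟩ : ∃ ρ : ℝ, ρ = 2 ^ (D + 1) / (2 ^ (D + 1) + 1) := ⟨_, rfl⟩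
  have hρ0 : 0 ≤ ρ := by rw [hρ]; positivity
  rw [← hρ]
  obtain ⟨a, ha⟩ : ∃ a : ℝ, a = ((VCf G).card : ℝ) := ⟨_, rfl⟩
  have ha0 : 0 ≤ a := by rw [ha]; exact Nat.cast_nonneg _
  have hpm := power_mean (VCf G) (fun x y => P x + Q y ∈ VC G) k
  -- good and bad tuples
  let Bad : (Fin (k + 1) → (Fin m ⊕ Fin m) → ZMod 2) → Prop := fun τ =>
    finrank (ZMod 2) ((ZT (Tz P τ)).comap P) + q < 2 * m
  have hc : ∀ τ : Fin (k + 1) → (Fin m ⊕ Fin m) → ZMod 2,
      (((VCf G ×ˢ VCf G).filter fun p => ∀ i, (P (τ i) + Q p.1 ∈ VC G) ∧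
        (P (τ i) + Q p.2 ∈ VC G)).card : ℝ) ≤ (if Bad τ then a ^ 2 else 0) + ρ ^ t * a ^ 2 := by
    intro τ
    by_cases hb : Bad τ
    · rw [if_pos hb]
      have h1 : (((VCf G ×ˢ VCf G).filter fun p => ∀ i, (P (τ i) + Q p.1 ∈ VC G) ∧
        (P (τ i) + Q p.2 ∈ VC G)).card : ℝ) ≤ a ^ 2 := by
        have := card_filter_le (VCf G ×ˢ VCf G) fun p => ∀ i, (P (τ i) + Q p.1 ∈ VC G) ∧
          (P (τ i) + Q p.2 ∈ VC G)
        rw [card_product] at this
        rw [ha, sq]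
        exact_mod_cast this
      have h2 : 0 ≤ ρ ^ t * a ^ 2 := by positivity
      linarith
    · rw [if_neg hb, zero_add]
      have hK : finrank (ZMod 2) ((LT G (Tz P τ)).comap Q) + q < 2 * m := by
        by_contra hcon
        push Not at hcon
        have hb' : 2 * m ≤ finrank (ZMod 2) ((ZT (Tz P τ)).comap P) + q := not_lt.1 hb
        exact det_part hm G hmix P Q hPQ hP hQ q hq (Tz P τ) hb' hcon
      have htK : t ≤ (Fintype.card (Fin m ⊕ Fin m) -
          finrank (ZMod 2) ((LT G (Tz P τ)).comap Q)) / (D + 1) := by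
        refine ht.trans (Nat.div_le_div_right ?_)
        rw [hcardV]; omega
      have h1 : (((VCf G ×ˢ VCf G).filter fun p => ∀ i, (P (τ i) + Q p.1 ∈ VC G) ∧
        (P (τ i) + Q p.2 ∈ VC G)).card : ℝ) ≤
          ∑ c ∈ VCf G, (((VCf G).filter fun x => x + c ∈ (LT G (Tz P τ)).comap Q).card : ℝ) := by
        have h2 : ((VCf G ×ˢ VCf G).filter fun p => ∀ i, (P (τ i) + Q p.1 ∈ VC G) ∧
            (P (τ i) + Q p.2 ∈ VC G)).card ≤
            ((VCf G).sigma fun c => (VCf G).filter fun x => x + c ∈ (LT G (Tz P τ)).comap Q).card := by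
          refine Finset.card_le_card_of_injOn (fun p => ⟨p.1, p.2⟩) ?_ ?_
          · intro p hp
            rw [Finset.mem_coe, mem_filter, mem_product] at hp
            rw [Finset.mem_coe, mem_sigma]
            refine ⟨hp.1.1, mem_filter.2 ⟨hp.1.2, ?_⟩⟩
            exact mem_LT_of_all G P Q hp.2
          · intro p _ p' _ h
            have h0 : p.1 = p'.1 := congrArg Sigma.fst h
            have h2 : p.2 = p'.2 := eq_of_heq (Sigma.mk.inj h).2
            exact Prod.ext h0 h2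
        rw [card_sigma] at h2
        exact_mod_cast h2
      refine h1.trans ?_
      refine (Finset.sum_le_card_nsmul _ _ _ fun c _ =>
        anticonc_f G D hD ((LT G (Tz P τ)).comap Q) c t htK).trans ?_
      rw [nsmul_eq_mul, ← hρ, ← ha]
      apply le_of_eq; ring
  -- the number of bad tuples
  have hbad : (((Fintype.piFinset fun _ : Fin (k + 1) => VCf G).filter fun τ => Bad τ).card : ℝ) ≤
      4 ^ m * (a * (ρ ^ t * a) ^ k) := by
    have h1 : ((Fintype.piFinset fun _ : Fin (k + 1) => VCf G).filter fun τ => Bad τ) ⊆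
        ((univ : Finset (Finset (Fin m ⊕ Fin m))).filter fun T =>
          finrank (ZMod 2) ((ZT T).comap P) + q < 2 * m).biUnion fun T =>
            ((Fintype.piFinset fun _ : Fin (k + 1) => VCf G).filter
              fun τ => ∀ i, τ i + τ 0 ∈ (ZT T).comap P) := by
      intro τ hτ
      rw [mem_filter] at hτ
      rw [mem_biUnion]
      refine ⟨Tz P τ, mem_filter.2 ⟨mem_univ _, hτ.2⟩, mem_filter.2 ⟨hτ.1, ?_⟩⟩
      intro i s hs
      exact mem_Tz.1 hs i
    have h2 := (card_le_card h1).trans card_biUnion_le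
    have h3 : (((Fintype.piFinset fun _ : Fin (k + 1) => VCf G).filter
        fun τ => Bad τ).card : ℝ) ≤
        ∑ T ∈ (univ : Finset (Finset (Fin m ⊕ Fin m))).filter fun T =>
          finrank (ZMod 2) ((ZT T).comap P) + q < 2 * m,
          (((Fintype.piFinset fun _ : Fin (k + 1) => VCf G).filter
              fun τ => ∀ i, τ i + τ 0 ∈ (ZT T).comap P).card : ℝ) := by exact_mod_cast h2
    refine h3.trans ?_
    have h4 : ∀ T ∈ (univ : Finset (Finset (Fin m ⊕ Fin m))).filter fun T =>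
          finrank (ZMod 2) ((ZT T).comap P) + q < 2 * m,
          (((Fintype.piFinset fun _ : Fin (k + 1) => VCf G).filter
              fun τ => ∀ i, τ i + τ 0 ∈ (ZT T).comap P).card : ℝ) ≤ a * (ρ ^ t * a) ^ k := by
      intro T hT
      have hT' := (mem_filter.1 hT).2
      rw [hρ, ha]
      refine few_tuples G D hD ((ZT T).comap P) t k (ht.trans (Nat.div_le_div_right ?_))
      rw [hcardV]; omega
    refine (Finset.sum_le_card_nsmul _ _ _ h4).trans ?_
    rw [nsmul_eq_mul]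
    refine mul_le_mul_of_nonneg_right ?_ (by positivity)
    have h5 : ((univ : Finset (Finset (Fin m ⊕ Fin m))).filter fun T =>
          finrank (ZMod 2) ((ZT T).comap P) + q < 2 * m).card ≤ 4 ^ m := by
      refine (card_filter_le _ _).trans ?_
      rw [card_univ, Fintype.card_finset, hcardV, pow_mul]
      norm_num
    exact_mod_cast h5
  have hsum : ∑ τ ∈ Fintype.piFinset (fun _ : Fin (k + 1) => VCf G),
      (((VCf G ×ˢ VCf G).filter fun p => ∀ i, (P (τ i) + Q p.1 ∈ VC G) ∧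
        (P (τ i) + Q p.2 ∈ VC G)).card : ℝ) ≤
      4 ^ m * (a * (ρ ^ t * a) ^ k) * a ^ 2 + a ^ (k + 1) * (ρ ^ t * a ^ 2) := by
    refine (Finset.sum_le_sum fun τ _ => hc τ).trans ?_
    rw [Finset.sum_add_distrib]
    refine add_le_add ?_ ?_
    · rw [← Finset.sum_filter, Finset.sum_const, nsmul_eq_mul]
      exact mul_le_mul_of_nonneg_right hbad (by positivity)
    · rw [Finset.sum_const, nsmul_eq_mul, Fintype.card_piFinset, Finset.prod_const,
        Finset.card_univ, Fintype.card_fin, ha]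
      push_cast
      exact le_rfl
  rw [← ha] at hpm ⊢
  refine hpm.trans ?_
  refine (mul_le_mul_of_nonneg_left hsum (by positivity)).trans ?_
  apply le_of_eq
  rw [mul_pow]
  ring

end Pool.Agent.Dichotomy
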