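import Pool.Agent.Helper91.Dich.Numeric

/-!
From the inequality for tree networks to an exponential lower bound.
-/

namespace Pool.Agent.Dichotomy

open Filter Topology

theorem numeric3 (ρ : ℝ) (h0 : 0 < ρ) (h1 : ρ < 1) (L L3 : ℕ) (hL : 0 < L) (hL3 : 0 < L3) :
    ∃ (k : ℕ) (c : ℝ), 0 < c ∧ ∀ n m w : ℕ, n ≤ L3 * (m + 1) → 1 ≤ w →
      1 ≤ (128 * (w : ℝ)) ^ (2 * (k + 1)) * (4 ^ m * (ρ ^ (m / L)) ^ k + ρ ^ (m / L)) →
      (2 : ℝ) ^ (c * n) ≤ 2 * w := by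
  have hLr : (0 : ℝ) < L := by exact_mod_cast hL
  have hL3r : (0 : ℝ) < L3 := by exact_mod_cast hL3
  obtain ⟨a, ha⟩ : ∃ a : ℝ, a = ρ ^ ((1 : ℝ) / L) := ⟨_, rfl⟩
  have ha0 : 0 < a := by rw [ha]; exact Real.rpow_pos_of_pos h0 _
  have ha1 : a < 1 := by rw [ha]; exact Real.rpow_lt_one h0.le h1 (by positivity)
  obtain ⟨k, hk⟩ := exists_pow_lt_of_lt_one (show (0 : ℝ) < a / 4 by positivity) ha1
  obtain ⟨δ, hδ0, hδa⟩ : ∃ δ : ℝ, 0 < δ ∧ (2 : ℝ) ^ δ * a < 1 := by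
    have hc : Tendsto (fun δ : ℝ => (2 : ℝ) ^ δ) (𝓝[>] 0) (𝓝 1) := by
      have h := (Real.continuous_const_rpow (a := 2) (by norm_num)).tendsto (0 : ℝ)
      rw [Real.rpow_zero] at h
      exact h.mono_left nhdsWithin_le_nhds
    have t1 : Tendsto (fun δ : ℝ => (2 : ℝ) ^ δ * a) (𝓝[>] 0) (𝓝 (1 * a)) := hc.mul_const a
    rw [one_mul] at t1
    obtain ⟨δ, hd1, hd2⟩ := ((t1.eventually (gt_mem_nhds ha1)).and self_mem_nhdsWithin).exists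
    exact ⟨δ, hd2, hd1⟩
  obtain ⟨d, hd⟩ : ∃ d : ℝ, d = (2 : ℝ) ^ δ := ⟨_, rfl⟩
  rw [← hd] at hδa
  have hd0 : 0 < d := by rw [hd]; positivity
  have hdk : ∀ k : ℕ, (2 : ℝ) ^ (δ * k) = d ^ k := by
    intro k; rw [Real.rpow_mul (by norm_num), Real.rpow_natCast, hd]
  obtain ⟨K, hK⟩ : ∃ K : ℕ, K = 2 * (k + 1) := ⟨_, rfl⟩
  have hKpos : 0 < K := by omega
  have hKr : (0 : ℝ) < K := by exact_mod_cast hKpos
  obtain ⟨C, hC⟩ : ∃ C : ℝ, C = 64 ^ K * (ρ⁻¹ ^ k + ρ⁻¹) * d := ⟨_, rfl⟩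
  have hC0 : 0 < C := by rw [hC]; positivity
  obtain ⟨m0, hm0⟩ : ∃ m0 : ℕ, ∀ m ≥ m0, C * (d * a) ^ m < 1 := by
    have t1 : Tendsto (fun m : ℕ => (d * a) ^ m) atTop (𝓝 0) :=
      tendsto_pow_atTop_nhds_zero_of_lt_one (by positivity) hδa
    have t2 : Tendsto (fun m : ℕ => C * (d * a) ^ m) atTop (𝓝 (C * 0)) := t1.const_mul C
    rw [mul_zero] at t2
    exact eventually_atTop.1 (t2.eventually (gt_mem_nhds one_pos))
  refine ⟨k, min (δ / (K * L3)) (1 / (L3 * (m0 + 1))), by positivity, ?_⟩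
  intro n m w hn hw h
  rw [← hK] at h
  have hwr : (1 : ℝ) ≤ w := by exact_mod_cast hw
  have hnr : (n : ℝ) ≤ L3 * (m + 1) := by exact_mod_cast hn
  obtain ⟨c, hc⟩ : ∃ c : ℝ, c = min (δ / (K * L3)) (1 / (L3 * (m0 + 1))) := ⟨_, rfl⟩
  rw [← hc]
  have hcpos : 0 < c := by rw [hc]; positivity
  have hc1 : c ≤ δ / (K * L3) := by rw [hc]; exact min_le_left _ _
  have hc2 : c ≤ 1 / (L3 * (m0 + 1)) := by rw [hc]; exact min_le_right _ _
  rcases lt_or_ge m m0 with hm | hm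
  · have hmr : (m : ℝ) ≤ m0 := by exact_mod_cast hm.le
    have h2 : c * n ≤ 1 := by
      calc c * n ≤ 1 / (L3 * (m0 + 1)) * (L3 * (m0 + 1)) := by
            refine mul_le_mul hc2 ?_ (Nat.cast_nonneg _) (by positivity)
            refine hnr.trans ?_
            exact mul_le_mul_of_nonneg_left (by linarith) hL3r.le
        _ = 1 := by field_simp
    calc (2 : ℝ) ^ (c * n) ≤ 2 ^ (1 : ℝ) := Real.rpow_le_rpow_of_exponent_le (by norm_num) h2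
      _ = 2 := Real.rpow_one 2
      _ ≤ 2 * w := by linarith
  · by_contra hcon
    push Not at hcon
    have e1 : (128 * (w : ℝ)) ^ K ≤ 64 ^ K * d ^ (m + 1) := by
      have s1 : 128 * (w : ℝ) ≤ 64 * (2 : ℝ) ^ (c * n) := by linarith
      calc (128 * (w : ℝ)) ^ K ≤ (64 * (2 : ℝ) ^ (c * n)) ^ K :=
            pow_le_pow_left₀ (by positivity) s1 K
        _ = 64 ^ K * ((2 : ℝ) ^ (c * n)) ^ K := mul_pow _ _ _
        _ ≤ 64 ^ K * d ^ (m + 1) := by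
            refine mul_le_mul_of_nonneg_left ?_ (by positivity)
            rw [← Real.rpow_natCast, ← Real.rpow_mul (by norm_num), ← hdk]
            apply Real.rpow_le_rpow_of_exponent_le (by norm_num)
            push_cast
            calc c * n * K ≤ δ / (K * L3) * (L3 * (m + 1)) * K := by
                  refine mul_le_mul_of_nonneg_right ?_ hKr.le
                  exact mul_le_mul hc1 hnr (Nat.cast_nonneg _) (by positivity)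
              _ = δ * (m + 1) := by field_simp
    have e2 : ρ ^ (m / L) ≤ ρ⁻¹ * a ^ m := by rw [ha]; exact pow_div_le h0 h1 hL m
    have e3 : 4 ^ m * (ρ ^ (m / L)) ^ k + ρ ^ (m / L) ≤ (ρ⁻¹ ^ k + ρ⁻¹) * a ^ m := by
      have s1 : (ρ ^ (m / L)) ^ k ≤ ρ⁻¹ ^ k * (a ^ k) ^ m := by
        calc (ρ ^ (m / L)) ^ k ≤ (ρ⁻¹ * a ^ m) ^ k := pow_le_pow_left₀ (by positivity) e2 k
          _ = ρ⁻¹ ^ k * (a ^ k) ^ m := by rw [mul_pow, ← pow_mul, ← pow_mul, mul_comm m k]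
      have s2 : (4 : ℝ) ^ m * (a ^ k) ^ m ≤ a ^ m := by
        rw [← mul_pow]
        exact pow_le_pow_left₀ (by positivity) (by linarith) m
      calc 4 ^ m * (ρ ^ (m / L)) ^ k + ρ ^ (m / L)
          ≤ 4 ^ m * (ρ⁻¹ ^ k * (a ^ k) ^ m) + ρ⁻¹ * a ^ m :=
            add_le_add (mul_le_mul_of_nonneg_left s1 (by positivity)) e2
        _ = ρ⁻¹ ^ k * (4 ^ m * (a ^ k) ^ m) + ρ⁻¹ * a ^ m := by ring
        _ ≤ ρ⁻¹ ^ k * a ^ m + ρ⁻¹ * a ^ m := by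
            have := mul_le_mul_of_nonneg_left s2 (show (0 : ℝ) ≤ ρ⁻¹ ^ k by positivity)
            linarith
        _ = (ρ⁻¹ ^ k + ρ⁻¹) * a ^ m := by ring
    have e4 : (0 : ℝ) ≤ 4 ^ m * (ρ ^ (m / L)) ^ k + ρ ^ (m / L) := by positivity
    have e5 : (128 * (w : ℝ)) ^ K * (4 ^ m * (ρ ^ (m / L)) ^ k + ρ ^ (m / L)) ≤
        (64 ^ K * d ^ (m + 1)) * ((ρ⁻¹ ^ k + ρ⁻¹) * a ^ m) :=
      mul_le_mul e1 e3 e4 (by positivity)
    have e6 : (64 ^ K * d ^ (m + 1)) * ((ρ⁻¹ ^ k + ρ⁻¹) * a ^ m) = C * (d * a) ^ m := by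
      rw [hC, mul_pow, pow_succ]; ring
    have e7 := hm0 m hm
    rw [e6] at e5
    linarith

end Pool.Agent.Dichotomy
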