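import Pool.Agent.Helper91.Dich.Defs

/-!
The path argument: a set all of whose large sumsets are small and all of whose patterns are rare
has no small XOR program.
-/

namespace Pool.Agent.Dichotomy

open Finset

variable {ι : Type*} [Fintype ι] [DecidableEq ι]

set_option linter.unusedSectionVars false

/-- The sumset. -/
def ssum (U U' : Set (ι → ZMod 2)) : Set (ι → ZMod 2) :=
  {z | ∃ u ∈ U, ∃ v ∈ U', z = u + v}

/-- The contexts of `S` in `A`. -/
def ctx (A S : Set (ι → ZMod 2)) : Set (ι → ZMod 2) := {c | ∀ y ∈ S, c + y ∈ A}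

/-- restriction to `X` -/
def res (X : Finset ι) (x : ι → ZMod 2) : X → ZMod 2 := fun i => x i

theorem pat_eq (X : Finset ι) (S : Set (ι → ZMod 2)) : pat X S = (res X '' S).ncard := rfl

theorem pat_mono {X : Finset ι} {S T : Set (ι → ZMod 2)} (h : S ⊆ T) : pat X S ≤ pat X T := by
  rw [pat_eq, pat_eq]
  exact Set.ncard_le_ncard (Set.image_mono h) (Set.toFinite _)

theorem pat_le_ncard {X : Finset ι} (S : Set (ι → ZMod 2)) : pat X S ≤ S.ncard := by
  rw [pat_eq]
  exact Set.ncard_image_le (Set.toFinite _)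

theorem res_add (X : Finset ι) (x y : ι → ZMod 2) : res X (x + y) = res X x + res X y := rfl

theorem pat_ssum (X : Finset ι) (U U' : Set (ι → ZMod 2)) :
    pat X (ssum U U') ≤ pat X U * pat X U' := by
  classical
  rw [pat_eq, pat_eq, pat_eq]
  have hsub : res X '' (ssum U U') ⊆
      (fun p : (X → ZMod 2) × (X → ZMod 2) => p.1 + p.2) '' ((res X '' U) ×ˢ (res X '' U')) := by
    rintro _ ⟨z, ⟨u, hu, v, hv, rfl⟩, rfl⟩
    exact ⟨(res X u, res X v), ⟨⟨u, hu, rfl⟩, ⟨v, hv, rfl⟩⟩, (res_add X u v).symm⟩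
  calc (res X '' (ssum U U')).ncard ≤ _ := Set.ncard_le_ncard hsub (Set.toFinite _)
    _ ≤ ((res X '' U) ×ˢ (res X '' U')).ncard := Set.ncard_image_le (Set.toFinite _)
    _ = _ := Set.ncard_prod

/-- The points of `A` whose pattern occurs in `S`. -/
def near (X : Finset ι) (A S : Set (ι → ZMod 2)) : Set (ι → ZMod 2) :=
  {x | x ∈ A ∧ ∃ s ∈ S, res X x = res X s}

theorem near_card {X : Finset ι} {A S : Set (ι → ZMod 2)} {κ : ℝ} 
    (hκ : ∀ p : ι → ZMod 2, ({x | x ∈ A ∧ ∀ i ∈ X, x i = p i}.ncard : ℝ) ≤ κ * A.ncard) :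
    ((near X A S).ncard : ℝ) ≤ κ * pat X S * A.ncard := by
  classical
  set Pt : Finset (X → ZMod 2) := (Set.toFinite (res X '' S)).toFinset with hPt
  have hPtc : Pt.card = pat X S := by
    rw [pat_eq, hPt, ← Set.ncard_eq_toFinset_card]
  -- choose representatives
  have hrep : ∀ q ∈ Pt, ∃ s : ι → ZMod 2, res X s = q := by
    intro q hq
    rw [hPt, Set.Finite.mem_toFinset] at hq
    obtain ⟨s, -, hs⟩ := hq
    exact ⟨s, hs⟩
  set F : Finset (ι → ZMod 2) := (Set.toFinite (near X A S)).toFinset with hF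
  have hFc : F.card = (near X A S).ncard := by
    rw [hF, ← Set.ncard_eq_toFinset_card]
  have hmap : ∀ x ∈ F, res X x ∈ Pt := by
    intro x hx
    rw [hF, Set.Finite.mem_toFinset] at hx
    obtain ⟨-, s, hs, h⟩ := hx
    rw [hPt, Set.Finite.mem_toFinset, h]
    exact ⟨s, hs, rfl⟩
  have hsum := Finset.card_eq_sum_card_fiberwise hmap
  have hfib : ∀ q ∈ Pt, ((F.filter fun x => res X x = q).card : ℝ) ≤ κ * A.ncard := by
    intro q hq
    obtain ⟨s, hs⟩ := hrep q hq
    refine le_trans ?_ (hκ s)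
    have hle : (F.filter fun x => res X x = q).card ≤ {x | x ∈ A ∧ ∀ i ∈ X, x i = s i}.ncard := by
      rw [← Set.ncard_coe_finset]
      refine Set.ncard_le_ncard ?_ (Set.toFinite _)
      intro x hx
      rw [Finset.coe_filter] at hx
      obtain ⟨hxF, hxq⟩ := hx
      rw [hF, Set.Finite.mem_toFinset] at hxF
      refine ⟨hxF.1, fun i hi => ?_⟩
      have := congrFun (hxq.trans hs.symm) ⟨i, hi⟩
      exact this
    exact_mod_cast hle
  rw [← hFc, hsum]
  push_cast
  calc (∑ q ∈ Pt, ((F.filter fun x => res X x = q).card : ℝ)) ≤ ∑ q ∈ Pt, κ * A.ncard :=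
        Finset.sum_le_sum hfib
    _ = κ * pat X S * A.ncard := by
        rw [Finset.sum_const, hPtc, nsmul_eq_mul]; ring

theorem affine_triple {M : Set (ι → ZMod 2)} (hM : IsAffine M) (C : Set (ι → ZMod 2)) :
    ssum (ssum C M) (ssum M M) ⊆ ssum C M := by
  rintro z ⟨u, ⟨c, hc, m, hm, rfl⟩, v, ⟨m', hm', m'', hm'', rfl⟩, rfl⟩
  refine ⟨c, hc, m + m' + m'', hM m hm m' hm' m'' hm'', ?_⟩
  abel

theorem pat_translate {X : Finset ι} {S : Set (ι → ZMod 2)} {T : Set (ι → ZMod 2)}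
    (hT : T.Nonempty) : pat X S ≤ pat X (ssum T S) := by
  classical
  obtain ⟨t, ht⟩ := hT
  rw [pat_eq, pat_eq]
  have h1 : ((fun q : X → ZMod 2 => res X t + q) '' (res X '' S)).ncard = (res X '' S).ncard :=
    Set.ncard_image_of_injective _ (add_right_injective _)
  rw [← h1]
  refine Set.ncard_le_ncard ?_ (Set.toFinite _)
  rintro _ ⟨_, ⟨s, hs, rfl⟩, rfl⟩
  exact ⟨t + s, ⟨t, ht, s, hs, rfl⟩, res_add X t s⟩

theorem pat_pos_nonempty {X : Finset ι} {S : Set (ι → ZMod 2)} (h : 0 < pat X S) :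
    S.Nonempty := by
  by_contra hne
  rw [Set.not_nonempty_iff_eq_empty] at hne
  subst hne
  simp [pat_eq] at h

section main

variable {g : Type*} [Fintype g] (rk : g → ℕ) (W K : ℕ) (M : g → Set (ι → ZMod 2))
  (A : Set (ι → ZMod 2)) (X : Finset ι)

/-- A gate whose elements, together with its contexts, form a large sumset in `A`. -/
def Big (w : g) : Prop :=
  K ≤ pat X (M w) ∧ (K ≤ pat X (ctx A (M w)) ∨ IsAffine (M w))

theorem walk (hM : IsProg rk W M) : ∀ n : ℕ, ∀ v : g, rk v = n → pat X (ctx A (M v)) < K →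
    ∀ c ∈ ctx A (M v), ∀ y ∈ M v,
      (∃ w, Big K M A X w ∧ c + y ∈ ssum (ctx A (M w)) (M w)) ∨
      (∃ w, pat X (ctx A (M w)) < K ∧ (((M w).Finite ∧ (M w).ncard ≤ W) ∨ pat X (M w) < K) ∧
        c + y ∈ ssum (ctx A (M w)) (M w)) ∨
      (∃ w a, pat X (ctx A (M w)) < K ∧ pat X (M a) < K ∧
        c + y ∈ ssum (ctx A (M w)) (M a)) ∨
      (∃ w a b, pat X (ctx A (M w)) < K ∧ pat X (M a) < K ∧ pat X (M b) < K ∧
        c + y ∈ ssum (ctx A (M w)) (ssum (M a) (M b))) := by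
  intro n
  induction n using Nat.strong_induction_on with
  | _ n ih =>
    intro v hv hlight c hc y hy
    rcases hM v with hleaf | haff | ⟨Q, P, hQ, hP, hmem⟩
    · exact Or.inr (Or.inl ⟨v, hlight, Or.inl hleaf, c, hc, y, hy, rfl⟩)
    · by_cases hK : K ≤ pat X (M v)
      · exact Or.inl ⟨v, ⟨hK, Or.inr haff⟩, c, hc, y, hy, rfl⟩
      · push Not at hK
        exact Or.inr (Or.inl ⟨v, hlight, Or.inr hK, c, hc, y, hy, rfl⟩)
    · rcases (hmem y).1 hy with ⟨a, ha, hya⟩ | ⟨p, hp, y1, hy1, y2, hy2, rfl⟩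
      · -- a union
        have hca : c ∈ ctx A (M a) := fun y' hy' => hc y' ((hmem y').2 (Or.inl ⟨a, ha, hy'⟩))
        by_cases hla : pat X (ctx A (M a)) < K
        · exact ih (rk a) (hv ▸ hQ a ha) a rfl hla c hca y hya
        · push Not at hla
          by_cases hMa : K ≤ pat X (M a)
          · exact Or.inl ⟨a, ⟨hMa, Or.inl hla⟩, c, hca, y, hya, rfl⟩
          · push Not at hMa
            exact Or.inr (Or.inr (Or.inl ⟨v, a, hlight, hMa, c, hc, y, hya, rfl⟩))
      · -- a sum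
        have hmem' : ∀ z1 ∈ M p.1, ∀ z2 ∈ M p.2, z1 + z2 ∈ M v := by
          intro z1 hz1 z2 hz2
          exact (hmem _).2 (Or.inr ⟨p, hp, z1, hz1, z2, hz2, rfl⟩)
        rcases le_total (pat X (M p.2)) (pat X (M p.1)) with hle | hle
        · have hca : c + y2 ∈ ctx A (M p.1) := by
            intro y' hy'
            have := hc _ (hmem' y' hy' y2 hy2)
            have heq : c + y2 + y' = c + (y' + y2) := by abel
            rw [heq]; exact this
          have heq : c + (y1 + y2) = c + y2 + y1 := by abel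
          by_cases hla : pat X (ctx A (M p.1)) < K
          · have := ih (rk p.1) (hv ▸ (hP p hp).1) p.1 rfl hla (c + y2) hca y1 hy1
            rw [heq]; exact this
          · push Not at hla
            by_cases hMa : K ≤ pat X (M p.1)
            · exact Or.inl ⟨p.1, ⟨hMa, Or.inl hla⟩, c + y2, hca, y1, hy1, heq⟩
            · push Not at hMa
              exact Or.inr (Or.inr (Or.inr ⟨v, p.1, p.2, hlight, hMa, lt_of_le_of_lt hle hMa,
                c, hc, y1 + y2, ⟨y1, hy1, y2, hy2, rfl⟩, rfl⟩))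
        · have hca : c + y1 ∈ ctx A (M p.2) := by
            intro y' hy'
            have := hc _ (hmem' y1 hy1 y' hy')
            have heq : c + y1 + y' = c + (y1 + y') := by abel
            rw [heq]; exact this
          have heq : c + (y1 + y2) = c + y1 + y2 := by abel
          by_cases hla : pat X (ctx A (M p.2)) < K
          · have := ih (rk p.2) (hv ▸ (hP p hp).2) p.2 rfl hla (c + y1) hca y2 hy2
            rw [heq]; exact this
          · push Not at hla
            by_cases hMa : K ≤ pat X (M p.2)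
            · exact Or.inl ⟨p.2, ⟨hMa, Or.inl hla⟩, c + y1, hca, y2, hy2, heq⟩
            · push Not at hMa
              exact Or.inr (Or.inr (Or.inr ⟨v, p.1, p.2, hlight, lt_of_le_of_lt hle hMa, hMa,
                c, hc, y1 + y2, ⟨y1, hy1, y2, hy2, rfl⟩, rfl⟩))

end main

theorem big_card {g : Type*} [Fintype g] {K : ℕ} {M : g → Set (ι → ZMod 2)}
    {A : Set (ι → ZMod 2)} {X : Finset ι} {β : ℝ} (hβ0 : 0 ≤ β) (hK : 1 ≤ K)
    (hβ : ∀ U U' : Set (ι → ZMod 2), (∀ u ∈ U, ∀ v ∈ U', u + v ∈ A) → K ≤ pat X U →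
      K ≤ pat X U' → ((ssum U U').ncard : ℝ) ≤ β * A.ncard) (w : g) (hw : Big K M A X w) :
    ((ssum (ctx A (M w)) (M w)).ncard : ℝ) ≤ β * A.ncard := by
  classical
  obtain ⟨hM, hC | haff⟩ := hw
  · exact hβ _ _ (fun u hu v hv => hu v hv) hC hM
  · rcases Set.eq_empty_or_nonempty (ctx A (M w)) with hemp | hne
    · rw [hemp]
      have : ssum (∅ : Set (ι → ZMod 2)) (M w) = ∅ := by
        ext z; simp [ssum]
      rw [this]
      simp only [Set.ncard_empty, Nat.cast_zero]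
      positivity
    · have hMne : (M w).Nonempty := pat_pos_nonempty (lt_of_lt_of_le hK hM)
      have h1 : K ≤ pat X (ssum (ctx A (M w)) (M w)) := hM.trans (pat_translate hne)
      have h2 : K ≤ pat X (ssum (M w) (M w)) := hM.trans (pat_translate hMne)
      have h3 := hβ (ssum (ctx A (M w)) (M w)) (ssum (M w) (M w)) (by
        intro u hu v hv
        obtain ⟨c, hc, m, hm, heq⟩ := affine_triple haff (ctx A (M w)) ⟨u, hu, v, hv, rfl⟩
        rw [heq]
        exact hc m hm) h1 h2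
      refine le_trans ?_ h3
      have hsub : ssum (ctx A (M w)) (M w) ⊆ ssum (ssum (ctx A (M w)) (M w))
          (ssum (M w) (M w)) := by
        rintro z ⟨c, hc, m, hm, rfl⟩
        refine ⟨c + m, ⟨c, hc, m, hm, rfl⟩, m + m, ⟨m, hm, m, hm, rfl⟩, ?_⟩
        rw [pi_add_self, add_zero]
      exact_mod_cast Set.ncard_le_ncard hsub (Set.toFinite _)

/-- **Path argument.** -/
theorem path_bound_sub {g : Type*} [Fintype g] (rk : g → ℕ) (W K : ℕ) (hK : 1 ≤ K)
    (M : g → Set (ι → ZMod 2)) (hM : IsProg rk W M) (A : Set (ι → ZMod 2)) 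
    (X : Finset ι) (top : g) (htop : M top ⊆ A) (β κ : ℝ) (hβ0 : 0 ≤ β) (hκ0 : 0 ≤ κ)
    (hβ : ∀ U U' : Set (ι → ZMod 2), (∀ u ∈ U, ∀ v ∈ U', u + v ∈ A) → K ≤ pat X U →
      K ≤ pat X U' → ((ssum U U').ncard : ℝ) ≤ β * A.ncard)
    (hκ : ∀ p : ι → ZMod 2, ({x | x ∈ A ∧ ∀ i ∈ X, x i = p i}.ncard : ℝ) ≤ κ * A.ncard) :
    ((M top).ncard : ℝ) ≤ ((Fintype.card g : ℝ) * β + κ * (Fintype.card g * K * W +
      3 * (Fintype.card g : ℝ) ^ 3 * (K : ℝ) ^ 3)) * A.ncard := by
  classical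
  have hgpos : (1 : ℝ) ≤ (Fintype.card g : ℝ) := by
    exact_mod_cast Fintype.card_pos_iff.2 ⟨top⟩
  have hKr : (1 : ℝ) ≤ K := by exact_mod_cast hK
  set s : ℝ := (Fintype.card g : ℝ) with hs
  -- the pieces
  let B1 : g → Set (ι → ZMod 2) := fun w =>
    if Big K M A X w then ssum (ctx A (M w)) (M w) else ∅
  let B2 : g → Set (ι → ZMod 2) := fun w =>
    if pat X (ctx A (M w)) < K ∧ (((M w).Finite ∧ (M w).ncard ≤ W) ∨ pat X (M w) < K) then
      near X A (ssum (ctx A (M w)) (M w)) else ∅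
  let B3 : g × g → Set (ι → ZMod 2) := fun w =>
    if pat X (ctx A (M w.1)) < K ∧ pat X (M w.2) < K then
      near X A (ssum (ctx A (M w.1)) (M w.2)) else ∅
  let B4 : g × g × g → Set (ι → ZMod 2) := fun w =>
    if pat X (ctx A (M w.1)) < K ∧ pat X (M w.2.1) < K ∧ pat X (M w.2.2) < K then
      near X A (ssum (ctx A (M w.1)) (ssum (M w.2.1) (M w.2.2))) else ∅
  have h1 : ∀ w, ((B1 w).ncard : ℝ) ≤ β * A.ncard := by
    intro w
    by_cases h : Big K M A X w
    · simp only [B1, if_pos h]; exact big_card hβ0 hK hβ w h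
    · simp only [B1, if_neg h, Set.ncard_empty, Nat.cast_zero]; positivity
  have h2 : ∀ w, ((B2 w).ncard : ℝ) ≤ κ * (K * W + K ^ 2) * A.ncard := by
    intro w
    by_cases h : pat X (ctx A (M w)) < K ∧ (((M w).Finite ∧ (M w).ncard ≤ W) ∨ pat X (M w) < K)
    · simp only [B2, if_pos h]
      refine (near_card hκ).trans ?_
      have hp : (pat X (ssum (ctx A (M w)) (M w)) : ℝ) ≤ K * W + K ^ 2 := by
        have h3 := pat_ssum X (ctx A (M w)) (M w)
        rcases h.2 with h4 | h4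
        · have h5 := (pat_le_ncard (X := X) (M w)).trans h4.2
          have h6 : pat X (ssum (ctx A (M w)) (M w)) ≤ K * W :=
            h3.trans (Nat.mul_le_mul h.1.le h5)
          have : (pat X (ssum (ctx A (M w)) (M w)) : ℝ) ≤ K * W := by exact_mod_cast h6
          have h7 : (0:ℝ) ≤ (K:ℝ) ^ 2 := by positivity
          linarith
        · have h6 : pat X (ssum (ctx A (M w)) (M w)) ≤ K * K :=
            h3.trans (Nat.mul_le_mul h.1.le h4.le)
          have : (pat X (ssum (ctx A (M w)) (M w)) : ℝ) ≤ K * K := by exact_mod_cast h6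
          have h7 : (0:ℝ) ≤ (K:ℝ) * W := by positivity
          nlinarith
      gcongr
    · simp only [B2, if_neg h, Set.ncard_empty, Nat.cast_zero]; positivity
  have h3 : ∀ w, ((B3 w).ncard : ℝ) ≤ κ * K ^ 2 * A.ncard := by
    intro w
    by_cases h : pat X (ctx A (M w.1)) < K ∧ pat X (M w.2) < K
    · simp only [B3, if_pos h]
      refine (near_card hκ).trans ?_
      have hp : (pat X (ssum (ctx A (M w.1)) (M w.2)) : ℝ) ≤ K ^ 2 := by
        have h6 : pat X (ssum (ctx A (M w.1)) (M w.2)) ≤ K * K :=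
          (pat_ssum X _ _).trans (Nat.mul_le_mul h.1.le h.2.le)
        have : (pat X (ssum (ctx A (M w.1)) (M w.2)) : ℝ) ≤ K * K := by exact_mod_cast h6
        nlinarith
      gcongr
    · simp only [B3, if_neg h, Set.ncard_empty, Nat.cast_zero]; positivity
  have h4 : ∀ w, ((B4 w).ncard : ℝ) ≤ κ * K ^ 3 * A.ncard := by
    intro w
    by_cases h : pat X (ctx A (M w.1)) < K ∧ pat X (M w.2.1) < K ∧ pat X (M w.2.2) < K
    · simp only [B4, if_pos h]
      refine (near_card hκ).trans ?_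
      have hp : (pat X (ssum (ctx A (M w.1)) (ssum (M w.2.1) (M w.2.2))) : ℝ) ≤ K ^ 3 := by
        have h6 : pat X (ssum (ctx A (M w.1)) (ssum (M w.2.1) (M w.2.2))) ≤ K * (K * K) :=
          (pat_ssum X _ _).trans (Nat.mul_le_mul h.1.le
            ((pat_ssum X _ _).trans (Nat.mul_le_mul h.2.1.le h.2.2.le)))
        have : (pat X (ssum (ctx A (M w.1)) (ssum (M w.2.1) (M w.2.2))) : ℝ) ≤ K * (K * K) := by
          exact_mod_cast h6
        nlinarith
      gcongr
    · simp only [B4, if_neg h, Set.ncard_empty, Nat.cast_zero]; positivity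
  -- the covering
  by_cases hcase : pat X (ctx A (M top)) < K ∨ K ≤ pat X (M top)
  swap
  · -- few patterns altogether
    push Not at hcase
    have h5 : M top ⊆ near X A (M top) := fun x hx => ⟨htop hx, x, hx, rfl⟩
    have h6 : ((M top).ncard : ℝ) ≤ (near X A (M top)).ncard := by
      exact_mod_cast Set.ncard_le_ncard h5 (Set.toFinite _)
    refine h6.trans ((near_card hκ).trans ?_)
    have h7 : (pat X (M top) : ℝ) ≤ K := by exact_mod_cast hcase.2.le
    have h8 : (K : ℝ) ≤ 3 * s ^ 3 * (K : ℝ) ^ 3 := by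
      have a1 : 1 ≤ s ^ 3 := one_le_pow₀ hgpos
      have a2 : (K : ℝ) ≤ K ^ 3 := by nlinarith [sq_nonneg (K : ℝ)]
      nlinarith
    have h9 : (0 : ℝ) ≤ s * β := by positivity
    have h10 : (0 : ℝ) ≤ s * K * W := by positivity
    have : κ * pat X (M top) ≤ s * β + κ * (s * K * W + 3 * s ^ 3 * (K : ℝ) ^ 3) := by
      have : κ * pat X (M top) ≤ κ * (s * K * W + 3 * s ^ 3 * (K : ℝ) ^ 3) := by
        gcongr; linarith
      linarith
    gcongr
  have hcover : M top ⊆ (⋃ w, B1 w) ∪ (⋃ w, B2 w) ∪ (⋃ w, B3 w) ∪ (⋃ w, B4 w) := by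
    intro x hxtop
    have hx : x ∈ A := htop hxtop
    have h0 : (0 : ι → ZMod 2) ∈ ctx A (M top) := by
      intro y hy; rw [zero_add]; exact htop hy
    have hxx : (0 : ι → ZMod 2) + x = x := zero_add x
    by_cases hl : pat X (ctx A (M top)) < K
    · rcases walk rk W K M A X hM (rk top) top rfl hl 0 h0 x hxtop with
        ⟨w, hw, hmem⟩ | ⟨w, hw, hw', hmem⟩ | ⟨w, a, hw, ha, hmem⟩ | ⟨w, a, b, hw, ha, hb, hmem⟩
      · rw [hxx] at hmem
        refine Or.inl (Or.inl (Or.inl (Set.mem_iUnion.2 ⟨w, ?_⟩)))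
        simp only [B1, if_pos hw]; exact hmem
      · rw [hxx] at hmem
        refine Or.inl (Or.inl (Or.inr (Set.mem_iUnion.2 ⟨w, ?_⟩)))
        simp only [B2, if_pos (And.intro hw hw')]; exact ⟨hx, x, hmem, rfl⟩
      · rw [hxx] at hmem
        refine Or.inl (Or.inr (Set.mem_iUnion.2 ⟨(w, a), ?_⟩))
        simp only [B3, if_pos (And.intro hw ha)]; exact ⟨hx, x, hmem, rfl⟩
      · rw [hxx] at hmem
        refine Or.inr (Set.mem_iUnion.2 ⟨(w, a, b), ?_⟩)
        simp only [B4, if_pos (And.intro hw (And.intro ha hb))]; exact ⟨hx, x, hmem, rfl⟩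
    · push Not at hl
      have hMt : K ≤ pat X (M top) := hcase.resolve_left (not_lt.2 hl)
      refine Or.inl (Or.inl (Or.inl (Set.mem_iUnion.2 ⟨top, ?_⟩)))
      have : Big K M A X top := ⟨hMt, Or.inl hl⟩
      simp only [B1, if_pos this]
      exact ⟨0, h0, x, hxtop, hxx.symm⟩
  -- count
  have hfin : ∀ (τ : Type _) [Fintype τ] (B : τ → Set (ι → ZMod 2)) (b : ℝ),
      (∀ w, ((B w).ncard : ℝ) ≤ b) → ((⋃ w, B w).ncard : ℝ) ≤ Fintype.card τ * b := by
    intro τ _ B b hb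
    have e1 : (⋃ w, B w).ncard ≤ ∑ w, (B w).ncard := by
      have : (⋃ w, B w) = ((Finset.univ.biUnion fun w => (Set.toFinite (B w)).toFinset :
          Finset (ι → ZMod 2)) : Set (ι → ZMod 2)) := by
        ext z
        rw [Finset.mem_coe, Finset.mem_biUnion, Set.mem_iUnion]
        constructor
        · rintro ⟨i, hi⟩
          exact ⟨i, Finset.mem_univ i, (Set.Finite.mem_toFinset _).2 hi⟩
        · rintro ⟨i, -, hi⟩
          exact ⟨i, (Set.Finite.mem_toFinset _).1 hi⟩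
      rw [this, Set.ncard_coe_finset]
      refine Finset.card_biUnion_le.trans (le_of_eq (Finset.sum_congr rfl fun w _ => ?_))
      rw [← Set.ncard_eq_toFinset_card]
    calc ((⋃ w, B w).ncard : ℝ) ≤ ((∑ w, (B w).ncard : ℕ) : ℝ) := by exact_mod_cast e1
      _ = ∑ w, ((B w).ncard : ℝ) := by push_cast; rfl
      _ ≤ ∑ _w : τ, b := Finset.sum_le_sum fun w _ => hb w
      _ = Fintype.card τ * b := by rw [Finset.sum_const, nsmul_eq_mul, Finset.card_univ]
  have hc1 := hfin g B1 _ h1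
  have hc2 := hfin g B2 _ h2
  have hc3 := hfin (g × g) B3 _ h3
  have hc4 := hfin (g × g × g) B4 _ h4
  have htot : ((M top).ncard : ℝ) ≤ (⋃ w, B1 w).ncard + (⋃ w, B2 w).ncard + (⋃ w, B3 w).ncard
      + (⋃ w, B4 w).ncard := by
    have e1 := Set.ncard_le_ncard hcover (Set.toFinite _)
    have e2 := Set.ncard_union_le ((⋃ w, B1 w) ∪ (⋃ w, B2 w) ∪ (⋃ w, B3 w)) (⋃ w, B4 w)
    have e3 := Set.ncard_union_le ((⋃ w, B1 w) ∪ (⋃ w, B2 w)) (⋃ w, B3 w)
    have e4 := Set.ncard_union_le (⋃ w, B1 w) (⋃ w, B2 w)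
    have : (M top).ncard ≤ (⋃ w, B1 w).ncard + (⋃ w, B2 w).ncard + (⋃ w, B3 w).ncard
      + (⋃ w, B4 w).ncard := by omega
    exact_mod_cast this
  simp only [Fintype.card_prod, Nat.cast_mul] at hc3 hc4
  rw [← hs] at hc1 hc2 hc3 hc4
  have hall : ((M top).ncard : ℝ) ≤ (s * β + κ * (s * K * W + 3 * s ^ 3 * (K : ℝ) ^ 3)) *
      A.ncard := by
    have hb1 : s * (κ * (K * W + (K:ℝ) ^ 2) * A.ncard) + s * s * (κ * K ^ 2 * A.ncard)
        + s * (s * s) * (κ * K ^ 3 * A.ncard) ≤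
        A.ncard * (κ * (s * K * W + 3 * s ^ 3 * (K : ℝ) ^ 3)) := by
      have hk : 0 ≤ κ * A.ncard := by positivity
      have e1 : s * (K:ℝ) ^ 2 ≤ s ^ 3 * K ^ 3 := by
        have a1 : s ≤ s ^ 3 := by nlinarith [sq_nonneg (s-1), sq_nonneg s]
        have a2 : (K:ℝ) ^ 2 ≤ K ^ 3 := by nlinarith [sq_nonneg ((K:ℝ))]
        exact mul_le_mul a1 a2 (by positivity) (by positivity)
      have e2 : s * s * (K:ℝ) ^ 2 ≤ s ^ 3 * K ^ 3 := by
        have a1 : s * s ≤ s ^ 3 := by nlinarith [sq_nonneg s]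
        have a2 : (K:ℝ) ^ 2 ≤ K ^ 3 := by nlinarith [sq_nonneg ((K:ℝ))]
        exact mul_le_mul a1 a2 (by positivity) (by positivity)
      have : A.ncard * (κ * (s * K * W + 3 * s ^ 3 * (K : ℝ) ^ 3)) -
          (s * (κ * (K * W + (K:ℝ) ^ 2) * A.ncard) + s * s * (κ * K ^ 2 * A.ncard)
        + s * (s * s) * (κ * K ^ 3 * A.ncard)) = (κ * A.ncard) *
          ((s ^ 3 * K ^ 3 - s * (K:ℝ) ^ 2) + (s ^ 3 * K ^ 3 - s * s * (K:ℝ) ^ 2)) := by ring
      have h9 : 0 ≤ (κ * A.ncard) *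
          ((s ^ 3 * K ^ 3 - s * (K:ℝ) ^ 2) + (s ^ 3 * K ^ 3 - s * s * (K:ℝ) ^ 2)) := by
        apply mul_nonneg hk; linarith
      linarith
    have : ((M top).ncard : ℝ) ≤ s * (β * A.ncard) + (s * (κ * (K * W + (K:ℝ) ^ 2) * A.ncard)
        + s * s * (κ * K ^ 2 * A.ncard) + s * (s * s) * (κ * K ^ 3 * A.ncard)) := by
      linarith
    nlinarith
  exact hall

/-- **Path argument**, the case of an exact representation. -/
theorem path_bound {g : Type*} [Fintype g] (rk : g → ℕ) (W K : ℕ) (hK : 1 ≤ K)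
    (M : g → Set (ι → ZMod 2)) (hM : IsProg rk W M) (A : Set (ι → ZMod 2)) (hA : A.Nonempty)
    (X : Finset ι) (top : g) (htop : M top = A) (β κ : ℝ) (hβ0 : 0 ≤ β) (hκ0 : 0 ≤ κ)
    (hβ : ∀ U U' : Set (ι → ZMod 2), (∀ u ∈ U, ∀ v ∈ U', u + v ∈ A) → K ≤ pat X U →
      K ≤ pat X U' → ((ssum U U').ncard : ℝ) ≤ β * A.ncard)
    (hκ : ∀ p : ι → ZMod 2, ({x | x ∈ A ∧ ∀ i ∈ X, x i = p i}.ncard : ℝ) ≤ κ * A.ncard) :
    1 ≤ (Fintype.card g : ℝ) * β + κ * (Fintype.card g * K * W + 3 * (Fintype.card g : ℝ) ^ 3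
      * (K : ℝ) ^ 3) := by
  have hApos : (0 : ℝ) < A.ncard := by
    exact_mod_cast (Set.ncard_pos (Set.toFinite A)).2 hA
  have h := path_bound_sub rk W K hK M hM A X top htop.le β κ hβ0 hκ0 hβ hκ
  rw [htop] at h
  by_contra hcon
  push Not at hcon
  nlinarith

end Pool.Agent.Dichotomy
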