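import Pool.Agent.Helper91.Dich.Path
import Pool.Agent.Helper91.Dich.Net

/-!
XOR programs with tensor network leaves; the path argument for them.
-/

namespace Pool.Agent.Dichotomy

open Finset

set_option linter.unusedSectionVars false

/-- A set of assignments that is the support of a function with a tree network of width `W` over
some field in some linear basis. -/
def NetLeaf {n : ℕ} (W : ℕ) (S : Set (Fin n → ZMod 2)) : Prop :=
  ∃ (K : Type) (_ : Field K) (f : (Fin n → ZMod 2) → K)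
    (e : (Fin n → ZMod 2) ≃ₗ[ZMod 2] (Fin n → ZMod 2)) (U : Submodule K ((Fin n → ZMod 2) → K)),
    (∀ x, f x ≠ 0 ↔ x ∈ S) ∧ Net K W Finset.univ U ∧ (fun x => f (e x)) ∈ U

/-- A program whose leaves satisfy `Leaf`: every other gate is a union of sets `M a` and of sumsets
`M a + M b` with gates `a`, `b` of smaller rank. -/
def IsProgL {ι g : Type*} (Leaf : Set (ι → ZMod 2) → Prop) (rk : g → ℕ)
    (M : g → Set (ι → ZMod 2)) : Prop :=
  ∀ v, Leaf (M v) ∨ ∃ (Q : Set g) (P : Set (g × g)), (∀ a ∈ Q, rk a < rk v) ∧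
      (∀ p ∈ P, rk p.1 < rk v ∧ rk p.2 < rk v) ∧
      ∀ x, x ∈ M v ↔ (∃ a ∈ Q, x ∈ M a) ∨
        ∃ p ∈ P, ∃ y ∈ M p.1, ∃ z ∈ M p.2, x = y + z

variable {ι : Type*} [Fintype ι] [DecidableEq ι]

/-- The elements of a set in a class. -/
def cls (z0 z1 : ι) (ζ : ZMod 2 × ZMod 2) (S : Set (ι → ZMod 2)) : Set (ι → ZMod 2) :=
  {y | y ∈ S ∧ y z0 = ζ.1 ∧ y z1 = ζ.2}

theorem slice_isProg {g : Type*} {Leaf : Set (ι → ZMod 2) → Prop} {rk : g → ℕ}
    {M : g → Set (ι → ZMod 2)} (hM : IsProgL Leaf rk M) (z0 z1 : ι) :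
    IsProgL (fun S' => ∃ S ζ, Leaf S ∧ S' = cls z0 z1 ζ S)
      (fun v : g × (ZMod 2 × ZMod 2) => rk v.1) (fun v => cls z0 z1 v.2 (M v.1)) := by
  rintro ⟨v, ζ⟩
  rcases hM v with hl | ⟨Q, P, hQ, hP, hmem⟩
  · left; exact ⟨M v, ζ, hl, rfl⟩
  · right
    refine ⟨{a | a.1 ∈ Q ∧ a.2 = ζ}, {p | (p.1.1, p.2.1) ∈ P ∧ p.1.2 + p.2.2 = ζ}, ?_, ?_, ?_⟩
    · rintro ⟨a, ξ⟩ ⟨ha, -⟩; exact hQ a ha
    · rintro ⟨⟨a, ξ⟩, ⟨b, η⟩⟩ ⟨hp, -⟩; exact hP (a, b) hp
    · intro x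
      constructor
      · rintro ⟨hx, h0, h1⟩
        rcases (hmem x).1 hx with ⟨a, ha, hxa⟩ | ⟨p, hp, y1, hy1, y2, hy2, rfl⟩
        · exact Or.inl ⟨(a, ζ), ⟨ha, rfl⟩, hxa, h0, h1⟩
        · refine Or.inr ⟨((p.1, y1 z0, y1 z1), (p.2, y2 z0, y2 z1)), ⟨hp, ?_⟩,
            y1, ⟨hy1, rfl, rfl⟩, y2, ⟨hy2, rfl, rfl⟩, rfl⟩
          exact Prod.ext h0 h1
      · rintro (⟨⟨a, ξ⟩, ⟨ha, hξ⟩, hx, h0, h1⟩ |
          ⟨⟨⟨a, ξ⟩, ⟨b, η⟩⟩, ⟨hp, hξ⟩, y1, ⟨hy1, h01, h11⟩, y2, ⟨hy2, h02, h12⟩, rfl⟩)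
        · simp only at hξ h0 h1 hx
          subst hξ
          exact ⟨(hmem x).2 (Or.inl ⟨a, ha, hx⟩), h0, h1⟩
        · have e0 : ξ.1 + η.1 = ζ.1 := congrArg Prod.fst hξ
          have e1 : ξ.2 + η.2 = ζ.2 := congrArg Prod.snd hξ
          refine ⟨(hmem _).2 (Or.inr ⟨(a, b), hp, y1, hy1, y2, hy2, rfl⟩), ?_, ?_⟩
          · rw [Pi.add_apply, h01, h02]; exact e0
          · rw [Pi.add_apply, h11, h12]; exact e1

section main

variable {g : Type*} [Fintype g] {Leaf : Set (ι → ZMod 2) → Prop} (rk : g → ℕ) (K : ℕ)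
  (M : g → Set (ι → ZMod 2)) (A : Set (ι → ZMod 2))

theorem walk3 (hM : IsProgL Leaf rk M) : ∀ n : ℕ, ∀ v : g, rk v = n →
    (ctx A (M v)).ncard < K → ∀ c ∈ ctx A (M v), ∀ y ∈ M v,
      (∃ w, K ≤ (M w).ncard ∧ K ≤ (ctx A (M w)).ncard ∧ c + y ∈ ssum (ctx A (M w)) (M w)) ∨
      (∃ w, Leaf (M w) ∧ (ctx A (M w)).ncard < K ∧ c + y ∈ ssum (ctx A (M w)) (M w)) ∨
      (∃ w a, (ctx A (M w)).ncard < K ∧ (M a).ncard < K ∧
        c + y ∈ ssum (ctx A (M w)) (M a)) ∨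
      (∃ w a b, (ctx A (M w)).ncard < K ∧ (M a).ncard < K ∧ (M b).ncard < K ∧
        c + y ∈ ssum (ctx A (M w)) (ssum (M a) (M b))) := by
  intro n
  induction n using Nat.strong_induction_on with
  | _ n ih =>
    intro v hv hlight c hc y hy
    rcases hM v with hleaf | ⟨Q, P, hQ, hP, hmem⟩
    · exact Or.inr (Or.inl ⟨v, hleaf, hlight, c, hc, y, hy, rfl⟩)
    · rcases (hmem y).1 hy with ⟨a, ha, hya⟩ | ⟨p, hp, y1, hy1, y2, hy2, rfl⟩
      · -- a union
        have hca : c ∈ ctx A (M a) := fun y' hy' => hc y' ((hmem y').2 (Or.inl ⟨a, ha, hy'⟩))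
        by_cases hla : (ctx A (M a)).ncard < K
        · exact ih (rk a) (hv ▸ hQ a ha) a rfl hla c hca y hya
        · push Not at hla
          by_cases hMa : K ≤ (M a).ncard
          · exact Or.inl ⟨a, hMa, hla, c, hca, y, hya, rfl⟩
          · push Not at hMa
            exact Or.inr (Or.inr (Or.inl ⟨v, a, hlight, hMa, c, hc, y, hya, rfl⟩))
      · -- a sum
        have hmem' : ∀ z1 ∈ M p.1, ∀ z2 ∈ M p.2, z1 + z2 ∈ M v := by
          intro z1 hz1 z2 hz2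
          exact (hmem _).2 (Or.inr ⟨p, hp, z1, hz1, z2, hz2, rfl⟩)
        rcases le_total (M p.2).ncard (M p.1).ncard with hle | hle
        · have hca : c + y2 ∈ ctx A (M p.1) := by
            intro y' hy'
            have := hc _ (hmem' y' hy' y2 hy2)
            have heq : c + y2 + y' = c + (y' + y2) := by abel
            rw [heq]; exact this
          have heq : c + (y1 + y2) = c + y2 + y1 := by abel
          by_cases hla : (ctx A (M p.1)).ncard < K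
          · have := ih (rk p.1) (hv ▸ (hP p hp).1) p.1 rfl hla (c + y2) hca y1 hy1
            rw [heq]; exact this
          · push Not at hla
            by_cases hMa : K ≤ (M p.1).ncard
            · exact Or.inl ⟨p.1, hMa, hla, c + y2, hca, y1, hy1, heq⟩
            · push Not at hMa
              exact Or.inr (Or.inr (Or.inr ⟨v, p.1, p.2, hlight, hMa, lt_of_le_of_lt hle hMa,
                c, hc, y1 + y2, ⟨y1, hy1, y2, hy2, rfl⟩, rfl⟩))
        · have hca : c + y1 ∈ ctx A (M p.2) := by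
            intro y' hy'
            have := hc _ (hmem' y1 hy1 y' hy')
            have heq : c + y1 + y' = c + (y1 + y') := by abel
            rw [heq]; exact this
          have heq : c + (y1 + y2) = c + y1 + y2 := by abel
          by_cases hla : (ctx A (M p.2)).ncard < K
          · have := ih (rk p.2) (hv ▸ (hP p hp).2) p.2 rfl hla (c + y1) hca y2 hy2
            rw [heq]; exact this
          · push Not at hla
            by_cases hMa : K ≤ (M p.2).ncard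
            · exact Or.inl ⟨p.2, hMa, hla, c + y1, hca, y2, hy2, heq⟩
            · push Not at hMa
              exact Or.inr (Or.inr (Or.inr ⟨v, p.1, p.2, hlight, lt_of_le_of_lt hle hMa, hMa,
                c, hc, y1 + y2, ⟨y1, hy1, y2, hy2, rfl⟩, rfl⟩))

end main

theorem ncard_iUnion_le {τ : Type*} [Fintype τ] (B : τ → Set (ι → ZMod 2)) (b : ℝ)
    (hb : ∀ w, ((B w).ncard : ℝ) ≤ b) : ((⋃ w, B w).ncard : ℝ) ≤ Fintype.card τ * b := by
  classical
  have e1 : (⋃ w, B w).ncard ≤ ∑ w, (B w).ncard := by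
    have : (⋃ w, B w) = ((Finset.univ.biUnion fun w => (Set.toFinite (B w)).toFinset :
        Finset (ι → ZMod 2)) : Set (ι → ZMod 2)) := by
      ext z
      rw [Finset.mem_coe, Finset.mem_biUnion, Set.mem_iUnion]
      constructor
      · rintro ⟨i, hi⟩
        exact ⟨i, Finset.mem_univ i, (Set.Finite.mem_toFinset _).2 hi⟩
      · rintro ⟨i, -, hi⟩
        exact ⟨i, (Set.Finite.mem_toFinset _).1 hi⟩
    rw [this, Set.ncard_coe_finset]
    refine Finset.card_biUnion_le.trans (le_of_eq (Finset.sum_congr rfl fun w _ => ?_))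
    rw [← Set.ncard_eq_toFinset_card]
  calc ((⋃ w, B w).ncard : ℝ) ≤ ((∑ w, (B w).ncard : ℕ) : ℝ) := by exact_mod_cast e1
    _ = ∑ w, ((B w).ncard : ℝ) := by push_cast; rfl
    _ ≤ ∑ _w : τ, b := Finset.sum_le_sum fun w _ => hb w
    _ = Fintype.card τ * b := by rw [Finset.sum_const, nsmul_eq_mul, Finset.card_univ]

theorem ssum_ncard (U U' : Set (ι → ZMod 2)) : (ssum U U').ncard ≤ U.ncard * U'.ncard := by
  classical
  have hsub : ssum U U' ⊆ (fun p : (ι → ZMod 2) × (ι → ZMod 2) => p.1 + p.2) '' (U ×ˢ U') := by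
    rintro _ ⟨u, hu, v, hv, rfl⟩
    exact ⟨(u, v), ⟨hu, hv⟩, rfl⟩
  calc (ssum U U').ncard ≤ _ := Set.ncard_le_ncard hsub (Set.toFinite _)
    _ ≤ (U ×ˢ U').ncard := Set.ncard_image_le (Set.toFinite _)
    _ = _ := Set.ncard_prod

/-- **Path argument** for programs with general leaves. -/
theorem path_bound3 {g : Type*} [Fintype g] {Leaf : Set (ι → ZMod 2) → Prop} (rk : g → ℕ)
    (K : ℕ) (hK : 1 ≤ K)
    (M : g → Set (ι → ZMod 2)) (hM : IsProgL Leaf rk M) (A : Set (ι → ZMod 2))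
    (top : g) (htop : M top = A) (β lam : ℝ) (hβ0 : 0 ≤ β) (hlam0 : 0 ≤ lam)
    (hβ : ∀ U U' : Set (ι → ZMod 2), (∀ u ∈ U, ∀ v ∈ U', u + v ∈ A) → K ≤ U.ncard →
      K ≤ U'.ncard → ((ssum U U').ncard : ℝ) ≤ β * A.ncard)
    (hlam : ∀ S, Leaf S → (ctx A S).ncard < K → ((ssum (ctx A S) S).ncard : ℝ) ≤ lam * A.ncard) :
    (A.ncard : ℝ) ≤ (Fintype.card g : ℝ) * (β * A.ncard) + (Fintype.card g : ℝ) * (lam * A.ncard)
      + 2 * (Fintype.card g : ℝ) ^ 3 * (K : ℝ) ^ 3 := by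
  classical
  have hgpos : (1 : ℝ) ≤ (Fintype.card g : ℝ) := by
    exact_mod_cast Fintype.card_pos_iff.2 ⟨top⟩
  have hKr : (1 : ℝ) ≤ K := by exact_mod_cast hK
  obtain ⟨s, hs⟩ : ∃ s : ℝ, s = (Fintype.card g : ℝ) := ⟨_, rfl⟩
  rw [← hs] at hgpos ⊢
  let B1 : g → Set (ι → ZMod 2) := fun w =>
    if K ≤ (M w).ncard ∧ K ≤ (ctx A (M w)).ncard then ssum (ctx A (M w)) (M w) else ∅
  let B2 : g → Set (ι → ZMod 2) := fun w =>
    if Leaf (M w) ∧ (ctx A (M w)).ncard < K then ssum (ctx A (M w)) (M w) else ∅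
  let B3 : g × g → Set (ι → ZMod 2) := fun w =>
    if (ctx A (M w.1)).ncard < K ∧ (M w.2).ncard < K then ssum (ctx A (M w.1)) (M w.2) else ∅
  let B4 : g × g × g → Set (ι → ZMod 2) := fun w =>
    if (ctx A (M w.1)).ncard < K ∧ (M w.2.1).ncard < K ∧ (M w.2.2).ncard < K then
      ssum (ctx A (M w.1)) (ssum (M w.2.1) (M w.2.2)) else ∅
  have h1 : ∀ w, ((B1 w).ncard : ℝ) ≤ β * A.ncard := by
    intro w
    by_cases h : K ≤ (M w).ncard ∧ K ≤ (ctx A (M w)).ncard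
    · simp only [B1, if_pos h]
      exact hβ _ _ (fun u hu v hv => hu v hv) h.2 h.1
    · simp only [B1, if_neg h, Set.ncard_empty, Nat.cast_zero]; positivity
  have h2 : ∀ w, ((B2 w).ncard : ℝ) ≤ lam * A.ncard := by
    intro w
    by_cases h : Leaf (M w) ∧ (ctx A (M w)).ncard < K
    · simp only [B2, if_pos h]; exact hlam _ h.1 h.2
    · simp only [B2, if_neg h, Set.ncard_empty, Nat.cast_zero]; positivity
  have h3 : ∀ w, ((B3 w).ncard : ℝ) ≤ K ^ 2 := by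
    intro w
    by_cases h : (ctx A (M w.1)).ncard < K ∧ (M w.2).ncard < K
    · simp only [B3, if_pos h]
      have := (ssum_ncard (ctx A (M w.1)) (M w.2)).trans (Nat.mul_le_mul h.1.le h.2.le)
      rw [sq]; exact_mod_cast this
    · simp only [B3, if_neg h, Set.ncard_empty, Nat.cast_zero]; positivity
  have h4 : ∀ w, ((B4 w).ncard : ℝ) ≤ K ^ 3 := by
    intro w
    by_cases h : (ctx A (M w.1)).ncard < K ∧ (M w.2.1).ncard < K ∧ (M w.2.2).ncard < K
    · simp only [B4, if_pos h]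
      have h5 := (ssum_ncard (M w.2.1) (M w.2.2)).trans (Nat.mul_le_mul h.2.1.le h.2.2.le)
      have h6 := (ssum_ncard (ctx A (M w.1)) (ssum (M w.2.1) (M w.2.2))).trans
        (Nat.mul_le_mul h.1.le h5)
      have h7 : ((ssum (ctx A (M w.1)) (ssum (M w.2.1) (M w.2.2))).ncard : ℝ) ≤
          K * (K * K) := by exact_mod_cast h6
      have e : (K : ℝ) ^ 3 = K * (K * K) := by ring
      rw [e]; exact h7
    · simp only [B4, if_neg h, Set.ncard_empty, Nat.cast_zero]; positivity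
  have hK3 : (K : ℝ) ≤ 2 * s ^ 3 * (K : ℝ) ^ 3 := by
    have a1 : 1 ≤ s ^ 3 := one_le_pow₀ hgpos
    have a2 : (K : ℝ) ≤ K ^ 3 := by
      have : (K : ℝ) ^ 1 ≤ K ^ 3 := pow_le_pow_right₀ hKr (by norm_num)
      rwa [pow_one] at this
    have a3 : (K : ℝ) ^ 3 ≤ s ^ 3 * K ^ 3 := by
      have := mul_le_mul_of_nonneg_right a1 (show (0 : ℝ) ≤ (K : ℝ) ^ 3 by positivity)
      rwa [one_mul] at this
    have a4 : 0 ≤ s ^ 3 * (K : ℝ) ^ 3 := by positivity
    linarith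
  have hA0 : (0 : ℝ) ≤ (A.ncard : ℝ) := Nat.cast_nonneg _
  have hβA : 0 ≤ s * (β * A.ncard) := by positivity
  have hlA : 0 ≤ s * (lam * A.ncard) := by positivity
  by_cases hcase : (ctx A (M top)).ncard < K ∨ K ≤ (M top).ncard
  swap
  · push Not at hcase
    have h5 : (A.ncard : ℝ) ≤ K := by
      rw [htop] at hcase
      exact_mod_cast hcase.2.le
    linarith
  have hcover : A ⊆ (⋃ w, B1 w) ∪ (⋃ w, B2 w) ∪ (⋃ w, B3 w) ∪ (⋃ w, B4 w) := by
    intro x hx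
    have hxtop : x ∈ M top := by rw [htop]; exact hx
    have h0 : (0 : ι → ZMod 2) ∈ ctx A (M top) := by
      intro y hy; rw [zero_add, ← htop]; exact hy
    have hxx : (0 : ι → ZMod 2) + x = x := zero_add x
    by_cases hl : (ctx A (M top)).ncard < K
    · rcases walk3 rk K M A hM (rk top) top rfl hl 0 h0 x hxtop with
        ⟨w, hw, hw', hmem⟩ | ⟨w, hw, hw', hmem⟩ | ⟨w, a, hw, ha, hmem⟩ | ⟨w, a, b, hw, ha, hb, hmem⟩
      · rw [hxx] at hmem
        refine Or.inl (Or.inl (Or.inl (Set.mem_iUnion.2 ⟨w, ?_⟩)))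
        simp only [B1, if_pos (And.intro hw hw')]; exact hmem
      · rw [hxx] at hmem
        refine Or.inl (Or.inl (Or.inr (Set.mem_iUnion.2 ⟨w, ?_⟩)))
        simp only [B2, if_pos (And.intro hw hw')]; exact hmem
      · rw [hxx] at hmem
        refine Or.inl (Or.inr (Set.mem_iUnion.2 ⟨(w, a), ?_⟩))
        simp only [B3, if_pos (And.intro hw ha)]; exact hmem
      · rw [hxx] at hmem
        refine Or.inr (Set.mem_iUnion.2 ⟨(w, a, b), ?_⟩)
        simp only [B4, if_pos (And.intro hw (And.intro ha hb))]; exact hmem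
    · push Not at hl
      have hMt : K ≤ (M top).ncard := hcase.resolve_left (not_lt.2 hl)
      refine Or.inl (Or.inl (Or.inl (Set.mem_iUnion.2 ⟨top, ?_⟩)))
      simp only [B1, if_pos (And.intro hMt hl)]
      exact ⟨0, h0, x, hxtop, hxx.symm⟩
  have hc1 := ncard_iUnion_le B1 _ h1
  have hc2 := ncard_iUnion_le B2 _ h2
  have hc3 := ncard_iUnion_le B3 _ h3
  have hc4 := ncard_iUnion_le B4 _ h4
  have htot : (A.ncard : ℝ) ≤ (⋃ w, B1 w).ncard + (⋃ w, B2 w).ncard + (⋃ w, B3 w).ncard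
      + (⋃ w, B4 w).ncard := by
    have e1 := Set.ncard_le_ncard hcover (Set.toFinite _)
    have e2 := Set.ncard_union_le ((⋃ w, B1 w) ∪ (⋃ w, B2 w) ∪ (⋃ w, B3 w)) (⋃ w, B4 w)
    have e3 := Set.ncard_union_le ((⋃ w, B1 w) ∪ (⋃ w, B2 w)) (⋃ w, B3 w)
    have e4 := Set.ncard_union_le (⋃ w, B1 w) (⋃ w, B2 w)
    have : A.ncard ≤ (⋃ w, B1 w).ncard + (⋃ w, B2 w).ncard + (⋃ w, B3 w).ncard
      + (⋃ w, B4 w).ncard := by omega
    exact_mod_cast this
  simp only [Fintype.card_prod, Nat.cast_mul] at hc3 hc4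
  rw [← hs] at hc1 hc2 hc3 hc4
  have e3 : s * s * (K : ℝ) ^ 2 ≤ s ^ 3 * K ^ 3 := by
    have a1 : s * s ≤ s ^ 3 := by
      have : s ^ 2 ≤ s ^ 3 := pow_le_pow_right₀ hgpos (by norm_num)
      calc s * s = s ^ 2 := by ring
        _ ≤ _ := this
    have a2 : (K : ℝ) ^ 2 ≤ K ^ 3 := pow_le_pow_right₀ hKr (by norm_num)
    exact mul_le_mul a1 a2 (by positivity) (by positivity)
  have e4 : s * (s * s) * (K : ℝ) ^ 3 = s ^ 3 * K ^ 3 := by ring
  linarith

end Pool.Agent.Dichotomy
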