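import Pool.Agent.Helper91.Dich.Mix

/-!
Two complementary linear maps `P`, `Q` and a sequence of edges that are mixed for them: the
deterministic part and the mixing bound.
-/

namespace Pool.Agent.Dichotomy

open Finset Module

set_option linter.unusedSectionVars false

section

variable {V : Type} [Fintype V] [DecidableEq V]

/-- The values at the two ends of an edge. -/
def at2 (e : V × V) : (V → ZMod 2) →ₗ[ZMod 2] (ZMod 2 × ZMod 2) :=
  LinearMap.prod (LinearMap.proj e.1) (LinearMap.proj e.2)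

theorem at2_apply (e : V × V) (x : V → ZMod 2) : at2 e x = (x e.1, x e.2) := rfl

/-- The span of a set of patterns. -/
def Dc (S : Finset (ZMod 2 × ZMod 2)) : Submodule (ZMod 2) (ZMod 2 × ZMod 2) :=
  Submodule.span (ZMod 2) (S : Set (ZMod 2 × ZMod 2))

/-- The differences that are possible on the other side. -/
def Lc (S : Finset (ZMod 2 × ZMod 2)) : Submodule (ZMod 2) (ZMod 2 × ZMod 2) where
  carrier := {v | v = 0 ∨ ∀ s ∈ S, s = 0 ∨ s = v}
  add_mem' := by
    rintro u v (hu | hu) (hv | hv)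
    · left; rw [hu, hv, add_zero]
    · right; rw [hu, zero_add]; exact hv
    · right; rw [hv, add_zero]; exact hu
    · by_cases h : ∃ s ∈ S, s ≠ 0
      · obtain ⟨s, hs, hs0⟩ := h
        left
        have h1 := (hu s hs).resolve_left hs0
        have h2 := (hv s hs).resolve_left hs0
        rw [← h1, ← h2]
        have : ∀ s : ZMod 2 × ZMod 2, s + s = 0 := by decide
        exact this s
      · push Not at h
        right
        intro s hs
        exact Or.inl (h s hs)
  zero_mem' := Or.inl rfl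
  smul_mem' := by
    intro c v hv
    have h01 : ∀ c : ZMod 2, c = 0 ∨ c = 1 := by decide
    rcases h01 c with rfl | rfl
    · left; exact zero_smul _ v
    · rw [one_smul]; exact hv

theorem mem_Lc {S : Finset (ZMod 2 × ZMod 2)} {v : ZMod 2 × ZMod 2} :
    v ∈ Lc S ↔ v = 0 ∨ ∀ s ∈ S, s = 0 ∨ s = v := Iff.rfl

variable (G : SimpleGraph V) (P Q : (V → ZMod 2) →ₗ[ZMod 2] (V → ZMod 2)) (f : ℕ → V × V)

/-- The common zeros of the functionals of the first `i` edges. -/
def KK (i : ℕ) : Submodule (ZMod 2) (V → ZMod 2) where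
  carrier := {x | ∀ j < i, at2 (f j) (P x) = 0 ∧ at2 (f j) (Q x) = 0}
  add_mem' := by
    intro x y hx hy j hj
    simp only [map_add, (hx j hj).1, (hx j hj).2, (hy j hj).1, (hy j hj).2, add_zero, and_self]
  zero_mem' := by intro j _; simp only [map_zero, and_self]
  smul_mem' := by
    intro c x hx j hj
    simp only [map_smul, (hx j hj).1, (hx j hj).2, smul_zero, and_self]

theorem mem_KK {i : ℕ} {x : V → ZMod 2} :
    x ∈ KK P Q f i ↔ ∀ j < i, at2 (f j) (P x) = 0 ∧ at2 (f j) (Q x) = 0 := Iff.rfl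

/-- The sequence is mixed. -/
def Good (m : ℕ) : Prop :=
  ∀ i < m, G.Adj (f i).1 (f i).2 ∧ (∃ x ∈ KK P Q f i, at2 (f i) (P x) ≠ 0) ∧
    (∃ x ∈ KK P Q f i, at2 (f i) (Q x) ≠ 0) ∧
    ∀ l : ZMod 2 × ZMod 2, l ≠ 0 → ∃ x ∈ KK P Q f i, l.1 * x (f i).1 + l.2 * x (f i).2 ≠ 0

theorem finrank_KK (i : ℕ) :
    Fintype.card V ≤ finrank (ZMod 2) (KK P Q f i) + 4 * i := by
  let L : (V → ZMod 2) →ₗ[ZMod 2] (Fin i → (ZMod 2 × ZMod 2) × (ZMod 2 × ZMod 2)) :=
    LinearMap.pi fun j => LinearMap.prod ((at2 (f j)).comp P) ((at2 (f j)).comp Q)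
  have hL : ∀ x j, L x j = (at2 (f j) (P x), at2 (f j) (Q x)) := fun _ _ => rfl
  have hker : LinearMap.ker L = KK P Q f i := by
    ext x
    rw [LinearMap.mem_ker, mem_KK]
    constructor
    · intro h j hj
      have h1 := congrFun h ⟨j, hj⟩
      rw [hL] at h1
      exact ⟨congrArg Prod.fst h1, congrArg Prod.snd h1⟩
    · intro h
      funext j
      rw [hL, (h j j.2).1, (h j j.2).2]
      rfl
  have h1 := LinearMap.finrank_range_add_finrank_ker L
  rw [hker, Module.finrank_fintype_fun_eq_card] at h1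
  have h2 : finrank (ZMod 2) (LinearMap.range L) ≤ 4 * i := by
    refine (Submodule.finrank_le _).trans (le_of_eq ?_)
    rw [Module.finrank_pi_fintype]
    simp only [Module.finrank_prod, Module.finrank_self, sum_const, card_univ, Fintype.card_fin,
      smul_eq_mul]
    ring
  omega

variable {m : ℕ} (S : Fin m → Finset (ZMod 2 × ZMod 2))

/-- The conditions of the first `i` edges. -/
def UU (i : ℕ) : Submodule (ZMod 2) (V → ZMod 2) where
  carrier := {x | ∀ j : Fin m, (j : ℕ) < i → at2 (f j) (P x) ∈ Dc (S j) ∧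
    at2 (f j) (Q x) ∈ Lc (S j)}
  add_mem' := by
    intro x y hx hy j hj
    simp only [map_add]
    exact ⟨(Dc (S j)).add_mem (hx j hj).1 (hy j hj).1, (Lc (S j)).add_mem (hx j hj).2 (hy j hj).2⟩
  zero_mem' := by
    intro j _
    simp only [map_zero]
    exact ⟨(Dc (S j)).zero_mem, (Lc (S j)).zero_mem⟩
  smul_mem' := by
    intro c x hx j hj
    simp only [map_smul]
    exact ⟨(Dc (S j)).smul_mem _ (hx j hj).1, (Lc (S j)).smul_mem _ (hx j hj).2⟩

theorem mem_UU {i : ℕ} {x : V → ZMod 2} :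
    x ∈ UU P Q f S i ↔ ∀ j : Fin m, (j : ℕ) < i → at2 (f j) (P x) ∈ Dc (S j) ∧
    at2 (f j) (Q x) ∈ Lc (S j) := Iff.rfl

/-- One step of the deterministic part. -/
theorem exists_notMem {K : Submodule (ZMod 2) (V → ZMod 2)} {e : V × V}
    (hPQ : ∀ z, P z + Q z = z) (h1 : ∃ x ∈ K, at2 e (P x) ≠ 0) (h2 : ∃ x ∈ K, at2 e (Q x) ≠ 0)
    (h3 : ∀ l : ZMod 2 × ZMod 2, l ≠ 0 → ∃ x ∈ K, l.1 * x e.1 + l.2 * x e.2 ≠ 0)
    (T : Finset (ZMod 2 × ZMod 2)) :
    ∃ x ∈ K, ¬ (at2 e (P x) ∈ Dc T ∧ at2 e (Q x) ∈ Lc T) := by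
  by_cases hT : ∀ s ∈ T, s = 0
  · obtain ⟨x, hx, hx1⟩ := h1
    refine ⟨x, hx, fun h => hx1 ?_⟩
    have : Dc T = ⊥ := by
      rw [Dc, Submodule.span_eq_bot]
      intro s hs; exact hT s (Finset.mem_coe.1 hs)
    rw [this] at h
    exact (Submodule.mem_bot _).1 h.1
  · push Not at hT
    obtain ⟨d, hdT, hd0⟩ := hT
    by_cases hT2 : ∀ s ∈ T, s = 0 ∨ s = d
    · obtain ⟨x, hx, hx1⟩ := h3 (d.2, d.1) (by
        intro h; apply hd0
        exact Prod.ext (congrArg Prod.snd h) (congrArg Prod.fst h))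
      refine ⟨x, hx, fun h => hx1 ?_⟩
      have hp : at2 e (P x) = 0 ∨ at2 e (P x) = d := by
        have h4 : Dc T ≤ Submodule.span (ZMod 2) {d} := by
          rw [Dc, Submodule.span_le]
          intro s hs
          rcases hT2 s (Finset.mem_coe.1 hs) with h5 | h5
          · rw [h5]; exact Submodule.zero_mem _
          · rw [h5]; exact Submodule.mem_span_singleton_self d
        obtain ⟨c, hc⟩ := Submodule.mem_span_singleton.1 (h4 h.1)
        have h01 : ∀ c : ZMod 2, c = 0 ∨ c = 1 := by decide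
        rcases h01 c with rfl | rfl
        · left; rw [← hc, zero_smul]
        · right; rw [← hc, one_smul]
      have hq : at2 e (Q x) = 0 ∨ at2 e (Q x) = d := by
        rcases mem_Lc.1 h.2 with h5 | h5
        · exact Or.inl h5
        · exact Or.inr ((h5 d hdT).resolve_left hd0).symm
      have hsum : at2 e x = at2 e (P x) + at2 e (Q x) := by rw [← map_add, hPQ]
      have key : ∀ d p q : ZMod 2 × ZMod 2, (p = 0 ∨ p = d) → (q = 0 ∨ q = d) →
          d.2 * (p + q).1 + d.1 * (p + q).2 = 0 := by decide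
      have := key d _ _ hp hq
      rw [← hsum] at this
      exact this
    · push Not at hT2
      obtain ⟨d', hd'T, hd'0, hdd'⟩ := hT2
      obtain ⟨x, hx, hx1⟩ := h2
      refine ⟨x, hx, fun h => hx1 ?_⟩
      rcases mem_Lc.1 h.2 with h5 | h5
      · exact h5
      · exact absurd (((h5 d' hd'T).resolve_left hd'0).trans
          ((h5 d hdT).resolve_left hd0).symm) hdd'

theorem finrank_UU (hPQ : ∀ z, P z + Q z = z) (hf : Good G P Q f m) : ∀ i ≤ m,
    finrank (ZMod 2) (UU P Q f S i) + i ≤ Fintype.card V := by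
  intro i
  induction i with
  | zero =>
    intro _
    have := Submodule.finrank_le (UU P Q f S 0)
    rw [Module.finrank_fintype_fun_eq_card] at this
    omega
  | succ i ih =>
    intro hi
    have h1 := ih (by omega)
    obtain ⟨-, hg1, hg2, hg3⟩ := hf i (by omega)
    have hle : UU P Q f S (i + 1) ≤ UU P Q f S i := by
      intro x hx j hj
      exact hx j (by omega)
    have hlt : UU P Q f S (i + 1) < UU P Q f S i := by
      refine lt_of_le_of_ne hle fun heq => ?_
      obtain ⟨x, hx, hx1⟩ := exists_notMem P Q hPQ hg1 hg2 hg3 (S ⟨i, by omega⟩)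
      have hxU : x ∈ UU P Q f S i := by
        intro j hj
        rw [(mem_KK P Q f).1 hx j hj |>.1, (mem_KK P Q f).1 hx j hj |>.2]
        exact ⟨Submodule.zero_mem _, Submodule.zero_mem _⟩
      rw [← heq] at hxU
      exact hx1 (hxU ⟨i, by omega⟩ (Nat.lt_succ_self i))
    have := Submodule.finrank_lt_finrank_of_lt hlt
    omega

/-- The conditions on the first side. -/
def ZZ : Submodule (ZMod 2) (V → ZMod 2) where
  carrier := {x | ∀ j : Fin m, at2 (f j) (P x) ∈ Dc (S j)}
  add_mem' := by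
    intro x y hx hy j
    simp only [map_add]
    exact (Dc (S j)).add_mem (hx j) (hy j)
  zero_mem' := by
    intro j
    simp only [map_zero]
    exact (Dc (S j)).zero_mem
  smul_mem' := by
    intro c x hx j
    simp only [map_smul]
    exact (Dc (S j)).smul_mem _ (hx j)

/-- The conditions on the second side. -/
def LL : Submodule (ZMod 2) (V → ZMod 2) where
  carrier := {x | ∀ j : Fin m, at2 (f j) (Q x) ∈ Lc (S j)}
  add_mem' := by
    intro x y hx hy j
    simp only [map_add]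
    exact (Lc (S j)).add_mem (hx j) (hy j)
  zero_mem' := by
    intro j
    simp only [map_zero]
    exact (Lc (S j)).zero_mem
  smul_mem' := by
    intro c x hx j
    simp only [map_smul]
    exact (Lc (S j)).smul_mem _ (hx j)

theorem det5 (hPQ : ∀ z, P z + Q z = z) (hf : Good G P Q f m) :
    finrank (ZMod 2) (ZZ P f S) + finrank (ZMod 2) (LL Q f S) + m ≤ 2 * Fintype.card V := by
  have h1 := finrank_UU G P Q f S hPQ hf m le_rfl
  have h2 : UU P Q f S m = ZZ P f S ⊓ LL Q f S := by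
    ext x
    rw [mem_UU, Submodule.mem_inf]
    constructor
    · intro h; exact ⟨fun j => (h j j.2).1, fun j => (h j j.2).2⟩
    · intro h j _; exact ⟨h.1 j, h.2 j⟩
  rw [h2] at h1
  have h3 := Submodule.finrank_sup_add_finrank_inf_eq (ZZ P f S) (LL Q f S)
  have h4 := Submodule.finrank_le (ZZ P f S ⊔ LL Q f S)
  rw [Module.finrank_fintype_fun_eq_card] at h4
  omega

/-- The type of a tuple. -/
noncomputable def typ {k : ℕ} (m : ℕ) (τ : Fin (k + 1) → V → ZMod 2) :
    Fin m → Finset (ZMod 2 × ZMod 2) :=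
  fun j => Finset.univ.image fun i => at2 (f j) (P (τ i + τ 0))

theorem mem_ZZ_typ {k : ℕ} (τ : Fin (k + 1) → V → ZMod 2) (i : Fin (k + 1)) :
    τ i + τ 0 ∈ ZZ P f (typ P f m τ) := by
  intro j
  exact Submodule.subset_span (Finset.mem_coe.2 (mem_image_of_mem _ (mem_univ i)))

theorem mem_LL_of_all (hf : ∀ i < m, G.Adj (f i).1 (f i).2) {k : ℕ}
    {τ : Fin (k + 1) → V → ZMod 2} {y0 y1 : V → ZMod 2}
    (h : ∀ i, P (τ i) + Q y0 ∈ VC G ∧ P (τ i) + Q y1 ∈ VC G) :
    y1 + y0 ∈ LL Q f (typ P f m τ) := by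
  intro j
  rw [mem_Lc]
  by_cases hq : at2 (f j) (Q (y1 + y0)) = 0
  · exact Or.inl hq
  · right
    intro s hs
    obtain ⟨i, -, rfl⟩ := mem_image.1 hs
    rcases edge_dichotomy G P Q (h 0).1 (h i).1 (h 0).2 (h i).2 (hf j j.2) with h1 | h1 | h1
    · left; exact Prod.ext h1.1 h1.2
    · exact absurd (Prod.ext h1.1 h1.2) hq
    · right; exact Prod.ext h1.1 h1.2

/-- **The mixing bound.** -/
theorem mixing_bound5 (D : ℕ) (hD : ∀ v, (G.neighborSet v).ncard ≤ D)
    (hPQ : ∀ z, P z + Q z = z) (hf : Good G P Q f m) (k t : ℕ)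
    (ht : t ≤ ((m + 1) / 2) / (D + 1)) [∀ x y, Decidable (P x + Q y ∈ VC G)] :
    ((((VCf G ×ˢ VCf G).filter fun p => P p.1 + Q p.2 ∈ VC G).card : ℝ)) ^ (2 * (k + 1)) ≤
      (16 ^ m * ((2 ^ (D + 1) / (2 ^ (D + 1) + 1)) ^ t) ^ k +
        (2 ^ (D + 1) / (2 ^ (D + 1) + 1)) ^ t) * ((VCf G).card : ℝ) ^ (4 * (k + 1)) := by
  classical
  obtain ⟨n, hcardV⟩ : ∃ n, Fintype.card V = n := ⟨_, rfl⟩
  obtain ⟨ρ, hρ⟩ : ∃ ρ : ℝ, ρ = 2 ^ (D + 1) / (2 ^ (D + 1) + 1) := ⟨_, rfl⟩
  have hρ0 : 0 ≤ ρ := by rw [hρ]; positivity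
  rw [← hρ]
  obtain ⟨a, ha⟩ : ∃ a : ℝ, a = ((VCf G).card : ℝ) := ⟨_, rfl⟩
  have ha0 : 0 ≤ a := by rw [ha]; exact Nat.cast_nonneg _
  have hpm := power_mean (VCf G) (fun x y => P x + Q y ∈ VC G) k
  -- good and bad types
  let BadT : (Fin m → Finset (ZMod 2 × ZMod 2)) → Prop := fun S =>
    finrank (ZMod 2) (ZZ P f S) + (m + 1) / 2 ≤ n
  have hc : ∀ τ : Fin (k + 1) → V → ZMod 2,
      (((VCf G ×ˢ VCf G).filter fun p => ∀ i, (P (τ i) + Q p.1 ∈ VC G) ∧
        (P (τ i) + Q p.2 ∈ VC G)).card : ℝ) ≤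
        (if BadT (typ P f m τ) then a ^ 2 else 0) + ρ ^ t * a ^ 2 := by
    intro τ
    by_cases hb : BadT (typ P f m τ)
    · rw [if_pos hb]
      have h1 : (((VCf G ×ˢ VCf G).filter fun p => ∀ i, (P (τ i) + Q p.1 ∈ VC G) ∧
        (P (τ i) + Q p.2 ∈ VC G)).card : ℝ) ≤ a ^ 2 := by
        have := card_filter_le (VCf G ×ˢ VCf G) fun p => ∀ i, (P (τ i) + Q p.1 ∈ VC G) ∧
          (P (τ i) + Q p.2 ∈ VC G)
        rw [card_product] at this
        rw [ha, sq]
        exact_mod_cast this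
      have h2 : 0 ≤ ρ ^ t * a ^ 2 := by positivity
      linarith
    · rw [if_neg hb, zero_add]
      have hdet := det5 G P Q f (typ P f m τ) hPQ hf
      rw [hcardV] at hdet
      have hb' : n < finrank (ZMod 2) (ZZ P f (typ P f m τ)) + (m + 1) / 2 := not_le.1 hb
      have htK : t ≤ (Fintype.card V -
          finrank (ZMod 2) (LL Q f (typ P f m τ))) / (D + 1) := by
        refine ht.trans (Nat.div_le_div_right ?_)
        rw [hcardV]; omega
      have h1 : (((VCf G ×ˢ VCf G).filter fun p => ∀ i, (P (τ i) + Q p.1 ∈ VC G) ∧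
        (P (τ i) + Q p.2 ∈ VC G)).card : ℝ) ≤
          ∑ c ∈ VCf G, (((VCf G).filter fun x => x + c ∈ LL Q f (typ P f m τ)).card : ℝ) := by
        have h2 : ((VCf G ×ˢ VCf G).filter fun p => ∀ i, (P (τ i) + Q p.1 ∈ VC G) ∧
            (P (τ i) + Q p.2 ∈ VC G)).card ≤
            ((VCf G).sigma fun c => (VCf G).filter fun x => x + c ∈ LL Q f (typ P f m τ)).card := by
          refine Finset.card_le_card_of_injOn (fun p => ⟨p.1, p.2⟩) ?_ ?_
          · intro p hp
            rw [Finset.mem_coe, mem_filter, mem_product] at hp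
            rw [Finset.mem_coe, mem_sigma]
            refine ⟨hp.1.1, mem_filter.2 ⟨hp.1.2, ?_⟩⟩
            exact mem_LL_of_all G P Q f (fun i hi => (hf i hi).1) hp.2
          · intro p _ p' _ h
            have h0 : p.1 = p'.1 := congrArg Sigma.fst h
            have h2 : p.2 = p'.2 := eq_of_heq (Sigma.mk.inj h).2
            exact Prod.ext h0 h2
        rw [card_sigma] at h2
        exact_mod_cast h2
      refine h1.trans ?_
      refine (Finset.sum_le_card_nsmul _ _ _ fun c _ =>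
        anticonc_f G D hD (LL Q f (typ P f m τ)) c t htK).trans ?_
      rw [nsmul_eq_mul, ← hρ, ← ha]
      apply le_of_eq; ring
  -- the number of bad tuples
  have hbad : (((Fintype.piFinset fun _ : Fin (k + 1) => VCf G).filter
      fun τ => BadT (typ P f m τ)).card : ℝ) ≤ 16 ^ m * (a * (ρ ^ t * a) ^ k) := by
    have h1 : ((Fintype.piFinset fun _ : Fin (k + 1) => VCf G).filter
        fun τ => BadT (typ P f m τ)) ⊆
        ((univ : Finset (Fin m → Finset (ZMod 2 × ZMod 2))).filter fun S => BadT S).biUnion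
          fun S => ((Fintype.piFinset fun _ : Fin (k + 1) => VCf G).filter
              fun τ => ∀ i, τ i + τ 0 ∈ ZZ P f S) := by
      intro τ hτ
      rw [mem_filter] at hτ
      rw [mem_biUnion]
      exact ⟨typ P f m τ, mem_filter.2 ⟨mem_univ _, hτ.2⟩,
        mem_filter.2 ⟨hτ.1, fun i => mem_ZZ_typ P f τ i⟩⟩
    have h2 := (card_le_card h1).trans card_biUnion_le
    have h3 : (((Fintype.piFinset fun _ : Fin (k + 1) => VCf G).filter
        fun τ => BadT (typ P f m τ)).card : ℝ) ≤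
        ∑ S ∈ (univ : Finset (Fin m → Finset (ZMod 2 × ZMod 2))).filter fun S => BadT S,
          (((Fintype.piFinset fun _ : Fin (k + 1) => VCf G).filter
              fun τ => ∀ i, τ i + τ 0 ∈ ZZ P f S).card : ℝ) := by exact_mod_cast h2
    refine h3.trans ?_
    have h4 : ∀ S ∈ (univ : Finset (Fin m → Finset (ZMod 2 × ZMod 2))).filter fun S => BadT S,
          (((Fintype.piFinset fun _ : Fin (k + 1) => VCf G).filter
              fun τ => ∀ i, τ i + τ 0 ∈ ZZ P f S).card : ℝ) ≤ a * (ρ ^ t * a) ^ k := by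
      intro S hS
      have hS' : finrank (ZMod 2) (ZZ P f S) + (m + 1) / 2 ≤ n := (mem_filter.1 hS).2
      rw [hρ, ha]
      refine few_tuples G D hD (ZZ P f S) t k (ht.trans (Nat.div_le_div_right ?_))
      rw [hcardV]; omega
    refine (Finset.sum_le_card_nsmul _ _ _ h4).trans ?_
    rw [nsmul_eq_mul]
    refine mul_le_mul_of_nonneg_right ?_ (by positivity)
    have h5 : ((univ : Finset (Fin m → Finset (ZMod 2 × ZMod 2))).filter
        fun S => BadT S).card ≤ 16 ^ m := by
      refine (card_filter_le _ _).trans (le_of_eq ?_)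
      rw [card_univ, Fintype.card_fun, Fintype.card_finset, Fintype.card_prod, ZMod.card,
        Fintype.card_fin]
      norm_num
    exact_mod_cast h5
  have hsum : ∑ τ ∈ Fintype.piFinset (fun _ : Fin (k + 1) => VCf G),
      (((VCf G ×ˢ VCf G).filter fun p => ∀ i, (P (τ i) + Q p.1 ∈ VC G) ∧
        (P (τ i) + Q p.2 ∈ VC G)).card : ℝ) ≤
      16 ^ m * (a * (ρ ^ t * a) ^ k) * a ^ 2 + a ^ (k + 1) * (ρ ^ t * a ^ 2) := by
    refine (Finset.sum_le_sum fun τ _ => hc τ).trans ?_
    rw [Finset.sum_add_distrib]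
    refine add_le_add ?_ ?_
    · rw [← Finset.sum_filter, Finset.sum_const, nsmul_eq_mul]
      exact mul_le_mul_of_nonneg_right hbad (by positivity)
    · rw [Finset.sum_const, nsmul_eq_mul, Fintype.card_piFinset, Finset.prod_const,
        Finset.card_univ, Fintype.card_fin, ha]
      push_cast
      exact le_rfl
  rw [← ha] at hpm ⊢
  refine hpm.trans ?_
  refine (mul_le_mul_of_nonneg_left hsum (by positivity)).trans ?_
  apply le_of_eq
  rw [mul_pow]
  ring

end

end Pool.Agent.Dichotomy
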