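import Pool.Agent.Helper91.Dich.Signed
import Pool.Agent.Helper91.Dich.Numeric3
import Pool.Agent.Helper91.Dich.Expand

/-!
The exponential lower bound for the width of tree networks, for every relation that is not affine.
-/

namespace Pool.Agent.Dichotomy

open Finset Module

theorem signed_hard {r : ℕ} {R : Set (Fin r → ZMod 2)} (hR : ¬ IsAffine R) :
    ∃ c : ℝ, 0 < c ∧ ∃ C : ℕ, ∀ n : ℕ, ∃ I : List (Constraint n), I.length ≤ C * n ∧
      (∀ c ∈ I, c.arity = r ∧ HEq c.rel R) ∧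
      ∀ (K : Type) (_ : Field K) (f : (Fin n → ZMod 2) → K), (∀ x, f x ≠ 0 ↔ x ∈ Sol I) →
      ∀ (e : (Fin n → ZMod 2) ≃ₗ[ZMod 2] (Fin n → ZMod 2)) (w : ℕ)
        (W : Submodule K ((Fin n → ZMod 2) → K)), Net K w univ W → (fun x => f (e x)) ∈ W →
          (2 : ℝ) ^ (c * n) ≤ 2 * w := by
  classical
  obtain ⟨DD, hDD⟩ : ∃ DD : ℕ, DD = 12768 := ⟨_, rfl⟩
  obtain ⟨D, hD⟩ : ∃ D, D = 96 * DD := ⟨_, rfl⟩
  obtain ⟨ρ, hρ⟩ : ∃ ρ : ℝ, ρ = 2 ^ (D + 1) / (2 ^ (D + 1) + 1) := ⟨_, rfl⟩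
  have hρ0 : 0 < ρ := by rw [hρ]; positivity
  have hρ1 : ρ < 1 := by rw [hρ, div_lt_one (by positivity)]; linarith
  obtain ⟨B, hB⟩ : ∃ B, B = 2 + r * DD := ⟨_, rfl⟩
  have hBpos : 0 < B := by omega
  obtain ⟨k, c, hc, hnum⟩ := numeric3 ρ hρ0 hρ1 (100 * (D + 1)) (50 * B) (by positivity)
    (by positivity)
  refine ⟨c, hc, DD, ?_⟩
  intro n
  obtain ⟨m, hm⟩ : ∃ m, m = (n - 2) / B := ⟨_, rfl⟩
  have hwpos : ∀ (I : List (Constraint n)), (Sol I).Nonempty → ∀ (K : Type) (_ : Field K)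
      (f : (Fin n → ZMod 2) → K), (∀ x, f x ≠ 0 ↔ x ∈ Sol I) →
      ∀ (e : (Fin n → ZMod 2) ≃ₗ[ZMod 2] (Fin n → ZMod 2)) (w : ℕ)
        (W : Submodule K ((Fin n → ZMod 2) → K)), Net K w univ W → (fun x => f (e x)) ∈ W →
          1 ≤ w := by
    intro I hI K _ f hf e w W hW hfW
    have hWw : finrank K W ≤ w := by
      generalize hU : (univ : Finset (Fin n)) = U at hW
      cases hW with
      | leaf i W hw h => exact hw
      | node S S' W A B hS hA hB hw h => exact hw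
    refine le_trans ?_ hWw
    obtain ⟨x, hx⟩ := hI
    have hne : (⟨_, hfW⟩ : W) ≠ 0 := by
      intro h
      have h1 := congrArg (fun g : W => (g : (Fin n → ZMod 2) → K) (e.symm x)) h
      simp only [e.apply_symm_apply, Submodule.coe_zero, Pi.zero_apply] at h1
      exact (hf x).2 hx h1
    exact Nat.one_le_iff_ne_zero.2 (finrank_pos_iff_exists_ne_zero.2 ⟨_, hne⟩).ne'
  rcases Nat.lt_or_ge m 48 with hm48 | hm48
  · refine ⟨[], by simp, by simp, ?_⟩
    intro K _ f hf e w W hW hfW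
    have hw1 := hwpos [] ⟨0, fun c hc => by simp at hc⟩ K _ f hf e w W hW hfW
    have hn : n ≤ 50 * B * (0 + 1) := by
      have h1 : n - 2 < B * (m + 1) := by rw [hm]; exact Nat.lt_mul_div_succ _ hBpos
      have h2 : B * (m + 1) ≤ B * 48 := Nat.mul_le_mul_left _ (by omega)
      have h3 : 2 ≤ B := by omega
      omega
    refine hnum n 0 w hn hw1 ?_
    have hwr : (1 : ℝ) ≤ w := by exact_mod_cast hw1
    simp only [Nat.zero_div, pow_zero, one_pow, mul_one]
    have : (1 : ℝ) ≤ (128 * w) ^ (2 * (k + 1)) := one_le_pow₀ (by linarith)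
    linarith
  · obtain ⟨G, E, hE, hEG, hcol, hEc, hdeg, hmix⟩ := exists_bipartite hDD m (by omega)
    have hcardV : Fintype.card (Fin m ⊕ Fin m) = 2 * m := by
      rw [Fintype.card_sum, Fintype.card_fin]; ring
    have hmB : m * B + 2 ≤ n := by
      have h1 : m * B ≤ n - 2 := by rw [hm]; exact Nat.div_mul_le_self _ _
      have h2 : 0 < m * B := by positivity
      omega
    obtain ⟨I, z0, z1, emb, τ, l0, Λ, hlen, hrel, hI1, hI2, hl0, hl1, hle, hΛ⟩ :=
      exists_lift G E hE hEG Sum.isLeft hcol hR n (by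
        rw [hcardV]
        have : r * E.card ≤ r * (DD * m) := Nat.mul_le_mul_left _ hEc
        calc 2 * m + 2 + r * E.card ≤ 2 * m + 2 + r * (DD * m) := by omega
          _ = m * B + 2 := by rw [hB]; ring
          _ ≤ n := hmB)
    refine ⟨I, ?_, hrel, ?_⟩
    · rw [hlen]
      refine hEc.trans (Nat.mul_le_mul_left _ ?_)
      have : m ≤ m * B := Nat.le_mul_of_pos_right _ hBpos
      omega
    · intro K _ f hf e w W hW hfW
      have hw1 := hwpos I ⟨_, hI2 (fun _ => 1) (fun _ _ _ => Or.inl rfl)⟩ K _ f hf e w W hW hfW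
      have hn : n ≤ 50 * B * (m + 1) := by
        have h1 : n - 2 < B * (m + 1) := by rw [hm]; exact Nat.lt_mul_div_succ _ hBpos
        have h3 : 2 ≤ B := by omega
        have h4 : 50 * B * (m + 1) = 50 * (B * (m + 1)) := by ring
        have h5 : 2 ≤ B * (m + 1) := by nlinarith
        omega
      refine hnum n m w hn hw1 ?_
      have ht : m / (100 * (D + 1)) ≤ (m / 100 + 1) / (D + 1) := by
        rw [← Nat.div_div_eq_div_mul]
        exact Nat.div_le_div_right (by omega)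
      have hb := signed_bound hm48 G D (by rw [hD]; exact hdeg) hmix hI1 hI2 hl0 hl1 hle hΛ f hf e w
        W hW hfW (m / 100) (Nat.mul_div_le _ _) k (m / (100 * (D + 1))) ht
      rw [← hρ] at hb
      exact hb

end Pool.Agent.Dichotomy
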