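import Pool.Agent.Helper91.Dich.Light5

/-!
Removal of a set of vertices with a small boundary.
-/

namespace Pool.Agent.Dichotomy

open Finset Module Pool.Agent.Helper34.XTW

set_option linter.unusedSectionVars false

section

variable {V : Type} [Fintype V] [DecidableEq V] (G : SimpleGraph V) (F B : Finset V)

/-- The remaining vertices. -/
abbrev VV : Type := {v : V // v ∉ F ∧ v ∉ B}

/-- The remaining graph. -/
def GG : SimpleGraph (VV F B) := SimpleGraph.comap (fun v => v.1) G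

theorem GG_adj {u v : VV F B} : (GG G F B).Adj u v ↔ G.Adj u.1 v.1 := Iff.rfl

/-- Extension by zero. -/
def ext0 : (VV F B → ZMod 2) →ₗ[ZMod 2] (V → ZMod 2) :=
  LinearMap.pi fun v => if h : v ∉ F ∧ v ∉ B then LinearMap.proj (⟨v, h⟩ : VV F B) else 0

/-- Restriction. -/
def rst0 : (V → ZMod 2) →ₗ[ZMod 2] (VV F B → ZMod 2) :=
  LinearMap.funLeft (ZMod 2) (ZMod 2) (fun v : VV F B => v.1)

variable {F B}

theorem rst0_apply (x : V → ZMod 2) (v : VV F B) : rst0 F B x v = x v.1 := rfl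

theorem ext0_mem (z : VV F B → ZMod 2) {v : V} (h : v ∉ F ∧ v ∉ B) :
    ext0 F B z v = z ⟨v, h⟩ := by
  unfold ext0
  rw [LinearMap.pi_apply, dif_pos h]
  rfl

theorem ext0_notMem (z : VV F B → ZMod 2) {v : V} (h : ¬ (v ∉ F ∧ v ∉ B)) :
    ext0 F B z v = 0 := by
  unfold ext0
  rw [LinearMap.pi_apply, dif_neg h]
  rfl

theorem rst0_ext0 (z : VV F B → ZMod 2) : rst0 F B (ext0 F B z) = z := by
  funext v
  rw [rst0_apply, ext0_mem z v.2]

theorem ext0_rst0 (x : V → ZMod 2) (h : ∀ v, v ∈ F ∨ v ∈ B → x v = 0) :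
    ext0 F B (rst0 F B x) = x := by
  funext v
  by_cases hv : v ∉ F ∧ v ∉ B
  · rw [ext0_mem _ hv]; rfl
  · rw [ext0_notMem _ hv, h v (by tauto)]

variable {G}

theorem GG_degree {D : ℕ} (hD : ∀ v, (G.neighborSet v).ncard ≤ D) (v : VV F B) :
    ((GG G F B).neighborSet v).ncard ≤ D := by
  refine le_trans ?_ (hD v.1)
  refine Set.ncard_le_ncard_of_injOn (fun u => u.1) ?_ ?_ (Set.toFinite _)
  · intro u hu; exact hu
  · intro u _ u' _ h; exact Subtype.ext h

theorem linkedR_sub {X : Finset V} {k b : ℕ} (hX : Linked G X k) (hBd : ∀ u ∈ F, ∀ v, G.Adj u v →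
    v ∈ F ∨ v ∈ B) (hB : B.card ≤ b) :
    LinkedR (GG G F B) (univ.filter fun v : VV F B => v.1 ∈ X) k b := by
  classical
  intro P Q hPQ hno hcard
  let m : Finset (VV F B) → Finset V := fun S => S.image fun v => v.1
  have hmm : ∀ S v, v ∈ m S ↔ ∃ w ∈ S, w.1 = v := by
    intro S v; exact mem_image
  have hmm' : ∀ S (v : VV F B), v.1 ∈ m S ↔ v ∈ S := by
    intro S v
    rw [hmm]
    constructor
    · rintro ⟨w, hw, h⟩; rwa [← Subtype.ext h]
    · intro h; exact ⟨v, h, rfl⟩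
  have hcardm : ∀ S, (m S).card ≤ S.card := fun S => card_image_le
  obtain ⟨P', hP'⟩ : ∃ P', P' = m P ∪ F ∪ B := ⟨_, rfl⟩
  obtain ⟨Q', hQ'⟩ : ∃ Q', Q' = m Q ∪ B := ⟨_, rfl⟩
  have hcases : ∀ v : V, v ∈ F ∨ v ∈ B ∨ (v ∉ F ∧ v ∉ B) := by intro v; tauto
  have hU : P' ∪ Q' = univ := by
    ext v
    simp only [hP', hQ', mem_union, mem_univ, iff_true]
    rcases hcases v with h | h | h
    · tauto
    · tauto
    · have : (⟨v, h⟩ : VV F B) ∈ P ∪ Q := by rw [hPQ]; exact mem_univ _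
      rcases mem_union.1 this with h1 | h1
      · have := (hmm' P ⟨v, h⟩).2 h1
        tauto
      · have := (hmm' Q ⟨v, h⟩).2 h1
        tauto
  have hI : P' ∩ Q' ⊆ m (P ∩ Q) ∪ B := by
    intro v hv
    obtain ⟨h1, h2⟩ := mem_inter.1 hv
    rw [hP', mem_union, mem_union] at h1
    rw [hQ', mem_union] at h2
    rw [mem_union]
    by_cases hB : v ∈ B
    · exact Or.inr hB
    · left
      have h2' := h2.resolve_right hB
      obtain ⟨w, hw, rfl⟩ := (hmm Q v).1 h2'
      rcases h1 with (h1 | h1) | h1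
      · exact (hmm' _ w).2 (mem_inter.2 ⟨(hmm' P w).1 h1, hw⟩)
      · exact absurd h1 w.2.1
      · exact absurd h1 hB
  have hIc : (P' ∩ Q').card ≤ (P ∩ Q).card + b :=
    (card_le_card hI).trans ((card_union_le _ _).trans (Nat.add_le_add (hcardm _) hB))
  have h3 := hX P' Q' hU (by
    intro u hu v hv hadj
    rw [hQ', mem_union, not_or] at hu
    rw [hP', mem_union, mem_union, not_or, not_or] at hv
    by_cases huF : u ∈ F
    · rcases hBd u huF v hadj with h | h
      · exact hv.1.2 h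
      · exact hv.2 h
    · refine hno ⟨u, huF, hu.2⟩ (fun h => hu.1 ((hmm' Q _).2 h)) ⟨v, hv.1.2, hv.2⟩
        (fun h => hv.1.1 ((hmm' P _).2 h)) hadj)
  have hgoal : ∀ R : Finset (VV F B), ∀ R' : Finset V, (∀ v : VV F B, v ∉ R → v.1 ∉ R') →
      ((univ.filter fun v : VV F B => v.1 ∈ X) \ R).card ≤ (X \ R').card := by
    intro R R' hRR'
    refine card_le_card_of_injOn (fun v => v.1) ?_ ?_
    · intro v hv
      obtain ⟨h1, h2⟩ := mem_sdiff.1 (Finset.mem_coe.1 hv)
      exact Finset.mem_coe.2 (mem_sdiff.2 ⟨(mem_filter.1 h1).2, hRR' v h2⟩)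
    · intro v _ v' _ h; exact Subtype.ext h
  rcases h3 with h3 | h3 | h3
  · omega
  · left
    refine (hgoal Q Q' ?_).trans (h3.trans hIc)
    intro v hv h
    rw [hQ', mem_union] at h
    rcases h with h | h
    · exact hv ((hmm' Q v).1 h)
    · exact v.2.2 h
  · right
    refine (hgoal P P' ?_).trans (h3.trans hIc)
    intro v hv h
    rw [hP', mem_union, mem_union] at h
    rcases h with (h | h) | h
    · exact hv ((hmm' P v).1 h)
    · exact v.2.1 h
    · exact v.2.2 h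

theorem card_sub_X (X : Finset V) :
    X.card ≤ (univ.filter fun v : VV F B => v.1 ∈ X).card + (X ∩ F).card + B.card := by
  classical
  have h1 : X ⊆ ((univ.filter fun v : VV F B => v.1 ∈ X).image fun v => v.1) ∪ (X ∩ F) ∪ B := by
    intro v hv
    rw [mem_union, mem_union]
    by_cases hF : v ∈ F
    · exact Or.inl (Or.inr (mem_inter.2 ⟨hv, hF⟩))
    · by_cases hB : v ∈ B
      · exact Or.inr hB
      · exact Or.inl (Or.inl (mem_image.2 ⟨⟨v, hF, hB⟩, mem_filter.2 ⟨mem_univ _, hv⟩, rfl⟩))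
  have h2 := card_le_card h1
  have h3 := card_union_le (((univ.filter fun v : VV F B => v.1 ∈ X).image fun v => v.1) ∪ (X ∩ F)) B
  have h4 := card_union_le ((univ.filter fun v : VV F B => v.1 ∈ X).image fun v => v.1) (X ∩ F)
  have h5 : ((univ.filter fun v : VV F B => v.1 ∈ X).image fun v => v.1).card ≤ _ :=
    card_image_le
  omega

variable {n : ℕ} {core0 : (Fin n → ZMod 2) →ₗ[ZMod 2] (V → ZMod 2)}
  {Λ0 : (V → ZMod 2) →ₗ[ZMod 2] (Fin n → ZMod 2)} {l0 : Fin n → ZMod 2}
  (hcΛ : ∀ x, core0 (Λ0 x) = x) {C S : Set (Fin n → ZMod 2)}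
  (hCS : ∀ c ∈ C, ∀ s ∈ S, c + s ∈ AA G Λ0 l0)

include hcΛ hCS in
/-- The contexts and the vertex covers of the remaining graph give different vertex covers. -/
theorem ctx_mul_le (hBd : ∀ u ∈ F, ∀ v, G.Adj u v → v ∈ F ∨ v ∈ B) (hFB : Disjoint F B)
    (hC : ∀ c ∈ C, ∀ c' ∈ C, ∀ v, v ∉ F → core0 (c + c') v = 0) (hS : S.Nonempty) :
    C.ncard * (VC (GG G F B)).ncard ≤ (VC G).ncard := by
  classical
  obtain ⟨s0, hs0⟩ := hS
  rw [← Set.ncard_prod]
  let φ : (Fin n → ZMod 2) × (VV F B → ZMod 2) → (V → ZMod 2) := fun p v =>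
    if v ∈ F then (core0 (p.1 + s0) + core0 l0) v else
      if h : v ∉ F ∧ v ∉ B then p.2 ⟨v, h⟩ else 1
  have hφF : ∀ p v, v ∈ F → φ p v = (core0 (p.1 + s0) + core0 l0) v := by
    intro p v hv; simp only [φ, if_pos hv]
  have hφB : ∀ p v, v ∈ B → φ p v = 1 := by
    intro p v hv
    have hvF : v ∉ F := fun h => disjoint_left.1 hFB h hv
    have : ¬ (v ∉ F ∧ v ∉ B) := fun h => h.2 hv
    simp only [φ, if_neg hvF, dif_neg this]
  have hφV : ∀ p (v : VV F B), φ p v.1 = p.2 v := by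
    intro p v
    simp only [φ, if_neg v.2.1, dif_pos v.2]
  refine Set.ncard_le_ncard_of_injOn φ ?_ ?_ (Set.toFinite _)
  · rintro ⟨c, z⟩ ⟨hc, hz⟩ u v huv
    have hcov := AA_core hcΛ (hCS c hc s0 hs0)
    have hsym : ∀ u v, G.Adj u v → u ∈ F → φ (c, z) u = 1 ∨ φ (c, z) v = 1 := by
      intro u v huv hu
      rcases hBd u hu v huv with hv | hv
      · rw [hφF _ _ hu, hφF _ _ hv]; exact hcov u v huv
      · exact Or.inr (hφB _ _ hv)
    by_cases huF : u ∈ F
    · exact hsym u v huv huF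
    · by_cases hvF : v ∈ F
      · exact (hsym v u huv.symm hvF).symm
      · by_cases huB : u ∈ B
        · exact Or.inl (hφB _ _ huB)
        · by_cases hvB : v ∈ B
          · exact Or.inr (hφB _ _ hvB)
          · have h1 := hφV (c, z) ⟨u, huF, huB⟩
            have h2 := hφV (c, z) ⟨v, hvF, hvB⟩
            simp only at h1 h2
            rw [h1, h2]
            exact hz ⟨u, huF, huB⟩ ⟨v, hvF, hvB⟩ huv
  · rintro ⟨c, z⟩ ⟨hc, hz⟩ ⟨c', z'⟩ ⟨hc', hz'⟩ h
    have hz : z = z' := by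
      funext v
      have := congrFun h v.1
      rw [hφV, hφV] at this
      exact this
    have hcc : core0 (c + c') = 0 := by
      funext v
      by_cases hv : v ∈ F
      · have := congrFun h v
        rw [hφF _ _ hv, hφF _ _ hv] at this
        simp only [map_add, Pi.add_apply] at this
        have h2 : ∀ a b s l : ZMod 2, a + s + l = b + s + l → a + b = 0 := by decide
        rw [map_add, Pi.add_apply]
        exact h2 _ _ _ _ this
      · exact hC c hc c' hc' v hv
    have h3 := AA_diff hcΛ (hCS c hc s0 hs0) (hCS c' hc' s0 hs0)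
    have h4 : c + s0 + (c' + s0) = c + c' := by
      have : c + s0 + (c' + s0) = (c + c') + (s0 + s0) := by abel
      rw [this, pi_add_self, add_zero]
    rw [h4, hcc, map_zero] at h3
    have h5 : c = c' := by
      have : c + c' + c' = 0 + c' := by rw [h3]
      rwa [add_assoc, pi_add_self, add_zero, zero_add] at this
    rw [h5, hz]

end

end Pool.Agent.Dichotomy
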