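import Pool.Agent.Helper91.Dich.Path

/-!
From a program for the solutions of an instance to a program for vertex covers: fix two
variables, project to the core variables.
-/

namespace Pool.Agent.Dichotomy

open Finset

set_option linter.unusedSectionVars false

/-- Fix two variables, project to the core variables. -/
def derived {ι V g : Type*} (M : g → Set (ι → ZMod 2)) (z0 z1 : ι) (emb : V → ι)
    (v : g × (ZMod 2 × ZMod 2)) : Set (V → ZMod 2) :=
  {x | ∃ y ∈ M v.1, y z0 = v.2.1 ∧ y z1 = v.2.2 ∧ ∀ u, x u = y (emb u)}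

theorem derived_isProg {ι V g : Type*} [Fintype ι] [Fintype V] [DecidableEq V] {rk : g → ℕ}
    {W : ℕ} {M : g → Set (ι → ZMod 2)} (hM : IsProg rk W M) (z0 z1 : ι) (emb : V → ι) :
    IsProg (fun v : g × (ZMod 2 × ZMod 2) => rk v.1) W (derived M z0 z1 emb) := by
  classical
  rintro ⟨v, ζ0, ζ1⟩
  rcases hM v with ⟨hfin, hcard⟩ | haff | ⟨Q, P, hQ, hP, hmem⟩
  · left
    refine ⟨Set.toFinite _, ?_⟩
    have hsub : derived M z0 z1 emb (v, ζ0, ζ1) ⊆ (fun y u => y (emb u)) '' M v := by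
      rintro x ⟨y, hy, -, -, hx⟩
      exact ⟨y, hy, (funext hx).symm⟩
    exact (Set.ncard_le_ncard hsub (hfin.image _)).trans ((Set.ncard_image_le hfin).trans hcard)
  · right; left
    rintro x ⟨y, hy, h0, h1, hx⟩ x' ⟨y', hy', h0', h1', hx'⟩ x'' ⟨y'', hy'', h0'', h1'', hx''⟩
    refine ⟨y + y' + y'', haff y hy y' hy' y'' hy'', ?_, ?_, ?_⟩
    · simp only [Pi.add_apply, h0, h0', h0'']
      rw [zmod2_add_self, zero_add]
    · simp only [Pi.add_apply, h1, h1', h1'']
      rw [zmod2_add_self, zero_add]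
    · intro u; simp [hx, hx', hx'']
  · right; right
    refine ⟨{a | a.1 ∈ Q ∧ a.2 = (ζ0, ζ1)},
      {p | (p.1.1, p.2.1) ∈ P ∧ p.1.2 + p.2.2 = (ζ0, ζ1)}, ?_, ?_, ?_⟩
    · rintro ⟨a, ξ⟩ ⟨ha, -⟩; exact hQ a ha
    · rintro ⟨⟨a, ξ⟩, ⟨b, η⟩⟩ ⟨hp, -⟩; exact hP (a, b) hp
    · intro x
      constructor
      · rintro ⟨y, hy, h0, h1, hx⟩
        rcases (hmem y).1 hy with ⟨a, ha, hya⟩ | ⟨p, hp, y1, hy1, y2, hy2, rfl⟩
        · exact Or.inl ⟨(a, ζ0, ζ1), ⟨ha, rfl⟩, y, hya, h0, h1, hx⟩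
        · refine Or.inr ⟨((p.1, y1 z0, y1 z1), (p.2, y2 z0, y2 z1)), ⟨hp, ?_⟩,
            fun u => y1 (emb u), ⟨y1, hy1, rfl, rfl, fun u => rfl⟩,
            fun u => y2 (emb u), ⟨y2, hy2, rfl, rfl, fun u => rfl⟩, ?_⟩
          · exact Prod.ext h0 h1
          · funext u; rw [hx u]; rfl
      · rintro (⟨⟨a, ξ⟩, ⟨ha, hξ⟩, y, hya, h0, h1, hx⟩ |
          ⟨⟨⟨a, ξ⟩, ⟨b, η⟩⟩, ⟨hp, hξ⟩, x1, ⟨y1, hy1, h01, h11, hx1⟩, x2,
            ⟨y2, hy2, h02, h12, hx2⟩, rfl⟩)
        · subst hξ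
          exact ⟨y, (hmem y).2 (Or.inl ⟨a, ha, hya⟩), h0, h1, hx⟩
        · have e0 : ξ.1 + η.1 = ζ0 := congrArg Prod.fst hξ
          have e1 : ξ.2 + η.2 = ζ1 := congrArg Prod.snd hξ
          refine ⟨y1 + y2, (hmem _).2 (Or.inr ⟨(a, b), hp, y1, hy1, y2, hy2, rfl⟩), ?_, ?_, ?_⟩
          · rw [Pi.add_apply, h01, h02]; exact e0
          · rw [Pi.add_apply, h11, h12]; exact e1
          · intro u; simp [hx1, hx2]

/-- Translation of the hypotheses of the path argument. -/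
theorem translate_bounds {V : Type*} [Fintype V] [DecidableEq V] {A : Set (V → ZMod 2)}
    {X : Finset V} {K : ℕ} {β κ : ℝ} (τ : V → ZMod 2)
    (hβ : ∀ U U' : Set (V → ZMod 2), (∀ u ∈ U, ∀ v ∈ U', u + v ∈ A) → K ≤ pat X U →
      K ≤ pat X U' → ((ssum U U').ncard : ℝ) ≤ β * A.ncard)
    (hκ : ∀ p : V → ZMod 2, ({x | x ∈ A ∧ ∀ i ∈ X, x i = p i}.ncard : ℝ) ≤ κ * A.ncard) :
    ({x | x + τ ∈ A}.ncard = A.ncard) ∧
    (∀ U U' : Set (V → ZMod 2), (∀ u ∈ U, ∀ v ∈ U', u + v ∈ {x | x + τ ∈ A}) → K ≤ pat X U →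
      K ≤ pat X U' → ((ssum U U').ncard : ℝ) ≤ β * ({x | x + τ ∈ A}.ncard : ℝ)) ∧
    (∀ p : V → ZMod 2, ({x | x ∈ {x | x + τ ∈ A} ∧ ∀ i ∈ X, x i = p i}.ncard : ℝ) ≤
      κ * ({x | x + τ ∈ A}.ncard : ℝ)) := by
  classical
  have hinj : Function.Injective (fun x : V → ZMod 2 => x + τ) := add_left_injective τ
  have hττ : ∀ x : V → ZMod 2, x + τ + τ = x := by
    intro x; rw [add_assoc, pi_add_self, add_zero]
  have himg : {x | x + τ ∈ A} = (fun x : V → ZMod 2 => x + τ) '' A := by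
    ext x
    constructor
    · intro hx; exact ⟨x + τ, hx, hττ x⟩
    · rintro ⟨y, hy, rfl⟩
      show y + τ + τ ∈ A
      rw [hττ]; exact hy
  have hcard : {x | x + τ ∈ A}.ncard = A.ncard := by
    rw [himg]; exact Set.ncard_image_of_injective _ hinj
  refine ⟨hcard, ?_, ?_⟩
  · intro U U' hUU hU hU'
    rw [hcard]
    have h1 := hβ (ssum U {τ}) U' (by
      rintro _ ⟨u, hu, t, ht, rfl⟩ v hv
      rw [Set.mem_singleton_iff] at ht
      subst ht
      have := hUU u hu v hv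
      have heq : u + t + v = u + v + t := by abel
      rw [heq]; exact this) (by
      have h2 : pat X U ≤ pat X (ssum {τ} U) := pat_translate (Set.singleton_nonempty τ)
      have h3 : ssum {τ} U ⊆ ssum U {τ} := by
        rintro z ⟨u, hu, v, hv, rfl⟩
        exact ⟨v, hv, u, hu, add_comm _ _⟩
      exact hU.trans (h2.trans (pat_mono h3))) hU'
    refine le_trans ?_ h1
    have h4 : (ssum U U').ncard = ((fun x : V → ZMod 2 => x + τ) '' (ssum U U')).ncard :=
      (Set.ncard_image_of_injective _ hinj).symm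
    rw [h4]
    have h5 : (fun x : V → ZMod 2 => x + τ) '' (ssum U U') ⊆ ssum (ssum U {τ}) U' := by
      rintro _ ⟨_, ⟨u, hu, v, hv, rfl⟩, rfl⟩
      refine ⟨u + τ, ⟨u, hu, τ, rfl, rfl⟩, v, hv, ?_⟩
      show u + v + τ = u + τ + v
      abel
    exact_mod_cast Set.ncard_le_ncard h5 (Set.toFinite _)
  · intro p
    rw [hcard]
    refine le_trans ?_ (hκ (p + τ))
    have h4 : {x | x ∈ {x | x + τ ∈ A} ∧ ∀ i ∈ X, x i = p i}.ncard =
        ((fun x : V → ZMod 2 => x + τ) '' {x | x ∈ {x | x + τ ∈ A} ∧ ∀ i ∈ X, x i = p i}).ncard :=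
      (Set.ncard_image_of_injective _ hinj).symm
    rw [h4]
    have h5 : (fun x : V → ZMod 2 => x + τ) '' {x | x ∈ {x | x + τ ∈ A} ∧ ∀ i ∈ X, x i = p i} ⊆
        {x | x ∈ A ∧ ∀ i ∈ X, x i = (p + τ) i} := by
      rintro _ ⟨x, ⟨hx, hp⟩, rfl⟩
      refine ⟨hx, fun i hi => ?_⟩
      show x i + τ i = p i + τ i
      rw [hp i hi]
    exact_mod_cast Set.ncard_le_ncard h5 (Set.toFinite _)

/-- The instance built from a bipartite graph and a relation with a three element minor. -/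
theorem exists_instance {V : Type*} [Fintype V] [DecidableEq V] (G : SimpleGraph V)
    (E : Finset (V × V)) (hE : ∀ p ∈ E, G.Adj p.1 p.2) (hEG : ∀ u v, G.Adj u v →
      (u, v) ∈ E ∨ (v, u) ∈ E) (col : V → Bool) (hcol : ∀ p ∈ E, col p.1 = true ∧ col p.2 = false)
    {r : ℕ} {R : Set (Fin r → ZMod 2)} (hR : ¬ IsAffine R) (N : ℕ)
    (hN : Fintype.card V + 2 + r * E.card ≤ N) :
    ∃ (I : List (Constraint N)) (z0 z1 : Fin N) (emb : V → Fin N) (τ : V → ZMod 2),
      I.length = E.card ∧ (∀ c ∈ I, c.arity = r ∧ HEq c.rel R) ∧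
      ∀ x : V → ZMod 2, (∃ y ∈ Sol I, y z0 = 0 ∧ y z1 = 1 ∧ ∀ u, x u = y (emb u)) ↔
        x + τ ∈ VC G := by
  classical
  obtain ⟨i, j, hij, S, hiS, hjS, ρ, α, β, hmin⟩ := exists_minor hR
  -- the variables
  let T : Type _ := V ⊕ (ZMod 2) ⊕ (E × Fin r)
  have hT : Fintype.card T ≤ N := by
    have : Fintype.card T = Fintype.card V + (2 + E.card * r) := by
      simp only [T, Fintype.card_sum, Fintype.card_prod, Fintype.card_coe, Fintype.card_fin]
      rw [ZMod.card]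
    rw [this]; rw [mul_comm r] at hN; omega
  obtain ⟨e, he⟩ : ∃ e : T → Fin N, Function.Injective e := by
    have : Fintype.card T ≤ Fintype.card (Fin N) := by rw [Fintype.card_fin]; exact hT
    obtain ⟨f⟩ := Function.Embedding.nonempty_of_card_le this
    exact ⟨f, f.injective⟩
  let sc : E → Fin r → T := fun p k =>
    if k = i then Sum.inl p.1.1 else if k = j then Sum.inl p.1.2 else
      if k ∈ S then Sum.inr (Sum.inl (ρ k)) else Sum.inr (Sum.inr (p, k))
  let con : E → Constraint N := fun p => ⟨r, R, fun k => e (sc p k)⟩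
  let I : List (Constraint N) := (Finset.univ : Finset E).toList.map con
  have hI : ∀ c, c ∈ I ↔ ∃ p : E, con p = c := by
    intro c; simp [I]
  let τ : V → ZMod 2 := fun u => if col u = true then α else β
  refine ⟨I, e (Sum.inr (Sum.inl 0)), e (Sum.inr (Sum.inl 1)), fun u => e (Sum.inl u), τ,
    ?_, ?_, ?_⟩
  · simp [I]
  · intro c hc
    obtain ⟨p, rfl⟩ := (hI c).1 hc
    exact ⟨rfl, HEq.rfl⟩
  · intro x
    have key : x + τ ∈ VC G ↔ ∀ p ∈ E, ¬ (x p.1 = α ∧ x p.2 = β) := by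
      have h2 : ∀ a b : ZMod 2, a + b = 1 ↔ a ≠ b := by decide
      have hpair : ∀ p ∈ E, ((x + τ) p.1 = 1 ∨ (x + τ) p.2 = 1) ↔ ¬ (x p.1 = α ∧ x p.2 = β) := by
        intro p hp
        obtain ⟨c1, c2⟩ := hcol p hp
        have t1 : τ p.1 = α := by simp [τ, c1]
        have t2 : τ p.2 = β := by simp [τ, c2]
        rw [Pi.add_apply, Pi.add_apply, t1, t2, h2, h2]
        tauto
      constructor
      · intro h p hp
        exact (hpair p hp).1 (h p.1 p.2 (hE p hp))
      · intro h u v huv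
        rcases hEG u v huv with h1 | h1
        · exact (hpair _ h1).2 (h _ h1)
        · exact ((hpair _ h1).2 (h _ h1)).symm
    rw [key]
    constructor
    · rintro ⟨y, hy, h0, h1, hx⟩ p hp
      have hc : (fun k => y (e (sc ⟨p, hp⟩ k))) ∈ R := hy (con ⟨p, hp⟩) ((hI _).2 ⟨⟨p, hp⟩, rfl⟩)
      have := (hmin (x p.1) (x p.2)).1 ⟨_, hc, ?_, ?_, ?_⟩
      · exact this
      · intro k hk
        have hki : k ≠ i := by rintro rfl; exact hiS hk
        have hkj : k ≠ j := by rintro rfl; exact hjS hk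
        have hsck : sc ⟨p, hp⟩ k = Sum.inr (Sum.inl (ρ k)) := by simp [sc, hki, hkj, hk]
        show y (e (sc ⟨p, hp⟩ k)) = ρ k
        rw [hsck]
        have h3 : ∀ a : ZMod 2, a = 0 ∨ a = 1 := by decide
        rcases h3 (ρ k) with h | h
        · rw [h]; exact h0
        · rw [h]; exact h1
      · show y (e (sc ⟨p, hp⟩ i)) = x p.1
        have : sc ⟨p, hp⟩ i = Sum.inl p.1 := by simp [sc]
        rw [this, hx]
      · show y (e (sc ⟨p, hp⟩ j)) = x p.2
        have : sc ⟨p, hp⟩ j = Sum.inl p.2 := by simp [sc, hij.symm]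
        rw [this, hx]
    · intro h
      have hw : ∀ p : E, ∃ w ∈ R, (∀ k ∈ S, w k = ρ k) ∧ w i = x p.1.1 ∧ w j = x p.1.2 :=
        fun p => (hmin _ _).2 (h p.1 p.2)
      choose w hwR hwS hwi hwj using hw
      let y0 : T → ZMod 2 := fun t => match t with
        | Sum.inl u => x u
        | Sum.inr (Sum.inl c) => c
        | Sum.inr (Sum.inr q) => w q.1 q.2
      let y : Fin N → ZMod 2 := fun q => if hq : ∃ t, e t = q then y0 hq.choose else 0
      have hye : ∀ t, y (e t) = y0 t := by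
        intro t
        have hex : ∃ t', e t' = e t := ⟨t, rfl⟩
        have : y (e t) = y0 hex.choose := by simp only [y, dif_pos hex]
        rw [this, he hex.choose_spec]
      refine ⟨y, ?_, by rw [hye], by rw [hye], fun u => by rw [hye]⟩
      intro c hc
      obtain ⟨p, rfl⟩ := (hI c).1 hc
      show (fun k => y (e (sc p k))) ∈ R
      have : (fun k => y (e (sc p k))) = w p := by
        funext k
        rw [hye]
        by_cases hki : k = i
        · subst hki; simp only [sc, if_pos, y0]; exact (hwi p).symm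
        · by_cases hkj : k = j
          · subst hkj; simp only [sc, if_neg hki, if_pos, y0]; exact (hwj p).symm
          · by_cases hkS : k ∈ S
            · simp only [sc, if_neg hki, if_neg hkj, if_pos hkS, y0]; exact (hwS p k hkS).symm
            · simp only [sc, if_neg hki, if_neg hkj, if_neg hkS, y0]
      rw [this]; exact hwR p

end Pool.Agent.Dichotomy
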