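import Pool.Agent.Helper91.Dich.Hard

/-!
The lower bounds in terms of tree-width.
-/

namespace Pool.Agent.Dichotomy

open Finset Pool.Agent.Helper34.XTW Pool.Agent.Helper97.Pendant

/-- The constants for the tree-width bounds. -/
theorem width_numeric_rob (D : ℕ) : ∃ c : ℝ, 0 < c ∧ ∀ (V : Type) (_ : Fintype V)
    (_ : DecidableEq V) (G : SimpleGraph V), (∀ v, (G.neighborSet v).ncard ≤ D) →
    ∀ s W φ : ℝ, 1 ≤ s → 0 ≤ W → 0 ≤ φ → φ ≤ 1 →
    (∀ (X : Finset V) (a t : ℕ) (κ : ℝ), Star G X a t → 0 ≤ κ →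
      (∀ p : V → ZMod 2, ({x | x ∈ VC G ∧ ∀ i ∈ X, x i = p i}.ncard : ℝ) ≤
        κ * (VC G).ncard) →
      φ ≤ 4 * s * (2 ^ (2 * (D + 1)) / (2 ^ (2 * (D + 1)) + 1)) ^ (t / (2 * (D + 1) ^ 2)) +
        κ * (4 * s * 2 ^ a * W + 3 * (4 * s) ^ 3 * ((2 : ℝ) ^ a) ^ 3)) →
    (2 : ℝ) ^ (c * treewidth G) * φ ≤ 2 * (s + W) ^ 3 := by
  classical
  set ρ : ℝ := (2 : ℝ) ^ (2 * (D + 1)) / (2 ^ (2 * (D + 1)) + 1) with hρ
  set ρ' : ℝ := (2 : ℝ) ^ (D + 1) / (2 ^ (D + 1) + 1) with hρ'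
  set L := 2 * (D + 1) ^ 2 with hL
  have hρ0 : 0 < ρ := rho_pos _
  have hρ1 : ρ < 1 := rho_lt _
  have hρ0' : 0 < ρ' := rho_pos _
  have hρ1' : ρ' < 1 := rho_lt _
  obtain ⟨q, hq, h8⟩ : ∃ q : ℕ, 0 < q ∧ (8 : ℝ) ^ (D + 1) * ρ' ^ q < 1 := by
    obtain ⟨q, hq⟩ := exists_pow_lt_of_lt_one (show (0 : ℝ) < (8 ^ (D + 1))⁻¹ by positivity) hρ1'
    refine ⟨q + 1, Nat.succ_pos _, ?_⟩
    have h1 : ρ' ^ (q + 1) < (8 ^ (D + 1))⁻¹ := by
      refine lt_of_le_of_lt ?_ hq
      exact pow_le_pow_of_le_one hρ0'.le hρ1'.le (Nat.le_succ _)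
    calc (8 : ℝ) ^ (D + 1) * ρ' ^ (q + 1) < 8 ^ (D + 1) * (8 ^ (D + 1))⁻¹ := by gcongr
      _ = 1 := by field_simp
  obtain ⟨c, hc, hnum⟩ := numeric_rob ρ ρ' hρ0 hρ1 hρ0' hρ1' (q * (2 * L)) (D + 1) q 4
    (by positivity) (by positivity) hq (by norm_num) h8
  refine ⟨c, hc, ?_⟩
  intro V _ _ G hD s W φ hs hW hφ0 hφ1 hall
  obtain ⟨k, hk⟩ : ∃ k, k = treewidth G / 4 := ⟨_, rfl⟩
  have hn : treewidth G ≤ 4 * (k + 1) := by omega
  refine hnum _ k hn s W φ hs hW hφ0 hφ1 ?_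
  rcases Nat.eq_zero_or_pos k with hk0 | hk1
  · subst hk0
    simp only [Nat.zero_div, pow_zero, mul_one, one_mul]
    have hs0 : 0 ≤ s := by linarith
    nlinarith [mul_nonneg hs0 hW, pow_pos (by linarith : (0:ℝ) < s) 3]
  · obtain ⟨X, hX, hstar⟩ := exists_star (G := G) hk1 (by omega)
    have hb := hall X (k / q) (min k ((k / q + 1) / 2)) (ρ' ^ (X.card / (D + 1))) (hstar _)
      (by positivity) (entropy G D hD X)
    have e1 : ρ ^ (min k ((k / q + 1) / 2) / L) ≤ ρ ^ (k / (q * (2 * L))) := by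
      apply pow_le_pow_of_le_one hρ0.le hρ1.le
      rw [← Nat.div_div_eq_div_mul, ← Nat.div_div_eq_div_mul]
      apply Nat.div_le_div_right
      have : k / q ≤ k := Nat.div_le_self _ _
      omega
    have e2 : ρ' ^ (X.card / (D + 1)) ≤ ρ' ^ (k / (D + 1)) := by
      apply pow_le_pow_of_le_one hρ0'.le hρ1'.le
      apply Nat.div_le_div_right
      omega
    have hs0 : 0 ≤ s := by linarith
    refine hb.trans ?_
    gcongr

theorem width_numeric (D : ℕ) : ∃ c : ℝ, 0 < c ∧ ∀ (V : Type) (_ : Fintype V) (_ : DecidableEq V)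
    (G : SimpleGraph V), (∀ v, (G.neighborSet v).ncard ≤ D) → ∀ s W : ℝ, 1 ≤ s → 0 ≤ W →
    (∀ (X : Finset V) (a t : ℕ) (κ : ℝ), Star G X a t → 0 ≤ κ →
      (∀ p : V → ZMod 2, ({x | x ∈ VC G ∧ ∀ i ∈ X, x i = p i}.ncard : ℝ) ≤
        κ * (VC G).ncard) →
      1 ≤ 4 * s * (2 ^ (2 * (D + 1)) / (2 ^ (2 * (D + 1)) + 1)) ^ (t / (2 * (D + 1) ^ 2)) +
        κ * (4 * s * 2 ^ a * W + 3 * (4 * s) ^ 3 * ((2 : ℝ) ^ a) ^ 3)) →
    (2 : ℝ) ^ (c * treewidth G) ≤ 2 * (s + W) := by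
  obtain ⟨c, hc, h⟩ := width_numeric_rob D
  refine ⟨c / 3, by positivity, ?_⟩
  intro V _ _ G hD s W hs hW hall
  have := h V inferInstance inferInstance G hD s W 1 hs hW zero_le_one le_rfl hall
  rw [mul_one] at this
  exact cube_root_bound (by linarith) this

/-- **Vertex covers: the size is exponential in the tree-width, for every graph of bounded
degree, even for capturing a small fraction of the vertex covers.** -/
theorem hard_width (D : ℕ) : ∃ c : ℝ, 0 < c ∧ ∀ (V : Type) (_ : Fintype V)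
    (G : SimpleGraph V), (∀ v, (G.neighborSet v).ncard ≤ D) →
    ∀ (g : Type) (_ : Fintype g) (rk : g → ℕ) (W : ℕ) (M : g → Set (V → ZMod 2)),
      IsProg rk W M → ∀ v, M v ⊆ VC G →
      (2 : ℝ) ^ (c * treewidth G) * (M v).ncard ≤ 2 * (Fintype.card g + W) ^ 3 * (VC G).ncard := by
  classical
  obtain ⟨c, hc, h⟩ := width_numeric_rob D
  refine ⟨c, hc, ?_⟩
  intro V _ G hD g _ rk W M hM v hv
  have hs1 : (1 : ℝ) ≤ Fintype.card g := by exact_mod_cast Fintype.card_pos_iff.2 ⟨v⟩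
  have hVCpos : (0 : ℝ) < (VC G).ncard := by
    exact_mod_cast (Set.ncard_pos (Set.toFinite _)).2 (VC_nonempty G)
  have hle : ((M v).ncard : ℝ) ≤ (VC G).ncard := by
    exact_mod_cast Set.ncard_le_ncard hv (Set.toFinite _)
  have h2 := h V inferInstance inferInstance G hD (Fintype.card g) W
    ((M v).ncard / (VC G).ncard) hs1 (Nat.cast_nonneg _) (by positivity)
    ((div_le_one hVCpos).2 hle) (by
      intro X a t κ hstar hκ0 hκ
      rw [div_le_iff₀ hVCpos]
      exact graph_bound G D hD X a t hstar κ hκ0 hκ hM hv)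
  rw [← mul_div_assoc, div_le_iff₀ hVCpos] at h2
  exact h2

/-- **Instances over a language that is not affine: for every bipartite graph of bounded degree
there is an instance whose size is exponential in the tree-width of the graph.** -/
theorem hard_language_width (D : ℕ) {r : ℕ} {R : Set (Fin r → ZMod 2)} (hR : ¬ IsAffine R) :
    ∃ c : ℝ, 0 < c ∧ ∀ (V : Type) (_ : Fintype V) (G : SimpleGraph V) (col : V → Bool),
      (∀ v, (G.neighborSet v).ncard ≤ D) → (∀ u v, G.Adj u v → col u ≠ col v) →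
      ∀ N : ℕ, (r * D + 1) * Fintype.card V + 2 ≤ N →
      ∃ I : List (Constraint N), I.length ≤ D * Fintype.card V ∧
        (∀ c ∈ I, c.arity = r ∧ HEq c.rel R) ∧
        ∀ (g : Type) (_ : Fintype g) (rk : g → ℕ) (W : ℕ) (M : g → Set (Fin N → ZMod 2)),
          IsProg rk W M → (∃ v, M v = Sol I) →
          (2 : ℝ) ^ (c * treewidth G) ≤ 2 * (Fintype.card g + W) := by
  classical
  obtain ⟨c, hc, h⟩ := width_numeric D
  refine ⟨c, hc, ?_⟩
  intro V _ G col hD hcol N hN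
  let E : Finset (V × V) := Finset.univ.filter fun p => G.Adj p.1 p.2 ∧ col p.1 = true
  have hEc : E.card ≤ D * Fintype.card V := by
    have h1 : E.card ≤ ∑ u : V, (E.filter fun p => p.1 = u).card := by
      exact (Finset.card_eq_sum_card_fiberwise (f := fun p : V × V => p.1)
        (t := (Finset.univ : Finset V)) (fun p _ => Finset.mem_univ p.1)).le
    refine h1.trans ?_
    have h2 : ∀ u ∈ (Finset.univ : Finset V), (E.filter fun p => p.1 = u).card ≤ D := by
      intro u _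
      refine le_trans ?_ (hD u)
      rw [← Set.ncard_coe_finset]
      refine Set.ncard_le_ncard_of_injOn (fun p => p.2) ?_ ?_ (Set.toFinite _)
      · intro p hp
        obtain ⟨hpE, rfl⟩ := Finset.mem_filter.1 (Finset.mem_coe.1 hp)
        exact (Finset.mem_filter.1 hpE).2.1
      · intro p hp p' hp' hpp
        obtain ⟨-, h1⟩ := Finset.mem_filter.1 (Finset.mem_coe.1 hp)
        obtain ⟨-, h2⟩ := Finset.mem_filter.1 (Finset.mem_coe.1 hp')
        exact Prod.ext (h1.trans h2.symm) hpp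
    calc ∑ u : V, (E.filter fun p => p.1 = u).card ≤ ∑ _u : V, D := Finset.sum_le_sum h2
      _ = D * Fintype.card V := by rw [Finset.sum_const, Finset.card_univ, smul_eq_mul]; ring
  obtain ⟨I, z0, z1, emb, τ, hlen, hrel, hI⟩ := exists_instance G E
    (fun p hp => (Finset.mem_filter.1 hp).2.1)
    (fun u v huv => by
      rcases Bool.eq_false_or_eq_true (col u) with h | h
      · left; exact Finset.mem_filter.2 ⟨Finset.mem_univ _, huv, h⟩
      · right
        refine Finset.mem_filter.2 ⟨Finset.mem_univ _, huv.symm, ?_⟩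
        have := hcol u v huv
        rw [h] at this
        rcases Bool.eq_false_or_eq_true (col v) with h' | h'
        · exact h'
        · exact absurd h'.symm this)
    col (fun p hp => by
      obtain ⟨h1, h2⟩ := (Finset.mem_filter.1 hp).2
      refine ⟨h2, ?_⟩
      have := hcol _ _ h1
      rw [h2] at this
      rcases Bool.eq_false_or_eq_true (col p.2) with h' | h'
      · exact absurd h'.symm this
      · exact h') hR N (by
      have : r * E.card ≤ r * (D * Fintype.card V) := Nat.mul_le_mul_left _ hEc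
      calc Fintype.card V + 2 + r * E.card ≤ Fintype.card V + 2 + r * (D * Fintype.card V) := by
            omega
        _ = (r * D + 1) * Fintype.card V + 2 := by ring
        _ ≤ N := hN)
  refine ⟨I, hlen ▸ hEc, hrel, ?_⟩
  intro g _ rk W M hM ⟨v, hv⟩
  have hs1 : (1 : ℝ) ≤ Fintype.card g := by exact_mod_cast Fintype.card_pos_iff.2 ⟨v⟩
  refine h V inferInstance inferInstance G hD _ _ hs1 (Nat.cast_nonneg _) ?_
  intro X a t κ hstar hκ0 hκ
  exact instance_bound G D hD X a t hstar κ hκ0 hκ hI hM hv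

end Pool.Agent.Dichotomy
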